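import Pool.Agent.Lib.MP_1db5af_an.Local

set_option autoImplicit false

namespace Pool.Agent.Lib.MP_1db5af_an

open Finset Filter Topology

theorem weyl_shift {F : ℕ → ℂ} (hF : ∀ n, ‖F n‖ ≤ 1) (a N : ℕ) :
    ‖((a : ℂ) ^ 2) * ∑ n ∈ range N, F n -
      ∑ n ∈ range N, ∑ u ∈ range a, ∑ v ∈ range a, F (n + u * v)‖ ≤
      (a : ℝ) ^ 2 * (2 * (a : ℝ) ^ 2) := by
  have h1 : ((a : ℂ) ^ 2) * ∑ n ∈ range N, F n -
      ∑ n ∈ range N, ∑ u ∈ range a, ∑ v ∈ range a, F (n + u * v) =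
      -∑ u ∈ range a, ∑ v ∈ range a,
        (∑ n ∈ range N, F (n + u * v) - ∑ n ∈ range N, F n) := by
    rw [sum_comm]
    simp only [sum_sub_distrib, sum_const, card_range, nsmul_eq_mul, neg_sub]
    congr 1
    · ring
    · exact sum_congr rfl fun u _ => sum_comm
  rw [h1, norm_neg]
  have h2 : ∀ u ∈ range a, ‖∑ v ∈ range a,
      (∑ n ∈ range N, F (n + u * v) - ∑ n ∈ range N, F n)‖ ≤ a * (2 * (a : ℝ) ^ 2) := by
    intro u hu
    refine (norm_sum_le_of_le _ (n := fun _ => 2 * (a : ℝ) ^ 2) fun v hv => ?_).trans (by simp)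
    refine (norm_sum_shift_le hF _ _).trans ?_
    have h3 : (u : ℝ) ≤ a := by exact_mod_cast (mem_range.1 hu).le
    have h4 : (v : ℝ) ≤ a := by exact_mod_cast (mem_range.1 hv).le
    have h5 : (u : ℝ) * v ≤ a * a := mul_le_mul h3 h4 (Nat.cast_nonneg _) (Nat.cast_nonneg _)
    push_cast
    nlinarith
  refine (norm_sum_le_of_le _ h2).trans (le_of_eq ?_)
  simp only [sum_const, card_range, nsmul_eq_mul]
  ring

theorem weyl_local {F : ℕ → ℂ} (hF : ∀ n, ‖F n‖ ≤ 1) {a N M : ℕ} (ha : 1 ≤ a) {δ : ℝ}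
    (hδ : 0 ≤ δ) (h : ∀ n < N, M ≤ n →
      ‖∑ u ∈ range a, ∑ v ∈ range a, F (n + u * v)‖ ≤ δ * (a : ℝ) ^ 2) :
    ‖∑ n ∈ range N, F n‖ ≤ δ * N + M + 2 * (a : ℝ) ^ 2 := by
  have ha' : (0 : ℝ) < (a : ℝ) ^ 2 := by positivity
  have h1 : ∀ n ∈ range N, ‖∑ u ∈ range a, ∑ v ∈ range a, F (n + u * v)‖ ≤
      δ * (a : ℝ) ^ 2 + if n < M then (a : ℝ) ^ 2 else 0 := by
    intro n hn
    split_ifs with h2
    · have h3 : ∀ u ∈ range a, ‖∑ v ∈ range a, F (n + u * v)‖ ≤ a := fun u _ =>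
        (norm_sum_le_of_le _ fun v _ => hF _).trans (by simp)
      refine (norm_sum_le_of_le _ h3).trans ?_
      simp only [sum_const, card_range, nsmul_eq_mul]
      nlinarith
    · simpa using h n (mem_range.1 hn) (not_lt.1 h2)
  have h2 : ∑ n ∈ range N, (if n < M then (a : ℝ) ^ 2 else 0) ≤ M * (a : ℝ) ^ 2 := by
    rw [← sum_filter, sum_const, nsmul_eq_mul]
    have h3 : ((range N).filter (· < M)).card ≤ M :=
      (card_le_card fun n hn => mem_range.2 (mem_filter.1 hn).2).trans (card_range M).le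
    exact mul_le_mul_of_nonneg_right (by exact_mod_cast h3) ha'.le
  have h3 := norm_sum_le_of_le _ h1
  rw [sum_add_distrib, sum_const, card_range, nsmul_eq_mul] at h3
  have h4 := weyl_shift hF a N
  have h5 := norm_add_le (((a : ℂ) ^ 2) * ∑ n ∈ range N, F n -
      ∑ n ∈ range N, ∑ u ∈ range a, ∑ v ∈ range a, F (n + u * v))
    (∑ n ∈ range N, ∑ u ∈ range a, ∑ v ∈ range a, F (n + u * v))
  rw [sub_add_cancel, norm_mul, norm_pow, Complex.norm_natCast] at h5
  refine le_of_mul_le_mul_left ?_ ha'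
  nlinarith

theorem weyl_real {c : ℝ} (hc0 : 0 < c) (hc : c < 1 / 2) (J : Finset ℕ) (β : ℕ → ℝ)
    (hβ : ∃ j ∈ J, β j ≠ 0) :
    Tendsto (av fun n : ℕ => ex (∑ j ∈ J, β j * G c ((n + j : ℕ) : ℝ))) atTop (𝓝 0) := by
  rw [NormedAddGroup.tendsto_nhds_zero]
  intro ε0 hε0
  obtain ⟨ε, hε, rfl⟩ : ∃ ε : ℝ, 0 < ε ∧ ε0 = 4 * ε := ⟨ε0 / 4, by positivity, by ring⟩
  obtain ⟨x0, hx0⟩ := eventually_atTop.1 (local_est hc0 hc J β hβ hε)
  have t0 : Tendsto (fun N : ℕ => (N : ℝ)) atTop atTop := tendsto_natCast_atTop_atTop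
  have t1 := (t0.const_mul_atTop hε).eventually_ge_atTop x0
  have t2 := (((tendsto_rpow_atTop (by positivity : 0 < 3 / 100 * c)).comp t0).const_mul_atTop
    (by positivity : 0 < ε ^ (31 / 100 * c))).eventually_ge_atTop 2
  have t3 := (((tendsto_rpow_atTop (by norm_num : (0 : ℝ) < 1 / 2)).comp t0).const_mul_atTop
    hε).eventually_ge_atTop 9
  filter_upwards [t1, t2, t3, eventually_ge_atTop 1] with N h1 h2 h3 h4
  simp only [Function.comp] at h2 h3
  have hN : (1 : ℝ) ≤ N := by exact_mod_cast h4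
  have hN0 : (0 : ℝ) < N := by linarith
  have hp : 1 ≤ (N : ℝ) ^ (28 / 100 * c) := Real.one_le_rpow hN (by positivity)
  set a := ⌈(N : ℝ) ^ (28 / 100 * c)⌉₊ with ha
  have a1 : (N : ℝ) ^ (28 / 100 * c) ≤ a := Nat.le_ceil _
  have a2 : (a : ℝ) ≤ 2 * (N : ℝ) ^ (28 / 100 * c) := by
    have : (a : ℝ) < _ := Nat.ceil_lt_add_one (zero_le_one.trans hp)
    linarith
  have a3 : 1 ≤ a := by exact_mod_cast hp.trans a1
  have hq : 1 ≤ (N : ℝ) ^ (1 / 2 : ℝ) := Real.one_le_rpow hN (by norm_num)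
  have a4 : (a : ℝ) ^ 2 ≤ 4 * (N : ℝ) ^ (1 / 2 : ℝ) := by
    have h5 : ((N : ℝ) ^ (28 / 100 * c)) ^ 2 ≤ (N : ℝ) ^ (1 / 2 : ℝ) := by
      rw [← Real.rpow_natCast, ← Real.rpow_mul hN0.le]
      exact Real.rpow_le_rpow_of_exponent_le hN (by push_cast; linarith)
    have h6 : (a : ℝ) ^ 2 ≤ (2 * (N : ℝ) ^ (28 / 100 * c)) ^ 2 := by gcongr
    nlinarith
  have key := weyl_local (F := fun n : ℕ => ex (∑ j ∈ J, β j * G c ((n + j : ℕ) : ℝ)))
    (fun n => (norm_ex _).le) (N := N) (M := ⌈ε * N⌉₊) a3 hε.le (fun n hn hM => by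
      have b1 : ε * N ≤ n := (Nat.le_ceil _).trans (by exact_mod_cast hM)
      have b2 : (n : ℝ) ≤ N := by exact_mod_cast hn.le
      have b3 := hx0 n (h1.trans b1) a
        ((Real.rpow_le_rpow (Nat.cast_nonneg _) b2 (by positivity)).trans a1) (by
          refine a2.trans (le_trans ?_ (Real.rpow_le_rpow (by positivity) b1 (by positivity)))
          rw [Real.mul_rpow hε.le hN0.le, show 31 / 100 * c = 3 / 100 * c + 28 / 100 * c by ring,
            Real.rpow_add hN0, ← mul_assoc, show 3 / 100 * c + 28 / 100 * c = 31 / 100 * c by ring]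
          gcongr)
      simpa only [Nat.cast_add, Nat.cast_mul] using b3)
  have c1 : (⌈ε * N⌉₊ : ℝ) < ε * N + 1 := Nat.ceil_lt_add_one (by positivity)
  have c2 : (N : ℝ) ^ (1 / 2 : ℝ) * (N : ℝ) ^ (1 / 2 : ℝ) = N := by
    rw [← Real.rpow_add hN0]; norm_num
  have c3 : 9 * (N : ℝ) ^ (1 / 2 : ℝ) ≤ ε * N := by
    calc _ ≤ ε * (N : ℝ) ^ (1 / 2 : ℝ) * (N : ℝ) ^ (1 / 2 : ℝ) := by gcongr
      _ = _ := by rw [mul_assoc, c2]
  rw [av, norm_smul, norm_inv, Real.norm_natCast, inv_mul_lt_iff₀ hN0]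
  have c4 : 0 < ε * N := by positivity
  nlinarith

theorem weyl_cont {w : ℕ → ℂ} {z : ℕ → ℝ} (hw : ∀ n, ‖w n‖ ≤ 1)
    (h : ∀ m : ℤ, Tendsto (av fun n => w n * ex (m * z n)) atTop (𝓝 0))
    (F : C(UnitAddCircle, ℂ)) : Tendsto (av fun n => w n * F (z n)) atTop (𝓝 0) := by
  have h1 : ∀ H ∈ Submodule.span ℂ (Set.range (@fourier 1)),
      Tendsto (av fun n => w n * H (z n)) atTop (𝓝 0) := by
    intro H hH
    induction hH using Submodule.span_induction with
    | mem H hH =>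
      obtain ⟨m, rfl⟩ := hH
      simpa only [fourier_coe] using h m
    | zero => simpa using tendsto_av_const (0 : ℂ)
    | add H K _ _ i1 i2 =>
      refine (by simpa using i1.add i2 : Tendsto (fun N => av (fun n => w n * H (z n)) N +
        av (fun n => w n * K (z n)) N) atTop (𝓝 0)).congr fun N => ?_
      rw [← av_add]
      simp only [ContinuousMap.add_apply, mul_add]
    | smul s H _ i1 =>
      refine (by simpa using i1.const_mul s : Tendsto (fun N => s * av (fun n => w n * H (z n)) N)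
        atTop (𝓝 0)).congr fun N => ?_
      rw [← av_mul]
      simp only [ContinuousMap.smul_apply, smul_eq_mul, mul_left_comm s]
  refine tendsto_zero_of_forall fun ε hε => ?_
  have h2 : F ∈ closure (Submodule.span ℂ (Set.range (@fourier 1)) : Set C(UnitAddCircle, ℂ)) := by
    rw [← Submodule.topologicalClosure_coe, span_fourier_closure_eq_top]
    trivial
  obtain ⟨H, hH, h3⟩ := Metric.mem_closure_iff.1 h2 ε hε
  refine ⟨_, h1 H hH, Eventually.of_forall fun N => ?_⟩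
  rw [← av_sub]
  refine norm_av_le (fun n => ?_) N
  rw [← mul_sub, norm_mul, ← dist_eq_norm]
  exact (mul_le_of_le_one_left dist_nonneg (hw n)).trans
    ((ContinuousMap.dist_apply_le_dist _).trans h3.le)

/-- The Fejér bump. -/
noncomputable def weylB (M : ℕ) (y : ℝ) : ℂ :=
  ((M : ℂ) ^ 2)⁻¹ * ∑ m ∈ range M, ∑ l ∈ range M, ex ((((m : ℤ) - l : ℤ) : ℝ) * y)

theorem weylB_eq (M : ℕ) (y : ℝ) :
    weylB M y = (((M : ℝ) ^ 2)⁻¹ * ‖∑ m ∈ range M, ex (m * y)‖ ^ 2 : ℝ) := by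
  rw [weylB, Complex.ofReal_mul, Complex.ofReal_pow, ← Complex.mul_conj', map_sum, sum_mul_sum]
  push_cast
  congr 1
  refine sum_congr rfl fun m _ => sum_congr rfl fun l _ => ?_
  rw [conj_ex, ← ex_add]
  congr 1
  ring

theorem weylB_norm (M : ℕ) (y : ℝ) : ‖weylB M y‖ = (weylB M y).re := by
  rw [weylB_eq, Complex.ofReal_re, Complex.norm_real, Real.norm_of_nonneg (by positivity)]

theorem weyl_ex_int (m : ℤ) : ex m = 1 := by
  rw [ex, ← Complex.exp_int_mul_two_pi_mul_I m]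
  congr 1
  push_cast
  ring

theorem weylB_int {M : ℕ} (hM : 0 < M) (k : ℤ) : weylB M k = 1 := by
  have h : (M : ℂ) ≠ 0 := by exact_mod_cast hM.ne'
  simp only [weylB, ← Int.cast_mul, weyl_ex_int, sum_const, card_range, nsmul_eq_mul]
  field_simp

theorem weylB_fract (M : ℕ) (y : ℝ) : weylB M (Int.fract y) = weylB M y := by
  simp only [weylB]
  congr 1
  refine sum_congr rfl fun m _ => sum_congr rfl fun l _ => ?_
  rw [← fourier_coe, ← fourier_coe, AddCircle.coe_fract]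

theorem weyl_ex_cont : Continuous ex := by
  unfold ex
  fun_prop

theorem weylB_cont (M : ℕ) : Continuous (weylB M) := by
  have := weyl_ex_cont
  unfold weylB
  fun_prop

theorem weylB_av {z : ℕ → ℝ} {M : ℕ} (hM : 0 < M)
    (h : ∀ m : ℤ, m ≠ 0 → Tendsto (av fun n => ex (m * z n)) atTop (𝓝 0)) :
    Tendsto (av fun n => ‖weylB M (z n)‖) atTop (𝓝 ((M : ℝ)⁻¹)) := by
  have h1 : ∀ m l : ℕ, Tendsto (av fun n => ex ((((m : ℤ) - l : ℤ) : ℝ) * z n)) atTop
      (𝓝 (if m = l then 1 else 0)) := by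
    intro m l
    split_ifs with h2
    · simpa [h2, ex_zero] using tendsto_av_const (1 : ℂ)
    · exact h _ (sub_ne_zero.2 (by exact_mod_cast h2))
  have h2 := (tendsto_finsetSum (range M) fun m _ =>
    tendsto_finsetSum (range M) fun l _ => h1 m l).const_mul ((M : ℂ) ^ 2)⁻¹
  have h3 : ((M : ℂ) ^ 2)⁻¹ * ∑ m ∈ range M, ∑ l ∈ range M, (if m = l then (1 : ℂ) else 0) =
      ((M : ℝ)⁻¹ : ℝ) := by
    have h : (M : ℂ) ≠ 0 := by exact_mod_cast hM.ne'
    rw [sum_congr rfl fun m hm => (sum_ite_eq _ _ _).trans (if_pos hm)]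
    simp only [sum_const, card_range, nsmul_eq_mul]
    push_cast
    field_simp
  rw [h3] at h2
  have h4 := (Complex.continuous_re.tendsto _).comp h2
  rw [Complex.ofReal_re] at h4
  refine h4.congr fun N => ?_
  simp only [Function.comp, weylB_norm]
  rw [← Complex.reCLM_apply]
  refine Eq.trans ?_ (av_map Complex.reCLM (fun n => weylB M (z n)) N).symm
  congr 1
  simp only [weylB, av_mul, av_sum]

theorem weyl_step {w : ℕ → ℂ} {z : ℕ → ℝ} (hw : ∀ n, ‖w n‖ ≤ 1)
    (h : ∀ m : ℤ, Tendsto (av fun n => w n * ex (m * z n)) atTop (𝓝 0))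
    (h0 : ∀ m : ℤ, m ≠ 0 → Tendsto (av fun n => ex (m * z n)) atTop (𝓝 0)) (t : ℝ) :
    Tendsto (av fun n => w n * ex (-t * Int.fract (z n))) atTop (𝓝 0) := by
  refine tendsto_zero_of_forall fun ε hε => ?_
  obtain ⟨M, hM⟩ := exists_nat_one_div_lt hε
  have hc : Continuous (AddCircle.liftIco 1 0 fun y : ℝ => ex (-t * y) * (1 - weylB (M + 1) y)) := by
    refine AddCircle.liftIco_zero_continuous ?_ (Continuous.continuousOn ?_)
    · have h1 := weylB_int (Nat.succ_pos M) 0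
      have h2 := weylB_int (Nat.succ_pos M) 1
      rw [Int.cast_zero] at h1
      rw [Int.cast_one] at h2
      simp only [Nat.succ_eq_add_one] at h1 h2
      simp only [h1, h2, sub_self, mul_zero]
    · have := weyl_ex_cont
      have := weylB_cont (M + 1)
      fun_prop
  refine ⟨_, weyl_cont hw h ⟨_, hc⟩, ?_⟩
  have h1 := (weylB_av (Nat.succ_pos M) h0).eventually
    (gt_mem_nhds (show ((M.succ : ℕ) : ℝ)⁻¹ < ε by simpa using hM))
  filter_upwards [h1] with N hN
  rw [← av_sub]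
  refine (norm_av_le_av _ _).trans ((av_mono fun n _ => ?_).trans hN.le)
  rw [ContinuousMap.coe_mk, ← AddCircle.coe_fract (z n), AddCircle.liftIco_zero_coe_apply
    ⟨Int.fract_nonneg _, Int.fract_lt_one _⟩, weylB_fract, ← mul_sub, mul_one_sub, sub_sub_cancel,
    norm_mul, norm_mul, norm_ex, one_mul]
  exact mul_le_of_le_one_left (norm_nonneg _) (hw n)

theorem weyl_floor {y : ℕ → ℝ} (hy : ∀ n, 0 ≤ y n)
    (h : ∀ (J : Finset ℕ) (β : ℕ → ℝ), (∃ j ∈ J, β j ≠ 0) →
      Tendsto (av fun n : ℕ => ex (∑ j ∈ J, β j * y (n + j))) atTop (𝓝 0)) :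
    Weyl fun n => ⌊y n⌋₊ := by
  rintro J θ ⟨j0, hj0, hθ⟩
  choose t ht using fun j => QuotientAddGroup.mk_surjective (θ j)
  have key : ∀ R : Finset ℕ, R ⊆ J → ∀ β : ℕ → ℝ, (β j0 : UnitAddCircle) ≠ 0 →
      Tendsto (av fun n : ℕ => ex (∑ j ∈ J, β j * y (n + j)) *
        ∏ j ∈ R, ex (-t j * Int.fract (y (n + j)))) atTop (𝓝 0) := by
    intro R
    induction R using Finset.induction_on with
    | empty =>
      intro _ β hβ
      simpa using h J β ⟨j0, hj0, fun h1 => hβ (by rw [h1]; rfl)⟩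
    | insert i R hi ih =>
      intro hR β hβ
      have hiJ : i ∈ J := hR (mem_insert_self _ _)
      have h1 := weyl_step (w := fun n => ex (∑ j ∈ J, β j * y (n + j)) *
        ∏ j ∈ R, ex (-t j * Int.fract (y (n + j)))) (z := fun n => y (n + i))
        (fun n => by simp [norm_ex]) (fun m => ?_)
        (fun m hm => by simpa using h {i} (fun _ => m) ⟨i, mem_singleton_self _, by simpa⟩) (t i)
      · simpa only [prod_insert hi, mul_assoc, mul_comm (ex (-t i * _))] using h1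
      · have h2 := ih ((subset_insert _ _).trans hR) (fun j => β j + if j = i then (m : ℝ) else 0) (by
          rw [AddCircle.coe_add]
          have h3 : ((if j0 = i then (m : ℝ) else 0 : ℝ) : UnitAddCircle) = 0 := by
            split_ifs
            · exact (AddCircle.coe_eq_zero_iff _).2 ⟨m, by simp⟩
            · rfl
          rwa [h3, add_zero])
        refine h2.congr fun N => congrArg (av · N) (funext fun n => ?_)
        simp only [add_mul, sum_add_distrib, ite_mul, zero_mul, sum_ite_eq', if_pos hiJ, ex_add]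
        ring
  refine (key J subset_rfl t (by rwa [ht])).congr fun N => congrArg (av · N) (funext fun n => ?_)
  rw [ex_sum, ← prod_mul_distrib]
  refine prod_congr rfl fun j _ => ?_
  rw [← ht, fourier_coe, ← ex_add, Int.cast_natCast, natCast_floor_eq_intCast_floor (hy _),
    Int.fract]
  congr 1
  ring

theorem weyl_G {c : ℝ} (hc0 : 0 < c) (hc : c < 1 / 2) : Weyl fun n : ℕ => ⌊G c n⌋₊ :=
  weyl_floor (fun _ => (Real.exp_pos _).le) (weyl_real hc0 hc)

theorem mono_G {c : ℝ} (hc0 : 0 < c) : Monotone fun n : ℕ => ⌊G c n⌋₊ := by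
  intro m n hmn
  refine Nat.floor_le_floor (Real.exp_le_exp.2 (Real.rpow_le_rpow (Real.log_natCast_nonneg _) ?_
    (by positivity)))
  rcases Nat.eq_zero_or_pos m with rfl | hm
  · simpa using Real.log_natCast_nonneg n
  · exact Real.log_le_log (by exact_mod_cast hm) (by exact_mod_cast hmn)

theorem gap_G {c : ℝ} (hc0 : 0 < c) : Gap fun n : ℕ => ⌊G c n⌋₊ := by
  intro L
  have t1 := ((tendsto_rpow_atTop hc0).comp
    (Real.tendsto_log_atTop.comp tendsto_natCast_atTop_atTop)).eventually_ge_atTop 2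
  filter_upwards [t1, eventually_ge_atTop 2, eventually_ge_atTop L] with n h1 h2 h3
  simp only [Function.comp] at h1
  have hn : (2 : ℝ) ≤ n := by exact_mod_cast h2
  have hL : (L : ℝ) ≤ n := by exact_mod_cast h3
  have hu : 0 < Real.log n := Real.log_pos (by linarith)
  have h4 : Real.log n + 1 / (n + 1) ≤ Real.log (n + 1) := by
    have h5 := Real.log_le_sub_one_of_pos (show (0 : ℝ) < n / (n + 1) by positivity)
    rw [Real.log_div (by positivity) (by positivity)] at h5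
    have h6 : (n : ℝ) / (n + 1) - 1 = -(1 / (n + 1)) := by field_simp; ring
    linarith
  have h5 : (0 : ℝ) < 1 / (n + 1) := by positivity
  have h6 : Real.log n ^ (c + 1) + 2 * (1 / (n + 1)) ≤ Real.log (n + 1) ^ (c + 1) := by
    rw [Real.rpow_add_one hu.ne', Real.rpow_add_one (by linarith)]
    have h7 : Real.log n ^ c ≤ Real.log (n + 1) ^ c := Real.rpow_le_rpow hu.le (by linarith) hc0.le
    calc _ ≤ Real.log n ^ c * (Real.log n + 1 / (n + 1)) := by nlinarith
      _ ≤ _ := mul_le_mul h7 h4 (by positivity) (by linarith)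
  have h7 : (n : ℝ) ^ 2 ≤ G c n := by
    rw [G, Real.rpow_add_one hu.ne', ← Real.exp_log (show (0 : ℝ) < (n : ℝ) ^ 2 by positivity),
      Real.log_pow]
    exact Real.exp_le_exp.2 (by push_cast; gcongr)
  have h8 : G c n * (1 + 2 * (1 / (n + 1))) ≤ G c ((n + 1 : ℕ) : ℝ) := by
    rw [G, G, Nat.cast_succ]
    refine le_trans ?_ (Real.exp_le_exp.2 h6)
    rw [Real.exp_add]
    gcongr
    linarith [Real.add_one_le_exp (2 * (1 / ((n : ℝ) + 1)))]
  have h9 : (n : ℝ) ≤ (n : ℝ) ^ 2 * (2 * (1 / (n + 1))) := by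
    rw [mul_one_div, ← mul_div_assoc, le_div_iff₀ (by positivity)]
    nlinarith
  refine Nat.le_floor ?_
  have h10 := Nat.floor_le (show 0 ≤ G c n from (Real.exp_pos _).le)
  have h11 : (n : ℝ) ^ 2 * (2 * (1 / (n + 1))) ≤ G c n * (2 * (1 / (n + 1))) := by gcongr
  push_cast at h8 ⊢
  nlinarith

end Pool.Agent.Lib.MP_1db5af_an
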