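import Pool.Agent.Lib.MP_1db5af_an.Defs

set_option autoImplicit false

namespace Pool.Agent.Lib.MP_1db5af_an

open MeasureTheory Filter Topology ComplexConjugate Finset

/-- `e(t)` -/
noncomputable def ex (t : ℝ) : ℂ := Complex.exp (2 * Real.pi * t * Complex.I)

theorem norm_ex (t : ℝ) : ‖ex t‖ = 1 := by
  rw [ex, show (2 * Real.pi * t * Complex.I : ℂ) = ((2 * Real.pi * t : ℝ) : ℂ) * Complex.I by
    push_cast; ring, Complex.norm_exp_ofReal_mul_I]

theorem ex_add (s t : ℝ) : ex (s + t) = ex s * ex t := by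
  rw [ex, ex, ex, ← Complex.exp_add]; congr 1; push_cast; ring

theorem ex_zero : ex 0 = 1 := by simp [ex]

theorem ex_sum {ι : Type*} (I : Finset ι) (t : ι → ℝ) : ex (∑ i ∈ I, t i) = ∏ i ∈ I, ex (t i) := by
  classical
  induction I using Finset.induction_on with
  | empty => simp [ex_zero]
  | insert i I hi ih => rw [sum_insert hi, prod_insert hi, ex_add, ih]

theorem conj_ex (t : ℝ) : conj (ex t) = ex (-t) := by
  rw [ex, ex, ← Complex.exp_conj]; congr 1; simp [Complex.conj_ofReal, map_ofNat]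

theorem fourier_coe (n : ℤ) (t : ℝ) : fourier n (t : UnitAddCircle) = ex (n * t) := by
  rw [fourier_coe_apply, ex]; congr 1; push_cast; ring

theorem norm_ex_sub_le (s t : ℝ) : ‖ex s - ex t‖ ≤ 7 * |s - t| := by
  have h1 : ex s - ex t = ex t * (Complex.exp (Complex.I * ((2 * Real.pi * (s - t) : ℝ) : ℂ)) - 1) := by
    rw [mul_sub, mul_one, ex, ex, ← Complex.exp_add]; congr 2; push_cast; ring
  rw [h1, norm_mul, norm_ex, one_mul]
  refine Real.norm_exp_I_mul_ofReal_sub_one_le.trans ?_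
  rw [Real.norm_eq_abs, abs_mul, abs_of_pos (by positivity : 0 < 2 * Real.pi)]
  gcongr
  linarith [Real.pi_lt_d2]

theorem norm_fourier (n : ℤ) (θ : UnitAddCircle) : ‖fourier n θ‖ = 1 := by
  rw [fourier_apply]; exact Circle.norm_coe _

/-- Cesàro averages. -/
noncomputable def av {E : Type*} [AddCommGroup E] [Module ℝ E] (u : ℕ → E) (N : ℕ) : E :=
  (N : ℝ)⁻¹ • ∑ n ∈ range N, u n

section Av

variable {E F : Type*} [NormedAddCommGroup E] [NormedSpace ℝ E] [NormedAddCommGroup F]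
  [NormedSpace ℝ F]

theorem av_add (u v : ℕ → E) (N : ℕ) : av (fun n => u n + v n) N = av u N + av v N := by
  simp only [av, sum_add_distrib, smul_add]

theorem av_sub (u v : ℕ → E) (N : ℕ) : av (fun n => u n - v n) N = av u N - av v N := by
  simp only [av, sum_sub_distrib, smul_sub]

theorem av_sum {ι : Type*} (I : Finset ι) (u : ι → ℕ → E) (N : ℕ) :
    av (fun n => ∑ i ∈ I, u i n) N = ∑ i ∈ I, av (u i) N := by
  simp only [av]
  rw [sum_comm, smul_sum]

theorem av_map (L : E →L[ℝ] F) (u : ℕ → E) (N : ℕ) : av (fun n => L (u n)) N = L (av u N) := by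
  simp only [av, map_smul, map_sum]

theorem av_smul {H : Type*} [NormedAddCommGroup H] [NormedSpace ℂ H] (c : ℂ) (u : ℕ → H) (N : ℕ) :
    av (fun n => c • u n) N = c • av u N := by
  simp only [av, ← smul_sum]
  exact smul_comm _ _ _

theorem av_mul (c : ℂ) (u : ℕ → ℂ) (N : ℕ) : av (fun n => c * u n) N = c * av u N :=
  av_smul c u N

theorem av_rmul (c : ℝ) (u : ℕ → ℝ) (N : ℕ) : av (fun n => c * u n) N = c * av u N := by
  simp only [av, ← mul_sum, smul_eq_mul]; ring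

theorem av_const (c : E) {N : ℕ} (hN : 0 < N) : av (fun _ => c) N = c := by
  simp only [av, sum_const, card_range]
  rw [← Nat.cast_smul_eq_nsmul ℝ, smul_smul, inv_mul_cancel₀ (by positivity), one_smul]

theorem tendsto_av_const (c : E) : Tendsto (av fun _ => c) atTop (𝓝 c) :=
  tendsto_const_nhds.congr' ((eventually_gt_atTop 0).mono fun _ hN => (av_const c hN).symm)

theorem av_mono {u v : ℕ → ℝ} {N : ℕ} (h : ∀ n < N, u n ≤ v n) : av u N ≤ av v N := by
  simp only [av, smul_eq_mul]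
  exact mul_le_mul_of_nonneg_left (sum_le_sum fun n hn => h n (mem_range.1 hn)) (by positivity)

theorem av_nonneg {u : ℕ → ℝ} (h : ∀ n, 0 ≤ u n) (N : ℕ) : 0 ≤ av u N := by
  simp only [av, smul_eq_mul]
  exact mul_nonneg (by positivity) (sum_nonneg fun n _ => h n)

theorem av_le {u : ℕ → ℝ} {C : ℝ} (hC : 0 ≤ C) {N : ℕ} (h : ∀ n < N, u n ≤ C) : av u N ≤ C := by
  rcases Nat.eq_zero_or_pos N with rfl | hN
  · simpa [av] using hC
  · exact (av_mono h).trans (av_const C hN).le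

theorem norm_av_le_av (u : ℕ → E) (N : ℕ) : ‖av u N‖ ≤ av (fun n => ‖u n‖) N := by
  simp only [av, norm_smul, norm_inv, Real.norm_natCast, smul_eq_mul]
  gcongr
  exact norm_sum_le _ _

theorem norm_av_le {u : ℕ → E} {C : ℝ} (h : ∀ n, ‖u n‖ ≤ C) (N : ℕ) : ‖av u N‖ ≤ C :=
  (norm_av_le_av u N).trans (av_le ((norm_nonneg _).trans (h 0)) fun n _ => h n)

theorem sq_av_le (u : ℕ → ℝ) (N : ℕ) : av u N ^ 2 ≤ av (fun n => u n ^ 2) N := by
  rcases Nat.eq_zero_or_pos N with rfl | hN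
  · simp [av]
  have h := sq_sum_le_card_mul_sum_sq (s := range N) (f := u)
  rw [card_range] at h
  have hN' : (0 : ℝ) < N := by exact_mod_cast hN
  simp only [av, smul_eq_mul, mul_pow]
  calc _ ≤ (N : ℝ)⁻¹ ^ 2 * (N * ∑ n ∈ range N, u n ^ 2) := by gcongr
    _ = _ := by field_simp

omit [NormedSpace ℝ E] in
theorem norm_sum_shift_le {u : ℕ → E} {C : ℝ} (h : ∀ n, ‖u n‖ ≤ C) (L N : ℕ) :
    ‖∑ n ∈ range N, u (n + L) - ∑ n ∈ range N, u n‖ ≤ 2 * L * C := by
  have h1 : ∑ n ∈ range N, u (n + L) - ∑ n ∈ range N, u n =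
      ∑ n ∈ range L, u (N + n) - ∑ n ∈ range L, u n := by
    have h2 := sum_range_add u L N
    have h3 := sum_range_add u N L
    rw [add_comm L N, h3] at h2
    simp only [add_comm L] at h2
    rw [sub_eq_sub_iff_add_eq_add, add_comm, ← h2, add_comm]
  rw [h1]
  refine (norm_sub_le _ _).trans ?_
  have h2 : ∀ v : ℕ → E, (∀ n, ‖v n‖ ≤ C) → ‖∑ n ∈ range L, v n‖ ≤ L * C := fun v hv =>
    (norm_sum_le_of_le _ fun n _ => hv n).trans (by simp)
  linarith [h2 (fun n => u (N + n)) fun n => h _, h2 u h]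

theorem av_shift {u : ℕ → E} {C : ℝ} (h : ∀ n, ‖u n‖ ≤ C) (L : ℕ) :
    Tendsto (fun N => av (fun n => u (n + L)) N - av u N) atTop (𝓝 0) := by
  refine squeeze_zero_norm (a := fun N : ℕ => (N : ℝ)⁻¹ * (2 * L * C)) (fun N => ?_) ?_
  · simp only [av, ← smul_sub, norm_smul, norm_inv, Real.norm_natCast]
    gcongr
    exact norm_sum_shift_le h L N
  · simpa using (tendsto_inv_atTop_nhds_zero_nat (𝕜 := ℝ)).mul_const (2 * L * C)

theorem tendsto_av_shift {u : ℕ → E} {C : ℝ} (h : ∀ n, ‖u n‖ ≤ C) (L : ℕ) {z : E} :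
    Tendsto (av fun n => u (n + L)) atTop (𝓝 z) ↔ Tendsto (av u) atTop (𝓝 z) := by
  constructor
  · intro h1
    simpa using h1.sub (av_shift h L)
  · intro h1
    simpa using (av_shift h L).add h1

/-- Cesàro averages of a null sequence. -/
theorem tendsto_av_of_tendsto {u : ℕ → E} {z : E} (h : Tendsto u atTop (𝓝 z)) :
    Tendsto (av u) atTop (𝓝 z) := h.cesaro_smul

omit [NormedSpace ℝ E] in
theorem tendsto_zero_of_forall {u : ℕ → E}
    (h : ∀ ε : ℝ, 0 < ε → ∃ v : ℕ → E, Tendsto v atTop (𝓝 0) ∧ ∀ᶠ N in atTop, ‖u N - v N‖ ≤ ε) :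
    Tendsto u atTop (𝓝 0) := by
  rw [NormedAddGroup.tendsto_nhds_zero]
  intro ε hε
  obtain ⟨v, hv, h1⟩ := h (ε / 3) (by positivity)
  filter_upwards [h1, NormedAddGroup.tendsto_nhds_zero.1 hv (ε / 3) (by positivity)] with N h2 h3
  have := norm_add_le (u N - v N) (v N)
  rw [sub_add_cancel] at this
  linarith

end Av

/-- Joint equidistribution of the shifts of `a` for irrational and rational rotations. -/
def Weyl (a : ℕ → ℕ) : Prop :=
  ∀ (J : Finset ℕ) (θ : ℕ → UnitAddCircle), (∃ j ∈ J, θ j ≠ 0) →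
    Tendsto (av fun n => ∏ j ∈ J, fourier (a (n + j)) (θ j)) atTop (𝓝 0)

/-- The gaps of `a` tend to infinity. -/
def Gap (a : ℕ → ℕ) : Prop := ∀ L : ℕ, ∀ᶠ n in atTop, a n + L ≤ a (n + 1)

/-- The conclusion of the problem for a sequence `a`. -/
def Conv {X : Type*} [MeasurableSpace X] (μ : Measure X) (T S : X → X) (a : ℕ → ℕ)
    (f g : X → ℂ) : Prop :=
  Tendsto (fun N : ℕ => eLpNorm (fun x =>
    (N : ℂ)⁻¹ * ∑ n ∈ Icc 1 N, f (T^[n] x) * g (S^[a n] x) -
      (μ[f | MeasurableSpace.invariants T]) x * (μ[g | MeasurableSpace.invariants S]) x) 2 μ)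
    atTop (𝓝 0)

end Pool.Agent.Lib.MP_1db5af_an
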