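import Mathlib

set_option autoImplicit false

namespace Pool.Agent.Lib.MP_1db5af_an

open Finset

/-- The number of pairs in `I` with equal value. -/
def En {ι : Type*} {k : ℕ} (I : Finset ι) (v : ι → Fin k → ℤ) : ℕ :=
  ((I ×ˢ I).filter fun p => v p.1 = v p.2).card

/-- The vector of the first `k` power sums. -/
def ps {κ : Type*} [Fintype κ] (k : ℕ) (x : κ → ℕ) : Fin k → ℤ :=
  fun j => ∑ i, (x i : ℤ) ^ (j.1 + 1)

/-- Vinogradov mean value. -/
def J (s k P : ℕ) : ℕ := En (Fintype.piFinset fun _ : Fin s => range P) (ps k)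

variable {ι ι' τ : Type*} {k : ℕ}

section EnAux

open MeasureTheory UnitAddTorus

/-- Haar probability measure on the torus. -/
noncomputable def enMu (k : ℕ) : Measure (UnitAddTorus (Fin k)) :=
  Measure.pi fun _ => AddCircle.haarAddCircle

instance enMu_prob (k : ℕ) : IsProbabilityMeasure (enMu k) := by
  unfold enMu; infer_instance

theorem en_int_one (n : ℤ) :
    ∫ x : UnitAddCircle, fourier n x ∂AddCircle.haarAddCircle = if n = 0 then 1 else 0 := by
  split_ifs with h
  · subst h
    simp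
  · exact integral_eq_zero_of_add_right_eq_neg (μ := AddCircle.haarAddCircle)
      (fourier_add_half_inv_index h one_pos)

theorem en_int_mF (n : Fin k → ℤ) :
    ∫ a, mFourier n a ∂enMu k = if n = 0 then 1 else 0 := by
  have h1 : ∫ a, mFourier n a ∂enMu k =
      ∏ i, ∫ x : UnitAddCircle, fourier (n i) x ∂AddCircle.haarAddCircle := by
    unfold enMu
    exact integral_fintype_prod_eq_prod (fun i (x : UnitAddCircle) => fourier (n i) x)
  rw [h1]
  simp only [en_int_one]
  split_ifs with h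
  · subst h
    simp
  · obtain ⟨i, hi⟩ := Function.ne_iff.mp h
    exact Finset.prod_eq_zero (Finset.mem_univ i) (if_neg hi)

/-- The exponential sum. -/
noncomputable def enS (I : Finset ι) (v : ι → Fin k → ℤ) (a : UnitAddTorus (Fin k)) : ℂ :=
  ∑ i ∈ I, mFourier (v i) a

theorem enS_cont (I : Finset ι) (v : ι → Fin k → ℤ) : Continuous (enS I v) :=
  continuous_finsetSum _ fun i _ => (mFourier (v i)).continuous

theorem en_integrable {E : Type*} [NormedAddCommGroup E] {f : UnitAddTorus (Fin k) → E}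
    (hf : Continuous f) : Integrable f (enMu k) :=
  hf.integrable_of_hasCompactSupport (HasCompactSupport.of_compactSpace f)

theorem enS_cont2 (I : Finset ι) (v : ι → Fin k → ℤ) : Continuous fun a => ‖enS I v a‖ ^ 2 :=
  (enS_cont I v).norm.pow 2

theorem en_off (I : Finset ι) (v : ι → Fin k → ℤ) (w : Fin k → ℤ) :
    (((I ×ˢ I).filter fun p => v p.1 - v p.2 = w).card : ℂ) =
      ∫ a, enS I v a * (starRingEnd ℂ) (enS I v a) * mFourier (-w) a ∂enMu k := by
  have h1 : ∀ a, enS I v a * (starRingEnd ℂ) (enS I v a) * mFourier (-w) a =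
      ∑ p ∈ I ×ˢ I, mFourier (v p.1 - v p.2 - w) a := by
    intro a
    unfold enS
    rw [map_sum, Finset.sum_mul_sum, Finset.sum_product, Finset.sum_mul]
    refine Finset.sum_congr rfl fun i _ => ?_
    rw [Finset.sum_mul]
    refine Finset.sum_congr rfl fun j _ => ?_
    rw [← mFourier_neg, ← mFourier_add, ← mFourier_add]
    simp only [sub_eq_add_neg]
  simp only [h1]
  rw [integral_finsetSum _ fun p _ => en_integrable (mFourier _).continuous]
  simp only [en_int_mF, sub_eq_zero (a := v _ - v _)]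
  rw [Finset.card_filter]
  push_cast
  rfl

theorem en_norm_mF (n : Fin k → ℤ) (a : UnitAddTorus (Fin k)) : ‖mFourier n a‖ = 1 := by
  have h : mFourier n a = ∏ i, fourier (n i) (a i) := rfl
  rw [h, norm_prod]
  refine Finset.prod_eq_one fun i _ => ?_
  rw [fourier_apply]
  exact Circle.norm_coe _

theorem en_eq_int (I : Finset ι) (v : ι → Fin k → ℤ) :
    (En I v : ℝ) = ∫ a, ‖enS I v a‖ ^ 2 ∂enMu k := by
  have h := en_off I v 0
  simp only [sub_eq_zero, neg_zero, mFourier_zero, ContinuousMap.one_apply, mul_one,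
    Complex.mul_conj, Complex.normSq_eq_norm_sq] at h
  rw [integral_complex_ofReal] at h
  unfold En
  exact_mod_cast h

theorem en_mono {I I' : Finset ι} (v : ι → Fin k → ℤ) (h : I ⊆ I') : En I v ≤ En I' v :=
  Finset.card_le_card (Finset.filter_subset_filter _ (Finset.product_subset_product h h))

theorem enS_fiber (I : Finset ι) (v : ι → Fin k → ℤ) (T : Finset τ) [DecidableEq τ] (cl : ι → τ)
    (h : ∀ i ∈ I, cl i ∈ T) (a : UnitAddTorus (Fin k)) :
    enS I v a = ∑ t ∈ T, enS (I.filter fun i => cl i = t) v a :=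
  (Finset.sum_fiberwise_of_maps_to h _).symm

theorem enS_prod {κ : Type*} [Fintype κ] [DecidableEq κ] (D : Finset ι) (d : ι → Fin k → ℤ)
    (A : Finset ℕ) (a : UnitAddTorus (Fin k)) :
    enS (D ×ˢ Fintype.piFinset fun _ : κ => A) (fun q => d q.1 + ps k q.2) a =
      enS D d a * enS A (fun x j => (x : ℤ) ^ (j.1 + 1)) a ^ Fintype.card κ := by
  have h1 : ∀ (s : Finset κ) (x : κ → ℕ),
      mFourier (fun j : Fin k => ∑ i ∈ s, (x i : ℤ) ^ (j.1 + 1)) a =
        ∏ i ∈ s, mFourier (fun j : Fin k => (x i : ℤ) ^ (j.1 + 1)) a := by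
    intro s x
    induction s using Finset.induction_on with
    | empty =>
      simp only [Finset.sum_empty, Finset.prod_empty]
      exact congrFun (congrArg DFunLike.coe (mFourier_zero (d := Fin k))) a
    | insert i s hi ih =>
      rw [Finset.prod_insert hi, ← ih, ← mFourier_add]
      simp only [Finset.sum_insert hi]
      rfl
  unfold enS
  rw [Finset.sum_product, Finset.sum_mul]
  refine Finset.sum_congr rfl fun i _ => ?_
  simp only [mFourier_add]
  rw [← Finset.mul_sum, ← Finset.card_univ, ← Finset.prod_const, Finset.prod_univ_sum]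
  refine congrArg _ (Finset.sum_congr rfl fun x _ => ?_)
  exact h1 Finset.univ x

end EnAux

theorem En_le_of_injOn {I : Finset ι} {I' : Finset ι'} {v : ι → Fin k → ℤ} {v' : ι' → Fin k → ℤ}
    (φ : ι → ι') (hφ : Set.InjOn φ I) (hm : ∀ i ∈ I, φ i ∈ I')
    (hv : ∀ i ∈ I, ∀ i' ∈ I, v i = v i' → v' (φ i) = v' (φ i')) : En I v ≤ En I' v' := by
  unfold En
  refine Finset.card_le_card_of_injOn (fun p => (φ p.1, φ p.2)) ?_ ?_
  · intro p hp
    simp only [Finset.coe_filter, Finset.mem_product, Set.mem_ofPred_eq] at hp ⊢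
    exact ⟨⟨hm _ hp.1.1, hm _ hp.1.2⟩, hv _ hp.1.1 _ hp.1.2 hp.2⟩
  · intro p hp q hq hpq
    simp only [Finset.coe_filter, Finset.mem_product, Set.mem_ofPred_eq] at hp hq
    simp only [Prod.mk.injEq] at hpq
    exact Prod.ext (hφ hp.1.1 hq.1.1 hpq.1) (hφ hp.1.2 hq.1.2 hpq.2)

theorem En_cover {I : Finset ι} (v : ι → Fin k → ℤ) (T : Finset τ) (Q : τ → Finset ι)
    (h : ∀ i ∈ I, ∃ t ∈ T, i ∈ Q t) : En I v ≤ T.card * ∑ t ∈ T, En (Q t) v := by
  classical
  rcases I.eq_empty_or_nonempty with rfl | ⟨i0, hi0⟩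
  · simp [En]
  obtain ⟨t0, -, -⟩ := h i0 hi0
  have : Nonempty τ := ⟨t0⟩
  choose! cl hcl hQ using h
  have h1 : (En I v : ℝ) ≤ T.card * ∑ t ∈ T, (En (I.filter fun i => cl i = t) v : ℝ) := by
    simp only [en_eq_int]
    rw [← MeasureTheory.integral_finsetSum _
      fun t _ => en_integrable (enS_cont2 _ v), ← MeasureTheory.integral_const_mul]
    refine MeasureTheory.integral_mono (en_integrable (enS_cont2 _ v))
      (en_integrable (continuous_const.mul
        (continuous_finsetSum _ fun t _ => enS_cont2 _ v))) fun a => ?_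
    simp only
    rw [enS_fiber I v T cl hcl a]
    exact (pow_le_pow_left₀ (norm_nonneg _) (norm_sum_le _ _) 2).trans sq_sum_le_card_mul_sum_sq
  have h2 : En I v ≤ T.card * ∑ t ∈ T, En (I.filter fun i => cl i = t) v := by exact_mod_cast h1
  refine h2.trans (Nat.mul_le_mul_left _ (Finset.sum_le_sum fun t _ => en_mono v fun i hi => ?_))
  rw [Finset.mem_filter] at hi
  exact hi.2 ▸ hQ i hi.1

theorem card_offset_le (I : Finset ι) (v : ι → Fin k → ℤ) (w : Fin k → ℤ) :
    ((I ×ˢ I).filter fun p => v p.1 - v p.2 = w).card ≤ En I v := by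
  have h1 : ((((I ×ˢ I).filter fun p => v p.1 - v p.2 = w).card : ℕ) : ℝ) ≤ En I v := by
    rw [en_eq_int, ← Complex.norm_natCast, en_off]
    refine (MeasureTheory.norm_integral_le_integral_norm _).trans (le_of_eq ?_)
    refine MeasureTheory.integral_congr_ae (Filter.Eventually.of_forall fun a => ?_)
    simp only [norm_mul, en_norm_mF, Complex.norm_conj, mul_one, sq]
  exact_mod_cast h1

theorem En_holder {κ : Type*} [Fintype κ] [DecidableEq κ] [Nonempty κ] (D : Finset ι)
    (d : ι → Fin k → ℤ) {A : Finset ℕ} (T : Finset τ) (Q : τ → Finset ℕ)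
    (h : ∀ x ∈ A, ∃ t ∈ T, x ∈ Q t) {M : ℕ}
    (hM : ∀ t ∈ T, En (D ×ˢ Fintype.piFinset fun _ : κ => Q t) (fun q => d q.1 + ps k q.2) ≤ M) :
    En (D ×ˢ Fintype.piFinset fun _ : κ => A) (fun q => d q.1 + ps k q.2) ≤
      T.card ^ (2 * Fintype.card κ) * M := by
  classical
  obtain ⟨m, hm⟩ : ∃ m, 2 * Fintype.card κ = m + 1 :=
    ⟨2 * Fintype.card κ - 1, by have := Fintype.card_pos (α := κ); omega⟩
  rcases A.eq_empty_or_nonempty with rfl | ⟨x0, hx0⟩
  · have : (Fintype.piFinset fun _ : κ => (∅ : Finset ℕ)) = ∅ := by simp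
    simp [this, En]
  obtain ⟨t0, -, -⟩ := h x0 hx0
  have : Nonempty τ := ⟨t0⟩
  choose! cl hcl hQ using h
  have h1 : (En (D ×ˢ Fintype.piFinset fun _ : κ => A) (fun q => d q.1 + ps k q.2) : ℝ) ≤
      (T.card : ℝ) ^ m * ∑ t ∈ T, (En (D ×ˢ Fintype.piFinset fun _ : κ => A.filter fun i => cl i = t)
        (fun q => d q.1 + ps k q.2) : ℝ) := by
    simp only [en_eq_int]
    rw [← MeasureTheory.integral_finsetSum _
      fun t _ => en_integrable (enS_cont2 _ _), ← MeasureTheory.integral_const_mul]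
    refine MeasureTheory.integral_mono (en_integrable (enS_cont2 _ _))
      (en_integrable (continuous_const.mul
        (continuous_finsetSum _ fun t _ => enS_cont2 _ _))) fun a => ?_
    simp only [enS_prod, norm_mul, norm_pow, mul_pow, ← pow_mul, mul_comm (Fintype.card κ) 2, hm]
    rw [← Finset.mul_sum, mul_left_comm]
    refine mul_le_mul_of_nonneg_left ?_ (by positivity)
    rw [enS_fiber A _ T cl hcl a]
    exact (pow_le_pow_left₀ (norm_nonneg _) (norm_sum_le _ _) _).trans
      (pow_sum_le_card_mul_sum_pow (fun _ _ => norm_nonneg _) m)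
  have h2 : En (D ×ˢ Fintype.piFinset fun _ : κ => A) (fun q => d q.1 + ps k q.2) ≤
      T.card ^ m * ∑ t ∈ T, En (D ×ˢ Fintype.piFinset fun _ : κ => A.filter fun i => cl i = t)
        (fun q => d q.1 + ps k q.2) := by exact_mod_cast h1
  refine h2.trans ?_
  rw [hm, pow_succ, mul_assoc]
  refine Nat.mul_le_mul_left _ ?_
  rw [← smul_eq_mul]
  refine Finset.sum_le_card_nsmul _ _ _ fun t ht => le_trans (en_mono _ ?_) (hM t ht)
  refine Finset.product_subset_product (Finset.Subset.refl _)
    (Fintype.piFinset_subset _ _ fun _ i hi => ?_)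
  rw [Finset.mem_filter] at hi
  exact hi.2 ▸ hQ i hi.1

theorem ps_shift {κ : Type*} [Fintype κ] {x y : κ → ℕ} (h : ps k x = ps k y) (ξ : ℤ) (j : Fin k) :
    ∑ i, ((x i : ℤ) - ξ) ^ (j.1 + 1) = ∑ i, ((y i : ℤ) - ξ) ^ (j.1 + 1) := by
  have h1 : ∀ r, r ≤ k → ∑ i, (x i : ℤ) ^ r = ∑ i, (y i : ℤ) ^ r := by
    intro r hr
    rcases r with _ | r
    · simp
    · exact congrFun h ⟨r, hr⟩
  simp only [sub_eq_add_neg, add_pow]
  rw [Finset.sum_comm, Finset.sum_comm (s := Finset.univ)]
  refine Finset.sum_congr rfl fun r hr => ?_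
  have hr' : r ≤ k := by
    have := Finset.mem_range.1 hr
    have := j.2
    omega
  rw [← Finset.sum_mul, ← Finset.sum_mul, ← Finset.sum_mul, ← Finset.sum_mul, h1 r hr']

theorem En_pi_le_J {κ : Type*} [Fintype κ] [DecidableEq κ] (k P : ℕ) :
    En (Fintype.piFinset fun _ : κ => range P) (ps k) ≤ J (Fintype.card κ) k P := by
  unfold J
  have hps : ∀ x : κ → ℕ, ps k (x ∘ (Fintype.equivFin κ).symm) = ps k x := by
    intro x
    funext j
    exact Equiv.sum_comp (Fintype.equivFin κ).symm fun i => (x i : ℤ) ^ (j.1 + 1)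
  refine En_le_of_injOn (fun x => x ∘ (Fintype.equivFin κ).symm) ?_ ?_ ?_
  · intro x _ y _ hxy
    exact (Fintype.equivFin κ).symm.surjective.injective_comp_right hxy
  · intro x hx
    rw [Fintype.mem_piFinset] at hx ⊢
    exact fun i => hx _
  · intro x _ y _ hxy
    rw [hps, hps, hxy]

theorem J_add_le (r m k P : ℕ) : J (r + m) k P ≤ P ^ (2 * r) * J m k P := by
  classical
  set X := Fintype.piFinset fun _ : Fin r => range P with hX
  set Y := Fintype.piFinset fun _ : Fin m => range P with hY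
  have hps : ∀ x : Fin (r + m) → ℕ,
      ps k x = ps k (fun i => x (Fin.castAdd m i)) + ps k (fun i => x (Fin.natAdd r i)) := by
    intro x
    funext j
    exact Fin.sum_univ_add fun i => (x i : ℤ) ^ (j.1 + 1)
  have hXc : (X ×ˢ X).card = P ^ (2 * r) := by
    rw [Finset.card_product, hX, Fintype.card_piFinset, two_mul, pow_add]
    simp
  unfold J En
  rw [← hXc]
  rw [mul_comm]
  refine Finset.card_le_mul_card_image_of_maps_to
    (f := fun p : (Fin (r + m) → ℕ) × (Fin (r + m) → ℕ) =>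
      ((fun i => p.1 (Fin.castAdd m i), fun i => p.2 (Fin.castAdd m i)) :
        (Fin r → ℕ) × (Fin r → ℕ))) ?_ _ ?_
  · intro p hp
    simp only [Finset.mem_filter, Finset.mem_product, Fintype.mem_piFinset, hX] at hp ⊢
    exact ⟨fun i => hp.1.1 _, fun i => hp.1.2 _⟩
  · intro b _
    refine le_trans ?_ (card_offset_le Y (ps k) (ps k b.2 - ps k b.1))
    refine Finset.card_le_card_of_injOn
      (fun p => ((fun i => p.1 (Fin.natAdd r i), fun i => p.2 (Fin.natAdd r i)) :
        (Fin m → ℕ) × (Fin m → ℕ))) ?_ ?_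
    · intro p hp
      simp only [Finset.coe_filter, Finset.mem_filter, Finset.mem_product, Fintype.mem_piFinset,
        Set.mem_ofPred_eq, hY] at hp ⊢
      obtain ⟨⟨⟨h1, h2⟩, h3⟩, rfl⟩ := hp
      refine ⟨⟨fun i => h1 _, fun i => h2 _⟩, ?_⟩
      rw [hps p.1, hps p.2] at h3
      rw [sub_eq_sub_iff_add_eq_add, add_comm, h3]
    · intro p hp q hq hpq
      simp only [Finset.coe_filter, Set.mem_ofPred_eq] at hp hq
      have hb := hp.2.trans hq.2.symm
      simp only [Prod.mk.injEq] at hpq hb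
      refine Prod.ext (funext fun i => ?_) (funext fun i => ?_)
      · refine Fin.addCases (fun i => ?_) (fun i => ?_) i
        · exact congrFun hb.1 i
        · exact congrFun hpq.1 i
      · refine Fin.addCases (fun i => ?_) (fun i => ?_) i
        · exact congrFun hb.2 i
        · exact congrFun hpq.2 i

theorem J_le (s k P : ℕ) : J s k P ≤ P ^ (2 * s) := by
  unfold J En
  refine (Finset.card_filter_le _ _).trans (le_of_eq ?_)
  rw [Finset.card_product, Fintype.card_piFinset, two_mul, pow_add]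
  simp

end Pool.Agent.Lib.MP_1db5af_an
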