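import Pool.Agent.Lib.MP_1db5af_an.Basic
import Pool.Agent.Lib.MP_1db5af_an.Energy

set_option autoImplicit false

namespace Pool.Agent.Lib.MP_1db5af_an

open Finset

/-- The one dimensional double sum. -/
noncomputable def BB (α : ℝ) (A : ℕ) : ℝ :=
  ∑ μ ∈ Icc (-(A : ℤ)) A, ‖∑ l ∈ Icc (-(A : ℤ)) A, ex (α * l * μ)‖

theorem bilin_card (A : ℕ) : ((Icc (-(A : ℤ)) A).card : ℝ) = 2 * A + 1 := by
  rw [Int.card_Icc, show (A : ℤ) + 1 - -(A : ℤ) = ((2 * A + 1 : ℕ) : ℤ) by push_cast; ring,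
    Int.toNat_natCast]
  push_cast
  ring

theorem bilin_triv (α : ℝ) {A : ℕ} (hA : 1 ≤ A) (μ : ℤ) :
    ‖∑ l ∈ Icc (-(A : ℤ)) A, ex (α * l * μ)‖ ≤ 3 * A := by
  refine (norm_sum_le _ _).trans ?_
  have h : (1 : ℝ) ≤ A := by exact_mod_cast hA
  simp only [norm_ex, sum_const, nsmul_eq_mul, mul_one, bilin_card]
  linarith

theorem BB_le (α : ℝ) {A : ℕ} (hA : 1 ≤ A) : BB α A ≤ (3 * A) ^ 2 := by
  have h : (1 : ℝ) ≤ A := by exact_mod_cast hA
  refine (sum_le_sum fun μ _ => bilin_triv α hA μ).trans ?_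
  rw [sum_const, nsmul_eq_mul, bilin_card]
  nlinarith

theorem bilin_ex_sub_one {t : ℝ} (h : |t| ≤ 1 / 2) : 4 * |t| ≤ ‖ex t - 1‖ := by
  have h1 : ex t = Complex.exp (Complex.I * ((2 * Real.pi * t : ℝ) : ℂ)) := by
    rw [ex]; congr 1; push_cast; ring
  have hpi := Real.pi_pos
  have h2 : |Real.pi * t| ≤ Real.pi / 2 := by
    rw [abs_mul, abs_of_pos hpi]
    nlinarith
  have h3 := Real.mul_abs_le_abs_sin h2
  rw [h1, Complex.norm_exp_I_mul_ofReal_sub_one, show 2 * Real.pi * t / 2 = Real.pi * t by ring,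
    Real.norm_eq_abs, abs_mul, abs_two]
  rw [abs_mul, abs_of_pos hpi, ← mul_assoc, div_mul_cancel₀ _ hpi.ne'] at h3
  linarith

theorem bilin_geom {t : ℝ} (h : |t| ≤ 1 / 2) (A : ℕ) :
    |t| * ‖∑ l ∈ Icc (-(A : ℤ)) A, ex (t * l)‖ ≤ 1 / 2 := by
  have h1 : (ex t - 1) * ∑ l ∈ Icc (-(A : ℤ)) A, ex (t * l) =
      ex (t * (-A + (2 * A + 1 : ℕ))) - ex (t * (-A + (0 : ℕ))) := by
    rw [← sum_range_sub (fun n : ℕ => ex (t * (-A + n))), Int.Icc_eq_finset_map,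
      show (A : ℤ) + 1 - -(A : ℤ) = ((2 * A + 1 : ℕ) : ℤ) by push_cast; ring, Int.toNat_natCast,
      sum_map, mul_sum]
    refine sum_congr rfl fun n _ => ?_
    rw [sub_mul, one_mul, ← ex_add]
    simp only [Function.Embedding.trans_apply, Nat.castEmbedding_apply, addLeftEmbedding_apply]
    push_cast
    congr 2
    ring
  have h2 := congrArg norm h1
  rw [norm_mul] at h2
  have h3 := norm_sub_le (ex (t * (-A + (2 * A + 1 : ℕ)))) (ex (t * (-A + (0 : ℕ))))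
  rw [norm_ex, norm_ex, ← h2] at h3
  have h4 := mul_le_mul_of_nonneg_right (bilin_ex_sub_one h)
    (norm_nonneg (∑ l ∈ Icc (-(A : ℤ)) A, ex (t * l)))
  linarith

theorem BB_le' {α : ℝ} {A : ℕ} (hA : 1 ≤ A) (h0 : α ≠ 0) (h : |α| * A ≤ 1 / 2) :
    BB α A ≤ 12 * A / √|α| := by
  have hA' : (1 : ℝ) ≤ A := by exact_mod_cast hA
  have hα : 0 < |α| := abs_pos.2 h0
  set r := √|α| with hr
  have hr0 : 0 < r := Real.sqrt_pos.2 hα
  have hrr : r * r = |α| := Real.mul_self_sqrt hα.le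
  have hr1 : r ≤ 1 := by nlinarith
  set M := ⌊r⁻¹⌋₊ with hM
  have hM1 : (M : ℝ) ≤ r⁻¹ := Nat.floor_le (by positivity)
  have hM2 : r⁻¹ < M + 1 := Nat.lt_floor_add_one _
  have hi : 1 ≤ r⁻¹ := (one_le_inv₀ hr0).2 hr1
  have key : ∀ μ ∈ Icc (-(A : ℤ)) A, ‖∑ l ∈ Icc (-(A : ℤ)) A, ex (α * l * μ)‖ ≤
      (if μ ∈ Icc (-(M : ℤ)) M then 3 * (A : ℝ) else 0) + r⁻¹ := by
    intro μ hμ
    split_ifs with hm
    · exact (bilin_triv α hA μ).trans (le_add_of_nonneg_right (by positivity))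
    · have h1 : |(μ : ℝ)| ≤ A := by
        have := abs_le.2 (mem_Icc.1 hμ)
        exact_mod_cast this
      have h2 : (M : ℝ) + 1 ≤ |(μ : ℝ)| := by
        have : (M : ℤ) + 1 ≤ |μ| := by
          by_contra hc
          exact hm (mem_Icc.2 (abs_le.1 (by omega)))
        exact_mod_cast this
      have h3 : |α * μ| ≤ 1 / 2 := by
        rw [abs_mul]
        exact (mul_le_mul_of_nonneg_left h1 hα.le).trans h
      have h4 := bilin_geom h3 A
      have h5 : r ≤ |α * μ| := by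
        rw [abs_mul, ← hrr, mul_assoc]
        refine le_mul_of_one_le_right hr0.le ?_
        calc (1 : ℝ) = r * r⁻¹ := (mul_inv_cancel₀ hr0.ne').symm
          _ ≤ r * |(μ : ℝ)| := mul_le_mul_of_nonneg_left (by linarith) hr0.le
      simp only [mul_right_comm α _ (μ : ℝ)]
      rw [zero_add, inv_eq_one_div, le_div_iff₀ hr0, mul_comm]
      have h6 := mul_le_mul_of_nonneg_right h5
        (norm_nonneg (∑ l ∈ Icc (-(A : ℤ)) A, ex (α * μ * l)))
      linarith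
  refine (sum_le_sum key).trans ?_
  rw [sum_add_distrib, sum_ite_mem, sum_const, sum_const, nsmul_eq_mul, nsmul_eq_mul, bilin_card]
  have h7 : ((Icc (-(A : ℤ)) A ∩ Icc (-(M : ℤ)) M).card : ℝ) ≤ 2 * M + 1 := by
    rw [← bilin_card]
    exact_mod_cast card_le_card inter_subset_right
  have h8 := mul_le_mul_of_nonneg_right (h7.trans (show 2 * (M : ℝ) + 1 ≤ 3 * r⁻¹ by linarith))
    (show (0 : ℝ) ≤ 3 * A by positivity)
  rw [div_eq_mul_inv]
  nlinarith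

/-- An even power of a Weyl sum as a sum over pairs of tuples. -/
theorem bilin_pow (s k a : ℕ) (b : Fin k → ℝ) :
    ((‖∑ v ∈ range a, ex (∑ j, b j * (v : ℝ) ^ (j.1 + 1))‖ ^ (2 * s) : ℝ) : ℂ) =
      ∑ p ∈ (Fintype.piFinset fun _ : Fin s => range a) ×ˢ
          (Fintype.piFinset fun _ : Fin s => range a),
        ex (∑ j, b j * ((ps k p.1 - ps k p.2) j : ℝ)) := by
  have h1 : (∑ v ∈ range a, ex (∑ j, b j * (v : ℝ) ^ (j.1 + 1))) ^ s =
      ∑ x ∈ Fintype.piFinset fun _ : Fin s => range a, ex (∑ j, b j * (ps k x j : ℝ)) := by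
    rw [sum_pow']
    refine sum_congr rfl fun x _ => ?_
    rw [← ex_sum, sum_comm]
    congr 1
    refine sum_congr rfl fun j _ => ?_
    rw [← mul_sum, ps]
    push_cast
    rfl
  rw [mul_comm 2 s, pow_mul, ← norm_pow, h1]
  push_cast
  rw [← Complex.mul_conj', map_sum, sum_mul_sum, sum_product]
  refine sum_congr rfl fun x _ => sum_congr rfl fun y _ => ?_
  rw [conj_ex, ← ex_add, ← sub_eq_add_neg, ← sum_sub_distrib]
  congr 1
  refine sum_congr rfl fun j _ => ?_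
  simp only [Pi.sub_apply, Int.cast_sub]
  ring

theorem bilin_ps {s k a : ℕ} {x : Fin s → ℕ} (hx : x ∈ Fintype.piFinset fun _ : Fin s => range a)
    (j : Fin k) : 0 ≤ ps k x j ∧ ps k x j ≤ ((s * a ^ (j.1 + 1) : ℕ) : ℤ) := by
  refine ⟨sum_nonneg fun i _ => by positivity, ?_⟩
  have h : ∀ i ∈ (univ : Finset (Fin s)), (x i : ℤ) ^ (j.1 + 1) ≤ (a : ℤ) ^ (j.1 + 1) := by
    intro i _
    have := (mem_range.1 (Fintype.mem_piFinset.1 hx i)).le
    gcongr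
  refine (sum_le_sum h).trans (le_of_eq ?_)
  simp

theorem bilin_box (s k a : ℕ) (F : (Fin k → ℤ) → ℝ) (hF : ∀ l, 0 ≤ F l) :
    ∑ p ∈ (Fintype.piFinset fun _ : Fin s => range a) ×ˢ
        (Fintype.piFinset fun _ : Fin s => range a), F (ps k p.1 - ps k p.2) ≤
      J s k a * ∑ l ∈ Fintype.piFinset fun j : Fin k =>
        Icc (-((s * a ^ (j.1 + 1) : ℕ) : ℤ)) (s * a ^ (j.1 + 1) : ℕ), F l := by
  rw [← sum_fiberwise_of_maps_to (g := fun p => ps k p.1 - ps k p.2)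
    (t := Fintype.piFinset fun j : Fin k =>
      Icc (-((s * a ^ (j.1 + 1) : ℕ) : ℤ)) (s * a ^ (j.1 + 1) : ℕ)), mul_sum]
  · refine sum_le_sum fun l _ => ?_
    rw [sum_congr rfl fun p hp => congrArg F (mem_filter.1 hp).2, sum_const, nsmul_eq_mul]
    refine mul_le_mul_of_nonneg_right ?_ (hF l)
    exact_mod_cast card_offset_le _ (ps k) l
  · intro p hp
    refine Fintype.mem_piFinset.2 fun j => ?_
    have h1 := bilin_ps (mem_product.1 hp).1 j
    have h2 := bilin_ps (mem_product.1 hp).2 j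
    rw [Pi.sub_apply, mem_Icc]
    constructor <;> linarith [h1.1, h1.2, h2.1, h2.2]

theorem bilin_holder {ι : Type*} (I : Finset ι) (f : ι → ℝ) (hf : ∀ i, 0 ≤ f i) {s : ℕ}
    (hs : 1 ≤ s) : (∑ i ∈ I, f i) ^ (2 * s) ≤ (I.card : ℝ) ^ (2 * s - 1) * ∑ i ∈ I, f i ^ (2 * s) := by
  have h := pow_sum_le_card_mul_sum_pow (s := I) (f := f) (fun i _ => hf i) (2 * s - 1)
  rwa [show 2 * s - 1 + 1 = 2 * s by omega] at h

theorem bilin {s : ℕ} (hs : 1 ≤ s) (k a : ℕ) (α : Fin k → ℝ) :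
    ‖∑ u ∈ range a, ∑ v ∈ range a, ex (∑ j, α j * ((u : ℝ) * v) ^ (j.1 + 1))‖ ^ (4 * s ^ 2) ≤
      (a : ℝ) ^ (8 * s ^ 2 - 4 * s) * (J s k a : ℝ) ^ 2 * ∏ j, BB (α j) (s * a ^ (j.1 + 1)) := by
  set X := Fintype.piFinset fun _ : Fin s => range a with hX
  set box := Fintype.piFinset fun j : Fin k =>
    Icc (-((s * a ^ (j.1 + 1) : ℕ) : ℤ)) (s * a ^ (j.1 + 1) : ℕ) with hbox
  set g : (Fin k → ℤ) → ℝ := fun l =>
    ‖∑ u ∈ range a, ex (∑ j, α j * (l j : ℝ) * (u : ℝ) ^ (j.1 + 1))‖ with hg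
  have h1 : ∑ u ∈ range a, ‖∑ v ∈ range a, ex (∑ j, α j * ((u : ℝ) * v) ^ (j.1 + 1))‖ ^ (2 * s) ≤
      ∑ p ∈ X ×ˢ X, g (ps k p.1 - ps k p.2) := by
    refine (le_abs_self _).trans ?_
    rw [← Real.norm_eq_abs, ← Complex.norm_real, Complex.ofReal_sum]
    simp only [mul_pow, ← mul_assoc]
    rw [sum_congr rfl fun (u : ℕ) _ => bilin_pow s k a fun j => α j * (u : ℝ) ^ (j.1 + 1),
      sum_comm]
    refine (norm_sum_le _ _).trans (le_of_eq (sum_congr rfl fun p _ => ?_))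
    simp only [hg, mul_right_comm]
  have h2 : ∑ l ∈ box, g l ^ (2 * s) ≤ J s k a * ∏ j, BB (α j) (s * a ^ (j.1 + 1)) := by
    refine (le_abs_self _).trans ?_
    rw [← Real.norm_eq_abs, ← Complex.norm_real, Complex.ofReal_sum,
      sum_congr rfl fun l _ => bilin_pow s k a fun j => α j * (l j : ℝ), sum_comm]
    refine (norm_sum_le _ _).trans ((bilin_box s k a (fun m =>
      ‖∑ l ∈ box, ex (∑ j, α j * (l j : ℝ) * (m j : ℝ))‖) fun _ => norm_nonneg _).trans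
        (le_of_eq ?_))
    congr 1
    simp only [BB]
    rw [prod_univ_sum]
    refine sum_congr rfl fun m _ => ?_
    rw [← norm_prod, prod_univ_sum]
    simp only [ex_sum]
    rfl
  have hJ : (0 : ℝ) ≤ J s k a := Nat.cast_nonneg _
  have h3 := bilin_box s k a (fun l => g l ^ (2 * s)) fun _ => by positivity
  have h4 := bilin_holder (X ×ˢ X) (fun p => g (ps k p.1 - ps k p.2)) (fun _ => norm_nonneg _) hs
  have hc : ((X ×ˢ X).card : ℝ) = (a : ℝ) ^ (2 * s) := by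
    simp [hX, two_mul, pow_add]
  have h5 := bilin_holder (range a)
    (fun u => ‖∑ v ∈ range a, ex (∑ j, α j * ((u : ℝ) * v) ^ (j.1 + 1))‖) (fun _ => norm_nonneg _) hs
  rw [card_range] at h5
  rw [hc] at h4
  have h6 : ‖∑ u ∈ range a, ∑ v ∈ range a, ex (∑ j, α j * ((u : ℝ) * v) ^ (j.1 + 1))‖ ^ (2 * s) ≤
      (a : ℝ) ^ (2 * s - 1) * ∑ p ∈ X ×ˢ X, g (ps k p.1 - ps k p.2) :=
    (pow_le_pow_left₀ (norm_nonneg _) (norm_sum_le _ _) _).trans
      (h5.trans (mul_le_mul_of_nonneg_left h1 (by positivity)))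
  have he : 8 * s ^ 2 - 4 * s = (2 * s - 1) * (2 * s) + 2 * s * (2 * s - 1) := by
    obtain ⟨t, rfl⟩ := Nat.exists_eq_add_of_le' hs
    rw [show 2 * (t + 1) - 1 = 2 * t + 1 by omega]
    exact Nat.sub_eq_of_eq_add (by ring)
  calc _ = (‖∑ u ∈ range a, ∑ v ∈ range a, ex (∑ j, α j * ((u : ℝ) * v) ^ (j.1 + 1))‖ ^ (2 * s)) ^
        (2 * s) := by rw [← pow_mul]; congr 1; ring
    _ ≤ ((a : ℝ) ^ (2 * s - 1) * ∑ p ∈ X ×ˢ X, g (ps k p.1 - ps k p.2)) ^ (2 * s) :=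
        pow_le_pow_left₀ (by positivity) h6 _
    _ ≤ ((a : ℝ) ^ (2 * s - 1)) ^ (2 * s) * (((a : ℝ) ^ (2 * s)) ^ (2 * s - 1) *
        (J s k a * (J s k a * ∏ j, BB (α j) (s * a ^ (j.1 + 1))))) := by
        rw [mul_pow]
        exact mul_le_mul_of_nonneg_left (h4.trans (mul_le_mul_of_nonneg_left
          (h3.trans (mul_le_mul_of_nonneg_left h2 hJ)) (by positivity))) (by positivity)
    _ = _ := by
        rw [he, pow_add, pow_mul (a : ℝ) (2 * s - 1), pow_mul (a : ℝ) (2 * s) (2 * s - 1)]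
        ring

end Pool.Agent.Lib.MP_1db5af_an
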