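import Pool.Agent.Lib.MP_1db5af_an.MeanErg

set_option autoImplicit false

namespace Pool.Agent.Lib.MP_1db5af_an

open MeasureTheory Filter Topology ComplexConjugate Finset InnerProductSpace

variable {X : Type*} [MeasurableSpace X] {μ : Measure X} [IsProbabilityMeasure μ] {T S : X → X}

theorem names (hT : Measurable T) (hZ : ZeroEnt μ T) {k : ℕ} {ζ : X → Fin k} (hζ : Measurable ζ)
    {δ : ℝ} (hδ : 0 < δ) :
    ∀ᶠ K : ℕ in atTop, ∃ W : Finset (Fin K → Fin k), (W.card : ℝ) ≤ Real.exp (δ * K) ∧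
      μ.real {x | (fun j : Fin K => ζ (T^[j] x)) ∉ W} ≤ δ := by
  classical
  filter_upwards [(hZ k ζ hζ).eventually (gt_mem_nhds (mul_pos hδ hδ)), eventually_gt_atTop 0]
    with K hK hK0
  have hK1 : (0 : ℝ) < K := by exact_mod_cast hK0
  set nm : X → Fin K → Fin k := fun x j => ζ (T^[j] x) with hnm
  have hm : Measurable nm := measurable_pi_lambda _ fun j => hζ.comp (hT.iterate j)
  have hp : ∀ w : Fin K → Fin k, {x | ∀ j : Fin K, ζ (T^[j] x) = w j} = nm ⁻¹' {w} := fun w => by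
    ext x
    simp only [Set.mem_ofPred_eq, Set.mem_preimage, Set.mem_singleton_iff, hnm, funext_iff]
  simp only [hp] at hK
  have hs : ∀ A : Finset (Fin K → Fin k), ∑ w ∈ A, μ.real (nm ⁻¹' {w}) = μ.real (nm ⁻¹' A) :=
    fun A => sum_measureReal_preimage_singleton A fun w _ => hm (measurableSet_singleton w)
  refine ⟨univ.filter fun w => Real.exp (-(δ * K)) ≤ μ.real (nm ⁻¹' {w}), ?_, ?_⟩
  · have h1 := card_nsmul_le_sum (univ.filter fun w => Real.exp (-(δ * K)) ≤ μ.real (nm ⁻¹' {w}))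
      (fun w => μ.real (nm ⁻¹' {w})) (Real.exp (-(δ * K))) fun w hw => (mem_filter.1 hw).2
    rw [hs, nsmul_eq_mul] at h1
    have h2 := mul_le_mul_of_nonneg_right (h1.trans measureReal_le_one) (Real.exp_pos (δ * K)).le
    rwa [mul_assoc, ← Real.exp_add, neg_add_cancel, Real.exp_zero, mul_one, one_mul] at h2
  · set A := univ.filter fun w => ¬Real.exp (-(δ * K)) ≤ μ.real (nm ⁻¹' {w}) with hA
    have h1 : {x | nm x ∉ univ.filter fun w => Real.exp (-(δ * K)) ≤ μ.real (nm ⁻¹' {w})} =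
        nm ⁻¹' A := by
      ext x
      simp [hA]
    rw [h1, ← hs]
    have h2 : ∑ w ∈ A, δ * K * μ.real (nm ⁻¹' {w}) ≤
        ∑ w, Real.negMulLog (μ.real (nm ⁻¹' {w})) := by
      refine (sum_le_sum fun w hw => ?_).trans (sum_le_sum_of_subset_of_nonneg (subset_univ A)
        fun w _ _ => Real.negMulLog_nonneg measureReal_nonneg measureReal_le_one)
      have h3 := not_le.1 (mem_filter.1 hw).2
      rcases (measureReal_nonneg (μ := μ) (s := nm ⁻¹' {w})).eq_or_lt with h4 | h4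
      · rw [← h4]; simp
      · have h5 := (Real.log_lt_iff_lt_exp h4).2 h3
        rw [Real.negMulLog]
        nlinarith
    rw [← mul_sum] at h2
    rw [div_lt_iff₀ hK1] at hK
    refine le_of_mul_le_mul_left ?_ (mul_pos hδ hK1)
    nlinarith

theorem block_exp {t : ℝ} (ht : |t| ≤ 1) : Real.exp t ≤ 1 + t + t ^ 2 := by
  have h := (abs_le.1 (Real.abs_exp_sub_one_sub_id_le ht)).2
  linarith

theorem block_mgf {k' : ℕ} {ξ : X → Fin k'} (hξ : Measurable ξ) {ψ : Fin k' → ℂ}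
    (hψ : ∫ x, ψ (ξ x) ∂μ = 0) {la B : ℝ} (hla : 0 ≤ la) (hB : la * B ≤ 1) {c : ℂ}
    (hc : ∀ i, ‖c * ψ i‖ ≤ B) :
    ∫ x, Real.exp (la * (c * ψ (ξ x)).re) ∂μ ≤ Real.exp ((la * B) ^ 2) := by
  have hi : ∀ {E : Type} [NormedAddCommGroup E] (g : Fin k' → E), Integrable (fun x => g (ξ x)) μ :=
    fun g => (integrable_map_measure (AEStronglyMeasurable.of_discrete) hξ.aemeasurable).1
      Integrable.of_finite
  have ht : ∀ i, |la * (c * ψ i).re| ≤ la * B := fun i => by
    rw [abs_mul, abs_of_nonneg hla]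
    exact mul_le_mul_of_nonneg_left ((Complex.abs_re_le_norm _).trans (hc i)) hla
  have h1 : ∫ x, la * (c * ψ (ξ x)).re ∂μ = 0 := by
    rw [integral_const_mul]
    have h2 := integral_re (𝕜 := ℂ) (hi fun i => c * ψ i)
    rw [integral_const_mul, hψ] at h2
    simp only [RCLike.re_to_complex, mul_zero, Complex.zero_re] at h2
    rw [h2, mul_zero]
  calc ∫ x, Real.exp (la * (c * ψ (ξ x)).re) ∂μ
      ≤ ∫ x, (1 + (la * B) ^ 2) + la * (c * ψ (ξ x)).re ∂μ := by
        refine integral_mono (hi fun i => Real.exp (la * (c * ψ i).re))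
          (hi fun i => (1 + (la * B) ^ 2) + la * (c * ψ i).re) fun x => ?_
        have h2 := block_exp ((ht (ξ x)).trans hB)
        have h3 := sq_le_sq' (abs_le.1 (ht (ξ x))).1 (abs_le.1 (ht (ξ x))).2
        change Real.exp _ ≤ _ + _
        linarith
    _ = 1 + (la * B) ^ 2 := by
        rw [integral_add (integrable_const _) (hi fun i => la * (c * ψ i).re), h1]
        simp
    _ ≤ _ := by linarith [Real.add_one_le_exp ((la * B) ^ 2)]

theorem block_chernoff {a : ℕ → ℕ} {k' : ℕ} {ξ : X → Fin k'} (hξ : Measurable ξ) {ψ : Fin k' → ℂ}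
    (hψ : ∫ x, ψ (ξ x) ∂μ = 0)
    (H : ∀ (J : Finset ℕ) (ψ' : ℕ → Fin k' → ℂ), Indep μ S a J fun j x => ψ' j (ξ x))
    {la B : ℝ} (hla : 0 ≤ la) (hB : la * B ≤ 1) (K : ℕ) {c : ℕ → ℂ}
    (hc : ∀ j i, ‖c j * ψ i‖ ≤ B) :
    ∀ᶠ N in atTop, av (fun n => ∫ x,
      Real.exp (la * (∑ j ∈ range K, c j * ψ (ξ (S^[a (n + j)] x))).re) ∂μ) N ≤
        2 * Real.exp (K * (la * B) ^ 2) := by
  have h1 := (Complex.continuous_re.tendsto _).comp
    (H (range K) fun j i => (Real.exp (la * (c j * ψ i).re) : ℂ))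
  simp only [integral_complex_ofReal, ← Complex.ofReal_prod, Complex.ofReal_re] at h1
  have h2 : ∏ j ∈ range K, ∫ x, Real.exp (la * (c j * ψ (ξ x)).re) ∂μ <
      2 * Real.exp (K * (la * B) ^ 2) := by
    refine lt_of_le_of_lt (prod_le_prod (fun j _ => integral_nonneg fun x => (Real.exp_pos _).le)
      fun j _ => block_mgf hξ hψ hla hB (hc j)) ?_
    rw [prod_const, card_range, ← Real.exp_nat_mul]
    linarith [Real.exp_pos (K * (la * B) ^ 2)]
  filter_upwards [h1.eventually (gt_mem_nhds h2)] with N hN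
  refine le_trans (le_of_eq ?_) hN.le
  change _ = Complex.reCLM (av _ N)
  rw [← av_map]
  congr 1
  ext n
  simp only [← Complex.ofReal_prod, integral_complex_ofReal, Complex.reCLM_apply,
    Complex.ofReal_re, ← Real.exp_sum, Complex.re_sum, mul_sum]

theorem block_sq {t B ε la : ℝ} (ht : |t| ≤ B) (hla : 0 ≤ la) :
    t ^ 2 ≤ ε ^ 2 + B ^ 2 * (Real.exp (la * (t - ε)) + Real.exp (la * (-t - ε))) := by
  have h1 := Real.exp_pos (la * (t - ε))
  have h2 := Real.exp_pos (la * (-t - ε))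
  have h3 : t ^ 2 ≤ B ^ 2 := sq_le_sq' (abs_le.1 ht).1 (abs_le.1 ht).2
  by_cases h4 : |t| ≤ ε
  · have h5 : t ^ 2 ≤ ε ^ 2 := sq_le_sq' (abs_le.1 h4).1 (abs_le.1 h4).2
    nlinarith [sq_nonneg B]
  · have h5 : 1 ≤ Real.exp (la * (t - ε)) + Real.exp (la * (-t - ε)) := by
      rcases lt_abs.1 (not_le.1 h4) with h6 | h6
      · linarith [Real.one_le_exp (mul_nonneg hla (sub_nonneg.2 h6.le))]
      · linarith [Real.one_le_exp (mul_nonneg hla (sub_nonneg.2 h6.le))]
    nlinarith [sq_nonneg B, sq_nonneg ε]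

/-- the four directions -/
def blockOm : Fin 4 → ℂ := ![1, -1, Complex.I, -Complex.I]

theorem blockOm_norm (i : Fin 4) : ‖blockOm i‖ = 1 := by
  fin_cases i <;> simp [blockOm]

theorem block_norm_sq {z : ℂ} {B ε la : ℝ} (hz : ‖z‖ ≤ B) (hla : 0 ≤ la) :
    ‖z‖ ^ 2 ≤ 2 * ε ^ 2 + B ^ 2 * ∑ i, Real.exp (la * ((blockOm i * z).re - ε)) := by
  have h1 := block_sq ((Complex.abs_re_le_norm z).trans hz) (ε := ε) hla
  have h2 := block_sq ((Complex.abs_im_le_norm z).trans hz) (ε := ε) hla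
  rw [Complex.sq_norm, Complex.normSq_apply, Fin.sum_univ_four]
  simp only [blockOm, Matrix.cons_val_zero, Matrix.cons_val_one, Matrix.cons_val, one_mul,
    neg_mul, Complex.neg_re, Complex.I_mul_re, neg_neg]
  nlinarith

/-- the coefficients read off a name -/
noncomputable def blockC {k K : ℕ} (φ : Fin k → ℂ) (p : (Fin K → Fin k) × Fin 4) (j : ℕ) : ℂ :=
  if h : j < K then blockOm p.2 * φ (p.1 ⟨j, h⟩) else 0

omit [MeasurableSpace X] in
theorem block_pt {k K : ℕ} (hK : 0 < K) (ζ : X → Fin k) (φ : Fin k → ℂ) (y : ℕ → ℂ) (x : X)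
    (W : Finset (Fin K → Fin k)) {B ε la : ℝ} (hB : ∀ i j, ‖φ i * y j‖ ≤ B)
    (hla : 0 ≤ la) :
    ‖av (fun j => φ (ζ (T^[j] x)) * y j) K‖ ^ 2 ≤
      B ^ 2 * {x | (fun j : Fin K => ζ (T^[j] x)) ∉ W}.indicator 1 x + 2 * ε ^ 2 +
        B ^ 2 * Real.exp (-(la * K * ε)) * ∑ p ∈ W ×ˢ (univ : Finset (Fin 4)),
          Real.exp (la * (∑ j ∈ range K, blockC φ p j * y j).re) := by
  have hK1 : (0 : ℝ) < K := by exact_mod_cast hK
  have h1 : ‖av (fun j => φ (ζ (T^[j] x)) * y j) K‖ ≤ B := norm_av_le (fun j => hB _ _) K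
  have h0 : 0 ≤ B ^ 2 * Real.exp (-(la * K * ε)) * ∑ p ∈ W ×ˢ (univ : Finset (Fin 4)),
      Real.exp (la * (∑ j ∈ range K, blockC φ p j * y j).re) := by positivity
  by_cases hx : (fun j : Fin K => ζ (T^[j] x)) ∈ W
  · rw [Set.indicator_of_notMem (not_not.2 hx), mul_zero, zero_add]
    refine (block_norm_sq (ε := ε) h1 (mul_nonneg hla hK1.le)).trans (add_le_add le_rfl ?_)
    rw [mul_assoc, sum_product]
    refine mul_le_mul_of_nonneg_left ?_ (sq_nonneg _)
    refine le_trans (le_of_eq ?_) (mul_le_mul_of_nonneg_left (single_le_sum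
      (f := fun w => ∑ i, Real.exp (la * (∑ j ∈ range K, blockC φ (w, i) j * y j).re))
      (fun w _ => by positivity) hx) (Real.exp_pos _).le)
    rw [mul_sum]
    refine sum_congr rfl fun i _ => ?_
    have h2 : ∑ j ∈ range K, blockC φ (fun j : Fin K => ζ (T^[j] x), i) j * y j =
        blockOm i * ∑ j ∈ range K, φ (ζ (T^[j] x)) * y j := by
      rw [mul_sum]
      refine sum_congr rfl fun j hj => ?_
      rw [blockC, dif_pos (mem_range.1 hj), mul_assoc]
    rw [← Real.exp_add, h2, av, mul_smul_comm, Complex.smul_re, smul_eq_mul]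
    congr 1
    field_simp
    ring
  · rw [Set.indicator_of_mem (by exact hx), Pi.one_apply, mul_one]
    have h2 := pow_le_pow_left₀ (norm_nonneg _) h1 2
    nlinarith [sq_nonneg ε]

theorem block_shift {E : Type*} [NormedAddCommGroup E] [NormedSpace ℝ E] {u : ℕ → E} {C : ℝ}
    (h : ∀ n, ‖u n‖ ≤ C) {K : ℕ} (hK : 0 < K) :
    Tendsto (fun N => av u N - av (fun n => av (fun j => u (n + j)) K) N) atTop (𝓝 0) := by
  have h1 := (tendsto_finsetSum (range K) fun j _ => av_shift h j).const_smul (-(K : ℝ)⁻¹)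
  simp only [sum_const_zero, smul_zero] at h1
  refine h1.congr fun N => ?_
  have h2 : av (fun n => av (fun j => u (n + j)) K) N =
      (K : ℝ)⁻¹ • ∑ j ∈ range K, av (fun n => u (n + j)) N := by
    rw [← av_sum]
    simp only [av, ← smul_sum]
    exact smul_comm _ _ _
  have h3 := av_const (av u N) hK
  rw [av] at h3
  rw [h2, sum_sub_distrib, neg_smul, smul_sub, h3, neg_sub]

theorem block (hT : MeasurePreserving T μ μ) (hS : MeasurePreserving S μ μ) (hZ : ZeroEnt μ T)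
    {a : ℕ → ℕ} {k k' : ℕ} {ζ : X → Fin k} (hζ : Measurable ζ) (φ : Fin k → ℂ) {ξ : X → Fin k'}
    (hξ : Measurable ξ) (ψ : Fin k' → ℂ) (hψ : ∫ x, ψ (ξ x) ∂μ = 0)
    (H : ∀ (J : Finset ℕ) (ψ' : ℕ → Fin k' → ℂ), Indep μ S a J fun j x => ψ' j (ξ x)) :
    Null μ T S a (fun x => φ (ζ x)) fun x => ψ (ξ x) := by
  classical
  obtain ⟨B, hB1, hB⟩ : ∃ B : ℝ, 1 ≤ B ∧ ∀ i i', ‖φ i * ψ i'‖ ≤ B := by
    obtain ⟨B, hB⟩ := (Set.finite_range fun p : Fin k × Fin k' => ‖φ p.1 * ψ p.2‖).bddAbove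
    exact ⟨max 1 B, le_max_left _ _, fun i i' => (hB ⟨(i, i'), rfl⟩).trans (le_max_right _ _)⟩
  have hB0 : 0 < B := by linarith
  have hmψ : ∀ n, Measurable fun x => ψ (ξ (S^[n] x)) := fun n =>
    (measurable_of_countable ψ).comp (hξ.comp (hS.measurable.iterate n))
  have hbd : ∀ n, Bd μ B fun x => φ (ζ (T^[n] x)) * ψ (ξ (S^[a n] x)) := fun n =>
    ⟨(((measurable_of_countable φ).comp (hζ.comp (hT.measurable.iterate n))).mul
      (hmψ _)).aestronglyMeasurable, Eventually.of_forall fun x => hB _ _⟩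
  refine tendsto_zero_of_forall fun ε0 hε0 => ?_
  obtain ⟨ε, hε, hε1, hε2⟩ : ∃ ε : ℝ, 0 < ε ∧ ε ≤ 1 ∧ 2 * ε ≤ ε0 :=
    ⟨min 1 (ε0 / 2), by positivity, min_le_left _ _, by linarith [min_le_right 1 (ε0 / 2)]⟩
  set δ : ℝ := ε ^ 2 / (8 * B ^ 2) with hδ
  set la : ℝ := ε / (2 * B ^ 2) with hla
  have hδ0 : 0 < δ := by positivity
  have hla0 : 0 ≤ la := by positivity
  have hlaB : la * B ≤ 1 := by
    rw [hla, div_mul_eq_mul_div, div_le_one (by positivity)]
    nlinarith
  have hexp : Tendsto (fun K : ℕ => 8 * B ^ 2 * Real.exp (-(δ * K))) atTop (𝓝 0) := by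
    have h1 := (Real.tendsto_exp_neg_atTop_nhds_zero.comp
      (tendsto_natCast_atTop_atTop.const_mul_atTop hδ0)).const_mul (8 * B ^ 2)
    rwa [mul_zero] at h1
  obtain ⟨K, ⟨W, hW1, hW2⟩, hK, hK0⟩ := ((names hT.measurable hZ hζ hδ0).and
    ((hexp.eventually (gt_mem_nhds (pow_pos hε 2))).and (eventually_gt_atTop 0))).exists
  refine ⟨_, block_shift (fun n => (hbd n).norm_L2) hK0, ?_⟩
  have hc : ∀ p : (Fin K → Fin k) × Fin 4, ∀ j i, ‖blockC φ p j * ψ i‖ ≤ B := fun p j i => by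
    rw [blockC]
    split_ifs with h
    · rw [mul_assoc, norm_mul, blockOm_norm, one_mul]
      exact hB _ _
    · simpa using hB0.le
  filter_upwards [(eventually_all_finset (W ×ˢ (univ : Finset (Fin 4)))).2 fun p _ =>
    block_chernoff hξ hψ H hla0 hlaB K (hc p), eventually_gt_atTop 0] with N hN hN0
  rw [sub_sub_cancel]
  refine (norm_av_le_av _ N).trans (le_trans ?_ hε2)
  refine le_of_sq_le_sq ((sq_av_le _ N).trans ?_) (by positivity)
  have hA : MeasurableSet {x | (fun j : Fin K => ζ (T^[j] x)) ∉ W} :=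
    (measurable_pi_lambda _ fun j : Fin K => hζ.comp (hT.measurable.iterate j))
      (MeasurableSet.of_discrete (s := {w | w ∉ W}))
  have hie : ∀ n p, Integrable (fun x => Real.exp (la *
      (∑ j ∈ range K, blockC φ p j * ψ (ξ (S^[a (n + j)] x))).re)) μ := fun n p => by
    refine Integrable.of_bound (Measurable.aestronglyMeasurable ?_) (Real.exp (la * (K * B)))
      (Eventually.of_forall fun x => ?_)
    · exact ((Complex.measurable_re.comp (Finset.measurable_sum _ fun j _ =>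
        (hmψ _).const_mul _)).const_mul la).exp
    · rw [Real.norm_eq_abs, Real.abs_exp]
      refine Real.exp_le_exp.2 (mul_le_mul_of_nonneg_left ((Complex.re_le_norm _).trans
        ((norm_sum_le_of_le _ fun j _ => hc p j _).trans ?_)) hla0)
      simp
  have hn : ∀ n, ‖av (fun j => L2 μ fun x => φ (ζ (T^[n + j] x)) * ψ (ξ (S^[a (n + j)] x))) K‖ ^ 2 ≤
      (B ^ 2 * δ + 2 * ε ^ 2) + B ^ 2 * Real.exp (-(la * K * ε)) *
        ∑ p ∈ W ×ˢ (univ : Finset (Fin 4)), ∫ x, Real.exp (la *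
          (∑ j ∈ range K, blockC φ p j * ψ (ξ (S^[a (n + j)] x))).re) ∂μ := fun n => by
    have hZn := (Bd.av hB0.le (fun j => hbd (n + j)) K).memLp
    have hA' := (hT.iterate n).measurable hA
    have hi1 : Integrable (fun x => B ^ 2 * (T^[n] ⁻¹' {x | (fun j : Fin K => ζ (T^[j] x)) ∉ W}).indicator
        (1 : X → ℝ) x) μ := ((integrable_const (1 : ℝ)).indicator hA').const_mul _
    have hi2 := (integrable_finsetSum (W ×ˢ (univ : Finset (Fin 4))) fun p _ =>
      hie n p).const_mul (B ^ 2 * Real.exp (-(la * K * ε)))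
    rw [← L2_av fun j => (hbd (n + j)).memLp, norm_L2_sq hZn]
    refine (integral_mono (hZn.norm.integrable_sq) ((hi1.add (integrable_const (2 * ε ^ 2))).add hi2)
      fun x => ?_).trans ?_
    · have h1 := block_pt (T := T) hK0 ζ φ (fun j => ψ (ξ (S^[a (n + j)] x))) (T^[n] x) W
        (ε := ε) (fun i j => hB _ _) hla0
      simp only [← Function.iterate_add_apply, add_comm _ n] at h1
      exact h1
    · simp only [Pi.add_apply]
      rw [integral_add (by exact hi1.add (integrable_const (2 * ε ^ 2))) hi2, integral_add hi1 (integrable_const _),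
        integral_const_mul, integral_const_mul, integral_const_mul, integral_indicator_one hA',
        integral_finsetSum _ fun p _ => hie n p, (hT.iterate n).measureReal_preimage
          hA.nullMeasurableSet]
      simp only [integral_const, probReal_univ, one_smul]
      gcongr
  refine (av_mono fun n _ => hn n).trans ?_
  rw [av_add, av_const _ hN0, av_rmul, av_sum]
  have h1 := sum_le_card_nsmul _ _ _ hN
  rw [card_product, card_univ, Fintype.card_fin, nsmul_eq_mul, Nat.cast_mul] at h1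
  have h2 : Real.exp (-(la * K * ε)) * (Real.exp (δ * K) * Real.exp (K * (la * B) ^ 2)) =
      Real.exp (-(δ * K)) := by
    rw [← Real.exp_add, ← Real.exp_add, hδ, hla]
    congr 1
    field_simp
    ring
  have h3 : B ^ 2 * δ = ε ^ 2 / 8 := by
    rw [hδ]
    field_simp
  have h4 : B ^ 2 * Real.exp (-(la * K * ε)) * ((W.card : ℝ) * ((4 : ℕ) : ℝ) *
      (2 * Real.exp (K * (la * B) ^ 2))) ≤ 8 * B ^ 2 * Real.exp (-(δ * K)) := by
    rw [← h2]
    calc _ ≤ B ^ 2 * Real.exp (-(la * K * ε)) * (Real.exp (δ * K) * ((4 : ℕ) : ℝ) *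
          (2 * Real.exp (K * (la * B) ^ 2))) := by gcongr
      _ = _ := by push_cast; ring
  have h5 := mul_le_mul_of_nonneg_left h1
    (by positivity : 0 ≤ B ^ 2 * Real.exp (-(la * K * ε)))
  nlinarith [sq_nonneg ε]

end Pool.Agent.Lib.MP_1db5af_an
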