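import Mathlib

set_option autoImplicit false

namespace Pool.Agent.Lib.MP_1db5af_an

open Finset Metric

theorem coefA_dcc {f : ℂ → ℂ} {U : Set ℂ} {x : ℂ} {ρ : ℝ}
    (hf : DifferentiableOn ℂ f U) (hs : closedBall x ρ ⊆ U) : DiffContOnCl ℂ f (ball x ρ) :=
  DifferentiableOn.diffContOnCl (hf.mono (closure_ball_subset_closedBall.trans hs))

theorem cauchy_est {f : ℂ → ℂ} {x : ℂ} {R ρ M : ℝ} (hρ : 0 < ρ) (hR : ρ < R)
    (hf : DifferentiableOn ℂ f (ball x R)) (hM : ∀ z ∈ ball x R, ‖f z‖ ≤ M) (r : ℕ) :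
    ‖iteratedDeriv r f x‖ ≤ r.factorial * M / ρ ^ r :=
  Complex.norm_iteratedDeriv_le_of_forall_mem_sphere_norm_le r hρ
    (coefA_dcc hf (closedBall_subset_ball hR))
    (fun z hz => hM z (closedBall_subset_ball hR (sphere_subset_closedBall hz)))

theorem taylor_rem {f : ℂ → ℂ} {x : ℂ} {R ρ M : ℝ} (hρ : 0 < ρ) (hR : ρ < R)
    (hf : DifferentiableOn ℂ f (ball x R)) (hM : ∀ z ∈ ball x R, ‖f z‖ ≤ M) {h : ℂ}
    (hh : ‖h‖ ≤ ρ / 2) (k : ℕ) :
    ‖f (x + h) - ∑ r ∈ range (k + 1), iteratedDeriv r f x / r.factorial * h ^ r‖ ≤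
      2 * M * (‖h‖ / ρ) ^ (k + 1) := by
  have hz : x + h ∈ ball x R := by
    rw [mem_ball, dist_eq_norm, add_sub_cancel_left]; linarith
  have hM0 : 0 ≤ M := (norm_nonneg _).trans (hM x (mem_ball_self (hρ.trans hR)))
  have hs0 := Complex.hasSum_taylorSeries_on_ball hf hz
  have hs1 : HasSum (fun r : ℕ => iteratedDeriv r f x / r.factorial * h ^ r) (f (x + h)) := by
    have : (fun r : ℕ => iteratedDeriv r f x / r.factorial * h ^ r) =
        fun n : ℕ => (n.factorial : ℂ)⁻¹ • (x + h - x) ^ n • iteratedDeriv n f x := by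
      funext n
      simp only [smul_eq_mul, add_sub_cancel_left]; ring
    rw [this]; exact hs0
  set q : ℝ := ‖h‖ / ρ with hq
  have hq0 : 0 ≤ q := by positivity
  have hq1 : q ≤ 1 / 2 := by rw [hq, div_le_iff₀ hρ]; linarith
  have hb : ∀ r : ℕ, ‖iteratedDeriv r f x / r.factorial * h ^ r‖ ≤ M * q ^ r := by
    intro r
    have h1 := cauchy_est hρ hR hf hM r
    have hr : (0 : ℝ) < r.factorial := by exact_mod_cast r.factorial_pos
    rw [norm_mul, norm_div, norm_pow, Complex.norm_natCast, hq, div_pow]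
    have h2 : ‖iteratedDeriv r f x‖ / r.factorial ≤ M / ρ ^ r := by
      rw [div_le_iff₀ hr]
      calc _ ≤ _ := h1
        _ = _ := by ring
    calc _ ≤ M / ρ ^ r * ‖h‖ ^ r := by gcongr
      _ = _ := by ring
  have hs2 := (hasSum_nat_add_iff' (k + 1)).2 hs1
  have hg : HasSum (fun r : ℕ => M * q ^ (k + 1) * (1 / 2 : ℝ) ^ r) (M * q ^ (k + 1) * 2) :=
    hasSum_geometric_two.mul_left _
  have := hs2.norm_le_of_bounded hg (fun r => by
    calc _ ≤ M * q ^ (r + (k + 1)) := hb _
      _ = M * q ^ (k + 1) * q ^ r := by ring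
      _ ≤ _ := by gcongr)
  calc _ ≤ _ := this
    _ = _ := by ring

theorem iteratedDeriv_diffOn {f : ℂ → ℂ} {U : Set ℂ} (hU : IsOpen U)
    (hf : DifferentiableOn ℂ f U) (r : ℕ) : DifferentiableOn ℂ (iteratedDeriv r f) U := by
  induction r with
  | zero => simpa using hf
  | succ r ih => rw [iteratedDeriv_succ]; exact ih.deriv hU

theorem iteratedDeriv_im {f : ℂ → ℂ} {U : Set ℂ} (hU : IsOpen U) (hf : DifferentiableOn ℂ f U)
    (h : ∀ t : ℝ, (t : ℂ) ∈ U → (f t).im = 0) (r : ℕ) (t : ℝ) (ht : (t : ℂ) ∈ U) :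
    (iteratedDeriv r f t).im = 0 := by
  induction r generalizing t with
  | zero => simpa using h t ht
  | succ r ih =>
    rw [iteratedDeriv_succ]
    have hd : HasDerivAt (iteratedDeriv r f) (deriv (iteratedDeriv r f) t) (t : ℂ) :=
      ((iteratedDeriv_diffOn hU hf r).differentiableAt (hU.mem_nhds ht)).hasDerivAt
    have h1 := (hd.const_mul (-Complex.I)).real_of_complex
    have h2 : (fun x : ℝ => (-Complex.I * iteratedDeriv r f (x : ℂ)).re) =ᶠ[nhds t] fun _ => 0 := by
      have : ∀ᶠ x : ℝ in nhds t, (x : ℂ) ∈ U :=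
        Complex.continuous_ofReal.continuousAt.preimage_mem_nhds (hU.mem_nhds ht)
      filter_upwards [this] with x hx
      simp [ih x hx]
    have h3 := (h1.congr_of_eventuallyEq h2.symm).unique (hasDerivAt_const t (0 : ℝ))
    simpa using h3

/-- The functions `D (D - 1) ⋯ (D - i + 1) h`. -/
noncomputable def hs (h : ℂ → ℂ) : ℕ → ℂ → ℂ
  | 0 => h
  | i + 1 => fun w => deriv (hs h i) w - i * hs h i w

theorem coefA_hs_diffOn {h : ℂ → ℂ} {U : Set ℂ} (hU : IsOpen U) (hd : DifferentiableOn ℂ h U)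
    (i : ℕ) : DifferentiableOn ℂ (hs h i) U := by
  induction i with
  | zero => exact hd
  | succ i ih => exact (ih.deriv hU).sub (ih.const_mul _)

theorem iteratedDeriv_log {h : ℂ → ℂ} (hd : DifferentiableOn ℂ h {w | 0 < w.re}) (i : ℕ) {z : ℂ}
    (hz : 1 < z.re) :
    iteratedDeriv i (fun z => h (Complex.log z)) z = hs h i (Complex.log z) / z ^ i := by
  have hU : IsOpen {w : ℂ | 0 < w.re} := isOpen_lt continuous_const Complex.continuous_re
  have hV : IsOpen {w : ℂ | 1 < w.re} := isOpen_lt continuous_const Complex.continuous_re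
  induction i generalizing z with
  | zero => simp [hs]
  | succ i ih =>
    rw [iteratedDeriv_succ]
    have he : iteratedDeriv i (fun z => h (Complex.log z)) =ᶠ[nhds z]
        fun z => hs h i (Complex.log z) / z ^ i := by
      filter_upwards [hV.mem_nhds hz] with w hw using ih hw
    rw [he.deriv_eq]
    have hz0 : z ≠ 0 := by rintro rfl; simp at hz; linarith
    have hsl : z ∈ Complex.slitPlane := Or.inl (by linarith)
    have hl : 0 < (Complex.log z).re := by
      rw [Complex.log_re]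
      exact Real.log_pos (hz.trans_le (Complex.re_le_norm z))
    have h1 : HasDerivAt (hs h i) (deriv (hs h i) (Complex.log z)) (Complex.log z) :=
      ((coefA_hs_diffOn hU hd i).differentiableAt (hU.mem_nhds hl)).hasDerivAt
    have h2 := h1.comp z (Complex.hasDerivAt_log hsl)
    have h3 := (h2.div (hasDerivAt_pow i z) (pow_ne_zero i hz0)).deriv
    refine Eq.trans h3 ?_
    simp only [hs, Function.comp]
    rcases i with _ | i
    · simp [div_eq_mul_inv]
    · simp only [Nat.add_sub_cancel]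
      field_simp
      ring

theorem coefA_claim {h E : ℂ → ℂ} {u : ℂ} {R L m : ℝ} {r : ℕ} (hR : 0 < R) (hm : 0 < m)
    (hd : DifferentiableOn ℂ h (ball u R)) (hEd : DifferentiableOn ℂ E (ball u R))
    (hE : ∀ w ∈ ball u R, deriv h w = E w * h w) (hL : ∀ w ∈ ball u R, ‖E w - L‖ ≤ m)
    (h3 : 3 * m ≤ L - r) (h4 : 2 * ((r : ℝ) + 1) ^ 2 ≤ m * R) (i : ℕ) (hi : i ≤ r) :
    m ^ i * ‖h u‖ ≤ ‖hs h i u‖ ∧ ∃ F : ℂ → ℂ,
      DifferentiableOn ℂ F (ball u (R - i * (R / (r + 1)))) ∧
      (∀ w ∈ ball u (R - i * (R / (r + 1))), hs h (i + 1) w = F w * hs h i w) ∧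
      ∀ w ∈ ball u (R - i * (R / (r + 1))), ‖F w - ((L - i : ℝ) : ℂ)‖ ≤ m + i * (m / (r + 1)) := by
  have hr1 : (0 : ℝ) < r + 1 := by positivity
  set δ : ℝ := R / (r + 1) with hδ
  have hδ0 : 0 < δ := by positivity
  have hδR : (r + 1) * δ = R := by rw [hδ]; field_simp
  induction i with
  | zero =>
    refine ⟨by simp [hs], E, by simpa using hEd, ?_, ?_⟩
    · intro w hw
      simp only [hs]
      rw [hE w (by simpa using hw)]; simp
    · intro w hw
      simpa using hL w (by simpa using hw)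
  | succ i ih =>
    obtain ⟨a1, F, a2, a3, a4⟩ := ih (by omega)
    have hir : (i : ℝ) + 1 ≤ r := by exact_mod_cast hi
    have hi0 : (0 : ℝ) ≤ i := Nat.cast_nonneg i
    have hm2 : (i : ℝ) * (m / (r + 1)) ≤ m := by
      rw [← mul_div_assoc, div_le_iff₀ hr1]; nlinarith
    have hF : ∀ w ∈ ball u (R - i * δ), m ≤ ‖F w‖ := by
      intro w hw
      have h5 := a4 w hw
      have h6 : ‖((L - i : ℝ) : ℂ)‖ - ‖F w‖ ≤ ‖F w - ((L - i : ℝ) : ℂ)‖ := by
        rw [norm_sub_rev]; exact norm_sub_norm_le _ _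
      rw [Complex.norm_real, Real.norm_eq_abs] at h6
      have := le_abs_self (L - i)
      linarith
    have hF0 : ∀ w ∈ ball u (R - i * δ), F w ≠ 0 := fun w hw h0 => by
      have := hF w hw
      rw [h0, norm_zero] at this; linarith
    have hsub : ball u (R - ((i + 1 : ℕ) : ℝ) * δ) ⊆ ball u (R - i * δ) := by
      apply ball_subset_ball; push_cast; nlinarith
    have hsubR : ball u (R - i * δ) ⊆ ball u R := by
      apply ball_subset_ball; nlinarith
    have hu : u ∈ ball u (R - i * δ) := mem_ball_self (by nlinarith)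
    refine ⟨?_, fun w => F w - 1 + deriv F w / F w, ?_, ?_, ?_⟩
    · rw [a3 u hu, norm_mul, pow_succ]
      calc m ^ i * m * ‖h u‖ = m * (m ^ i * ‖h u‖) := by ring
        _ ≤ _ := by gcongr; exact hF u hu
    · exact ((a2.sub_const 1).add ((a2.deriv isOpen_ball).div a2 hF0)).mono hsub
    · intro w hw
      have hw' := hsub hw
      have he : hs h (i + 1) =ᶠ[nhds w] fun w => F w * hs h i w := by
        filter_upwards [isOpen_ball.mem_nhds hw'] with z hz using a3 z hz
      have d1 : HasDerivAt F (deriv F w) w :=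
        (a2.differentiableAt (isOpen_ball.mem_nhds hw')).hasDerivAt
      have d2 : HasDerivAt (hs h i) (deriv (hs h i) w) w :=
        ((coefA_hs_diffOn isOpen_ball hd i).differentiableAt
          (isOpen_ball.mem_nhds (hsubR hw'))).hasDerivAt
      have d3 : deriv (hs h (i + 1)) w = deriv F w * hs h i w + F w * deriv (hs h i) w := by
        rw [he.deriv_eq]; exact (d1.mul d2).deriv
      have d4 : deriv (hs h i) w = F w * hs h i w + i * hs h i w := by
        have := a3 w hw'
        simp only [hs] at this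
        linear_combination this
      have d5 : hs h (i + 1 + 1) w =
          deriv (hs h (i + 1)) w - ((i + 1 : ℕ) : ℂ) * hs h (i + 1) w := rfl
      rw [d5, d3, d4, a3 w hw']
      have := hF0 w hw'
      push_cast
      field_simp
      ring
    · intro w hw
      have hw' := hsub hw
      have hcb : closedBall w δ ⊆ ball u (R - i * δ) := by
        intro z hz
        rw [mem_ball] at hw ⊢
        rw [mem_closedBall] at hz
        have := dist_triangle z w u
        push_cast at hw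
        linarith
      have c1 : ‖deriv (fun z => F z - ((L - i : ℝ) : ℂ)) w‖ ≤ 2 * m / δ :=
        Complex.norm_deriv_le_of_forall_mem_sphere_norm_le hδ0
          (coefA_dcc (a2.sub_const _) hcb)
          (fun z hz => (a4 z (hcb (sphere_subset_closedBall hz))).trans (by linarith))
      rw [deriv_sub_const] at c1
      have c2 : ‖deriv F w / F w‖ ≤ m / (r + 1) := by
        rw [norm_div, div_le_iff₀ (hm.trans_le (hF w hw'))]
        have c3 : 2 * m / δ ≤ m / (r + 1) * m := by
          rw [div_le_iff₀ hδ0, hδ]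
          have : m / (r + 1) * m * (R / (r + 1)) = m * (m * R) / (r + 1) ^ 2 := by field_simp
          rw [this, le_div_iff₀ (by positivity)]
          nlinarith
        calc _ ≤ _ := c1
          _ ≤ _ := c3
          _ ≤ _ := by gcongr; exact hF w hw'
      have c4 : F w - 1 + deriv F w / F w - ((L - ((i + 1 : ℕ) : ℝ) : ℝ) : ℂ) =
          (F w - ((L - i : ℝ) : ℂ)) + deriv F w / F w := by push_cast; ring
      rw [c4]
      calc _ ≤ _ := norm_add_le _ _
        _ ≤ m + i * (m / (r + 1)) + m / (r + 1) := add_le_add (a4 w hw') c2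
        _ = _ := by push_cast; ring

theorem hs_lower {h E : ℂ → ℂ} {u : ℂ} {R L m : ℝ} {r : ℕ} (hR : 0 < R) (hm : 0 < m)
    (hd : DifferentiableOn ℂ h (ball u R)) (hEd : DifferentiableOn ℂ E (ball u R))
    (hE : ∀ w ∈ ball u R, deriv h w = E w * h w) (hL : ∀ w ∈ ball u R, ‖E w - L‖ ≤ m)
    (h3 : 3 * m ≤ L - r) (h4 : 2 * ((r : ℝ) + 1) ^ 2 ≤ m * R) {i : ℕ} (hi : i ≤ r) :
    m ^ i * ‖h u‖ ≤ ‖hs h i u‖ :=
  (coefA_claim hR hm hd hEd hE hL h3 h4 i hi).1

end Pool.Agent.Lib.MP_1db5af_an
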