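import Pool.Agent.Lib.MP_1db5af_an.Defs
import Pool.Agent.Lib.MP_1db5af_an.CoefA

set_option autoImplicit false

namespace Pool.Agent.Lib.MP_1db5af_an

open Finset Filter

/-- The holomorphic extension of `G`. -/
noncomputable def Gc (c : ℝ) (z : ℂ) : ℂ := Complex.exp (Complex.log z ^ ((c : ℂ) + 1))

theorem coefb_cast (c : ℝ) : ((c : ℂ) + 1) = ((c + 1 : ℝ) : ℂ) := by
  push_cast
  rfl

theorem Gc_real (c : ℝ) {x : ℝ} (hx : 1 ≤ x) : Gc c x = G c x := by
  rw [Gc, G, Complex.ofReal_exp, Complex.ofReal_cpow (Real.log_nonneg hx),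
    Complex.ofReal_log (by linarith), coefb_cast]

theorem coefb_log_re {z : ℂ} (hz : 1 < z.re) : 0 < (Complex.log z).re := by
  rw [Complex.log_re]
  exact Real.log_pos (hz.trans_le (Complex.re_le_norm z))

theorem Gc_diff (c : ℝ) : DifferentiableOn ℂ (Gc c) {z | 1 < z.re} := by
  intro z hz
  have hz' : 1 < z.re := hz
  have h1 : DifferentiableAt ℂ Complex.log z :=
    Complex.differentiableAt_log (Or.inl (by linarith))
  exact ((h1.cpow_const (Or.inl (coefb_log_re hz'))).cexp).differentiableWithinAt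

theorem coefb_one_le_log {x : ℝ} (hx : 3 ≤ x) : 1 ≤ Real.log x := by
  rw [Real.le_log_iff_exp_le (by linarith)]
  have := Real.exp_one_lt_d9
  linarith

theorem Gc_upper {c : ℝ} (hc0 : 0 < c) (hc : c ≤ 1) {x : ℝ} (hx : 3 ≤ x) {z : ℂ}
    (hz : ‖z - x‖ ≤ x / 2) :
    ‖Gc c z‖ ≤ Real.exp (Real.log x ^ c * Real.log x + 3 * Real.log x ^ c) := by
  have hx0 : 0 < x := by linarith
  have hxc : (x : ℂ) ≠ 0 := Complex.ofReal_ne_zero.2 hx0.ne'
  have hu := coefb_one_le_log hx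
  have hw : ‖(z - x) / x‖ ≤ 1 / 2 := by
    rw [norm_div, Complex.norm_real, Real.norm_of_nonneg hx0.le, div_le_iff₀ hx0]
    linarith
  have h1 : 1 + (z - x) / x ≠ 0 := by
    intro h
    have h2 : (z - x) / x = -1 := by linear_combination h
    rw [h2] at hw
    norm_num at hw
  have h2 : Complex.log z = Real.log x + Complex.log (1 + (z - x) / x) := by
    rw [← Complex.log_ofReal_mul hx0 h1]
    congr 1
    field_simp
    ring
  have h3 : ‖Complex.log z‖ ≤ Real.log x + 1 := by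
    rw [h2]
    refine (norm_add_le _ _).trans ?_
    rw [Complex.norm_real, Real.norm_of_nonneg (by linarith)]
    have := Complex.norm_log_one_add_half_le_self hw
    linarith
  generalize Real.log x = u at *
  have hu0 : 0 < u := by linarith
  rw [Gc, Complex.norm_exp, Real.exp_le_exp]
  refine (Complex.re_le_norm _).trans ?_
  rw [coefb_cast, Complex.norm_cpow_real]
  refine (Real.rpow_le_rpow (norm_nonneg _) h3 (by linarith)).trans ?_
  have h4 : u + 1 = u * (1 + 1 / u) := by field_simp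
  have h5 : 1 ≤ 1 + 1 / u := le_add_of_nonneg_right (by positivity)
  have h6 : (1 + 1 / u) ^ (c + 1) ≤ (1 + 1 / u) ^ (2 : ℝ) :=
    Real.rpow_le_rpow_of_exponent_le h5 (by linarith)
  have h7 : 0 < u ^ c := Real.rpow_pos_of_pos hu0 c
  rw [h4, Real.mul_rpow hu0.le (by linarith), Real.rpow_add_one hu0.ne']
  refine (mul_le_mul_of_nonneg_left h6 (by positivity)).trans ?_
  rw [Real.rpow_two]
  have h8 : u * (1 + 1 / u) ^ 2 = u + 2 + 1 / u := by
    field_simp
    ring
  have h9 : 1 / u ≤ 1 := (div_le_one hu0).2 hu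
  rw [mul_assoc, h8]
  nlinarith

theorem coefb_ball {u : ℝ} (hu : 0 < u) {w : ℂ} (hw : w ∈ Metric.ball (u : ℂ) (u / 20)) :
    19 / 20 * u ≤ w.re := by
  rw [Metric.mem_ball, dist_eq_norm] at hw
  have h1 := Complex.abs_re_le_norm (w - u)
  rw [Complex.sub_re, Complex.ofReal_re] at h1
  have := (abs_le.1 (h1.trans hw.le)).1
  linarith

theorem coefb_E {c : ℝ} (hc0 : 0 < c) (hc : c ≤ 1 / 2) {u : ℝ} (hu : 0 < u) {w : ℂ}
    (hw : w ∈ Metric.ball (u : ℂ) (u / 20)) :
    ‖((c : ℂ) + 1) * w ^ (c : ℂ) - ((1 + c) * u ^ c : ℝ)‖ ≤ c * u ^ c / 10 := by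
  have hl : 0 < u ^ c := Real.rpow_pos_of_pos hu c
  have hd : ∀ v ∈ Metric.ball (u : ℂ) (u / 20), HasDerivWithinAt
      (fun v : ℂ => ((c : ℂ) + 1) * v ^ (c : ℂ)) (((c : ℂ) + 1) * (c * v ^ ((c : ℂ) - 1) * 1))
      (Metric.ball (u : ℂ) (u / 20)) v := by
    intro v hv
    have h1 := coefb_ball hu hv
    exact (((hasDerivAt_id v).cpow_const (Or.inl (by simp only [id]; linarith))).const_mul
      _).hasDerivWithinAt
  have hb : ∀ v ∈ Metric.ball (u : ℂ) (u / 20),
      ‖((c : ℂ) + 1) * (c * v ^ ((c : ℂ) - 1) * 1)‖ ≤ 2 * c * u ^ c / u := by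
    intro v hv
    have h1 := coefb_ball hu hv
    have h2 : 19 / 20 * u ≤ ‖v‖ := h1.trans (Complex.re_le_norm v)
    have h3 : ((c : ℂ) - 1) = ((c - 1 : ℝ) : ℂ) := by
      push_cast
      rfl
    have h4 : ‖v‖ ^ (c - 1) ≤ (19 / 20 * u) ^ (c - 1) :=
      Real.rpow_le_rpow_of_nonpos (by positivity) h2 (by linarith)
    have h5 : (19 / 20 * u) ^ (c - 1) ≤ u ^ c / (19 / 20 * u) := by
      rw [Real.rpow_sub_one (by positivity)]
      gcongr
      linarith
    rw [mul_one, norm_mul, norm_mul, h3, Complex.norm_cpow_real, coefb_cast, Complex.norm_real,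
      Complex.norm_real, Real.norm_of_nonneg (by linarith), Real.norm_of_nonneg hc0.le]
    calc (c + 1) * (c * ‖v‖ ^ (c - 1)) ≤ 3 / 2 * (c * (u ^ c / (19 / 20 * u))) := by
          gcongr
          · linarith
          · exact h4.trans h5
      _ = 30 / 19 * (c * u ^ c / u) := by
          field_simp
          ring
      _ ≤ 2 * (c * u ^ c / u) := by
          gcongr
          norm_num
      _ = _ := by ring
  have h := (convex_ball (u : ℂ) (u / 20)).norm_image_sub_le_of_norm_hasDerivWithin_le hd hb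
    (Metric.mem_ball_self (by positivity)) hw
  have h1 : ((c : ℂ) + 1) * (u : ℂ) ^ (c : ℂ) = ((1 + c) * u ^ c : ℝ) := by
    rw [← Complex.ofReal_cpow hu.le]
    push_cast
    ring
  rw [h1] at h
  refine h.trans ?_
  rw [Metric.mem_ball, dist_eq_norm] at hw
  calc 2 * c * u ^ c / u * ‖w - u‖ ≤ 2 * c * u ^ c / u * (u / 20) := by gcongr
    _ = _ := by
      field_simp
      ring

theorem coefb_h (c : ℝ) {w : ℂ} (hw : 0 < w.re) :
    HasDerivAt (fun w : ℂ => Complex.exp (w ^ ((c : ℂ) + 1)))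
      (((c : ℂ) + 1) * w ^ (c : ℂ) * Complex.exp (w ^ ((c : ℂ) + 1))) w := by
  have h1 := ((hasDerivAt_id w).cpow_const (c := (c : ℂ) + 1) (Or.inl hw)).cexp
  simp only [id, add_sub_cancel_right, mul_one] at h1
  rw [mul_comm]
  exact h1

theorem Gc_lower {c : ℝ} (hc0 : 0 < c) (hc : c ≤ 1 / 2) :
    ∀ᶠ x : ℝ in atTop, ∀ i : ℕ, (i : ℝ) ≤ (1 + 7 / 10 * c) * Real.log x ^ c →
      Real.exp (Real.log x ^ c * Real.log x) / x ^ i ≤ ‖iteratedDeriv i (Gc c) x‖ := by
  have e1 := ((tendsto_rpow_atTop hc0).comp Real.tendsto_log_atTop).eventually_ge_atTop (10 / c)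
  have e2 := ((tendsto_rpow_atTop (y := 1 / 2) (by norm_num)).comp
    Real.tendsto_log_atTop).eventually_ge_atTop (3600 / c)
  filter_upwards [e1, e2, eventually_ge_atTop 3] with x h1 h2 hx i hi
  simp only [Function.comp] at h1 h2
  have hx0 : 0 < x := by linarith
  have hu := coefb_one_le_log hx
  have hlog : Complex.log x = (Real.log x : ℝ) := (Complex.ofReal_log hx0.le).symm
  have hd : DifferentiableOn ℂ (fun w : ℂ => Complex.exp (w ^ ((c : ℂ) + 1))) {w | 0 < w.re} :=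
    fun w hw => (coefb_h c hw).differentiableAt.differentiableWithinAt
  have h3 : iteratedDeriv i (Gc c) x =
      hs (fun w : ℂ => Complex.exp (w ^ ((c : ℂ) + 1))) i (Complex.log x) / (x : ℂ) ^ i :=
    iteratedDeriv_log hd i (by rw [Complex.ofReal_re]; linarith)
  rw [h3, hlog, norm_div, norm_pow, Complex.norm_real, Real.norm_of_nonneg hx0.le]
  gcongr
  generalize Real.log x = u at *
  have hu0 : 0 < u := by linarith
  have hl1 : 1 ≤ u ^ c := Real.one_le_rpow hu hc0.le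
  have hl2 : u ^ c ≤ u ^ (1 / 2 : ℝ) := Real.rpow_le_rpow_of_exponent_le hu hc
  have hsq : u ^ (1 / 2 : ℝ) * u ^ (1 / 2 : ℝ) = u := by
    rw [← Real.rpow_add hu0]
    norm_num
  have hm : 1 ≤ c * u ^ c / 10 := by
    rw [div_le_iff₀ hc0] at h1
    linarith
  have hre : ∀ w ∈ Metric.ball (u : ℂ) (u / 20), 0 < w.re := fun w hw => by
    have := coefb_ball hu0 hw
    linarith
  have hr : (⌊(1 + 7 / 10 * c) * u ^ c⌋₊ : ℝ) ≤ (1 + 7 / 10 * c) * u ^ c :=
    Nat.floor_le (by positivity)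
  have key := hs_lower (h := fun w : ℂ => Complex.exp (w ^ ((c : ℂ) + 1)))
    (E := fun w : ℂ => ((c : ℂ) + 1) * w ^ (c : ℂ)) (u := u) (R := u / 20)
    (L := (1 + c) * u ^ c) (m := c * u ^ c / 10) (r := ⌊(1 + 7 / 10 * c) * u ^ c⌋₊)
    (by positivity) (by linarith) (hd.mono hre)
    (fun w hw => ((differentiableAt_id.cpow_const (Or.inl (hre w hw))).const_mul
      _).differentiableWithinAt)
    (fun w hw => (coefb_h c (hre w hw)).deriv) (fun w hw => coefb_E hc0 hc hu0 hw)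
    (by linarith) ?_ (Nat.le_floor hi)
  · refine le_trans ?_ key
    have h4 : ‖Complex.exp ((u : ℂ) ^ ((c : ℂ) + 1))‖ = Real.exp (u ^ c * u) := by
      rw [coefb_cast, ← Complex.ofReal_cpow hu0.le, ← Complex.ofReal_exp, Complex.norm_real,
        Real.norm_of_nonneg (Real.exp_pos _).le, Real.rpow_add_one hu0.ne']
    rw [h4]
    exact le_mul_of_one_le_left (Real.exp_pos _).le (one_le_pow₀ hm)
  · have h4 : (⌊(1 + 7 / 10 * c) * u ^ c⌋₊ : ℝ) + 1 ≤ 3 * u ^ c := by nlinarith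
    have h5 : 3600 * u ^ c ≤ c * u := by
      rw [div_le_iff₀ hc0] at h2
      nlinarith
    have h6 : ((⌊(1 + 7 / 10 * c) * u ^ c⌋₊ : ℝ) + 1) ^ 2 ≤ (3 * u ^ c) ^ 2 := by gcongr
    nlinarith

end Pool.Agent.Lib.MP_1db5af_an
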