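import Pool.Agent.Lib.MP_1db5af_an.CoefB

set_option autoImplicit false

namespace Pool.Agent.Lib.MP_1db5af_an

open Finset Filter

theorem coefc_moment (J : Finset ℕ) (β : ℕ → ℝ) (hβ : ∃ j ∈ J, β j ≠ 0) :
    ∃ m : ℕ, ∑ j ∈ J, β j * (j : ℝ) ^ m ≠ 0 := by
  obtain ⟨j0, hj0, hb⟩ := hβ
  by_contra hcon
  push Not at hcon
  let q : Polynomial ℝ := ∏ i ∈ J.erase j0, (Polynomial.X - Polynomial.C (i : ℝ))
  have h1 : ∑ j ∈ J, β j * q.eval (j : ℝ) = 0 := by
    simp only [Polynomial.eval_eq_sum_range (p := q), mul_sum]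
    rw [sum_comm]
    refine sum_eq_zero fun m _ => ?_
    have : ∑ j ∈ J, β j * (q.coeff m * (j : ℝ) ^ m) = q.coeff m * ∑ j ∈ J, β j * (j : ℝ) ^ m := by
      rw [mul_sum]
      exact sum_congr rfl fun j _ => by ring
    rw [this, hcon m, mul_zero]
  have h2 : ∀ j : ℕ, q.eval (j : ℝ) = ∏ i ∈ J.erase j0, ((j : ℝ) - i) := by
    intro j
    simp [q, Polynomial.eval_prod]
  rw [sum_eq_single_of_mem j0 hj0] at h1
  · rw [h2] at h1
    rcases mul_eq_zero.1 h1 with h | h
    · exact hb h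
    · obtain ⟨i, hi, h0⟩ := prod_eq_zero_iff.1 h
      have : (j0 : ℝ) = i := by linarith
      exact (mem_erase.1 hi).1 (by exact_mod_cast this.symm)
  · intro j hj hne
    rw [h2, prod_eq_zero (mem_erase.2 ⟨hne, hj⟩) (sub_self _), mul_zero]

theorem coefc_tendsto {c : ℝ} (hc0 : 0 < c) :
    Tendsto (fun x : ℝ => Real.log x ^ c) atTop atTop :=
  (tendsto_rpow_atTop hc0).comp Real.tendsto_log_atTop

theorem coefc_small {c : ℝ} (hc0 : 0 < c) (hc : c < 1 / 2) (A : ℝ) :
    ∀ᶠ x : ℝ in atTop, A * Real.exp (11 * (Real.log x ^ c) ^ 2) ≤ x := by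
  have h1 : Tendsto (fun x : ℝ => Real.log x ^ (-(1 - 2 * c))) atTop (nhds 0) :=
    (tendsto_rpow_neg_atTop (by linarith)).comp Real.tendsto_log_atTop
  filter_upwards [h1.eventually (ge_mem_nhds (show (0 : ℝ) < 1 / 12 by norm_num)),
    (coefc_tendsto hc0).eventually_ge_atTop (max A 1), eventually_gt_atTop (1 : ℝ)]
    with x h2 h3 hx
  have hu : 0 < Real.log x := Real.log_pos hx
  set l := Real.log x ^ c with hl
  have hl1 : 1 ≤ l := (le_max_right _ _).trans h3
  have hA : A ≤ l := (le_max_left _ _).trans h3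
  have h4 : l ^ 2 = Real.log x ^ (-(1 - 2 * c)) * Real.log x := by
    rw [hl, ← Real.rpow_natCast, ← Real.rpow_mul hu.le, ← Real.rpow_add_one hu.ne']
    congr 1
    push_cast
    ring
  have h5 : 12 * l ^ 2 ≤ Real.log x := by
    rw [h4]
    nlinarith
  have h6 : A ≤ Real.exp (l ^ 2) := by
    have := Real.add_one_le_exp (l ^ 2)
    nlinarith
  calc A * Real.exp (11 * l ^ 2) ≤ Real.exp (l ^ 2) * Real.exp (11 * l ^ 2) :=
        mul_le_mul_of_nonneg_right h6 (Real.exp_pos _).le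
    _ = Real.exp (12 * l ^ 2) := by rw [← Real.exp_add]; congr 1; ring
    _ ≤ Real.exp (Real.log x) := Real.exp_le_exp.2 h5
    _ = x := Real.exp_log (by linarith)

theorem coefc_re {x : ℝ} (hx : 3 ≤ x) {z : ℂ} (hz : ‖z - x‖ ≤ x / 2) : 1 < z.re := by
  have h := (Complex.abs_re_le_norm (z - x)).trans hz
  simp only [Complex.sub_re, Complex.ofReal_re] at h
  have := (abs_le.1 h).1
  linarith

theorem coefc_ball {x : ℝ} {w z : ℂ} {a R : ℝ} (hw : ‖w - x‖ ≤ a) (hz : z ∈ Metric.ball w R)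
    (h : a + R ≤ x / 2) : ‖z - x‖ ≤ x / 2 := by
  rw [Metric.mem_ball, dist_eq_norm] at hz
  have : z - x = (z - w) + (w - x) := by ring
  rw [this]
  exact (norm_add_le _ _).trans (by linarith)

theorem coefc_fact {r : ℕ} {l : ℝ} (hl : 1 ≤ l) (hr : (r : ℝ) ≤ 2 * l) :
    (r.factorial : ℝ) * (Real.exp (3 * l) * 5 ^ r) ≤ Real.exp (11 * l ^ 2) := by
  have hr0 : (0 : ℝ) ≤ r := Nat.cast_nonneg r
  have h1 : (r.factorial : ℝ) ≤ (r : ℝ) ^ r := by exact_mod_cast Nat.factorial_le_pow r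
  have h2 : (r : ℝ) ^ r ≤ Real.exp r ^ r :=
    pow_le_pow_left₀ hr0 (by linarith [Real.add_one_le_exp (r : ℝ)]) r
  have h3 : (5 : ℝ) ≤ Real.exp 2 := by
    have := Real.quadratic_le_exp_of_nonneg (show (0 : ℝ) ≤ 2 by norm_num)
    linarith
  have h4 : (5 : ℝ) ^ r ≤ Real.exp 2 ^ r := pow_le_pow_left₀ (by norm_num) h3 r
  calc (r.factorial : ℝ) * (Real.exp (3 * l) * 5 ^ r)
      ≤ Real.exp r ^ r * (Real.exp (3 * l) * Real.exp 2 ^ r) := by
        gcongr
        exact h1.trans h2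
    _ = Real.exp (r * r + (3 * l + r * 2)) := by
        rw [← Real.exp_nat_mul, ← Real.exp_nat_mul, ← Real.exp_add, ← Real.exp_add]
    _ ≤ Real.exp (11 * l ^ 2) := Real.exp_le_exp.2 (by nlinarith)

theorem coefc_lower {c : ℝ} (hc0 : 0 < c) (hc : c ≤ 1) {x : ℝ} (hx : 3 ≤ x) (J : Finset ℕ)
    (β : ℕ → ℝ) {N : ℕ} (hN : ∀ j ∈ J, j ≤ N) (hxN : 10 * (N : ℝ) ≤ x) {m : ℕ}
    (hm : ∀ s < m, ∑ j ∈ J, β j * (j : ℝ) ^ s = 0) (r : ℕ) :
    |∑ j ∈ J, β j * (j : ℝ) ^ m| / m.factorial * ‖iteratedDeriv (m + r) (Gc c) x‖ -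
      (∑ j ∈ J, |β j|) * (2 * (r.factorial *
        Real.exp (Real.log x ^ c * Real.log x + 3 * Real.log x ^ c) / (x / 5) ^ r) *
          ((N : ℝ) / (x / 5)) ^ (m + 1)) ≤
      ‖∑ j ∈ J, (β j : ℂ) * iteratedDeriv r (Gc c) ((x : ℂ) + j)‖ := by
  set M := Real.exp (Real.log x ^ c * Real.log x + 3 * Real.log x ^ c) with hM
  set φ := iteratedDeriv r (Gc c) with hφ
  have hx0 : 0 < x := by linarith
  have hU : IsOpen {z : ℂ | 1 < z.re} := isOpen_lt continuous_const Complex.continuous_re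
  have hd : DifferentiableOn ℂ φ (Metric.ball (x : ℂ) (x / 4)) :=
    (iteratedDeriv_diffOn hU (Gc_diff c) r).mono fun z hz =>
      coefc_re hx (coefc_ball (w := x) (a := 0) (by simp) hz (by linarith))
  have hb : ∀ w ∈ Metric.ball (x : ℂ) (x / 4), ‖φ w‖ ≤ r.factorial * M / (x / 5) ^ r := by
    intro w hw
    have hw' : ‖w - x‖ ≤ x / 4 := by
      rw [Metric.mem_ball, dist_eq_norm] at hw
      exact hw.le
    refine cauchy_est (R := x / 4) (by linarith) (by linarith) ?_ ?_ r
    · exact (Gc_diff c).mono fun z hz => coefc_re hx (coefc_ball hw' hz (by linarith))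
    · exact fun z hz => Gc_upper hc0 hc hx (coefc_ball hw' hz (by linarith))
  set E := 2 * (r.factorial * M / (x / 5) ^ r) * ((N : ℝ) / (x / 5)) ^ (m + 1) with hE
  have ht : ∀ j ∈ J, ‖φ (x + j) - ∑ s ∈ range (m + 1), iteratedDeriv s φ x / s.factorial *
      (j : ℂ) ^ s‖ ≤ E := by
    intro j hj
    have hjN : (j : ℝ) ≤ N := by exact_mod_cast hN j hj
    have h1 := taylor_rem (ρ := x / 5) (by linarith) (by linarith) hd hb (h := (j : ℂ))
      (by rw [Complex.norm_natCast]; linarith) m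
    refine h1.trans ?_
    rw [Complex.norm_natCast, hE]
    gcongr
  have hmain : ∑ j ∈ J, (β j : ℂ) * ∑ s ∈ range (m + 1), iteratedDeriv s φ x / s.factorial *
      (j : ℂ) ^ s = ((∑ j ∈ J, β j * (j : ℝ) ^ m : ℝ) : ℂ) / m.factorial *
        iteratedDeriv (m + r) (Gc c) x := by
    have e1 : ∀ s : ℕ, ∑ j ∈ J, (β j : ℂ) * (iteratedDeriv s φ x / s.factorial * (j : ℂ) ^ s) =
        ((∑ j ∈ J, β j * (j : ℝ) ^ s : ℝ) : ℂ) / s.factorial * iteratedDeriv s φ x := by
      intro s
      push_cast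
      rw [sum_div, sum_mul]
      exact sum_congr rfl fun j _ => by ring
    simp only [mul_sum]
    rw [sum_comm, sum_range_succ, sum_eq_zero, zero_add, e1]
    · congr 1
      rw [hφ, iteratedDeriv_eq_iterate, iteratedDeriv_eq_iterate, iteratedDeriv_eq_iterate,
        Function.iterate_add_apply]
    · intro s hs
      rw [e1, hm s (mem_range.1 hs)]
      simp
  have hdiff : ‖((∑ j ∈ J, β j * (j : ℝ) ^ m : ℝ) : ℂ) / m.factorial *
        iteratedDeriv (m + r) (Gc c) x - ∑ j ∈ J, (β j : ℂ) * φ (x + j)‖ ≤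
      (∑ j ∈ J, |β j|) * E := by
    rw [← hmain, ← sum_sub_distrib, sum_mul]
    refine (norm_sum_le _ _).trans (sum_le_sum fun j hj => ?_)
    rw [← mul_sub, norm_mul, Complex.norm_real, Real.norm_eq_abs, norm_sub_rev]
    exact mul_le_mul_of_nonneg_left (ht j hj) (abs_nonneg _)
  have hn := norm_sub_norm_le (((∑ j ∈ J, β j * (j : ℝ) ^ m : ℝ) : ℂ) / m.factorial *
        iteratedDeriv (m + r) (Gc c) x) (∑ j ∈ J, (β j : ℂ) * φ (x + j))
  rw [norm_mul, norm_div, Complex.norm_real, Real.norm_eq_abs, Complex.norm_natCast] at hn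
  linarith

theorem coef {c : ℝ} (hc0 : 0 < c) (hc : c < 1 / 2) (J : Finset ℕ) (β : ℕ → ℝ)
    (hβ : ∃ j ∈ J, β j ≠ 0) :
    ∃ C : ℝ, ∀ᶠ x : ℝ in atTop, ∃ α : ℕ → ℝ,
      (∀ r : ℕ, |α r| ≤ Real.exp (Real.log x ^ c * Real.log x + Real.log x) * (4 / x) ^ r) ∧
      (∀ r : ℕ, (r : ℝ) ≤ (1 + c / 2) * Real.log x ^ c →
        Real.exp (Real.log x ^ c * Real.log x - C * Real.log x) / x ^ r ≤ |α r|) ∧
      ∀ (k : ℕ) (h : ℝ), 0 ≤ h → h ≤ x / 8 →
        |∑ j ∈ J, β j * G c (x + h + j) - ∑ r ∈ range (k + 1), α r * h ^ r| ≤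
          2 * Real.exp (Real.log x ^ c * Real.log x + Real.log x) * (4 * h / x) ^ (k + 1) := by
  classical
  have hex := coefc_moment J β hβ
  set m := Nat.find hex with hmdef
  have hμ : 0 < |∑ j ∈ J, β j * (j : ℝ) ^ m| := abs_pos.2 (Nat.find_spec hex)
  have hm : ∀ s < m, ∑ j ∈ J, β j * (j : ℝ) ^ s = 0 := fun s hs => by
    simpa using Nat.find_min hex hs
  set μ := |∑ j ∈ J, β j * (j : ℝ) ^ m| with hμdef
  set B := ∑ j ∈ J, |β j| with hB
  have hB0 : 0 ≤ B := sum_nonneg fun _ _ => abs_nonneg _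
  set N := J.sup id with hNdef
  have hN : ∀ j ∈ J, j ≤ N := fun j hj => le_sup (f := id) hj
  set K : ℝ := 1 + 2 * B * (5 * (N : ℝ)) ^ (m + 1) with hK
  refine ⟨m + 1, ?_⟩
  filter_upwards [Gc_lower hc0 hc.le, coefc_small hc0 hc B,
    coefc_small hc0 hc (K * m.factorial / μ),
    (coefc_tendsto hc0).eventually_ge_atTop (max 1 (5 * m / c)),
    eventually_ge_atTop (max 3 (10 * (N : ℝ)))] with x hlow hs1 hs2 hl hx
  have hx3 : 3 ≤ x := (le_max_left _ _).trans hx
  have hxN : 10 * (N : ℝ) ≤ x := (le_max_right _ _).trans hx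
  have hx0 : 0 < x := by linarith
  have hc1 : c ≤ 1 := by linarith
  have hlw := coefc_lower hc0 hc1 hx3 J β hN hxN hm
  have hup := fun z hz => Gc_upper hc0 hc1 hx3 (z := z) hz
  set u := Real.log x with hu
  set l := u ^ c with hldef
  have hl1 : 1 ≤ l := (le_max_left _ _).trans hl
  have hlm : 5 * (m : ℝ) ≤ l * c := (div_le_iff₀ hc0).1 ((le_max_right _ _).trans hl)
  have hexu : Real.exp u = x := Real.exp_log hx0
  set M := Real.exp (l * u + 3 * l) with hM
  have hBM : B * M ≤ Real.exp (l * u + u) := by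
    have h1 : Real.exp (3 * l) ≤ Real.exp (11 * l ^ 2) := Real.exp_le_exp.2 (by nlinarith)
    have h2 : B * Real.exp (3 * l) ≤ x := (mul_le_mul_of_nonneg_left h1 hB0).trans hs1
    rw [hM, Real.exp_add, Real.exp_add, hexu]
    have := mul_le_mul_of_nonneg_left h2 (Real.exp_pos (l * u)).le
    linarith
  have hj6 : ∀ j ∈ J, ‖((x : ℂ) + j) - x‖ ≤ x / 6 := by
    intro j hj
    have hjN : (j : ℝ) ≤ N := by exact_mod_cast hN j hj
    rw [add_sub_cancel_left, Complex.norm_natCast]
    linarith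
  have hdj : ∀ j ∈ J, DifferentiableOn ℂ (Gc c) (Metric.ball ((x : ℂ) + j) (x / 3)) :=
    fun j hj => (Gc_diff c).mono fun z hz => coefc_re hx3 (coefc_ball (hj6 j hj) hz (by linarith))
  have hbj : ∀ j ∈ J, ∀ z ∈ Metric.ball ((x : ℂ) + j) (x / 3), ‖Gc c z‖ ≤ M :=
    fun j hj z hz => hup z (coefc_ball (hj6 j hj) hz (by linarith))
  let a : ℕ → ℂ := fun r => ∑ j ∈ J, (β j : ℂ) * (iteratedDeriv r (Gc c) ((x : ℂ) + j) / r.factorial)
  refine ⟨fun r => (a r).re, fun r => ?_, fun r hr => ?_, fun k h h0 hh => ?_⟩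
  · refine (Complex.abs_re_le_norm _).trans ?_
    have hf : (0 : ℝ) < r.factorial := by exact_mod_cast r.factorial_pos
    calc ‖a r‖ ≤ ∑ j ∈ J, |β j| * (M * (4 / x) ^ r) := by
          refine (norm_sum_le _ _).trans (sum_le_sum fun j hj => ?_)
          rw [norm_mul, Complex.norm_real, Real.norm_eq_abs, norm_div, Complex.norm_natCast]
          refine mul_le_mul_of_nonneg_left ?_ (abs_nonneg _)
          have h1 := cauchy_est (ρ := x / 4) (by linarith) (by linarith) (hdj j hj) (hbj j hj) r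
          rw [div_le_iff₀ hf]
          refine h1.trans (le_of_eq ?_)
          rw [div_pow, div_pow]
          field_simp
      _ = B * M * (4 / x) ^ r := by rw [← sum_mul]; ring
      _ ≤ _ := mul_le_mul_of_nonneg_right hBM (by positivity)
  · have hf : (0 : ℝ) < r.factorial := by exact_mod_cast r.factorial_pos
    have hfm : (0 : ℝ) < m.factorial := by exact_mod_cast m.factorial_pos
    have hU : IsOpen {z : ℂ | 1 < z.re} := isOpen_lt continuous_const Complex.continuous_re
    have ha : a r = (∑ j ∈ J, (β j : ℂ) * iteratedDeriv r (Gc c) ((x : ℂ) + j)) / r.factorial := by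
      simp only [a]
      rw [sum_div]
      exact sum_congr rfl fun j _ => by ring
    have him : (a r).im = 0 := by
      simp only [a]
      rw [Complex.im_sum]
      refine sum_eq_zero fun j hj => ?_
      have h1 := iteratedDeriv_im hU (Gc_diff c) (fun t ht => by
        have ht' : 1 < t := by simpa using ht
        rw [Gc_real c ht'.le, Complex.ofReal_im]) r (x + j) (by
          have : (0 : ℝ) ≤ j := Nat.cast_nonneg j
          simp only [Set.mem_ofPred_eq, Complex.ofReal_re]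
          linarith)
      push_cast at h1
      rw [Complex.im_ofReal_mul, Complex.div_natCast_im, h1]
      simp
    have habs : |(a r).re| = ‖a r‖ := (Complex.abs_re_eq_norm).2 him
    rw [habs, ha, norm_div, Complex.norm_natCast, le_div_iff₀ hf]
    refine le_trans ?_ (hlw r)
    have hr2 : (r : ℝ) ≤ 2 * l := by nlinarith
    have h1 := hlow (m + r) (by push_cast; nlinarith)
    have h2 := coefc_fact hl1 hr2
    have h3 : K * Real.exp (11 * l ^ 2) ≤ μ / m.factorial * x := by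
      have := mul_le_mul_of_nonneg_left hs2 (div_pos hμ hfm).le
      refine le_trans (le_of_eq ?_) this
      field_simp
    have h4 : (r.factorial : ℝ) ≤ Real.exp (11 * l ^ 2) := by
      refine le_trans ?_ h2
      refine le_mul_of_one_le_right hf.le ?_
      exact one_le_mul_of_one_le_of_one_le (Real.one_le_exp (by linarith))
        (one_le_pow₀ (by norm_num))
    have hD : 0 < Real.exp (l * u) / x ^ (r + m + 1) := by positivity
    have e1 : Real.exp (l * u - (m + 1) * u) / x ^ r * r.factorial =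
        Real.exp (l * u) / x ^ (r + m + 1) * r.factorial := by
      have : Real.exp ((m + 1) * u) = x ^ (m + 1) := by
        rw [← hexu, ← Real.exp_nat_mul]
        push_cast
        rfl
      rw [Real.exp_sub, this, add_assoc, pow_add x r]
      field_simp
    have e2 : B * (2 * (r.factorial * M / (x / 5) ^ r) * ((N : ℝ) / (x / 5)) ^ (m + 1)) =
        Real.exp (l * u) / x ^ (r + m + 1) * ((2 * B * (5 * (N : ℝ)) ^ (m + 1)) *
          (r.factorial * (Real.exp (3 * l) * 5 ^ r))) := by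
      rw [hM, Real.exp_add, add_assoc, pow_add x r, div_pow, div_pow, div_pow, mul_pow]
      field_simp
    have e3 : μ / m.factorial * (Real.exp (l * u) / x ^ (m + r)) =
        Real.exp (l * u) / x ^ (r + m + 1) * (μ / m.factorial * x) := by
      rw [add_comm r m, pow_succ]
      field_simp
    have h5 := mul_le_mul_of_nonneg_left h1 (div_pos hμ hfm).le
    have h6 : (r.factorial : ℝ) + (2 * B * (5 * (N : ℝ)) ^ (m + 1)) *
        (r.factorial * (Real.exp (3 * l) * 5 ^ r)) ≤ μ / m.factorial * x := by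
      refine le_trans ?_ h3
      have h7 : 0 ≤ 2 * B * (5 * (N : ℝ)) ^ (m + 1) := by positivity
      have := mul_le_mul_of_nonneg_left h2 h7
      rw [hK]
      linarith
    have h8 := mul_le_mul_of_nonneg_left h6 hD.le
    rw [e1, e2]
    rw [e3] at h5
    linarith
  · have e : ∑ j ∈ J, β j * G c (x + h + j) - ∑ r ∈ range (k + 1), (a r).re * h ^ r =
        (∑ j ∈ J, (β j : ℂ) * (Gc c ((x : ℂ) + j + h) - ∑ r ∈ range (k + 1),
          iteratedDeriv r (Gc c) ((x : ℂ) + j) / r.factorial * (h : ℂ) ^ r)).re := by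
      simp only [mul_sub, sum_sub_distrib, Complex.sub_re]
      congr 1
      · rw [Complex.re_sum]
        refine sum_congr rfl fun j _ => ?_
        have hj : (0 : ℝ) ≤ j := Nat.cast_nonneg j
        have e1 : (x : ℂ) + j + h = ((x + h + j : ℝ) : ℂ) := by push_cast; ring
        rw [e1, Gc_real c (by linarith), Complex.re_ofReal_mul, Complex.ofReal_re]
      · simp only [mul_sum]
        rw [sum_comm, Complex.re_sum]
        refine sum_congr rfl fun r _ => ?_
        rw [← Complex.re_mul_ofReal]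
        congr 1
        simp only [a]
        rw [sum_mul]
        push_cast
        exact sum_congr rfl fun j _ => by ring
    rw [e]
    refine (Complex.abs_re_le_norm _).trans ?_
    calc _ ≤ ∑ j ∈ J, |β j| * (2 * M * (4 * h / x) ^ (k + 1)) := by
          refine (norm_sum_le _ _).trans (sum_le_sum fun j hj => ?_)
          rw [norm_mul, Complex.norm_real, Real.norm_eq_abs]
          refine mul_le_mul_of_nonneg_left ?_ (abs_nonneg _)
          have hn : ‖(h : ℂ)‖ = h := by rw [Complex.norm_real, Real.norm_of_nonneg h0]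
          have h1 := taylor_rem (ρ := x / 4) (by linarith) (by linarith) (hdj j hj) (hbj j hj)
            (h := (h : ℂ)) (by rw [hn]; linarith) k
          rw [hn] at h1
          refine h1.trans (le_of_eq ?_)
          congr 2
          field_simp
      _ = 2 * (B * M) * (4 * h / x) ^ (k + 1) := by rw [← sum_mul]; ring
      _ ≤ _ := by gcongr

end Pool.Agent.Lib.MP_1db5af_an
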