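import Mathlib

set_option autoImplicit false

namespace Pool.Agent.Lib.MP_1db5af_an

open MeasureTheory Filter Topology ComplexConjugate

/-- The function `G(x) = exp (log ^ (c + 1) x)`. -/
noncomputable def G (c x : ℝ) : ℝ := Real.exp (Real.log x ^ (c + 1))

/-- The spectral measure of `f` under `T` is singular: the correlations of `f` are the Fourier
coefficients of a finite measure on the circle that is singular to Lebesgue measure. -/
def SingVec {X : Type*} [MeasurableSpace X] (μ : Measure X) (T : X → X) (f : X → ℂ) : Prop :=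
  ∃ σ : Measure UnitAddCircle, IsFiniteMeasure σ ∧ σ ⟂ₘ volume ∧
    ∀ n : ℕ, ∫ x, f (T^[n] x) * conj (f x) ∂μ = ∫ θ, fourier n θ ∂σ

/-- Zero Kolmogorov-Sinai entropy: for every finite measurable partition `ξ`, the Shannon entropy
of the join of `ξ, T⁻¹ ξ, …, T^{-(K-1)} ξ`, divided by `K`, tends to zero. -/
def ZeroEnt {X : Type*} [MeasurableSpace X] (μ : Measure X) (T : X → X) : Prop :=
  ∀ (m : ℕ) (ξ : X → Fin m), Measurable ξ →
    Tendsto (fun K : ℕ => (∑ w : Fin K → Fin m,
      Real.negMulLog (μ.real {x | ∀ j : Fin K, ξ (T^[j] x) = w j})) / K) atTop (𝓝 0)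

/-- The tail σ-algebra of the process `ξ ∘ S^j`: the intersection over `n` of the σ-algebras
generated by the `ξ ∘ S^j` with `j ≥ n`. -/
@[reducible] def tail {X : Type*} {m : ℕ} (S : X → X) (ξ : X → Fin m) : MeasurableSpace X :=
  ⨅ n : ℕ, ⨆ j : ℕ, ⨆ _ : n ≤ j, MeasurableSpace.comap (fun x => ξ (S^[j] x)) ⊤

end Pool.Agent.Lib.MP_1db5af_an
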