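import Pool.Agent.Lib.MP_1db5af_an.L2

set_option autoImplicit false

namespace Pool.Agent.Lib.MP_1db5af_an

open MeasureTheory Filter Topology ComplexConjugate Finset InnerProductSpace

section
variable {X : Type*} [MetricSpace X] [CompactSpace X] [MeasurableSpace X] [BorelSpace X]
  (μ : Measure X) [IsFiniteMeasure μ]

theorem dense_memLp (f : C(X, ℂ)) : MemLp f 2 μ :=
  f.continuous.memLp_of_hasCompactSupport (HasCompactSupport.of_compactSpace _)

theorem dense_toLp (f : C(X, ℂ)) : L2 μ f = ContinuousMap.toLp (E := ℂ) 2 μ ℂ f :=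
  Lp.ext ((L2_coe (dense_memLp μ f)).trans (ContinuousMap.coeFn_toLp μ f).symm)

theorem dense_span {ι : Type*} (φ : ι → C(X, ℂ))
    (h : (Submodule.span ℂ (Set.range φ)).topologicalClosure = ⊤) :
    (Submodule.span ℂ (Set.range fun i => L2 μ (φ i))).topologicalClosure = ⊤ := by
  have h1 := (ContinuousMap.toLp_denseRange ℂ μ ℂ (p := 2)
    ENNReal.ofNat_ne_top).topologicalClosure_map_submodule h
  rw [Submodule.map_span, ← Set.range_comp] at h1
  simp only [dense_toLp]
  exact h1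

end

theorem dense_T2 (γ : Measure (UnitAddCircle × UnitAddCircle)) [IsFiniteMeasure γ] :
    (Submodule.span ℂ (Set.range fun n : ℤ × ℤ =>
      L2 γ fun p => fourier n.1 p.1 * fourier n.2 p.2)).topologicalClosure = ⊤ := by
  let e : (Fin 2 → UnitAddCircle) ≃ₜ UnitAddCircle × UnitAddCircle := Homeomorph.finTwoArrow
  let Φ : C(UnitAddTorus (Fin 2), ℂ) →L[ℂ] C(UnitAddCircle × UnitAddCircle, ℂ) :=
    ContinuousMap.compCLM ℂ ℂ (e.symm : C(_, _))
  have hΦ : Function.Surjective Φ := fun g => ⟨g.comp (e : C(_, _)), by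
    ext p
    exact congrArg g (e.apply_symm_apply p)⟩
  have h1 := hΦ.denseRange.topologicalClosure_map_submodule
    UnitAddTorus.span_mFourier_closure_eq_top
  rw [Submodule.map_span, ← Set.range_comp] at h1
  refine dense_span γ (fun n : ℤ × ℤ =>
    ⟨fun p => fourier n.1 p.1 * fourier n.2 p.2, by fun_prop⟩) ?_
  refine top_unique (h1.ge.trans (Submodule.topologicalClosure_mono (Submodule.span_mono ?_)))
  rintro _ ⟨n, rfl⟩
  refine ⟨(n 0, n 1), ?_⟩
  ext p
  exact (Fin.prod_univ_two fun i => fourier (n i) (e.symm p i)).symm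

theorem dense_parseval (S : Finset ℤ) (c : ℤ → ℂ) :
    ∫ θ : UnitAddCircle, ‖∑ n ∈ S, c n * fourier n θ‖ ^ 2 ∂AddCircle.haarAddCircle =
      ∑ n ∈ S, ‖c n‖ ^ 2 := by
  have hm : ∀ n ∈ S, MemLp (fun θ : UnitAddCircle => c n * fourier n θ) 2
      AddCircle.haarAddCircle := fun n _ => (dense_memLp _ (fourier n)).const_mul _
  rw [← norm_L2_sq (memLp_finsetSum _ hm), L2_sum _ hm]
  simp only [fun n => L2_mul (c n) (dense_memLp (X := UnitAddCircle) AddCircle.haarAddCircle
    (fourier n)), dense_toLp]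
  have h := (orthonormal_fourier (T := 1)).inner_sum c c S
  rw [inner_self_eq_norm_sq_to_K] at h
  simp only [Complex.conj_mul'] at h
  exact Complex.ofReal_injective (by push_cast; exact h)

theorem dense_shift {E : Type*} [AddCommMonoid E] (S : Finset ℤ) (L M : ℕ) (F : ℤ → E)
    (hF : ∀ n, n ∉ S → F n = 0) (hS : ∀ n ∈ S, -(L : ℤ) ≤ n ∧ n + L < M) :
    ∑ j ∈ range M, F ((j : ℤ) - L) = ∑ n ∈ S, F n := by
  rw [← Finset.sum_image (s := range M) (g := fun j : ℕ => (j : ℤ) - L) (f := F)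
    fun a _ b _ h => by simpa using h]
  refine (Finset.sum_subset (fun n hn => ?_) fun n _ hn => hF n hn).symm
  obtain ⟨h1, h2⟩ := hS n hn
  exact Finset.mem_image.2 ⟨(n + L).toNat, mem_range.2 (by omega), by omega⟩

theorem exists_poly (σ : Measure UnitAddCircle) [IsFiniteMeasure σ] (hσ : σ ⟂ₘ volume) {ε : ℝ}
    (hε : 0 < ε) : ∃ (L M : ℕ) (q : ℕ → ℂ),
      ∫ θ, ‖fourier L θ - ∑ j ∈ range M, q j * fourier j θ‖ ^ 2 ∂σ ≤ ε ∧
        ∑ j ∈ range M, ‖q j‖ ^ 2 ≤ ε := by
  obtain ⟨s, hs, h1, h2⟩ := hσ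
  rw [AddCircle.volume_eq_smul_haarAddCircle, ENNReal.ofReal_one, one_smul] at h2
  set μ : Measure UnitAddCircle := σ + AddCircle.haarAddCircle with hμ
  let h : UnitAddCircle → ℂ := sᶜ.indicator fun _ => 1
  have hh : MemLp h 2 μ := (memLp_const 1).indicator hs.compl
  have h3 : L2 μ h ∈ closure ((Submodule.span ℂ (Set.range fun n : ℤ => L2 μ (fourier n)) :
      Submodule ℂ (Lp ℂ 2 μ)) : Set (Lp ℂ 2 μ)) := by
    rw [← Submodule.topologicalClosure_coe, dense_span μ _ span_fourier_closure_eq_top]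
    trivial
  obtain ⟨v, hv, hd⟩ := Metric.mem_closure_iff.1 h3 (Real.sqrt ε) (Real.sqrt_pos.2 hε)
  obtain ⟨c, rfl⟩ := Finsupp.mem_span_range_iff_exists_finsupp.1 hv
  have hm : ∀ n ∈ c.support, MemLp (fun θ : UnitAddCircle => c n * fourier n θ) 2 μ :=
    fun n _ => (dense_memLp _ (fourier n)).const_mul _
  have hP := memLp_finsetSum _ hm
  have e1 : (c.sum fun n a => a • L2 μ (fourier n)) =
      L2 μ fun θ => ∑ n ∈ c.support, c n * fourier n θ := by
    rw [L2_sum _ hm]
    exact Finset.sum_congr rfl fun n _ => (L2_mul _ (dense_memLp _ (fourier n))).symm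
  rw [e1, dist_eq_norm, ← L2_sub hh hP] at hd
  have hd2 := pow_le_pow_left₀ (norm_nonneg _) hd.le 2
  have hQ : MemLp (fun θ => h θ - ∑ n ∈ c.support, c n * fourier n θ) 2 μ := hh.sub hP
  rw [Real.sq_sqrt hε.le, norm_L2_sq hQ] at hd2
  have hi := hQ.norm.integrable_sq
  rw [hμ, integral_add_measure hi.left_of_add_measure hi.right_of_add_measure] at hd2
  have n1 : 0 ≤ ∫ θ, ‖h θ - ∑ n ∈ c.support, c n * fourier n θ‖ ^ 2 ∂σ :=
    integral_nonneg fun _ => sq_nonneg _
  have n2 : 0 ≤ ∫ θ, ‖h θ - ∑ n ∈ c.support, c n * fourier n θ‖ ^ 2 ∂AddCircle.haarAddCircle :=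
    integral_nonneg fun _ => sq_nonneg _
  have hL : ∀ n ∈ c.support, n.natAbs ≤ c.support.sup Int.natAbs := fun n hn => Finset.le_sup hn
  generalize c.support.sup Int.natAbs = L at hL
  have hS : ∀ n ∈ c.support, -(L : ℤ) ≤ n ∧ n + L < (2 * L + 1 : ℕ) := fun n hn => by
    have := hL n hn
    omega
  refine ⟨L, 2 * L + 1, fun j => c ((j : ℤ) - L), ?_, ?_⟩
  · refine le_trans (le_of_eq (integral_congr_ae ?_)) ((le_add_of_nonneg_right n2).trans hd2)
    filter_upwards [measure_eq_zero_iff_ae_notMem.1 h1] with θ hθ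
    have e2 := dense_shift c.support L (2 * L + 1) (fun n => c n * fourier (n + L) θ)
      (fun n hn => by rw [Finsupp.notMem_support_iff.1 hn, zero_mul]) hS
    simp only [sub_add_cancel] at e2
    have e3 : h θ = 1 := Set.indicator_of_mem (s := sᶜ) hθ _
    have e4 : ‖fourier (L : ℤ) θ‖ = 1 := Circle.norm_coe _
    have e5 : fourier (L : ℤ) θ - ∑ n ∈ c.support, c n * fourier (n + L) θ =
        (1 - ∑ n ∈ c.support, c n * fourier n θ) * fourier (L : ℤ) θ := by
      rw [sub_mul, one_mul, Finset.sum_mul]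
      simp only [fourier_add, mul_assoc]
    rw [e2, e3, e5, norm_mul, e4, mul_one]
  · rw [dense_shift c.support L (2 * L + 1) (fun n => ‖c n‖ ^ 2)
      (fun n hn => by simp [Finsupp.notMem_support_iff.1 hn]) hS, ← dense_parseval]
    refine le_trans (le_of_eq (integral_congr_ae ?_)) ((le_add_of_nonneg_left n1).trans hd2)
    filter_upwards [measure_eq_zero_iff_ae_notMem.1 h2] with θ hθ
    have e3 : h θ = 0 := Set.indicator_of_notMem hθ _
    rw [e3, zero_sub, norm_neg]

end Pool.Agent.Lib.MP_1db5af_an
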