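import Pool.Agent.Lib.MP_1db5af_an.Slice

set_option autoImplicit false

namespace Pool.Agent.Lib.MP_1db5af_an

open MeasureTheory Set Filter Topology
open scoped ENNReal

/-- The measure `n` is almost dominated by its translate. -/
def Close (n : Measure UnitAddCircle) (t : UnitAddCircle) (b : ℝ≥0∞) : Prop :=
  ∀ E, MeasurableSet E → n E ≤ n ((t + ·) ⁻¹' E) + b

theorem Close.add {n : Measure UnitAddCircle} {s t : UnitAddCircle} {b b' : ℝ≥0∞}
    (h : Close n s b) (h' : Close n t b') : Close n (s + t) (b' + b) := by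
  intro E hE
  have h1 := h' _ (measurable_const_add s hE)
  have e : (t + ·) ⁻¹' ((s + ·) ⁻¹' E) = ((s + t) + ·) ⁻¹' E := by
    ext y; simp [add_assoc]
  rw [e] at h1
  exact (h E hE).trans (by rw [← add_assoc]; gcongr)

theorem host_norm_coe (x : ℝ) : ‖(x : UnitAddCircle)‖ ≤ |x| := QuotientAddGroup.norm_mk_le_norm

theorem host_sing (n : Measure UnitAddCircle) [IsFiniteMeasure n] (hs : n ⟂ₘ volume) {η : ℝ}
    (hη : 0 < η) {b b' : ℝ≥0∞} (hb : b ≠ 0)
    (H : ∀ r : ℝ, 0 < r → ∃ τ : ℝ, 0 < τ ∧ τ < r ∧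
      ∀ j : ℕ, j * τ < η → Close n ((j * τ : ℝ) : UnitAddCircle) b') :
    n univ ≤ b + b' + b := by
  obtain ⟨A, hA, hA1, hA2⟩ := hs
  obtain ⟨N, hNA, hN, hN1⟩ := hA.compl.exists_isCompact_lt_add (measure_ne_top n _) hb
  have hN0 : volume N = 0 := measure_mono_null hNA hA2
  have hu : n Aᶜ = n univ := measure_congr (ae_eq_univ.2 (by simpa using hA1))
  have hW : MeasurableSet {p : UnitAddCircle × UnitAddCircle | p.1 + p.2 ∈ N} :=
    measurable_add hN.measurableSet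
  have h1 : (volume.prod n) {p : UnitAddCircle × UnitAddCircle | p.1 + p.2 ∈ N} = 0 := by
    rw [Measure.prod_apply_symm hW]
    refine (lintegral_congr fun y => ?_).trans lintegral_zero
    exact (measure_preimage_add_right volume y N).trans hN0
  have h2 := (Measure.measure_prod_null hW).1 h1
  have h3 : volume ((fun x : ℝ => (x : UnitAddCircle)) '' Ioo 0 η) ≠ 0 :=
    ((QuotientAddGroup.isOpenMap_coe _ isOpen_Ioo).measure_pos volume
      ((nonempty_Ioo.2 hη).image _)).ne'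
  obtain ⟨_, ⟨x, hx, rfl⟩, hx0⟩ := Measure.exists_mem_of_measure_ne_zero_of_ae h3
    (ae_restrict_of_ae h2)
  have hcl : IsClosed (((x : UnitAddCircle) + ·) ⁻¹' N) :=
    hN.isClosed.preimage (continuous_const_add _)
  have h4 := tendsto_measure_cthickening_of_isClosed (μ := n) ⟨1, one_pos, measure_ne_top _ _⟩ hcl
  have h5 : n (((x : UnitAddCircle) + ·) ⁻¹' N) = 0 := hx0
  rw [h5] at h4
  obtain ⟨r, hr, hr1⟩ := Metric.eventually_nhds_iff.1 (h4.eventually (gt_mem_nhds hb.bot_lt))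
  obtain ⟨τ, hτ0, hτ, hC⟩ := H r hr
  have h6 : (⌊x / τ⌋₊ : ℝ) * τ ≤ x := by
    rw [← le_div_iff₀ hτ0]; exact Nat.floor_le (div_pos hx.1 hτ0).le
  have h7 : x < (⌊x / τ⌋₊ + 1 : ℝ) * τ := by
    rw [← div_lt_iff₀ hτ0]; exact Nat.lt_floor_add_one _
  have h8 := hC ⌊x / τ⌋₊ (h6.trans_lt hx.2) N hN.measurableSet
  obtain ⟨z, hz⟩ : ∃ z : ℝ, z = ⌊x / τ⌋₊ * τ := ⟨_, rfl⟩
  rw [← hz] at h8
  have h9 : ((z : UnitAddCircle) + ·) ⁻¹' N ⊆
      Metric.cthickening τ (((x : UnitAddCircle) + ·) ⁻¹' N) := by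
    intro y hy
    refine Metric.mem_cthickening_of_dist_le y (y + ((z - x : ℝ) : UnitAddCircle)) _ _ ?_ ?_
    · have e : (x : UnitAddCircle) + (y + ((z - x : ℝ) : UnitAddCircle)) = z + y := by
        rw [QuotientAddGroup.mk_sub]; abel
      simpa only [mem_preimage, e] using hy
    · rw [dist_self_add_right]
      refine (host_norm_coe _).trans (abs_le.2 ⟨?_, ?_⟩) <;> linarith
  have h10 := hr1 (y := τ) (by rwa [Real.dist_eq, sub_zero, abs_of_pos hτ0])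
  calc n univ ≤ n N + b := hu ▸ hN1.le
    _ ≤ n (((z : UnitAddCircle) + ·) ⁻¹' N) + b' + b := by gcongr
    _ ≤ _ := by gcongr; exact (measure_mono h9).trans h10.le

theorem host_level (n : Measure UnitAddCircle) [IsFiniteMeasure n] {F : UnitAddCircle → ℝ≥0∞}
    (hF : Measurable F) {e : ℝ≥0∞} (he : e ≠ 0) :
    ∃ κ : ℝ≥0∞, κ ≠ 0 ∧ κ ≠ ∞ ∧ n {y | F y < κ} ≤ n {y | F y = 0} + e := by
  have h1 := tendsto_measure_iInter_atTop (μ := n) (s := fun k : ℕ => {y | F y < (k : ℝ≥0∞)⁻¹})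
    (fun k => (measurableSet_lt hF measurable_const).nullMeasurableSet)
    (fun k k' h y hy => lt_of_lt_of_le hy (ENNReal.inv_le_inv.2 (by exact_mod_cast h)))
    ⟨0, measure_ne_top _ _⟩
  have h2 : (⋂ k : ℕ, {y | F y < (k : ℝ≥0∞)⁻¹}) ⊆ {y | F y = 0} := by
    intro y hy
    by_contra h
    obtain ⟨k, hk⟩ := ENNReal.exists_inv_nat_lt h
    exact absurd (mem_iInter.1 hy k) (not_lt.2 hk.le)
  have h3 := h1.eventually (gt_mem_nhds ((measure_mono h2).trans_lt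
    (ENNReal.lt_add_right (measure_ne_top n _) he)))
  obtain ⟨k, hk, hk1⟩ := (h3.and (eventually_gt_atTop 0)).exists
  exact ⟨(k : ℝ≥0∞)⁻¹, by simp, by simpa using hk1.ne', hk.le⟩

theorem host_ac {α : Type*} [MeasurableSpace α] {n τ : Measure α} [IsFiniteMeasure n]
    [IsFiniteMeasure τ] (h : n ≪ τ) {e : ℝ≥0∞} (he : e ≠ 0) : ∃ δ : ℝ≥0∞, δ ≠ 0 ∧ ∀ Z, MeasurableSet Z → τ Z < δ → n Z ≤ e := by
  obtain ⟨δ, hδ, h1⟩ := exists_pos_setLIntegral_lt_of_measure_lt (μ := τ) (f := n.rnDeriv τ)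
    (Measure.lintegral_rnDeriv_lt_top n τ).ne he
  refine ⟨δ, hδ.ne', fun Z hZ h2 => ?_⟩
  rw [← Measure.setLIntegral_rnDeriv' h hZ]
  exact (h1 Z h2).le

/-- The second use of the slices: almost invariance under a small translation forces the
translation to be a difference of two points of `K`. -/
theorem host_good (ρ : Measure (UnitAddCircle × UnitAddCircle)) (σ₁ σ₂ σ₃ : Measure UnitAddCircle)
    [IsFiniteMeasure ρ] [IsFiniteMeasure σ₁] [IsFiniteMeasure σ₂] [IsFiniteMeasure σ₃]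
    (h12 : ρ ≪ σ₁.prod σ₂) (h23 : ρ.map (fun p => (p.2, p.2 + p.1)) ≪ σ₂.prod σ₃)
    {K : Set UnitAddCircle} (hK : MeasurableSet K) (n : Measure UnitAddCircle) [IsFiniteMeasure n]
    (hn : n ≪ σ₂) {e : ℝ≥0∞} (he : e ≠ 0)
    (h0 : ∀ Z, MeasurableSet Z → ρ (K ×ˢ Z) = 0 → n Z ≤ e) :
    ∃ η : ℝ, 0 < η ∧ ∀ (t : UnitAddCircle) (b : ℝ≥0∞), ‖t‖ < η → Close n t b →
      6 * e + b < n univ → ∃ x ∈ K, t + x ∈ K := by
  have hle : ρ.restrict (K ×ˢ univ) ≪ ρ := Measure.restrict_le_self.absolutelyContinuous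
  obtain ⟨la, hm, -, hρ, hε⟩ := slice ((ρ.restrict (K ×ˢ univ)).map Prod.swap) σ₂ σ₁ σ₃
    (by rw [← Measure.prod_swap]; exact (hle.trans h12).map measurable_swap)
    (by
      rw [Measure.map_map (by fun_prop) measurable_swap]
      exact (hle.map (f := fun p => (p.2, p.2 + p.1)) (by fun_prop)).trans h23)
  have hρ' : ∀ A E, MeasurableSet A → MeasurableSet E →
      ρ ((E ∩ K) ×ˢ A) = ∫⁻ y in A, la y E ∂σ₂ := by
    intro A E hA hE
    rw [← hρ A E hA hE, Measure.map_apply measurable_swap (hA.prod hE), preimage_swap_prod,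
      Measure.restrict_apply (hE.prod hA), prod_inter_prod, inter_univ]
  have h1 : σ₂ {y | la y Kᶜ ≠ 0} = 0 := by
    have h2 := hρ' univ Kᶜ MeasurableSet.univ hK.compl
    rw [compl_inter_self, empty_prod, measure_empty, Measure.restrict_univ] at h2
    exact (lintegral_eq_zero_iff (hm _ hK.compl)).1 h2.symm
  have h2 : n {y | la y univ = 0} ≤ e := by
    have hZ : MeasurableSet {y | la y univ = 0} := hm _ MeasurableSet.univ (measurableSet_singleton 0)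
    refine h0 _ hZ ?_
    have h3 := hρ' _ univ hZ MeasurableSet.univ
    rw [univ_inter] at h3
    rw [h3]
    exact (setLIntegral_congr_fun hZ fun y hy => hy).trans lintegral_zero
  obtain ⟨κ, hκ0, hκ1, hκ⟩ := host_level n (hm _ MeasurableSet.univ) he
  obtain ⟨δ, hδ0, hδ⟩ := host_ac hn he
  obtain ⟨ε, hε0, hε1⟩ := exists_between (lt_min hκ0.bot_lt hδ0.bot_lt)
  obtain ⟨η, hη, Z, hZ, hZ1, -, hZ2⟩ := hε ε hε0.ne'
  refine ⟨η, hη, fun t b ht hC hb => ?_⟩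
  obtain ⟨B, hB⟩ : ∃ B, B = {y | la y Kᶜ ≠ 0} ∪ {y | la y univ < κ} ∪ Z := ⟨_, rfl⟩
  have hBm : MeasurableSet B := by
    rw [hB]
    exact (((hm _ hK.compl (measurableSet_singleton 0)).compl).union
      (measurableSet_lt (hm _ MeasurableSet.univ) measurable_const)).union hZ
  have hB1 : n B ≤ 3 * e := by
    rw [hB]
    refine (measure_union_le _ _).trans ((add_le_add (measure_union_le _ _) le_rfl).trans ?_)
    rw [hn h1, zero_add]
    calc _ ≤ (e + e) + e := add_le_add (hκ.trans (by gcongr))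
          (hδ Z hZ (hZ1.trans_lt (hε1.trans_le (min_le_right _ _))))
      _ = _ := by ring
  have h3 : (Bᶜ ∩ (t + ·) ⁻¹' Bᶜ).Nonempty := by
    by_contra h4
    have h5 : (t + ·) ⁻¹' Bᶜ ⊆ B := fun y hy => by
      by_contra h6
      exact h4 ⟨y, h6, hy⟩
    refine absurd hb (not_lt.2 ?_)
    calc n univ = n B + n Bᶜ := (measure_add_measure_compl hBm).symm
      _ ≤ 3 * e + (3 * e + b) := by
        gcongr
        exact (hC _ hBm.compl).trans (by gcongr; exact (measure_mono h5).trans hB1)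
      _ = _ := by ring
  obtain ⟨y, hy, hy'⟩ := h3
  rw [hB] at hy hy'
  simp only [mem_preimage, mem_compl_iff, mem_union, mem_ofPred_eq, not_or, not_not, not_lt]
    at hy hy'
  have h4 := (hZ2 y hy.2 (t + y) hy'.2 (by rwa [dist_comm, dist_eq_norm, add_sub_cancel_right]) ((-y + ·) ⁻¹' K)
    (measurable_const_add _ hK)).2
  have e1 : (y + ·) ⁻¹' ((-y + ·) ⁻¹' K) = K := by ext x; simp
  have e2 : (t + y + ·) ⁻¹' ((-y + ·) ⁻¹' K) = (t + ·) ⁻¹' K := by
    ext x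
    simp only [mem_preimage]
    rw [show -y + (t + y + x) = t + x by abel]
  rw [e1, e2] at h4
  by_contra h5
  push Not at h5
  have h6 : la (t + y) ((t + ·) ⁻¹' K) = 0 :=
    measure_mono_null (fun x hx hx' => h5 x hx' hx) hy'.1.1
  have h7 : la y univ ≤ la y K := by
    rw [← measure_add_measure_compl hK, hy.1.1, add_zero]
  rw [h6, zero_add] at h4
  exact absurd (hy.1.2.trans (h7.trans h4)) (not_le.2 (hε1.trans_le (min_le_left _ _)))

theorem host (ρ : Measure (UnitAddCircle × UnitAddCircle)) (σ₁ σ₂ σ₃ : Measure UnitAddCircle)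
    [IsFiniteMeasure ρ] [IsFiniteMeasure σ₁] [IsFiniteMeasure σ₂] [IsFiniteMeasure σ₃]
    (h12 : ρ ≪ σ₁.prod σ₂) (h13 : ρ.map (fun p => (p.1, p.1 + p.2)) ≪ σ₁.prod σ₃)
    (h23 : ρ.map (fun p => (p.2, p.2 + p.1)) ≪ σ₂.prod σ₃) (hs : σ₂ ⟂ₘ volume) :
    ρ {p | σ₁ {p.1} = 0} = 0 := by
  by_contra hne
  obtain ⟨ν, hm, hac, hρ, hε⟩ := slice ρ σ₁ σ₂ σ₃ h12 h13
  have hA : MeasurableSet {x | σ₁ {x} = 0} := by
    have h1 : {x | 0 < σ₁ {a | id a = x}}.Countable :=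
      Measure.countable_meas_level_set_pos measurable_id
    have e : {x | σ₁ {x} = 0} = {x | 0 < σ₁ {a | id a = x}}ᶜ := by
      ext x; simp
    rw [e]
    exact h1.measurableSet.compl
  have h1 : ∃ k : ℕ, σ₁ ({x | σ₁ {x} = 0} ∩ {x | (k : ℝ≥0∞)⁻¹ ≤ ν x univ}) ≠ 0 := by
    by_contra h
    push Not at h
    apply hne
    have e : {p : UnitAddCircle × UnitAddCircle | σ₁ {p.1} = 0} = {x | σ₁ {x} = 0} ×ˢ univ := by
      ext p; simp
    rw [e, hρ _ _ hA MeasurableSet.univ, lintegral_eq_zero_iff (hm _ MeasurableSet.univ),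
      Filter.EventuallyEq, ae_restrict_iff' hA]
    refine measure_mono_null (fun x hx => ?_) (measure_iUnion_null h)
    simp only [mem_compl_iff, mem_ofPred_eq, Classical.not_imp, Pi.zero_apply] at hx
    obtain ⟨k, hk⟩ := ENNReal.exists_inv_nat_lt hx.2
    exact mem_iUnion.2 ⟨k, hx.1, hk.le⟩
  obtain ⟨k, hk⟩ := h1
  obtain ⟨G, hG⟩ : ∃ G, G = {x | σ₁ {x} = 0} ∩ {x | (k : ℝ≥0∞)⁻¹ ≤ ν x univ} := ⟨_, rfl⟩
  have hGm : MeasurableSet G :=
    hG ▸ hA.inter (measurableSet_le measurable_const (hm _ MeasurableSet.univ))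
  rw [← hG] at hk
  obtain ⟨e, he0, he1⟩ := exists_between (lt_min hk.bot_lt
    (show (⊥ : ℝ≥0∞) < (k : ℝ≥0∞)⁻¹ / 100 from ENNReal.div_pos (by simp) (by simp)))
  have he2 : 100 * e < (k : ℝ≥0∞)⁻¹ := by
    rw [mul_comm]
    exact ENNReal.mul_lt_of_lt_div (he1.trans_le (min_le_right _ _))
  obtain ⟨η₁, hη₁, Z, hZ, hZ1, hZ2, hZ3⟩ := hε e he0.ne'
  have h2 : σ₁ (G \ Z) ≠ 0 := by
    intro h
    have h3 := measure_le_inter_add_sdiff σ₁ G Z
    rw [h, add_zero] at h3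
    exact absurd (h3.trans ((measure_mono inter_subset_right).trans hZ1))
      (not_le.2 (he1.trans_le (min_le_left _ _)))
  have h3 : ∃ x₀ ∈ G \ Z, ∀ u ∈ 𝓝[G \ Z] x₀, σ₁ u ≠ 0 := by
    by_contra h
    push Not at h
    exact h2 (measure_null_of_locally_null _ h)
  obtain ⟨x₀, hx₀, h4⟩ := h3
  obtain ⟨K, hK⟩ : ∃ K, K = (G \ Z) ∩ Metric.ball x₀ (η₁ / 2) := ⟨_, rfl⟩
  have hKm : MeasurableSet K := hK ▸ (hGm.diff hZ).inter measurableSet_ball
  have hKn : K ∈ 𝓝[G \ Z] x₀ := hK ▸ inter_mem_nhdsWithin _ (Metric.ball_mem_nhds _ (by positivity))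
  have hx₀K : x₀ ∈ K := hK ▸ ⟨hx₀, Metric.mem_ball_self (by positivity)⟩
  have hKK : ∀ x ∈ K, ∀ x' ∈ K, ∀ E, MeasurableSet E →
      ν x E ≤ ν x' E + e ∧ ν x ((x + ·) ⁻¹' E) ≤ ν x' ((x' + ·) ⁻¹' E) + e := by
    intro x hx x' hx'
    rw [hK] at hx hx'
    refine hZ3 x hx.1.2 x' hx'.1.2 ?_
    linarith [dist_triangle_right x x' x₀, Metric.mem_ball.1 hx.2, Metric.mem_ball.1 hx'.2]
  have : IsFiniteMeasure (ν x₀) := ⟨(hZ2 x₀ hx₀.2).lt_top⟩
  have hu : 100 * e < ν x₀ univ := he2.trans_le (by rw [hG] at hx₀; exact hx₀.1.2)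
  have hgc : ∀ t, (∃ x ∈ K, t + x ∈ K) → Close (ν x₀) t (3 * e) := by
    rintro t ⟨x, hx, hx'⟩ E hE
    have h5 := (hKK x hx (t + x) hx' ((-x + ·) ⁻¹' E) (measurable_const_add _ hE)).2
    have e1 : (x + ·) ⁻¹' ((-x + ·) ⁻¹' E) = E := by ext y; simp
    have e2 : (t + x + ·) ⁻¹' ((-x + ·) ⁻¹' E) = (t + ·) ⁻¹' E := by
      ext y
      simp only [mem_preimage]
      rw [show -x + (t + x + y) = t + y by abel]
    rw [e1, e2] at h5
    calc ν x₀ E ≤ ν x E + e := (hKK x₀ hx₀K x hx E hE).1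
      _ ≤ ν (t + x) ((t + ·) ⁻¹' E) + e + e := by gcongr
      _ ≤ ν x₀ ((t + ·) ⁻¹' E) + e + e + e := by
        gcongr
        exact (hKK _ hx' x₀ hx₀K _ (measurable_const_add _ hE)).1
      _ = _ := by ring
  obtain ⟨η, hη, hcg⟩ := host_good ρ σ₁ σ₂ σ₃ h12 h23 hKm (ν x₀) (hac x₀) he0.ne' (by
    intro Z' hZ' h5
    rw [hρ _ _ hKm hZ', lintegral_eq_zero_iff (hm _ hZ')] at h5
    obtain ⟨x, hx, h6⟩ := Measure.exists_mem_of_measure_ne_zero_of_ae (h4 K hKn) h5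
    have h7 := (hKK x₀ hx₀K x hx Z' hZ').1
    rwa [show ν x Z' = 0 from h6, zero_add] at h7)
  have h5 := host_sing (ν x₀) (hs.mono_ac (hac x₀) Measure.AbsolutelyContinuous.rfl) hη
    (b' := 3 * e) he0.ne' ?_
  · refine absurd hu (not_lt.2 (h5.trans ?_))
    rw [show e + 3 * e + e = 5 * e by ring]
    gcongr
    norm_num
  intro r hr
  have h6 : ∃ τ : ℝ, 0 < τ ∧ τ < r ∧ ∃ x ∈ K, (τ : UnitAddCircle) + x ∈ K := by
    have h7 := h4 _ (inter_mem hKn (mem_nhdsWithin_of_mem_nhds (Metric.ball_mem_nhds x₀ hr)))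
    have h8 : ¬ K ∩ Metric.ball x₀ r ⊆ {x₀} := fun h =>
      h7 (measure_mono_null h (by rw [hG] at hx₀; exact hx₀.1.1))
    obtain ⟨x, ⟨hx, hxr⟩, hne'⟩ := not_subset.1 h8
    obtain ⟨z, hz⟩ := QuotientAddGroup.mk_surjective (x - x₀)
    have hz' : ((z - round z : ℝ) : UnitAddCircle) = x - x₀ := by
      rw [QuotientAddGroup.mk_sub, hz, sub_eq_self]
      exact (AddCircle.coe_eq_zero_iff _).2 ⟨round z, by simp⟩
    have hn : |z - round z| < r := by
      rw [← UnitAddCircle.norm_eq, hz, ← dist_eq_norm]; exact hxr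
    rcases lt_trichotomy (z - round z) 0 with h | h | h
    · refine ⟨-(z - round z), by linarith, by rwa [abs_of_neg h] at hn, x, hx, ?_⟩
      rw [QuotientAddGroup.mk_neg, hz']
      simpa using hx₀K
    · rw [h] at hz'
      exact absurd (sub_eq_zero.1 hz'.symm) hne'
    · refine ⟨z - round z, h, by rwa [abs_of_pos h] at hn, x₀, hx₀K, ?_⟩
      rw [hz']
      simpa using hx
  obtain ⟨τ, hτ0, hτ, hτK⟩ := h6
  refine ⟨τ, hτ0, hτ, fun j => ?_⟩
  induction j with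
  | zero => exact fun _ => hgc _ ⟨x₀, hx₀K, by simpa using hx₀K⟩
  | succ j ih =>
    intro hj
    have h7 := (ih (by push_cast at hj; linarith)).add (hgc _ hτK)
    rw [← QuotientAddGroup.mk_add, show (j : ℝ) * τ + τ = ((j + 1 : ℕ) : ℝ) * τ by push_cast; ring]
      at h7
    refine hgc _ (hcg _ _ ((host_norm_coe _).trans_lt (by rwa [abs_of_pos (by positivity)])) h7
      (lt_of_le_of_lt ?_ hu))
    rw [show 6 * e + (3 * e + 3 * e) = 12 * e by ring]
    gcongr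
    norm_num

end Pool.Agent.Lib.MP_1db5af_an
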