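import Pool.Agent.Lib.MP_1db5af_an.Host
import Pool.Agent.Lib.MP_1db5af_an.Dense

set_option autoImplicit false

namespace Pool.Agent.Lib.MP_1db5af_an

open MeasureTheory Filter Topology ComplexConjugate Finset InnerProductSpace

/-- Characters of the two-torus. -/
noncomputable def hostabs_ch (l : ℤ × ℤ) (p : UnitAddCircle × UnitAddCircle) : ℂ :=
  fourier l.1 p.1 * fourier l.2 p.2

theorem hostabs_cont (l : ℤ × ℤ) : Continuous (hostabs_ch l) := by
  unfold hostabs_ch; fun_prop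

theorem hostabs_norm (l : ℤ × ℤ) (p : UnitAddCircle × UnitAddCircle) : ‖hostabs_ch l p‖ = 1 := by
  rw [hostabs_ch, norm_mul, norm_fourier, norm_fourier, one_mul]

theorem hostabs_mem (γ : Measure (UnitAddCircle × UnitAddCircle)) [IsFiniteMeasure γ] (l : ℤ × ℤ) :
    MemLp (hostabs_ch l) 2 γ :=
  MemLp.of_bound (hostabs_cont l).aestronglyMeasurable 1
    (Eventually.of_forall fun p => (hostabs_norm l p).le)

theorem hostabs_mem_sum (γ : Measure (UnitAddCircle × UnitAddCircle)) [IsFiniteMeasure γ]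
    (I : Finset (ℤ × ℤ)) (q : ℤ × ℤ → ℂ) :
    MemLp (fun p => ∑ l ∈ I, q l * hostabs_ch l p) 2 γ :=
  memLp_finsetSum _ fun l _ => (hostabs_mem γ l).const_mul _

/-- The inequality between the functional and the quadratic form of a measure. -/
def hostabs_Bd (ell : ℤ × ℤ → ℂ) (C : ℝ) (γ : Measure (UnitAddCircle × UnitAddCircle)) : Prop :=
  ∀ (I : Finset (ℤ × ℤ)) (q : ℤ × ℤ → ℂ),
    ‖∑ l ∈ I, q l * ell l‖ ^ 2 ≤ C * ∫ p, ‖∑ l ∈ I, q l * hostabs_ch l p‖ ^ 2 ∂γ

theorem hostabs_rep (ell : ℤ × ℤ → ℂ) {C : ℝ} (hC : 0 ≤ C)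
    (γ : Measure (UnitAddCircle × UnitAddCircle)) [IsFiniteMeasure γ] (H : hostabs_Bd ell C γ) :
    ∃ ψ : Lp ℂ 2 γ, (∀ l, ell l = ∫ p, hostabs_ch l p * conj (ψ p) ∂γ) ∧
      ∀ γ' : Measure (UnitAddCircle × UnitAddCircle), γ' ≤ γ → hostabs_Bd ell C γ' →
        γ.restrict {p | ψ p ≠ 0} ≪ γ' := by
  classical
  set io : (ℤ × ℤ →₀ ℂ) →ₗ[ℂ] Lp ℂ 2 γ :=
    Finsupp.linearCombination ℂ fun l => L2 γ (hostabs_ch l) with hio
  set Lf : (ℤ × ℤ →₀ ℂ) →ₗ[ℂ] ℂ := Finsupp.linearCombination ℂ ell with hLf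
  have io_eq : ∀ q : ℤ × ℤ →₀ ℂ,
      io q = L2 γ fun p => ∑ l ∈ q.support, q l * hostabs_ch l p := fun q => by
    rw [L2_sum _ fun l _ => (hostabs_mem γ l).const_mul _, hio, Finsupp.linearCombination_apply,
      Finsupp.sum]
    exact Finset.sum_congr rfl fun l _ => (L2_mul _ (hostabs_mem γ l)).symm
  have Lf_eq : ∀ q : ℤ × ℤ →₀ ℂ, Lf q = ∑ l ∈ q.support, q l * ell l := fun q => by
    rw [hLf, Finsupp.linearCombination_apply, Finsupp.sum]; rfl
  have hd : DenseRange io := by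
    have h1 := dense_T2 γ
    have h2 : LinearMap.range io = Submodule.span ℂ (Set.range fun n : ℤ × ℤ =>
        L2 γ fun p => fourier n.1 p.1 * fourier n.2 p.2) := by
      rw [hio, Finsupp.range_linearCombination]; rfl
    rw [← h2] at h1
    exact Submodule.dense_iff_topologicalClosure_eq_top.mpr h1
  have hb : ∀ q, ‖Lf q‖ ≤ Real.sqrt C * ‖io q‖ := fun q => by
    have h1 := H q.support q
    rw [← Lf_eq, ← norm_L2_sq (hostabs_mem_sum γ _ _), ← io_eq] at h1
    refine (abs_le_of_sq_le_sq' ?_ (by positivity)).2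
    rw [mul_pow, Real.sq_sqrt hC]; exact h1
  set Λ := Lf.extendOfNorm io with hΛ
  have Λ_io : ∀ q, Λ (io q) = Lf q := LinearMap.extendOfNorm_eq hd ⟨_, hb⟩
  set ψ : Lp ℂ 2 γ := (toDual ℂ (Lp ℂ 2 γ)).symm Λ with hψ
  have Λ_eq : ∀ h, Λ h = ⟪ψ, h⟫_ℂ := fun h => by rw [hψ, toDual_symm_apply]
  have Λ_L2 : ∀ φ, MemLp φ 2 γ → Λ (L2 γ φ) = ∫ p, φ p * conj (ψ p) ∂γ := fun φ hφ => by
    rw [Λ_eq, ← inner_L2 (Lp.memLp ψ) hφ, L2_Lp]
  refine ⟨ψ, fun l => ?_, fun γ' hle H' => ?_⟩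
  · rw [← Λ_L2 _ (hostabs_mem γ l)]
    have h1 := Λ_io (Finsupp.single l 1)
    simp only [hio, hLf, Finsupp.linearCombination_single, one_smul] at h1
    exact h1.symm
  · haveI : IsFiniteMeasure γ' := isFiniteMeasure_of_le γ hle
    have hle' : γ' ≤ (1 : ENNReal) • γ := by rwa [one_smul]
    have hac : γ' ≪ γ := Measure.absolutelyContinuous_of_le hle
    set R : Lp ℂ 2 γ →L[ℝ] Lp ℂ 2 γ' := Lp.LpToLpOfMeasureLeSMul ENNReal.one_ne_top hle' with hR
    have R_L2 : ∀ φ, MemLp φ 2 γ → ‖R (L2 γ φ)‖ ^ 2 = ∫ p, ‖φ p‖ ^ 2 ∂γ' := fun φ hφ => by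
      have e1 : R (L2 γ φ) = L2 γ' φ := by
        rw [← L2_Lp (R (L2 γ φ))]
        exact L2_congr ((Lp.coeFn_LpToLpOfMeasureLeSMul _ _ _).trans (hac.ae_eq (L2_coe hφ)))
      rw [e1, norm_L2_sq (hφ.mono_measure hle)]
    have key : ∀ h, ‖Λ h‖ ^ 2 ≤ C * ‖R h‖ ^ 2 := fun h => by
      refine hd.induction_on h (isClosed_le (by fun_prop) (by fun_prop)) fun q => ?_
      rw [Λ_io, Lf_eq, io_eq, R_L2 _ (hostabs_mem_sum γ _ _)]
      exact H' _ _
    refine Measure.AbsolutelyContinuous.mk fun E hE hE0 => ?_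
    have hφ : MemLp (E.indicator ψ) 2 γ := (Lp.memLp ψ).indicator hE
    have h1 := key (L2 γ (E.indicator ψ))
    have h2 : ∫ p, ‖E.indicator ψ p‖ ^ 2 ∂γ' = 0 := by
      refine integral_eq_zero_of_ae ?_
      have : ∀ᵐ p ∂γ', p ∉ E := measure_eq_zero_iff_ae_notMem.mp hE0
      filter_upwards [this] with p hp
      simp [Set.indicator_of_notMem hp]
    rw [R_L2 _ hφ, h2, mul_zero, Λ_L2 _ hφ] at h1
    have h3 : ∫ p, E.indicator ψ p * conj (ψ p) ∂γ = 0 := by
      have := norm_nonneg (∫ p, E.indicator ψ p * conj (ψ p) ∂γ)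
      exact norm_eq_zero.mp (by nlinarith)
    have h4 : ⟪L2 γ (E.indicator ψ), L2 γ (E.indicator ψ)⟫_ℂ = 0 := by
      rw [inner_L2 hφ hφ, ← h3]
      refine integral_congr_ae (Eventually.of_forall fun p => ?_)
      by_cases hp : p ∈ E <;> simp [hp]
    have h5 : E.indicator ψ =ᵐ[γ] 0 := by
      have h6 := L2_coe hφ
      rw [inner_self_eq_zero.mp h4] at h6
      exact h6.symm.trans (Lp.coeFn_zero _ _ _)
    rw [Measure.restrict_apply hE]
    refine measure_eq_zero_iff_ae_notMem.mpr ?_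
    filter_upwards [h5] with p hp hmem
    rw [Set.indicator_of_mem hmem.1] at hp
    exact hmem.2 hp

theorem hostabs_geom {x : UnitAddCircle} (hx : x ≠ 0) :
    Tendsto (av fun l : ℕ => fourier l x) atTop (𝓝 0) := by
  have h1 : fourier 1 x ≠ 1 := by
    intro h
    rw [fourier_one] at h
    refine hx (AddCircle.injective_toCircle one_ne_zero ?_)
    rw [AddCircle.toCircle_zero]
    exact Circle.ext h
  have h2 : ∀ l : ℕ, fourier l x = fourier 1 x ^ l := fun l => by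
    induction l with
    | zero => simp
    | succ l ih => rw [Nat.cast_succ, fourier_add, ih, pow_succ]
  have h3 : ∀ N : ℕ, ‖av (fun l : ℕ => fourier l x) N‖ ≤ (2 / ‖fourier 1 x - 1‖) / N := fun N => by
    simp only [h2]
    rw [av, geom_sum_eq h1, norm_smul, norm_div, norm_inv, Real.norm_natCast, div_eq_inv_mul _ (N : ℝ)]
    gcongr
    refine (norm_sub_le _ _).trans ?_
    rw [norm_pow, norm_fourier, one_pow, norm_one]; norm_num
  exact squeeze_zero_norm h3 (tendsto_const_div_atTop_nhds_zero_nat _)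

theorem hostabs_atom (γ : Measure (UnitAddCircle × UnitAddCircle)) [IsFiniteMeasure γ]
    {g : UnitAddCircle × UnitAddCircle → ℂ} (hg : Integrable g γ) (θ : UnitAddCircle)
    (h0 : Tendsto (av fun l : ℕ => conj (fourier l θ) * ∫ p, hostabs_ch (l, 0) p * g p ∂γ)
      atTop (𝓝 0)) : ∫ p in {p | p.1 = θ}, g p ∂γ = 0 := by
  have hm : MeasurableSet {p : UnitAddCircle × UnitAddCircle | p.1 = θ} :=
    measurable_fst (measurableSet_singleton θ)
  have e1 : ∀ (l : ℕ) (p : UnitAddCircle × UnitAddCircle),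
      conj (fourier l θ) * hostabs_ch (l, 0) p = fourier l (p.1 - θ) := fun l p => by
    simp only [hostabs_ch, fourier_zero, mul_one]
    rw [← fourier_neg, fourier_apply, fourier_apply, fourier_apply, ← Circle.coe_mul,
      ← AddCircle.toCircle_add]
    congr 2
    rw [smul_sub, neg_smul]; abel
  have hint : ∀ l : ℕ, Integrable (fun p : UnitAddCircle × UnitAddCircle =>
      fourier l (p.1 - θ) * g p) γ := fun l =>
    hg.bdd_mul (c := 1) (by fun_prop) (Eventually.of_forall fun p => (norm_fourier _ _).le)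
  have e2 : ∀ N, av (fun l : ℕ => conj (fourier l θ) * ∫ p, hostabs_ch (l, 0) p * g p ∂γ) N =
      ∫ p, av (fun l : ℕ => fourier l (p.1 - θ)) N * g p ∂γ := fun N => by
    simp only [← integral_const_mul, ← mul_assoc, e1, av, smul_mul_assoc, Finset.sum_mul]
    rw [integral_smul, integral_finsetSum _ fun l _ => hint l]
  have h1 : Tendsto (fun N => ∫ p, av (fun l : ℕ => fourier l (p.1 - θ)) N * g p ∂γ) atTop
      (𝓝 (∫ p, {p | p.1 = θ}.indicator g p ∂γ)) := by
    refine tendsto_integral_of_dominated_convergence (fun p => ‖g p‖) (fun N => ?_) hg.norm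
      (fun N => Eventually.of_forall fun p => ?_) (Eventually.of_forall fun p => ?_)
    · refine AEStronglyMeasurable.mul (Continuous.aestronglyMeasurable ?_) hg.aestronglyMeasurable
      unfold av; fun_prop
    · rw [norm_mul]
      exact mul_le_of_le_one_left (norm_nonneg _)
        (norm_av_le (fun l => (norm_fourier _ _).le) N)
    · by_cases hp : p.1 = θ
      · rw [Set.indicator_of_mem (by exact hp)]
        have : Tendsto (av fun l : ℕ => fourier l (p.1 - θ)) atTop (𝓝 1) := by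
          simp only [hp, sub_self, fourier_eval_zero]
          exact tendsto_av_const _
        simpa using this.mul_const (g p)
      · rw [Set.indicator_of_notMem (by exact hp)]
        simpa using (hostabs_geom (sub_ne_zero.mpr hp)).mul_const (g p)
  rw [integral_indicator hm] at h1
  exact tendsto_nhds_unique h1 ((funext e2 : _ = _) ▸ h0)

theorem hostabs_piece (ell : ℤ × ℤ → ℂ) (C : ℝ) (τ : Measure (UnitAddCircle × UnitAddCircle))
    (φ : UnitAddCircle × UnitAddCircle → UnitAddCircle × UnitAddCircle) (hφ : Continuous φ)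
    (u v : ℤ × ℤ → ℤ) (huv : ∀ l p, hostabs_ch l (φ p) = fourier (u l) p.1 * fourier (v l) p.2)
    (c' : ℕ → ℕ → ℕ → ℂ)
    (hc' : ∀ (l : ℤ × ℤ) (a b d : ℕ), (a : ℤ) = u l + d → (b : ℤ) = v l + d → c' a b d = ell l)
    (H : ∀ (I : Finset (ℤ × ℤ)) (q : ℤ × ℤ → ℂ) (m m' : ℤ × ℤ → ℕ) (d : ℕ),
      ‖∑ l ∈ I, q l * c' (m l) (m' l) d‖ ^ 2 ≤
        C * ∫ p, ‖∑ l ∈ I, q l * (fourier (m l) p.1 * fourier (m' l) p.2)‖ ^ 2 ∂τ) :
    hostabs_Bd ell (max C 0) (τ.map φ) := by
  intro I q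
  set D : ℕ := ∑ l ∈ I, ((u l).natAbs + (v l).natAbs) with hD
  have hle : ∀ l ∈ I, (u l).natAbs + (v l).natAbs ≤ D := fun l hl =>
    Finset.single_le_sum (f := fun l => (u l).natAbs + (v l).natAbs) (fun _ _ => Nat.zero_le _) hl
  have hu : ∀ l ∈ I, (((u l + D).toNat : ℕ) : ℤ) = u l + D := fun l hl => by
    have := hle l hl; omega
  have hv : ∀ l ∈ I, (((v l + D).toNat : ℕ) : ℤ) = v l + D := fun l hl => by
    have := hle l hl; omega
  have h1 := H I q (fun l => (u l + D).toNat) (fun l => (v l + D).toNat) D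
  have e1 : ∑ l ∈ I, q l * c' (u l + D).toNat (v l + D).toNat D = ∑ l ∈ I, q l * ell l :=
    Finset.sum_congr rfl fun l hl => by rw [hc' l _ _ _ (hu l hl) (hv l hl)]
  have e2 : ∀ p : UnitAddCircle × UnitAddCircle,
      ‖∑ l ∈ I, q l * (fourier ((u l + D).toNat : ℕ) p.1 * fourier ((v l + D).toNat : ℕ) p.2)‖ =
        ‖∑ l ∈ I, q l * hostabs_ch l (φ p)‖ := fun p => by
    have : ∑ l ∈ I, q l * (fourier ((u l + D).toNat : ℕ) p.1 * fourier ((v l + D).toNat : ℕ) p.2) =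
        hostabs_ch (D, D) p * ∑ l ∈ I, q l * hostabs_ch l (φ p) := by
      rw [Finset.mul_sum]
      refine Finset.sum_congr rfl fun l hl => ?_
      rw [hu l hl, hv l hl, huv, fourier_add, fourier_add, hostabs_ch]; ring
    rw [this, norm_mul, hostabs_norm, one_mul]
  simp only [e1, e2] at h1
  rw [integral_map hφ.measurable.aemeasurable (Continuous.aestronglyMeasurable (by
    have := hostabs_cont
    fun_prop))]
  exact h1.trans (mul_le_mul_of_nonneg_right (le_max_left _ _)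
    (integral_nonneg fun _ => by positivity))

theorem hostabs_shift {c : ℕ → ℕ → ℕ → ℂ} (hc : ∀ a b d, c (a + 1) (b + 1) (d + 1) = c a b d)
    (a b d k : ℕ) : c (a + k) (b + k) (d + k) = c a b d := by
  induction k with
  | zero => rfl
  | succ k ih => rw [← ih, ← hc (a + k)]; rfl

theorem hostabs_four (n : ℤ) (x y : UnitAddCircle) :
    fourier n (-x - y) = fourier (-n) x * fourier (-n) y := by
  rw [fourier_apply, fourier_apply, fourier_apply, ← Circle.coe_mul, ← AddCircle.toCircle_add]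
  congr 2
  rw [smul_sub, smul_neg, neg_smul, neg_smul]; abel

theorem host_abs (c : ℕ → ℕ → ℕ → ℂ) (hc : ∀ a b d, c (a + 1) (b + 1) (d + 1) = c a b d)
    (σ₁ σ₂ σ₃ : Measure UnitAddCircle) [IsFiniteMeasure σ₁] [IsFiniteMeasure σ₂]
    [IsFiniteMeasure σ₃] (C : ℝ)
    (h12 : ∀ (I : Finset (ℤ × ℤ)) (q : ℤ × ℤ → ℂ) (m m' : ℤ × ℤ → ℕ) (d : ℕ),
      ‖∑ l ∈ I, q l * c (m l) (m' l) d‖ ^ 2 ≤
        C * ∫ p, ‖∑ l ∈ I, q l * (fourier (m l) p.1 * fourier (m' l) p.2)‖ ^ 2 ∂(σ₁.prod σ₂))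
    (h13 : ∀ (I : Finset (ℤ × ℤ)) (q : ℤ × ℤ → ℂ) (m m' : ℤ × ℤ → ℕ) (d : ℕ),
      ‖∑ l ∈ I, q l * c (m l) d (m' l)‖ ^ 2 ≤
        C * ∫ p, ‖∑ l ∈ I, q l * (fourier (m l) p.1 * fourier (m' l) p.2)‖ ^ 2 ∂(σ₁.prod σ₃))
    (h23 : ∀ (I : Finset (ℤ × ℤ)) (q : ℤ × ℤ → ℂ) (m m' : ℤ × ℤ → ℕ) (d : ℕ),
      ‖∑ l ∈ I, q l * c d (m l) (m' l)‖ ^ 2 ≤
        C * ∫ p, ‖∑ l ∈ I, q l * (fourier (m l) p.1 * fourier (m' l) p.2)‖ ^ 2 ∂(σ₂.prod σ₃))
    (hs : σ₂ ⟂ₘ volume)
    (h0 : ∀ θ : UnitAddCircle,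
      Tendsto (av fun l : ℕ => conj (fourier l θ) * c l 0 0) atTop (𝓝 0)) :
    c 0 0 0 = 0 := by
  set ell : ℤ × ℤ → ℂ := fun n => c (n.1 + (n.1.natAbs + n.2.natAbs : ℕ)).toNat
    (n.2 + (n.1.natAbs + n.2.natAbs : ℕ)).toNat (n.1.natAbs + n.2.natAbs) with hell
  have hce : ∀ (l : ℤ × ℤ) (a b d : ℕ), (a : ℤ) = l.1 + d → (b : ℤ) = l.2 + d →
      c a b d = ell l := fun l a b d ha hb => by
    rw [hell, ← hostabs_shift hc a b d (l.1.natAbs + l.2.natAbs)]
    simp only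
    rw [← hostabs_shift hc _ _ (l.1.natAbs + l.2.natAbs) d]
    congr 1 <;> omega
  set φ₂ : UnitAddCircle × UnitAddCircle → UnitAddCircle × UnitAddCircle :=
    fun p => (p.1, -p.1 - p.2) with hφ₂
  set φ₃ : UnitAddCircle × UnitAddCircle → UnitAddCircle × UnitAddCircle :=
    fun p => (-p.1 - p.2, p.1) with hφ₃
  have c₂ : Continuous φ₂ := by rw [hφ₂]; fun_prop
  have c₃ : Continuous φ₃ := by rw [hφ₃]; fun_prop
  have B₁ : hostabs_Bd ell (max C 0) (σ₁.prod σ₂) := by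
    have := hostabs_piece ell C (σ₁.prod σ₂) id continuous_id Prod.fst Prod.snd (fun _ _ => rfl)
      c hce h12
    rwa [Measure.map_id] at this
  have B₂ : hostabs_Bd ell (max C 0) ((σ₁.prod σ₃).map φ₂) :=
    hostabs_piece ell C _ φ₂ c₂ (fun l => l.1 - l.2) (fun l => -l.2) (fun l p => by
      simp only [hostabs_ch, hφ₂]
      rw [hostabs_four, sub_eq_add_neg, fourier_add]; ring)
      (fun a b d => c a d b) (fun l a b d ha hb => hce l a d b (by omega) (by omega)) h13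
  have B₃ : hostabs_Bd ell (max C 0) ((σ₂.prod σ₃).map φ₃) :=
    hostabs_piece ell C _ φ₃ c₃ (fun l => l.2 - l.1) (fun l => -l.1) (fun l p => by
      simp only [hostabs_ch, hφ₃]
      rw [hostabs_four, sub_eq_add_neg, fourier_add]; ring)
      (fun a b d => c d a b) (fun l a b d ha hb => hce l d a b (by omega) (by omega)) h23
  set γ := σ₁.prod σ₂ + (σ₁.prod σ₃).map φ₂ + (σ₂.prod σ₃).map φ₃ with hγ
  have l₁ : σ₁.prod σ₂ ≤ γ := Measure.le_add_right (Measure.le_add_right le_rfl)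
  have l₂ : (σ₁.prod σ₃).map φ₂ ≤ γ := Measure.le_add_right (Measure.le_add_left le_rfl)
  have l₃ : (σ₂.prod σ₃).map φ₃ ≤ γ := Measure.le_add_left le_rfl
  have B : hostabs_Bd ell (max C 0) γ := fun I q =>
    (B₁ I q).trans (mul_le_mul_of_nonneg_left (integral_mono_measure l₁
      (Eventually.of_forall fun _ => by positivity)
      ((hostabs_mem_sum γ I q).integrable_norm_pow two_ne_zero)) (le_max_right _ _))
  obtain ⟨ψ, hψ, hac⟩ := hostabs_rep ell (le_max_right C 0) γ B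
  have hneg : ∀ σ : Measure UnitAddCircle, [IsFiniteMeasure σ] →
      (σ.prod σ₃).map (fun p => (p.1, -p.2)) = σ.prod (σ₃.map fun x => -x) := fun σ _ => by
    have := Measure.map_prod_map σ σ₃ measurable_id (measurable_neg (G := UnitAddCircle))
    rw [Measure.map_id] at this
    exact this.symm
  have hh := host (γ.restrict {p | ψ p ≠ 0}) σ₁ σ₂ (σ₃.map fun x => -x) (hac _ l₁ B₁)
    (by
      have := (hac _ l₂ B₂).map (f := fun p => (p.1, p.1 + p.2)) (by fun_prop)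
      rw [Measure.map_map (by fun_prop) c₂.measurable] at this
      rw [← hneg]
      have e : ((fun p : UnitAddCircle × UnitAddCircle => (p.1, p.1 + p.2)) ∘ φ₂) =
          fun p => (p.1, -p.2) := by
        funext p; simp only [hφ₂, Function.comp]; congr 1; abel
      rwa [e] at this)
    (by
      have := (hac _ l₃ B₃).map (f := fun p => (p.2, p.2 + p.1)) (by fun_prop)
      rw [Measure.map_map (by fun_prop) c₃.measurable] at this
      rw [← hneg]
      have e : ((fun p : UnitAddCircle × UnitAddCircle => (p.2, p.2 + p.1)) ∘ φ₃) =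
          fun p => (p.1, -p.2) := by
        funext p; simp only [hφ₃, Function.comp]; congr 1; abel
      rwa [e] at this) hs
  set A : Set UnitAddCircle := {θ | 0 < σ₁ {a | id a = θ}} with hA
  have hAc : A.Countable := Measure.countable_meas_level_set_pos measurable_id
  have hg : Integrable (fun p => conj (ψ p)) γ :=
    Complex.conjCLE.toContinuousLinearMap.integrable_comp ((Lp.memLp ψ).integrable one_le_two)
  have hatom : ∀ θ, ∫ p in {p | p.1 = θ}, conj (ψ p) ∂γ = 0 := fun θ => by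
    refine hostabs_atom γ hg θ ?_
    have e : ∀ l : ℕ, ∫ p, hostabs_ch (l, 0) p * conj (ψ p) ∂γ = c l 0 0 := fun l => by
      rw [← hψ, hce (l, 0) l 0 0 (by simp) (by simp)]
    simp only [e]
    exact h0 θ
  have hms : ∀ θ : A, MeasurableSet {p : UnitAddCircle × UnitAddCircle | p.1 = θ} := fun θ =>
    measurable_fst (measurableSet_singleton _)
  haveI := hAc.to_subtype
  have hU : ∫ p in ⋃ θ : A, {p : UnitAddCircle × UnitAddCircle | p.1 = θ}, conj (ψ p) ∂γ = 0 := by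
    rw [integral_iUnion hms (fun θ θ' hne => Set.disjoint_left.mpr fun p h1 h2 =>
      hne (Subtype.ext (h1.symm.trans h2))) hg.integrableOn]
    simp [hatom]
  have hmU := MeasurableSet.iUnion hms
  rw [hce (0, 0) 0 0 0 (by simp) (by simp), hψ]
  simp only [hostabs_ch, fourier_zero, one_mul]
  rw [← integral_add_compl hmU hg, hU, zero_add]
  refine setIntegral_eq_zero_of_ae_eq_zero ?_
  have hm0 : MeasurableSet {p | ψ p ≠ 0} :=
    ((Lp.stronglyMeasurable ψ).measurable (measurableSet_singleton 0)).compl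
  rw [Measure.restrict_apply' hm0] at hh
  filter_upwards [measure_eq_zero_iff_ae_notMem.mp hh] with p hp hpU
  by_contra hne
  refine hp ⟨?_, fun h => hne (by rw [h, map_zero])⟩
  by_contra h1
  exact hpU (Set.mem_iUnion.mpr ⟨⟨p.1, pos_iff_ne_zero.mpr h1⟩, rfl⟩)

end Pool.Agent.Lib.MP_1db5af_an
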