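import Pool.Agent.Lib.MP_1db5af_an.Basic

set_option autoImplicit false

namespace Pool.Agent.Lib.MP_1db5af_an

open MeasureTheory Filter Topology ComplexConjugate Finset InnerProductSpace

variable {X : Type*} [MeasurableSpace X] {μ : Measure X}

open Classical in
/-- The class of a function in `L²` (zero if the function is not square integrable). -/
noncomputable def L2 (μ : Measure X) (φ : X → ℂ) : Lp ℂ 2 μ :=
  if h : MemLp φ 2 μ then h.toLp φ else 0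

theorem L2_eq {φ : X → ℂ} (h : MemLp φ 2 μ) : L2 μ φ = h.toLp φ := dif_pos h

theorem L2_coe {φ : X → ℂ} (h : MemLp φ 2 μ) : L2 μ φ =ᵐ[μ] φ := by
  rw [L2_eq h]; exact h.coeFn_toLp

theorem L2_congr {φ ψ : X → ℂ} (h : φ =ᵐ[μ] ψ) : L2 μ φ = L2 μ ψ := by
  by_cases h1 : MemLp φ 2 μ
  · rw [L2_eq h1, L2_eq (h1.ae_eq h)]; exact MemLp.toLp_congr _ _ h
  · rw [L2, L2, dif_neg h1, dif_neg fun h2 => h1 (h2.ae_eq h.symm)]

theorem L2_Lp (v : Lp ℂ 2 μ) : L2 μ v = v := by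
  rw [L2_eq (Lp.memLp v)]; exact Lp.toLp_coeFn _ _

theorem L2_add {φ ψ : X → ℂ} (h1 : MemLp φ 2 μ) (h2 : MemLp ψ 2 μ) :
    L2 μ (fun x => φ x + ψ x) = L2 μ φ + L2 μ ψ := by
  rw [L2_eq h1, L2_eq h2, ← MemLp.toLp_add]; exact L2_eq (h1.add h2)

theorem L2_sub {φ ψ : X → ℂ} (h1 : MemLp φ 2 μ) (h2 : MemLp ψ 2 μ) :
    L2 μ (fun x => φ x - ψ x) = L2 μ φ - L2 μ ψ := by
  rw [L2_eq h1, L2_eq h2, ← MemLp.toLp_sub]; exact L2_eq (h1.sub h2)

theorem L2_mul (c : ℂ) {φ : X → ℂ} (h : MemLp φ 2 μ) :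
    L2 μ (fun x => c * φ x) = c • L2 μ φ := by
  rw [L2_eq h, ← MemLp.toLp_const_smul]; exact L2_eq (h.const_smul c)

theorem L2_zero : L2 μ (fun _ => 0) = 0 := by
  rw [L2_eq (MemLp.zero' (ε := ℂ))]; exact MemLp.toLp_zero _

theorem L2_sum {ι : Type*} (I : Finset ι) {φ : ι → X → ℂ} (h : ∀ i ∈ I, MemLp (φ i) 2 μ) :
    L2 μ (fun x => ∑ i ∈ I, φ i x) = ∑ i ∈ I, L2 μ (φ i) := by
  classical
  induction I using Finset.induction_on with
  | empty => simpa using L2_zero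
  | insert i I hi ih =>
    simp only [sum_insert hi]
    rw [L2_add (h i (mem_insert_self _ _))
      (memLp_finsetSum _ fun j hj => h j (mem_insert_of_mem hj)),
      ih fun j hj => h j (mem_insert_of_mem hj)]

theorem L2_av {φ : ℕ → X → ℂ} (h : ∀ n, MemLp (φ n) 2 μ) (N : ℕ) :
    L2 μ (fun x => av (fun n => φ n x) N) = av (fun n => L2 μ (φ n)) N := by
  have e : ∀ x, av (fun n => φ n x) N = (((N : ℝ)⁻¹ : ℝ) : ℂ) * ∑ n ∈ range N, φ n x := fun x => by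
    rw [av, Complex.real_smul]
  simp only [e]
  rw [L2_mul _ (memLp_finsetSum _ fun n _ => h n), L2_sum _ fun n _ => h n, av]
  exact Complex.coe_smul _ _

theorem ofReal_norm_L2 {φ : X → ℂ} (h : MemLp φ 2 μ) :
    ENNReal.ofReal ‖L2 μ φ‖ = eLpNorm φ 2 μ := by
  rw [L2_eq h, Lp.norm_toLp, ENNReal.ofReal_toReal h.2.ne]

theorem inner_L2 {φ ψ : X → ℂ} (h1 : MemLp φ 2 μ) (h2 : MemLp ψ 2 μ) :
    ⟪L2 μ φ, L2 μ ψ⟫_ℂ = ∫ x, ψ x * conj (φ x) ∂μ := by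
  rw [L2.inner_def]
  refine integral_congr_ae ?_
  filter_upwards [L2_coe h1, L2_coe h2] with x e1 e2
  rw [e1, e2, RCLike.inner_apply]

theorem norm_L2_sq {φ : X → ℂ} (h : MemLp φ 2 μ) : ‖L2 μ φ‖ ^ 2 = ∫ x, ‖φ x‖ ^ 2 ∂μ := by
  have h1 := inner_L2 h h
  rw [inner_self_eq_norm_sq_to_K] at h1
  simp only [Complex.mul_conj'] at h1
  have h2 : (∫ x, ((‖φ x‖ : ℂ)) ^ 2 ∂μ) = ((∫ x, ‖φ x‖ ^ 2 ∂μ : ℝ) : ℂ) := by
    rw [← integral_complex_ofReal]; push_cast; rfl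
  rw [h2] at h1
  exact Complex.ofReal_injective (by rw [← h1]; simp)

/-- The Koopman isometry. -/
noncomputable def Kp {S : X → X} (hS : MeasurePreserving S μ μ) : Lp ℂ 2 μ →ₗᵢ[ℂ] Lp ℂ 2 μ :=
  Lp.compMeasurePreservingₗᵢ ℂ S hS

theorem Kp_L2 {S : X → X} (hS : MeasurePreserving S μ μ) {φ : X → ℂ} (h : MemLp φ 2 μ) :
    Kp hS (L2 μ φ) = L2 μ (fun x => φ (S x)) := by
  rw [L2_eq h]
  exact (L2_eq (h.comp_measurePreserving hS)).symm

theorem Kp_iter {S : X → X} (hS : MeasurePreserving S μ μ) {φ : X → ℂ} (h : MemLp φ 2 μ) (n : ℕ) :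
    (Kp hS)^[n] (L2 μ φ) = L2 μ (fun x => φ (S^[n] x)) := by
  induction n with
  | zero => rfl
  | succ n ih =>
    rw [Function.iterate_succ_apply', ih]
    exact Kp_L2 hS (h.comp_measurePreserving (hS.iterate n))

theorem norm_L2_comp {S : X → X} (hS : MeasurePreserving S μ μ) {φ : X → ℂ} (h : MemLp φ 2 μ) :
    ‖L2 μ (fun x => φ (S x))‖ = ‖L2 μ φ‖ := by rw [← Kp_L2 hS h, LinearIsometry.norm_map]

/-- Essentially bounded by `C`. -/
def Bd (μ : Measure X) (C : ℝ) (φ : X → ℂ) : Prop :=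
  AEStronglyMeasurable φ μ ∧ ∀ᵐ x ∂μ, ‖φ x‖ ≤ C

theorem exists_Bd {φ : X → ℂ} (h : MemLp φ ⊤ μ) : ∃ C, 1 ≤ C ∧ Bd μ C φ :=
  ⟨max 1 (lpNorm φ ⊤ μ), le_max_left _ _, h.1,
    (ae_le_lpNorm_exponent_top h).mono fun _ hx => hx.trans (le_max_right _ _)⟩

namespace Bd

variable {C D : ℝ} {φ ψ : X → ℂ}

theorem top (h : Bd μ C φ) : MemLp φ ⊤ μ := memLp_top_of_bound h.1 C h.2

theorem memLp [IsFiniteMeasure μ] (h : Bd μ C φ) : MemLp φ 2 μ := MemLp.of_bound h.1 C h.2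

theorem integrable [IsFiniteMeasure μ] (h : Bd μ C φ) : Integrable φ μ :=
  Integrable.of_bound h.1 C h.2

theorem mono (h : Bd μ C φ) (hC : C ≤ D) : Bd μ D φ := ⟨h.1, h.2.mono fun _ hx => hx.trans hC⟩

theorem congr (h : Bd μ C φ) (e : φ =ᵐ[μ] ψ) : Bd μ C ψ :=
  ⟨h.1.congr e, by filter_upwards [h.2, e] with x h1 h2 using h2 ▸ h1⟩

theorem const (c : ℂ) : Bd μ ‖c‖ fun _ => c :=
  ⟨aestronglyMeasurable_const, Eventually.of_forall fun _ => le_rfl⟩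

theorem mul (h1 : Bd μ C φ) (h2 : Bd μ D ψ) : Bd μ (C * D) fun x => φ x * ψ x :=
  ⟨h1.1.mul h2.1, by
    filter_upwards [h1.2, h2.2] with x e1 e2
    rw [norm_mul]
    exact mul_le_mul e1 e2 (norm_nonneg _) ((norm_nonneg _).trans e1)⟩

theorem add (h1 : Bd μ C φ) (h2 : Bd μ D ψ) : Bd μ (C + D) fun x => φ x + ψ x :=
  ⟨h1.1.add h2.1, by
    filter_upwards [h1.2, h2.2] with x e1 e2 using (norm_add_le _ _).trans (add_le_add e1 e2)⟩

theorem sub (h1 : Bd μ C φ) (h2 : Bd μ D ψ) : Bd μ (C + D) fun x => φ x - ψ x :=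
  ⟨h1.1.sub h2.1, by
    filter_upwards [h1.2, h2.2] with x e1 e2 using (norm_sub_le _ _).trans (add_le_add e1 e2)⟩

theorem star (h : Bd μ C φ) : Bd μ C fun x => conj (φ x) :=
  ⟨Complex.continuous_conj.comp_aestronglyMeasurable h.1, by
    filter_upwards [h.2] with x e using by rwa [Complex.norm_conj]⟩

theorem comp {S : X → X} (hS : MeasurePreserving S μ μ) (h : Bd μ C φ) :
    Bd μ C fun x => φ (S x) :=
  ⟨h.1.comp_measurePreserving hS, hS.quasiMeasurePreserving.ae h.2⟩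

theorem iter {S : X → X} (hS : MeasurePreserving S μ μ) (h : Bd μ C φ) (n : ℕ) :
    Bd μ C fun x => φ (S^[n] x) := h.comp (hS.iterate n)

theorem prod {ι : Type*} (I : Finset ι) {g : ι → X → ℂ} (h : ∀ i ∈ I, Bd μ C (g i)) :
    Bd μ (C ^ I.card) fun x => ∏ i ∈ I, g i x := by
  classical
  induction I using Finset.induction_on with
  | empty => simpa using Bd.const (μ := μ) 1
  | insert i I hi ih =>
    simp only [prod_insert hi, card_insert_of_notMem hi, pow_succ']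
    exact (h i (mem_insert_self _ _)).mul (ih fun j hj => h j (mem_insert_of_mem hj))

theorem sum {ι : Type*} (I : Finset ι) {g : ι → X → ℂ} {B : ι → ℝ}
    (h : ∀ i ∈ I, Bd μ (B i) (g i)) : Bd μ (∑ i ∈ I, B i) fun x => ∑ i ∈ I, g i x := by
  classical
  induction I using Finset.induction_on with
  | empty => simpa using Bd.const (μ := μ) 0
  | insert i I hi ih =>
    simp only [sum_insert hi]
    exact (h i (mem_insert_self _ _)).add (ih fun j hj => h j (mem_insert_of_mem hj))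

theorem av {g : ℕ → X → ℂ} (hC : 0 ≤ C) (h : ∀ n, Bd μ C (g n)) (N : ℕ) :
    Bd μ C fun x => av (fun n => g n x) N :=
  ⟨(Finset.aestronglyMeasurable_fun_sum _ fun n _ => (h n).1).const_smul ((N : ℝ)⁻¹), by
    filter_upwards [ae_all_iff.2 fun n => (h n).2] with x hx
    exact (norm_av_le_av _ _).trans (av_le hC fun n _ => hx n)⟩

theorem nonneg [IsProbabilityMeasure μ] (h : Bd μ C φ) : 0 ≤ C := by
  obtain ⟨x, hx⟩ := h.2.exists
  exact (norm_nonneg _).trans hx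

theorem memLp_mul (h : Bd μ C φ) (hψ : MemLp ψ 2 μ) : MemLp (fun x => φ x * ψ x) 2 μ :=
  hψ.mul' h.top

theorem norm_L2_mul (h : Bd μ C φ) (hψ : MemLp ψ 2 μ) :
    ‖L2 μ fun x => φ x * ψ x‖ ≤ C * ‖L2 μ ψ‖ := by
  refine Lp.norm_le_mul_norm_of_ae_le_mul ?_
  filter_upwards [L2_coe (h.memLp_mul hψ), L2_coe hψ, h.2] with x e1 e2 e3
  rw [e1, e2, norm_mul]
  gcongr

theorem norm_L2 [IsProbabilityMeasure μ] (h : Bd μ C φ) : ‖L2 μ φ‖ ≤ C := by
  have h1 := Lp.norm_le_of_ae_bound (f := L2 μ φ) h.nonneg (by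
    filter_upwards [L2_coe h.memLp, h.2] with x e1 e2 using e1 ▸ e2)
  simpa [measureUnivNNReal] using h1

theorem norm_integral [IsProbabilityMeasure μ] (h : Bd μ C φ) : ‖∫ x, φ x ∂μ‖ ≤ C := by
  simpa using norm_integral_le_of_norm_le_const h.2

end Bd

theorem norm_integral_le_L2 [IsProbabilityMeasure μ] {φ : X → ℂ} (h : MemLp φ 2 μ) :
    ‖∫ x, φ x ∂μ‖ ≤ ‖L2 μ φ‖ := by
  have h1 := inner_L2 (Bd.const (μ := μ) 1).memLp h
  simp only [map_one, mul_one] at h1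
  rw [← h1]
  refine (norm_inner_le_norm _ _).trans (mul_le_of_le_one_left (norm_nonneg _) ?_)
  simpa using (Bd.const (μ := μ) 1).norm_L2

theorem integral_iter {S : X → X} (hS : MeasurePreserving S μ μ) {φ : X → ℂ}
    (h : AEStronglyMeasurable φ μ) (n : ℕ) : ∫ x, φ (S^[n] x) ∂μ = ∫ x, φ x ∂μ := by
  have h1 := (hS.iterate n).map_eq
  rw [← integral_map (hS.iterate n).aemeasurable (h1.symm ▸ h), h1]

/-- The averaged multiple correlations along the shifts `a (n + j)`, `j ∈ J`. -/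
noncomputable def cor (μ : Measure X) (S : X → X) (a : ℕ → ℕ) (J : Finset ℕ) (g : ℕ → X → ℂ) :
    ℕ → ℂ := av fun n => ∫ x, ∏ j ∈ J, g j (S^[a (n + j)] x) ∂μ

/-- Asymptotic independence of the functions `g j`, `j ∈ J`. -/
def Indep (μ : Measure X) (S : X → X) (a : ℕ → ℕ) (J : Finset ℕ) (g : ℕ → X → ℂ) : Prop :=
  Tendsto (cor μ S a J g) atTop (𝓝 (∏ j ∈ J, ∫ x, g j x ∂μ))

/-- `r m m'` are the Fourier coefficients of `σ` at `m - m'`. -/
def IsCor (r : ℕ → ℕ → ℂ) (σ : Measure UnitAddCircle) : Prop :=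
  ∀ m m' : ℕ, r m m' = ∫ θ, fourier ((m : ℤ) - m') θ ∂σ

/-- `σ` is a spectral measure of `v`. -/
def IsSpec {H : Type*} [NormedAddCommGroup H] [InnerProductSpace ℂ H] (U : H →ₗᵢ[ℂ] H) (v : H)
    (σ : Measure UnitAddCircle) : Prop :=
  ∀ n : ℕ, ⟪v, U^[n] v⟫_ℂ = ∫ θ, fourier n θ ∂σ

end Pool.Agent.Lib.MP_1db5af_an
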