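import Mathlib

set_option autoImplicit false

namespace Pool.Agent.Lib.MP_1db5af_an

open Finset

theorem linnik_esymm {R : Type*} [CommRing R] {k : ℕ}
    (hu : ∀ n : ℕ, 0 < n → n ≤ k → IsUnit (n : R)) (w w' : Fin k → R)
    (h : ∀ n : ℕ, 0 < n → n ≤ k → ∑ i, w i ^ n = ∑ i, w' i ^ n) (n : ℕ) (hn : n ≤ k) :
    MvPolynomial.aeval w (MvPolynomial.esymm (Fin k) R n) =
      MvPolynomial.aeval w' (MvPolynomial.esymm (Fin k) R n) := by
  induction n using Nat.strong_induction_on with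
  | _ n ih =>
    rcases Nat.eq_zero_or_pos n with rfl | hpos
    · simp
    have key : ∀ u : Fin k → R, (n : R) * MvPolynomial.aeval u (MvPolynomial.esymm (Fin k) R n) =
        (-1) ^ (n + 1) * ∑ a ∈ antidiagonal n with a.1 < n,
          (-1) ^ a.1 * MvPolynomial.aeval u (MvPolynomial.esymm (Fin k) R a.1) *
            ∑ i, u i ^ a.2 := by
      intro u
      have h1 := congrArg (MvPolynomial.aeval (R := R) u)
        (MvPolynomial.mul_esymm_eq_sum (Fin k) R n)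
      simp only [map_mul, map_natCast, map_pow, map_neg, map_one, map_sum, MvPolynomial.psum,
        MvPolynomial.aeval_X] at h1
      exact h1
    apply (hu n hpos hn).mul_left_cancel
    rw [key w, key w']
    congr 1
    refine sum_congr rfl fun a ha => ?_
    rw [mem_filter, HasAntidiagonal.mem_antidiagonal] at ha
    rw [ih a.1 ha.2 (by omega), h a.2 (by omega) (by omega)]

theorem linnik_prod {R : Type*} [CommRing R] {k : ℕ}
    (hu : ∀ n : ℕ, 0 < n → n ≤ k → IsUnit (n : R)) (w w' : Fin k → R)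
    (h : ∀ n : ℕ, 0 < n → n ≤ k → ∑ i, w i ^ n = ∑ i, w' i ^ n) (x : R) :
    ∏ i, (x - w i) = ∏ i, (x - w' i) := by
  have key : ∀ u : Fin k → R, ∏ i, (x - u i) = ∑ j ∈ range (k + 1),
      (-1) ^ j * (MvPolynomial.aeval u (MvPolynomial.esymm (Fin k) R j) * x ^ (k - j)) := by
    intro u
    have h1 := congrArg (Polynomial.eval x)
      (Multiset.prod_X_sub_X_eq_sum_esymm ((univ : Finset (Fin k)).val.map u))
    rw [Multiset.map_map, ← Finset.prod_eq_multiset_prod, Polynomial.eval_prod,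
      Polynomial.eval_finsetSum] at h1
    simp only [Function.comp, Polynomial.eval_sub, Polynomial.eval_X, Polynomial.eval_C,
      Multiset.card_map, card_val, card_univ, Fintype.card_fin, Polynomial.eval_mul,
      Polynomial.eval_pow, Polynomial.eval_neg, Polynomial.eval_one] at h1
    rw [h1]
    refine sum_congr rfl fun j _ => ?_
    rw [MvPolynomial.aeval_esymm_eq_multiset_esymm]
  rw [key w, key w']
  refine sum_congr rfl fun j hj => ?_
  rw [linnik_esymm hu w w' h j (by have := mem_range.1 hj; omega)]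

theorem linnik_dvd {k p e : ℕ} (hp : p.Prime) (he : 0 < e) (a : Fin k → ℤ)
    (ha : ∀ l l', (p : ℤ) ∣ a l → (p : ℤ) ∣ a l' → l = l') (h : (p : ℤ) ^ e ∣ ∏ l, a l) :
    ∃ l, (p : ℤ) ^ e ∣ a l := by
  have hp' : Prime (p : ℤ) := Nat.prime_iff_prime_int.1 hp
  obtain ⟨l, -, hl⟩ := (hp'.dvd_finsetProd_iff a).1 ((dvd_pow_self _ he.ne').trans h)
  refine ⟨l, ?_⟩
  rw [← mul_prod_erase univ a (mem_univ l)] at h
  refine IsCoprime.dvd_of_dvd_mul_right ?_ h
  refine IsCoprime.pow_left (IsCoprime.prod_right fun l' hl' => ?_)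
  refine (hp'.irreducible.coprime_iff_not_dvd).2 fun hd => ?_
  exact (mem_erase.1 hl').1 (ha l' l hd hl)

theorem linnik_fibre {k p : ℕ} (hp : p.Prime) (hk : k < p) (ξ : ℤ) (z z0 : Fin k → ℕ)
    (hz : ∀ i, z i < p ^ k) (hz0 : ∀ i, z0 i < p ^ k)
    (hd : ∀ i i', z0 i % p = z0 i' % p → i = i')
    (h : ∀ j : Fin k, ∑ i, ((z i : ZMod (p ^ k)) - ξ) ^ (j.1 + 1) =
      ∑ i, ((z0 i : ZMod (p ^ k)) - ξ) ^ (j.1 + 1)) (i : Fin k) : ∃ l, z0 l = z i := by
  have hk0 : 0 < k := i.pos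
  have hu : ∀ n : ℕ, 0 < n → n ≤ k → IsUnit (n : ZMod (p ^ k)) := by
    intro n hn hnk
    rw [ZMod.isUnit_iff_coprime]
    apply Nat.Coprime.pow_right
    exact ((Nat.Prime.coprime_iff_not_dvd hp).2 (Nat.not_dvd_of_pos_of_lt hn (by omega))).symm
  have h1 := linnik_prod hu (fun i => (z i : ZMod (p ^ k)) - ξ)
    (fun i => (z0 i : ZMod (p ^ k)) - ξ) (fun n hn hnk => by
      have := h ⟨n - 1, by omega⟩
      have e : n - 1 + 1 = n := by omega
      simp only [e] at this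
      exact this) ((z i : ZMod (p ^ k)) - ξ)
  rw [prod_eq_zero (mem_univ i) (sub_self _)] at h1
  have h2 : (((∏ l, ((z i : ℤ) - z0 l) : ℤ)) : ZMod (p ^ k)) = 0 := by
    rw [h1]
    push_cast
    exact prod_congr rfl fun l _ => by ring
  rw [ZMod.intCast_zmod_eq_zero_iff_dvd] at h2
  push_cast at h2
  obtain ⟨l, hl⟩ := linnik_dvd hp hk0 (fun l => (z i : ℤ) - z0 l) (fun l l' hl hl' => by
    apply hd
    have h3 : z0 l ≡ z i [MOD p] := (Nat.modEq_iff_dvd).2 hl
    have h4 : z0 l' ≡ z i [MOD p] := (Nat.modEq_iff_dvd).2 hl'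
    exact h3.trans h4.symm) h2
  refine ⟨l, ?_⟩
  have h5 : z0 l ≡ z i [MOD p ^ k] := (Nat.modEq_iff_dvd).2 (by push_cast; exact hl)
  exact Nat.ModEq.eq_of_lt_of_lt h5 (hz0 l) (hz i)

theorem linnik_mem {k p : ℕ} (hp : p.Prime) (j : Fin k) (a b : ℤ)
    (h : (p : ℤ) ^ (j.1 + 1) ∣ a - b) :
    (a : ZMod (p ^ k)) ∈ (range (p ^ (k - 1 - j.1))).image
      fun t : ℕ => ((b + (p : ℤ) ^ (j.1 + 1) * t : ℤ) : ZMod (p ^ k)) := by
  obtain ⟨c, hc⟩ := h
  have hq : (0 : ℤ) < (p : ℤ) ^ (k - 1 - j.1) := pow_pos (by exact_mod_cast hp.pos) _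
  have h0 := Int.emod_nonneg c hq.ne'
  have h1 := Int.emod_lt_of_pos c hq
  refine mem_image.2 ⟨(c % (p : ℤ) ^ (k - 1 - j.1)).toNat, ?_, ?_⟩
  · rw [mem_range]
    zify
    rw [Int.toNat_of_nonneg h0]
    exact h1
  · rw [Int.toNat_of_nonneg h0, ZMod.intCast_eq_intCast_iff_dvd_sub]
    have e : k = (j.1 + 1) + (k - 1 - j.1) := by have := j.2; omega
    refine ⟨c / (p : ℤ) ^ (k - 1 - j.1), ?_⟩
    have h2 := Int.emod_add_mul_ediv c ((p : ℤ) ^ (k - 1 - j.1))
    have h3 : (((p ^ k : ℕ)) : ℤ) = (p : ℤ) ^ (j.1 + 1) * (p : ℤ) ^ (k - 1 - j.1) := by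
      rw [← pow_add, ← e]; push_cast; rfl
    rw [h3]
    linear_combination hc - (p : ℤ) ^ (j.1 + 1) * h2

theorem linnik_sum (k : ℕ) : ∑ j : Fin k, (k - 1 - j.1) = k * (k - 1) / 2 := by
  rw [Fin.sum_univ_eq_sum_range (fun j => k - 1 - j) k, sum_range_reflect (fun j => j) k,
    sum_range_id]

theorem linnik {k p P : ℕ} (hp : p.Prime) (hk : k < p) (hP : P ≤ p ^ k) (ξ : ℤ)
    (lam : Fin k → ℤ) :
    ((Fintype.piFinset fun _ : Fin k => range P).filter fun z =>
      (∀ i i', z i % p = z i' % p → i = i') ∧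
        ∀ j : Fin k, (p : ℤ) ^ (j.1 + 1) ∣ ∑ i, ((z i : ℤ) - ξ) ^ (j.1 + 1) - lam j).card ≤
      k ^ k * p ^ (k * (k - 1) / 2) := by
  classical
  set s := (Fintype.piFinset fun _ : Fin k => range P).filter fun z =>
      (∀ i i', z i % p = z i' % p → i = i') ∧
        ∀ j : Fin k, (p : ℤ) ^ (j.1 + 1) ∣ ∑ i, ((z i : ℤ) - ξ) ^ (j.1 + 1) - lam j with hs
  let φ : (Fin k → ℕ) → Fin k → ZMod (p ^ k) :=
    fun z j => ∑ i, ((z i : ZMod (p ^ k)) - ξ) ^ (j.1 + 1)
  have hlt : ∀ z ∈ s, ∀ i, z i < p ^ k := fun z hz i =>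
    lt_of_lt_of_le (mem_range.1 (Fintype.mem_piFinset.1 (mem_filter.1 hz).1 i)) hP
  have h1 : s.card ≤ k ^ k * (s.image φ).card := by
    refine card_le_mul_card_image s _ fun b hb => ?_
    obtain ⟨z0, hz0, rfl⟩ := mem_image.1 hb
    have hsub : s.filter (fun z => φ z = φ z0) ⊆
        Fintype.piFinset fun _ : Fin k => univ.image z0 := by
      intro z hz
      rw [mem_filter] at hz
      refine Fintype.mem_piFinset.2 fun i => ?_
      obtain ⟨l, hl⟩ := linnik_fibre hp hk ξ z z0 (hlt z hz.1) (hlt z0 hz0)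
        (mem_filter.1 hz0).2.1 (fun j => congrFun hz.2 j) i
      exact mem_image.2 ⟨l, mem_univ l, hl⟩
    refine (card_le_card hsub).trans ?_
    rw [Fintype.card_piFinset, prod_const, card_univ, Fintype.card_fin]
    refine Nat.pow_le_pow_left ?_ k
    exact card_image_le.trans (by simp)
  have h2 : s.image φ ⊆ Fintype.piFinset fun j : Fin k => (range (p ^ (k - 1 - j.1))).image
      fun t : ℕ => ((lam j + (p : ℤ) ^ (j.1 + 1) * t : ℤ) : ZMod (p ^ k)) := by
    intro b hb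
    obtain ⟨z, hz, rfl⟩ := mem_image.1 hb
    refine Fintype.mem_piFinset.2 fun j => ?_
    have h3 := linnik_mem hp j _ _ ((mem_filter.1 hz).2.2 j)
    have e : ((∑ i, ((z i : ℤ) - ξ) ^ (j.1 + 1) : ℤ) : ZMod (p ^ k)) = φ z j := by
      simp only [φ]
      push_cast
      rfl
    rw [e] at h3
    exact h3
  refine h1.trans (Nat.mul_le_mul_left _ ((card_le_card h2).trans ?_))
  rw [Fintype.card_piFinset, ← linnik_sum, ← prod_pow_eq_pow_sum]
  exact prod_le_prod' fun j _ => card_image_le.trans (by rw [card_range])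

end Pool.Agent.Lib.MP_1db5af_an
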