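import Pool.Agent.Lib.MP_1db5af_an.Recur

set_option autoImplicit false

namespace Pool.Agent.Lib.MP_1db5af_an

theorem vmvt_prime {k P : ℕ} (hk : 3 ≤ k) (hP : k ^ k ≤ P) :
    ∃ p : ℕ, p.Prime ∧ k < p ∧ P ≤ p ^ k ∧ p ≤ P ∧ p ^ k ≤ 4 ^ k * P := by
  have hex : ∃ n : ℕ, P ≤ n ^ k := ⟨P, Nat.le_self_pow (by omega) P⟩
  have h1 : P ≤ Nat.find hex ^ k := Nat.find_spec hex
  have h2 : k ≤ Nat.find hex := by
    by_contra h
    have := Nat.pow_lt_pow_left (not_le.1 h) (by omega : k ≠ 0)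
    omega
  have h3 : ¬ P ≤ (Nat.find hex - 1) ^ k := Nat.find_min hex (by omega)
  obtain ⟨n, hn⟩ : ∃ n, Nat.find hex = n + 1 := ⟨Nat.find hex - 1, by omega⟩
  rw [hn] at h1 h2 h3
  rw [Nat.add_sub_cancel, not_le] at h3
  obtain ⟨p, hp, h4, h5⟩ := Nat.exists_prime_lt_and_le_two_mul (n + 1) (by omega)
  have h6 : p ≤ 4 * n := by omega
  refine ⟨p, hp, by omega, h1.trans (Nat.pow_le_pow_left h4.le k), ?_, ?_⟩
  · have h7 : n ^ 3 ≤ n ^ k := Nat.pow_le_pow_right (by omega) hk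
    have h8 : 2 ^ 2 ≤ n ^ 2 := Nat.pow_le_pow_left (by omega) 2
    have h9 : 4 * n ≤ n ^ 3 := by
      rw [pow_succ n 2]
      exact Nat.mul_le_mul_right n h8
    omega
  · calc p ^ k ≤ (4 * n) ^ k := Nat.pow_le_pow_left h6 k
      _ = 4 ^ k * n ^ k := mul_pow _ _ _
      _ ≤ 4 ^ k * P := Nat.mul_le_mul_left _ h3.le

theorem vmvt_small {k s P : ℕ} (hs : k ^ 2 ≤ s) (hP1 : 1 ≤ P) (hP : P ≤ k ^ k) {e : ℝ}
    (he : 2 * (s : ℝ) - (k : ℝ) ^ 2 ≤ e) : (J s k P : ℝ) ≤ 2 ^ (14 * s ^ 2) * (P : ℝ) ^ e := by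
  have hP' : (1 : ℝ) ≤ P := by exact_mod_cast hP1
  have h1 : P ^ k ^ 2 ≤ 2 ^ (14 * s ^ 2) := by
    calc P ^ k ^ 2 ≤ (k ^ k) ^ k ^ 2 := Nat.pow_le_pow_left hP _
      _ ≤ ((2 ^ k) ^ k) ^ k ^ 2 :=
        Nat.pow_le_pow_left (Nat.pow_le_pow_left Nat.lt_two_pow_self.le _) _
      _ = 2 ^ (k ^ 2) ^ 2 := by
        rw [← pow_mul, ← pow_mul]
        congr 1
        ring
      _ ≤ 2 ^ (14 * s ^ 2) := by
        refine Nat.pow_le_pow_right (by norm_num) ?_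
        have := Nat.pow_le_pow_left hs 2
        omega
  have h2 : (P : ℝ) ^ k ^ 2 ≤ 2 ^ (14 * s ^ 2) := by exact_mod_cast h1
  calc (J s k P : ℝ) ≤ (P : ℝ) ^ (2 * s) := by exact_mod_cast J_le s k P
    _ = (P : ℝ) ^ k ^ 2 * (P : ℝ) ^ (2 * (s : ℝ) - (k : ℝ) ^ 2) := by
      rw [← Real.rpow_natCast, ← Real.rpow_natCast _ (k ^ 2), ← Real.rpow_add (by linarith)]
      congr 1
      push_cast
      ring
    _ ≤ _ := mul_le_mul h2 (Real.rpow_le_rpow_of_exponent_le hP' he) (by positivity)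
      (by positivity)

theorem vmvt_step {k m P : ℕ} (hk : 3 ≤ k) (hm : k ^ 2 ≤ m) (hP : k ^ k ≤ P) {D : ℝ} (hD0 : 0 ≤ D)
    (hD : D ≤ k * (k + 1) / 2)
    (ih : ∀ Q : ℕ, 1 ≤ Q →
      (J m k Q : ℝ) ≤ 2 ^ (14 * m ^ 2) * (Q : ℝ) ^ (2 * (m : ℝ) - k * (k + 1) / 2 + D)) :
    (J (k + m) k P : ℝ) ≤ 2 ^ (14 * (k + m) ^ 2) *
      (P : ℝ) ^ (2 * ((k : ℝ) + m) - k * (k + 1) / 2 + D * (1 - 1 / (k : ℝ))) := by
  obtain ⟨p, hp, hkp, h1, h2, h3⟩ := vmvt_prime hk hP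
  have hk' : (3 : ℝ) ≤ k := by exact_mod_cast hk
  have hm' : (k : ℝ) ^ 2 ≤ m := by exact_mod_cast hm
  have hp1 : (1 : ℝ) ≤ p := by exact_mod_cast hp.one_le
  have hpP : (p : ℝ) ≤ P := by exact_mod_cast h2
  have hp0 : (0 : ℝ) < p := by linarith
  have hP0 : (0 : ℝ) < P := by linarith
  have hK : (k : ℝ) * (k + 1) / 2 ≤ (k : ℝ) ^ 2 := by nlinarith
  obtain ⟨la, hla⟩ : ∃ la : ℝ, la = 2 * (m : ℝ) - k * (k + 1) / 2 + D := ⟨_, rfl⟩
  have hla0 : 0 ≤ la := by rw [hla]; nlinarith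
  have hla1 : la ≤ ((2 * m : ℕ) : ℝ) := by rw [hla]; push_cast; linarith
  rw [← hla] at ih
  have hQ : ((P / p + 1 : ℕ) : ℝ) ≤ 2 * P / p := by
    have h4 : ((P / p : ℕ) : ℝ) ≤ P / p := Nat.cast_div_le
    have h5 : (1 : ℝ) ≤ P / p := (one_le_div hp0).2 hpP
    push_cast
    rw [mul_div_assoc]
    linarith
  have h4 : ((P / p + 1 : ℕ) : ℝ) ^ la ≤ 2 ^ (2 * m) * (P : ℝ) ^ la * (p : ℝ) ^ (-la) := by
    refine (Real.rpow_le_rpow (by positivity) hQ hla0).trans ?_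
    rw [Real.div_rpow (by positivity) hp0.le, Real.mul_rpow (by norm_num) hP0.le,
      Real.rpow_neg hp0.le, div_eq_mul_inv, ← Real.rpow_natCast 2]
    gcongr
    norm_num
  have h5 : (p : ℝ) ^ (2 * m + k * (k - 1) / 2) * (p : ℝ) ^ (-la) ≤
      2 ^ (2 * k ^ 2) * (P : ℝ) ^ ((k : ℝ) - D / k) := by
    have h6 : ((k * (k - 1) / 2 : ℕ) : ℝ) ≤ k * (k - 1) / 2 := by
      refine Nat.cast_div_le.trans (le_of_eq ?_)
      rw [Nat.cast_mul, Nat.cast_sub (by omega)]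
      norm_num
    have h7 : 0 ≤ (k : ℝ) - D / k := by
      rw [sub_nonneg, div_le_iff₀ (by linarith)]
      nlinarith
    have h8 : (k : ℝ) - D / k ≤ k := by
      have : 0 ≤ D / k := by positivity
      linarith
    have h9 : (p : ℝ) ^ k ≤ 4 ^ k * P := by exact_mod_cast h3
    calc (p : ℝ) ^ (2 * m + k * (k - 1) / 2) * (p : ℝ) ^ (-la)
        = (p : ℝ) ^ (((2 * m + k * (k - 1) / 2 : ℕ) : ℝ) + -la) := by
          rw [Real.rpow_add hp0, Real.rpow_natCast]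
      _ ≤ (p : ℝ) ^ ((k : ℝ) * (k - D / k)) := by
          refine Real.rpow_le_rpow_of_exponent_le hp1 ?_
          have h10 : (k : ℝ) * (k - D / k) = (k : ℝ) ^ 2 - D := by
            field_simp
          rw [h10, Nat.cast_add, hla]
          push_cast
          nlinarith
      _ = ((p : ℝ) ^ k) ^ ((k : ℝ) - D / k) := by
          rw [Real.rpow_mul hp0.le, Real.rpow_natCast]
      _ ≤ (4 ^ k * P) ^ ((k : ℝ) - D / k) := Real.rpow_le_rpow (by positivity) h9 h7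
      _ = (4 ^ k) ^ ((k : ℝ) - D / k) * (P : ℝ) ^ ((k : ℝ) - D / k) :=
          Real.mul_rpow (by positivity) hP0.le
      _ ≤ _ := by
          refine mul_le_mul_of_nonneg_right ?_ (by positivity)
          refine (Real.rpow_le_rpow_of_exponent_le (one_le_pow₀ (by norm_num)) h8).trans ?_
          rw [Real.rpow_natCast, ← pow_mul, pow_mul 2 2, sq k]
          norm_num
  have h6 : (2 : ℝ) ^ (8 * k * (k + m)) * 2 ^ (14 * m ^ 2) * 2 ^ (2 * m) * 2 ^ (2 * k ^ 2) ≤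
      2 ^ (14 * (k + m) ^ 2) := by
    rw [← pow_add, ← pow_add, ← pow_add]
    refine pow_le_pow_right₀ (by norm_num) ?_
    nlinarith [Nat.mul_le_mul_right m hk]
  have h7 : (P : ℝ) ^ k * (P : ℝ) ^ la * (P : ℝ) ^ ((k : ℝ) - D / k) =
      (P : ℝ) ^ (2 * ((k : ℝ) + m) - k * (k + 1) / 2 + D * (1 - 1 / (k : ℝ))) := by
    rw [← Real.rpow_natCast, ← Real.rpow_add hP0, ← Real.rpow_add hP0, hla]
    congr 1
    ring
  have h8 : (J (k + m) k P : ℝ) ≤ 2 ^ (8 * k * (k + m)) * (p : ℝ) ^ (2 * m + k * (k - 1) / 2) *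
      (P : ℝ) ^ k * J m k (P / p + 1) := by
    exact_mod_cast recur (by omega) hp hkp h1 h2 hm
  calc (J (k + m) k P : ℝ) ≤ 2 ^ (8 * k * (k + m)) * (p : ℝ) ^ (2 * m + k * (k - 1) / 2) *
        (P : ℝ) ^ k * (2 ^ (14 * m ^ 2) * (2 ^ (2 * m) * (P : ℝ) ^ la * (p : ℝ) ^ (-la))) := by
        refine h8.trans (mul_le_mul_of_nonneg_left ((ih _ (Nat.le_add_left _ _)).trans ?_)
          (by positivity))
        exact mul_le_mul_of_nonneg_left h4 (by positivity)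
    _ = 2 ^ (8 * k * (k + m)) * 2 ^ (14 * m ^ 2) * 2 ^ (2 * m) * ((P : ℝ) ^ k * (P : ℝ) ^ la) *
        ((p : ℝ) ^ (2 * m + k * (k - 1) / 2) * (p : ℝ) ^ (-la)) := by ring
    _ ≤ 2 ^ (8 * k * (k + m)) * 2 ^ (14 * m ^ 2) * 2 ^ (2 * m) * ((P : ℝ) ^ k * (P : ℝ) ^ la) *
        (2 ^ (2 * k ^ 2) * (P : ℝ) ^ ((k : ℝ) - D / k)) :=
        mul_le_mul_of_nonneg_left h5 (by positivity)
    _ = 2 ^ (8 * k * (k + m)) * 2 ^ (14 * m ^ 2) * 2 ^ (2 * m) * 2 ^ (2 * k ^ 2) *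
        ((P : ℝ) ^ k * (P : ℝ) ^ la * (P : ℝ) ^ ((k : ℝ) - D / k)) := by ring
    _ ≤ _ := by
        rw [h7]
        exact mul_le_mul_of_nonneg_right h6 (by positivity)

theorem vmvt {k : ℕ} (hk : 3 ≤ k) (τ : ℕ) {P : ℕ} (hP : 1 ≤ P) :
    (J (k ^ 2 + k * τ) k P : ℝ) ≤ 2 ^ (14 * (k ^ 2 + k * τ) ^ 2) *
      (P : ℝ) ^ (2 * ((k : ℝ) ^ 2 + k * τ) - k * (k + 1) / 2 +
        k * (k + 1) / 2 * (1 - 1 / (k : ℝ)) ^ τ) := by
  have hk' : (3 : ℝ) ≤ k := by exact_mod_cast hk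
  have hq0 : 0 ≤ 1 - 1 / (k : ℝ) := by
    rw [sub_nonneg, div_le_one (by linarith)]
    linarith
  have hq1 : 1 - 1 / (k : ℝ) ≤ 1 := by
    have : 0 ≤ 1 / (k : ℝ) := by positivity
    linarith
  have hK : (k : ℝ) * (k + 1) / 2 ≤ (k : ℝ) ^ 2 := by nlinarith
  induction τ generalizing P with
  | zero =>
    have h1 : (J (k ^ 2 + k * 0) k P : ℝ) ≤ (P : ℝ) ^ (2 * (k ^ 2 + k * 0)) := by
      exact_mod_cast J_le _ k P
    refine h1.trans ?_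
    rw [← Real.rpow_natCast]
    refine le_trans (le_of_eq ?_) (le_mul_of_one_le_left (by positivity)
      (one_le_pow₀ (by norm_num)))
    congr 1
    push_cast
    ring
  | succ τ ih =>
    by_cases hs : P ≤ k ^ k
    · refine vmvt_small (Nat.le_add_right _ _) hP hs ?_
      have : 0 ≤ (k : ℝ) * (k + 1) / 2 * (1 - 1 / (k : ℝ)) ^ (τ + 1) := by positivity
      push_cast
      linarith
    · have h1 := vmvt_step (m := k ^ 2 + k * τ) hk (Nat.le_add_right _ _) (not_le.1 hs).le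
        (D := k * (k + 1) / 2 * (1 - 1 / (k : ℝ)) ^ τ) (by positivity)
        (mul_le_of_le_one_right (by positivity) (pow_le_one₀ hq0 hq1))
        (fun Q hQ => by simpa only [Nat.cast_add, Nat.cast_pow, Nat.cast_mul] using ih hQ)
      have h2 : k ^ 2 + k * (τ + 1) = k + (k ^ 2 + k * τ) := by ring
      rw [h2]
      refine h1.trans (le_of_eq ?_)
      congr 2
      push_cast
      ring

end Pool.Agent.Lib.MP_1db5af_an
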