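import Pool.Agent.Lib.MP_1db5af_an.Bilin
import Pool.Agent.Lib.MP_1db5af_an.VMVT

set_option autoImplicit false

namespace Pool.Agent.Lib.MP_1db5af_an

open Finset

theorem poly_BB_nonneg (α : ℝ) (A : ℕ) : 0 ≤ BB α A :=
  sum_nonneg fun _ _ => norm_nonneg _

theorem poly_BB_good {α ρ : ℝ} {s b : ℕ} (hs : 1 ≤ s) (hb : 1 ≤ b) (h0 : α ≠ 0)
    (h1 : |α| * ((s : ℝ) * b) ≤ 1 / 2) (h2 : 2 / ((b : ℝ) * √|α|) ≤ ρ) :
    BB α (s * b) ≤ (3 * ((s : ℝ) * b)) ^ 2 * ρ := by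
  have hA : 1 ≤ s * b := Nat.one_le_iff_ne_zero.mpr (Nat.mul_ne_zero (by omega) (by omega))
  have h3 := BB_le' hA h0 (by push_cast; exact h1)
  push_cast at h3
  have hs' : (1 : ℝ) ≤ s := by exact_mod_cast hs
  have hb' : (1 : ℝ) ≤ b := by exact_mod_cast hb
  have hq : 0 < √|α| := Real.sqrt_pos.mpr (abs_pos.mpr h0)
  refine h3.trans (le_trans ?_ (mul_le_mul_of_nonneg_left h2 (by positivity)))
  have e : (3 * ((s : ℝ) * b)) ^ 2 * (2 / ((b : ℝ) * √|α|)) = 18 * s ^ 2 * b / √|α| := by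
    field_simp; ring
  rw [e]
  refine div_le_div_of_nonneg_right ?_ hq.le
  have : (0 : ℝ) ≤ s * b := by positivity
  nlinarith

theorem poly_sum_succ (k : ℕ) : ∑ j : Fin k, 2 * (j.1 + 1) = k * (k + 1) := by
  rw [Fin.sum_univ_eq_sum_range (fun j => 2 * (j + 1)) k]
  induction k with
  | zero => simp
  | succ n ih => rw [sum_range_succ, ih]; ring

theorem poly_prod_eq (k : ℕ) (s a : ℝ) :
    ∏ j : Fin k, (3 * (s * a ^ (j.1 + 1))) ^ 2 = (3 * s) ^ (2 * k) * a ^ (k * (k + 1)) := by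
  have e : ∀ j : Fin k, (3 * (s * a ^ (j.1 + 1))) ^ 2 = (3 * s) ^ 2 * a ^ (2 * (j.1 + 1)) := by
    intro j; ring
  rw [prod_congr rfl fun j _ => e j, prod_mul_distrib, prod_const, card_univ, Fintype.card_fin,
    ← pow_mul, prod_pow_eq_pow_sum, poly_sum_succ]

theorem poly_prod_le {k s a : ℕ} (hs : 1 ≤ s) (ha : 1 ≤ a) (α : Fin k → ℝ)
    (Gd : Finset (Fin k)) {ρ : ℝ}
    (h : ∀ j ∈ Gd, α j ≠ 0 ∧ |α j| * ((s : ℝ) * (a : ℝ) ^ (j.1 + 1)) ≤ 1 / 2 ∧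
      2 / ((a : ℝ) ^ (j.1 + 1) * √|α j|) ≤ ρ) :
    ∏ j, BB (α j) (s * a ^ (j.1 + 1)) ≤
      (3 * (s : ℝ)) ^ (2 * k) * (a : ℝ) ^ (k * (k + 1)) * ρ ^ Gd.card := by
  classical
  have hb : ∀ j : Fin k, 1 ≤ a ^ (j.1 + 1) := fun j => Nat.one_le_pow _ _ ha
  have h1 : ∀ j : Fin k, BB (α j) (s * a ^ (j.1 + 1)) ≤
      (3 * ((s : ℝ) * (a : ℝ) ^ (j.1 + 1))) ^ 2 * (if j ∈ Gd then ρ else 1) := by
    intro j
    split_ifs with hj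
    · obtain ⟨h0, h1, h2⟩ := h j hj
      have := poly_BB_good (ρ := ρ) hs (hb j) h0 (by push_cast; exact h1) (by push_cast; exact h2)
      push_cast at this
      exact this
    · have hA : 1 ≤ s * a ^ (j.1 + 1) :=
        Nat.one_le_iff_ne_zero.mpr (Nat.mul_ne_zero (by omega) (by have := hb j; omega))
      have := BB_le (α j) hA
      push_cast at this
      rw [mul_one]
      exact this
  refine (prod_le_prod (fun j _ => poly_BB_nonneg _ _) fun j _ => h1 j).trans (le_of_eq ?_)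
  rw [prod_mul_distrib, poly_prod_eq, prod_ite, prod_const_one, mul_one, prod_const]
  have : (univ.filter fun j : Fin k => j ∈ Gd) = Gd := by
    ext j; simp
  rw [this]

theorem poly_three_le {k s : ℕ} (hs : 2 ≤ s) (hks : k ≤ s) :
    (3 * (s : ℝ)) ^ (2 * k) ≤ 2 ^ (4 * s ^ 2) := by
  have h1 : s < 2 ^ s := Nat.lt_two_pow_self
  have h2 : 2 ^ 2 ≤ 2 ^ s := Nat.pow_le_pow_right (by norm_num) hs
  have h3 : 3 * s ≤ 2 ^ (2 * s) := by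
    rw [two_mul, pow_add]
    exact Nat.mul_le_mul (by omega) h1.le
  have h4 : (3 * s) ^ (2 * k) ≤ 2 ^ (4 * s ^ 2) := by
    refine (Nat.pow_le_pow_left h3 _).trans ?_
    rw [← pow_mul]
    refine Nat.pow_le_pow_right (by norm_num) ?_
    nlinarith
  exact_mod_cast h4

theorem poly_exp_le {k : ℕ} (hk : 1 ≤ k) (τ : ℕ) :
    (k : ℝ) * (k + 1) * (1 - 1 / (k : ℝ)) ^ τ ≤ 2 * (k : ℝ) ^ 2 * Real.exp (-((τ : ℝ) / k)) := by
  have hk' : (1 : ℝ) ≤ k := by exact_mod_cast hk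
  have h0 : 0 ≤ 1 - 1 / (k : ℝ) := by
    rw [sub_nonneg, div_le_one (by linarith)]; exact hk'
  have h1 : 1 - 1 / (k : ℝ) ≤ Real.exp (-(1 / (k : ℝ))) := by
    have := Real.add_one_le_exp (-(1 / (k : ℝ)))
    linarith
  have h2 : (1 - 1 / (k : ℝ)) ^ τ ≤ Real.exp (-((τ : ℝ) / k)) := by
    refine (pow_le_pow_left₀ h0 h1 τ).trans (le_of_eq ?_)
    rw [← Real.exp_nat_mul]
    congr 1
    ring
  refine mul_le_mul ?_ h2 (pow_nonneg h0 _) (by positivity)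
  nlinarith

theorem poly_est {k : ℕ} (hk : 3 ≤ k) (τ : ℕ) {a : ℕ} (ha : 1 ≤ a) (α : Fin k → ℝ)
    (Gd : Finset (Fin k)) {ρ : ℝ}
    (h : ∀ j ∈ Gd, α j ≠ 0 ∧ |α j| * (((k : ℝ) ^ 2 + k * τ) * (a : ℝ) ^ (j.1 + 1)) ≤ 1 / 2 ∧
      2 / ((a : ℝ) ^ (j.1 + 1) * √|α j|) ≤ ρ) :
    ‖∑ u ∈ range a, ∑ v ∈ range a, ex (∑ j, α j * ((u : ℝ) * v) ^ (j.1 + 1))‖ ^
        (4 * (k ^ 2 + k * τ) ^ 2) ≤
      (256 * (a : ℝ) ^ 2) ^ (4 * (k ^ 2 + k * τ) ^ 2) *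
        (a : ℝ) ^ (2 * (k : ℝ) ^ 2 * Real.exp (-((τ : ℝ) / k))) * ρ ^ Gd.card := by
  have hv := vmvt hk τ ha
  have hsr : ((k : ℝ) ^ 2 + k * τ) = ((k ^ 2 + k * τ : ℕ) : ℝ) := by push_cast; ring
  have hks : k ≤ k ^ 2 + k * τ := by nlinarith [Nat.zero_le (k * τ)]
  rw [hsr] at h hv
  generalize k ^ 2 + k * τ = s at h hv hks ⊢
  have hs : 1 ≤ s := by omega
  have hb := bilin hs k a α
  have hp := poly_prod_le hs ha α Gd h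
  have h3 := poly_three_le (k := k) (s := s) (by omega) hks
  have he := poly_exp_le (k := k) (by omega) τ
  have ha' : (1 : ℝ) ≤ a := by exact_mod_cast ha
  have ha0 : (0 : ℝ) < a := by linarith
  have hρ : 0 ≤ ρ ^ Gd.card := by
    rcases Gd.eq_empty_or_nonempty with h0 | ⟨j, hj⟩
    · rw [h0, card_empty, pow_zero]; exact zero_le_one
    · refine pow_nonneg (le_trans ?_ (h j hj).2.2) _
      positivity
  set D : ℝ := (k : ℝ) * (k + 1) * (1 - 1 / (k : ℝ)) ^ τ with hD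
  set E : ℝ := 2 * (k : ℝ) ^ 2 * Real.exp (-((τ : ℝ) / k)) with hE
  set X : ℝ := 2 * (s : ℝ) - k * (k + 1) / 2 + k * (k + 1) / 2 * (1 - 1 / (k : ℝ)) ^ τ with hX
  have hJ : (J s k a : ℝ) ^ 2 ≤ (2 ^ (14 * s ^ 2) * (a : ℝ) ^ X) ^ 2 :=
    pow_le_pow_left₀ (Nat.cast_nonneg _) hv 2
  have h48 : 4 * s ≤ 8 * s ^ 2 := by nlinarith
  have hpow : (a : ℝ) ^ (8 * s ^ 2 - 4 * s) * ((a : ℝ) ^ X) ^ 2 * (a : ℝ) ^ (k * (k + 1)) =
      (a : ℝ) ^ (8 * s ^ 2) * (a : ℝ) ^ D := by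
    rw [← Real.rpow_natCast (a : ℝ) (8 * s ^ 2 - 4 * s), ← Real.rpow_natCast ((a : ℝ) ^ X) 2,
      ← Real.rpow_mul ha0.le, ← Real.rpow_natCast (a : ℝ) (k * (k + 1)),
      ← Real.rpow_natCast (a : ℝ) (8 * s ^ 2), ← Real.rpow_add ha0, ← Real.rpow_add ha0,
      ← Real.rpow_add ha0]
    congr 1
    rw [Nat.cast_sub h48, hX, hD]
    push_cast
    ring
  have hDE : (a : ℝ) ^ D ≤ (a : ℝ) ^ E := Real.rpow_le_rpow_of_exponent_le ha' he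
  have hP0 : 0 ≤ ∏ j, BB (α j) (s * a ^ (j.1 + 1)) := prod_nonneg fun j _ => poly_BB_nonneg _ _
  have hX0 : 0 ≤ (a : ℝ) ^ X := Real.rpow_nonneg ha0.le _
  have hD0 : 0 ≤ (a : ℝ) ^ D := Real.rpow_nonneg ha0.le _
  have hE0 : 0 ≤ (a : ℝ) ^ E := Real.rpow_nonneg ha0.le _
  have h256 : (256 * (a : ℝ) ^ 2) ^ (4 * s ^ 2) =
      (2 ^ (14 * s ^ 2)) ^ 2 * 2 ^ (4 * s ^ 2) * (a : ℝ) ^ (8 * s ^ 2) := by
    rw [mul_pow, ← pow_mul, ← pow_mul, ← pow_add, show (256 : ℝ) = 2 ^ 8 by norm_num, ← pow_mul]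
    congr 2 <;> ring
  calc _ ≤ _ := hb
    _ ≤ (a : ℝ) ^ (8 * s ^ 2 - 4 * s) * (2 ^ (14 * s ^ 2) * (a : ℝ) ^ X) ^ 2 *
        (2 ^ (4 * s ^ 2) * (a : ℝ) ^ (k * (k + 1)) * ρ ^ Gd.card) := by
      refine mul_le_mul (mul_le_mul_of_nonneg_left hJ (by positivity)) (hp.trans ?_) hP0
        (by positivity)
      exact mul_le_mul_of_nonneg_right (mul_le_mul_of_nonneg_right h3 (by positivity)) hρ
    _ = (2 ^ (14 * s ^ 2)) ^ 2 * 2 ^ (4 * s ^ 2) *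
        ((a : ℝ) ^ (8 * s ^ 2 - 4 * s) * ((a : ℝ) ^ X) ^ 2 * (a : ℝ) ^ (k * (k + 1))) *
        ρ ^ Gd.card := by
      rw [mul_pow]; ring
    _ = (256 * (a : ℝ) ^ 2) ^ (4 * s ^ 2) * (a : ℝ) ^ D * ρ ^ Gd.card := by
      rw [hpow, h256]; ring
    _ ≤ _ := mul_le_mul_of_nonneg_right (mul_le_mul_of_nonneg_left hDE (by positivity)) hρ

end Pool.Agent.Lib.MP_1db5af_an
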