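import Pool.Agent.Lib.MP_1db5af_an.CoefC
import Pool.Agent.Lib.MP_1db5af_an.Poly

set_option autoImplicit false

namespace Pool.Agent.Lib.MP_1db5af_an

open Finset Filter

theorem local_good_card {k : ℕ} {A B : ℝ} (hA : 0 < A) (hB0 : 0 ≤ B) (hB : B ≤ k) :
    B - A - 1 ≤ ((univ.filter fun j : Fin k =>
      A ≤ ((j.1 + 1 : ℕ) : ℝ) ∧ ((j.1 + 1 : ℕ) : ℝ) ≤ B).card : ℝ) := by
  classical
  set Gd := univ.filter fun j : Fin k => A ≤ ((j.1 + 1 : ℕ) : ℝ) ∧ ((j.1 + 1 : ℕ) : ℝ) ≤ B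
  have hsub : Icc ⌈A⌉₊ ⌊B⌋₊ ⊆ Gd.image (fun j => j.1 + 1) := by
    intro r hr
    obtain ⟨h1, h2⟩ := mem_Icc.1 hr
    have h3 : A ≤ r := Nat.ceil_le.1 h1
    have h4 : (r : ℝ) ≤ B := (Nat.le_floor_iff hB0).1 h2
    have h5 : 0 < r := by exact_mod_cast hA.trans_le h3
    have h6 : r ≤ k := by exact_mod_cast h4.trans hB
    have h7 : r - 1 + 1 = r := by omega
    refine mem_image.2 ⟨⟨r - 1, by omega⟩, ?_, h7⟩
    simp only [Gd, mem_filter, mem_univ, true_and, h7]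
    exact ⟨h3, h4⟩
  have h1 := (card_le_card hsub).trans card_image_le
  rw [Nat.card_Icc] at h1
  have h2 : ⌊B⌋₊ + 1 ≤ Gd.card + ⌈A⌉₊ := by omega
  have h3 : (⌊B⌋₊ : ℝ) + 1 ≤ Gd.card + ⌈A⌉₊ := by exact_mod_cast h2
  have h4 := Nat.lt_floor_add_one B
  have h5 := Nat.ceil_lt_add_one hA.le
  linarith

theorem local_split (α : ℕ → ℝ) (k a : ℕ) (F : ℕ → ℕ → ℝ) {R : ℝ}
    (h : ∀ u < a, ∀ v < a, |F u v - ∑ r ∈ range (k + 1), α r * ((u : ℝ) * v) ^ r| ≤ R) :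
    ‖∑ u ∈ range a, ∑ v ∈ range a, ex (F u v)‖ ≤
      ‖∑ u ∈ range a, ∑ v ∈ range a,
        ex (∑ j : Fin k, α (j.1 + 1) * ((u : ℝ) * v) ^ (j.1 + 1))‖ + 7 * R * (a : ℝ) ^ 2 := by
  have h1 : ∀ u v : ℕ, ex (∑ r ∈ range (k + 1), α r * ((u : ℝ) * v) ^ r) =
      ex (α 0) * ex (∑ j : Fin k, α (j.1 + 1) * ((u : ℝ) * v) ^ (j.1 + 1)) := by
    intro u v
    rw [sum_range_succ', add_comm, ex_add, pow_zero, mul_one,
      Fin.sum_univ_eq_sum_range (fun j => α (j + 1) * ((u : ℝ) * v) ^ (j + 1)) k]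
  have h2 : ∑ u ∈ range a, ∑ v ∈ range a, ex (F u v) =
      ex (α 0) * (∑ u ∈ range a, ∑ v ∈ range a,
        ex (∑ j : Fin k, α (j.1 + 1) * ((u : ℝ) * v) ^ (j.1 + 1))) +
      ∑ u ∈ range a, ∑ v ∈ range a,
        (ex (F u v) - ex (∑ r ∈ range (k + 1), α r * ((u : ℝ) * v) ^ r)) := by
    simp only [mul_sum, ← sum_add_distrib, h1]
    refine sum_congr rfl fun u _ => sum_congr rfl fun v _ => ?_
    ring
  rw [h2]
  refine (norm_add_le _ _).trans (add_le_add ?_ ?_)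
  · rw [norm_mul, norm_ex, one_mul]
  · have h3 : ∀ u ∈ range a, ‖∑ v ∈ range a,
        (ex (F u v) - ex (∑ r ∈ range (k + 1), α r * ((u : ℝ) * v) ^ r))‖ ≤ a * (7 * R) := by
      intro u hu
      refine (norm_sum_le_of_le _ (n := fun _ => 7 * R) fun v hv => ?_).trans (by simp)
      refine (norm_ex_sub_le _ _).trans ?_
      have := h u (mem_range.1 hu) v (mem_range.1 hv)
      linarith
    refine (norm_sum_le_of_le _ h3).trans (le_of_eq ?_)
    simp only [sum_const, card_range, nsmul_eq_mul]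
    ring

/-- The Taylor remainder is small. -/
theorem local_rem {c t l h : ℝ} {k : ℕ} (hc : c < 1 / 2) (ht : 300 ≤ t) (hl : 6 ≤ l)
    (hk : 2 * l ≤ k) (h0 : 0 ≤ h) (hh : h ≤ Real.exp (62 / 100 * c * t)) :
    h ≤ Real.exp t / 8 ∧
      2 * Real.exp (l * t + t) * (4 * h / Real.exp t) ^ (k + 1) ≤ 2 * Real.exp (-t) := by
  have h1 : h ≤ Real.exp (31 / 100 * t) := hh.trans (Real.exp_le_exp.2 (by nlinarith))
  have h2 : (4 : ℝ) ≤ Real.exp (1 / 100 * t) := by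
    have := Real.add_one_le_exp (1 / 100 * t)
    linarith
  have h3 : (8 : ℝ) ≤ Real.exp (69 / 100 * t) := by
    have := Real.add_one_le_exp (69 / 100 * t)
    linarith
  constructor
  · have h4 : Real.exp t = Real.exp (31 / 100 * t) * Real.exp (69 / 100 * t) := by
      rw [← Real.exp_add]; congr 1; ring
    rw [h4, le_div_iff₀ (by norm_num)]
    exact mul_le_mul h1 h3 (by norm_num) (Real.exp_pos _).le
  · have h4 : 4 * h / Real.exp t ≤ Real.exp (-(68 / 100 * t)) := by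
      rw [div_le_iff₀ (Real.exp_pos _), ← Real.exp_add]
      calc 4 * h ≤ Real.exp (1 / 100 * t) * Real.exp (31 / 100 * t) :=
            mul_le_mul h2 h1 h0 (Real.exp_pos _).le
        _ = _ := by rw [← Real.exp_add]; congr 1; ring
    have h5 : (4 * h / Real.exp t) ^ (k + 1) ≤ Real.exp (-(136 / 100 * l * t)) := by
      refine (pow_le_pow_left₀ (by positivity) h4 _).trans ?_
      rw [← Real.exp_nat_mul]
      refine Real.exp_le_exp.2 ?_
      push_cast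
      nlinarith
    calc 2 * Real.exp (l * t + t) * (4 * h / Real.exp t) ^ (k + 1)
        ≤ 2 * Real.exp (l * t + t) * Real.exp (-(136 / 100 * l * t)) := by gcongr
      _ = 2 * Real.exp (l * t + t + -(136 / 100 * l * t)) := by rw [mul_assoc, ← Real.exp_add]
      _ ≤ _ := by
        gcongr
        nlinarith

/-- The good coefficients are small. -/
theorem local_small {c t l s b a : ℝ} {r : ℕ} (hc0 : 0 < c) (hc : c < 1 / 2) (ht : 1 ≤ t)
    (hl : 300 ≤ c * l) (hlt : l ≤ t) (hs0 : 0 ≤ s) (hs : s ≤ t ^ 2) (ha0 : 0 ≤ a)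
    (ha : a ≤ Real.exp (31 / 100 * c * t)) (hr1 : (1 + 2 * c / 5) * l ≤ r)
    (hr2 : (r : ℝ) ≤ (1 + c / 2) * l)
    (hb : |b| ≤ Real.exp (l * t + t) * (4 / Real.exp t) ^ r) :
    |b| * (s * a ^ r) ≤ 1 / 2 := by
  have hl0 : 0 < l := by
    by_contra hh
    have : c * l ≤ 0 := mul_nonpos_of_nonneg_of_nonpos hc0.le (not_lt.1 hh)
    linarith
  have h1 : s ≤ Real.exp (2 * t) := by
    refine hs.trans ?_
    have h := Real.add_one_le_exp t
    have h' : Real.exp (2 * t) = Real.exp t ^ 2 := by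
      rw [← Real.exp_nat_mul]; norm_num
    rw [h']
    exact pow_le_pow_left₀ (by linarith) (by linarith) 2
  have h2 : a ^ r ≤ Real.exp (r * (31 / 100 * c * t)) := by
    rw [Real.exp_nat_mul]
    exact pow_le_pow_left₀ ha0 ha r
  have h3 : (4 / Real.exp t) ^ r ≤ Real.exp (r * (3 - t)) := by
    rw [Real.exp_nat_mul]
    refine pow_le_pow_left₀ (by positivity) ?_ r
    rw [Real.exp_sub]
    gcongr
    have := Real.add_one_le_exp 3
    linarith
  have h4 : l * (1 + 28 / 1000 * c) ≤ r * (1 - 31 / 100 * c) := by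
    have h5 : 1 + 28 / 1000 * c ≤ (1 + 2 * c / 5) * (1 - 31 / 100 * c) := by nlinarith
    calc l * (1 + 28 / 1000 * c) ≤ l * ((1 + 2 * c / 5) * (1 - 31 / 100 * c)) := by gcongr
      _ = (1 + 2 * c / 5) * l * (1 - 31 / 100 * c) := by ring
      _ ≤ _ := mul_le_mul_of_nonneg_right hr1 (by linarith)
  have h6 : (r : ℝ) * 3 ≤ 4 * t := by nlinarith
  calc |b| * (s * a ^ r) ≤ (Real.exp (l * t + t) * Real.exp (r * (3 - t))) *
        (Real.exp (2 * t) * Real.exp (r * (31 / 100 * c * t))) := by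
        refine mul_le_mul (hb.trans ?_) ?_ (by positivity) (by positivity)
        · gcongr
        · gcongr
    _ = Real.exp (l * t + 3 * t + r * 3 - r * (1 - 31 / 100 * c) * t) := by
        simp only [← Real.exp_add]; congr 1; ring
    _ ≤ Real.exp (-1) := by
        refine Real.exp_le_exp.2 ?_
        have h7 := mul_le_mul_of_nonneg_right h4 (by linarith : 0 ≤ t)
        have h8 := mul_le_mul_of_nonneg_right hl (by linarith : 0 ≤ t)
        nlinarith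
    _ ≤ 1 / 2 := by
        rw [Real.exp_neg, one_div]
        refine inv_anti₀ (by norm_num) ?_
        have := Real.add_one_le_exp 1
        linarith

/-- The good coefficients are not too small. -/
theorem local_large {c C t l b a : ℝ} {r : ℕ} (hc0 : 0 < c) (ht : 1 ≤ t)
    (hl : 50 * |C| + 100 ≤ c * l) (ha : Real.exp (28 / 100 * c * t) ≤ a)
    (hr1 : l ≤ r) (hr2 : (r : ℝ) ≤ (1 + c / 2) * l)
    (hb : Real.exp (l * t - C * t) / Real.exp t ^ r ≤ |b|) :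
    2 / (a ^ r * √|b|) ≤ Real.exp (-(2 / 100 * c * l * t)) := by
  have h1 : Real.exp (r * (28 / 100 * c * t)) ≤ a ^ r := by
    rw [Real.exp_nat_mul]
    exact pow_le_pow_left₀ (Real.exp_pos _).le ha r
  have h2 : Real.exp ((l * t - C * t - r * t) / 2) ≤ √|b| := by
    refine Real.le_sqrt_of_sq_le (le_trans (le_of_eq ?_) hb)
    rw [← Real.exp_nat_mul, ← Real.exp_nat_mul, ← Real.exp_sub]
    congr 1
    push_cast
    ring
  have h3 : Real.exp (r * (28 / 100 * c * t)) * Real.exp ((l * t - C * t - r * t) / 2) ≤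
      a ^ r * √|b| :=
    mul_le_mul h1 h2 (Real.exp_pos _).le ((Real.exp_pos _).le.trans h1)
  have h4 : (2 : ℝ) ≤ Real.exp 1 := by
    have := Real.add_one_le_exp 1
    linarith
  calc 2 / (a ^ r * √|b|) ≤ Real.exp 1 /
        (Real.exp (r * (28 / 100 * c * t)) * Real.exp ((l * t - C * t - r * t) / 2)) := by
        gcongr
    _ = Real.exp (1 - (r * (28 / 100 * c * t) + (l * t - C * t - r * t) / 2)) := by
        rw [← Real.exp_add, ← Real.exp_sub]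
    _ ≤ _ := by
        refine Real.exp_le_exp.2 ?_
        have ht0 : 0 ≤ t := by linarith
        have h5 := mul_le_mul_of_nonneg_right hr1 (by positivity : 0 ≤ 28 / 100 * c * t)
        have h6 := mul_le_mul_of_nonneg_right hr2 ht0
        have h7 := mul_le_mul_of_nonneg_right hl ht0
        have h8 := mul_le_mul_of_nonneg_right (le_abs_self C) ht0
        nlinarith

/-- The polynomial double sum is small. -/
theorem local_poly {c C t l δ : ℝ} {C0 a : ℕ} (α : ℕ → ℝ) (hc0 : 0 < c) (hc : c < 1 / 2)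
    (hδ : 0 < δ) (hC0 : Real.exp (-(C0 : ℝ)) ≤ c / 12000) (ht : 9 * (1 + (C0 : ℝ)) ≤ t)
    (hl1 : 300 ≤ c * l) (hl2 : 50 * |C| + 100 ≤ c * l) (hlt : l ^ 2 ≤ t)
    (hlt' : 324 * (1 + (C0 : ℝ)) ^ 2 * |Real.log (δ / 512)| * l ^ 2 ≤ 5 / 10000 * c ^ 2 * t)
    (ha1 : Real.exp (28 / 100 * c * t) ≤ a) (ha2 : (a : ℝ) ≤ Real.exp (31 / 100 * c * t))
    (hup : ∀ r : ℕ, |α r| ≤ Real.exp (l * t + t) * (4 / Real.exp t) ^ r)
    (hlow : ∀ r : ℕ, (r : ℝ) ≤ (1 + c / 2) * l → Real.exp (l * t - C * t) / Real.exp t ^ r ≤ |α r|) :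
    ‖∑ u ∈ range a, ∑ v ∈ range a,
        ex (∑ j : Fin ⌈2 * l⌉₊, α (j.1 + 1) * ((u : ℝ) * v) ^ (j.1 + 1))‖ ≤
      δ / 2 * (a : ℝ) ^ 2 := by
  classical
  have hl600 : 600 ≤ l := by nlinarith
  have hC00 : (0 : ℝ) ≤ C0 := Nat.cast_nonneg _
  have ht1 : 1 ≤ t := by linarith
  set k := ⌈2 * l⌉₊ with hk
  have hk1 : 2 * l ≤ k := Nat.le_ceil _
  have hk2 : (k : ℝ) ≤ 3 * l := by
    have := Nat.ceil_lt_add_one (by linarith : 0 ≤ 2 * l)
    linarith
  have hk3 : 3 ≤ k := by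
    have : (3 : ℝ) ≤ k := by linarith
    exact_mod_cast this
  have hk0 : (0 : ℝ) < k := by linarith
  have ha0 : (0 : ℝ) < a := (Real.exp_pos _).trans_le ha1
  have ha : 1 ≤ a := by exact_mod_cast ha0
  set Gd := univ.filter fun j : Fin k =>
      (1 + 2 * c / 5) * l ≤ ((j.1 + 1 : ℕ) : ℝ) ∧ ((j.1 + 1 : ℕ) : ℝ) ≤ (1 + c / 2) * l with hGd
  have hcard : c * l / 20 ≤ Gd.card := by
    have := local_good_card (k := k) (A := (1 + 2 * c / 5) * l) (B := (1 + c / 2) * l)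
      (by positivity) (by positivity) (by nlinarith)
    rw [← hGd] at this
    nlinarith
  have hs : (k : ℝ) ^ 2 + k * ((C0 * k : ℕ) : ℝ) ≤ 9 * (1 + C0) * l ^ 2 := by
    push_cast
    have h1 : (k : ℝ) ^ 2 ≤ (3 * l) ^ 2 := pow_le_pow_left₀ hk0.le hk2 2
    calc (k : ℝ) ^ 2 + k * (C0 * k) = (1 + C0) * (k : ℝ) ^ 2 := by ring
      _ ≤ (1 + C0) * (3 * l) ^ 2 := by gcongr
      _ = _ := by ring
  have hP := poly_est hk3 (C0 * k) ha (fun j : Fin k => α (j.1 + 1)) Gd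
    (ρ := Real.exp (-(2 / 100 * c * l * t))) (by
      intro j hj
      obtain ⟨h1, h2⟩ := (mem_filter.1 hj).2
      have h3 := hlow _ h2
      refine ⟨?_, ?_, ?_⟩
      · exact abs_pos.1 (lt_of_lt_of_le (by positivity) h3)
      · refine local_small hc0 hc ht1 hl1 (by nlinarith) (by positivity) (hs.trans ?_) ha0.le ha2
          h1 h2 (hup _)
        rw [sq t]
        exact mul_le_mul ht hlt (by positivity) (by linarith)
      · exact local_large hc0 ht1 hl2 ha1 (le_trans (by nlinarith) h1) h2 h3)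
  set s := k ^ 2 + k * (C0 * k) with hsdef
  have hs' : (s : ℝ) ≤ 9 * (1 + C0) * l ^ 2 := by
    refine le_trans (le_of_eq ?_) hs
    rw [hsdef]; push_cast; ring
  have hs1 : 4 * s ^ 2 ≠ 0 := by
    have : 0 < s := by rw [hsdef]; positivity
    positivity
  have h1 : (a : ℝ) ^ (2 * (k : ℝ) ^ 2 * Real.exp (-(((C0 * k : ℕ) : ℝ) / k))) ≤
      Real.exp (5 / 10000 * c ^ 2 * l ^ 2 * t) := by
    have e1 : ((C0 * k : ℕ) : ℝ) / k = C0 := by
      push_cast; field_simp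
    rw [e1]
    refine (Real.rpow_le_rpow ha0.le ha2 (by positivity)).trans ?_
    rw [← Real.exp_mul]
    refine Real.exp_le_exp.2 ?_
    have h2 : (k : ℝ) ^ 2 ≤ (3 * l) ^ 2 := pow_le_pow_left₀ hk0.le hk2 2
    calc 31 / 100 * c * t * (2 * (k : ℝ) ^ 2 * Real.exp (-(C0 : ℝ)))
        ≤ 31 / 100 * c * t * (2 * (3 * l) ^ 2 * (c / 12000)) := by gcongr
      _ = 465 / 1000000 * (c ^ 2 * l ^ 2 * t) := by ring
      _ ≤ 5 / 10000 * (c ^ 2 * l ^ 2 * t) :=
          mul_le_mul_of_nonneg_right (by norm_num) (by positivity)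
      _ = _ := by ring
  have h2 : Real.exp (-(2 / 100 * c * l * t)) ^ Gd.card ≤
      Real.exp (-(1 / 1000 * c ^ 2 * l ^ 2 * t)) := by
    rw [← Real.exp_nat_mul]
    refine Real.exp_le_exp.2 ?_
    have := mul_le_mul_of_nonneg_right hcard (by positivity : 0 ≤ 2 / 100 * c * l * t)
    nlinarith
  have h3 : Real.exp (5 / 10000 * c ^ 2 * l ^ 2 * t) * Real.exp (-(1 / 1000 * c ^ 2 * l ^ 2 * t)) ≤
      (δ / 512) ^ (4 * s ^ 2) := by
    rw [← Real.exp_add, ← Real.exp_log (by positivity : 0 < δ / 512), ← Real.exp_nat_mul]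
    refine Real.exp_le_exp.2 ?_
    push_cast
    have h4 : (s : ℝ) ^ 2 ≤ (9 * (1 + C0) * l ^ 2) ^ 2 := pow_le_pow_left₀ (by positivity) hs' 2
    have h5 : -(4 * (s : ℝ) ^ 2 * |Real.log (δ / 512)|) ≤ 4 * (s : ℝ) ^ 2 * Real.log (δ / 512) := by
      have := mul_le_mul_of_nonneg_left (neg_abs_le (Real.log (δ / 512)))
        (by positivity : 0 ≤ 4 * (s : ℝ) ^ 2)
      linarith
    have h6 : 4 * (s : ℝ) ^ 2 * |Real.log (δ / 512)| ≤
        4 * (9 * (1 + C0) * l ^ 2) ^ 2 * |Real.log (δ / 512)| := by gcongr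
    have h7 := mul_le_mul_of_nonneg_right hlt' (by positivity : 0 ≤ l ^ 2)
    nlinarith
  refine le_of_pow_le_pow_left₀ hs1 (by positivity) (hP.trans ?_)
  calc (256 * (a : ℝ) ^ 2) ^ (4 * s ^ 2) *
        (a : ℝ) ^ (2 * (k : ℝ) ^ 2 * Real.exp (-(((C0 * k : ℕ) : ℝ) / k))) *
        Real.exp (-(2 / 100 * c * l * t)) ^ Gd.card
      ≤ (256 * (a : ℝ) ^ 2) ^ (4 * s ^ 2) * Real.exp (5 / 10000 * c ^ 2 * l ^ 2 * t) *
        Real.exp (-(1 / 1000 * c ^ 2 * l ^ 2 * t)) := by gcongr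
    _ ≤ (256 * (a : ℝ) ^ 2) ^ (4 * s ^ 2) * (δ / 512) ^ (4 * s ^ 2) := by
        rw [mul_assoc]; gcongr
    _ = _ := by rw [← mul_pow]; congr 1; ring

theorem local_sq_le {c : ℝ} (hc : c < 1 / 2) (M : ℝ) {ε : ℝ} (hε : 0 < ε) :
    ∀ᶠ t : ℝ in atTop, M * (t ^ c) ^ 2 ≤ ε * t := by
  have h1 : Tendsto (fun t : ℝ => M * t ^ (-(1 - 2 * c))) atTop (nhds (M * 0)) :=
    (tendsto_rpow_neg_atTop (by linarith)).const_mul M
  rw [mul_zero] at h1
  filter_upwards [h1.eventually (ge_mem_nhds hε), eventually_gt_atTop 0] with t h2 ht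
  have h3 : (t ^ c) ^ 2 = t ^ (-(1 - 2 * c)) * t := by
    rw [← Real.rpow_natCast, ← Real.rpow_mul ht.le, ← Real.rpow_add_one ht.ne']
    congr 1
    push_cast
    ring
  rw [h3, ← mul_assoc]
  exact mul_le_mul_of_nonneg_right h2 ht.le

theorem local_est {c : ℝ} (hc0 : 0 < c) (hc : c < 1 / 2) (J : Finset ℕ) (β : ℕ → ℝ)
    (hβ : ∃ j ∈ J, β j ≠ 0) {δ : ℝ} (hδ : 0 < δ) :
    ∀ᶠ x : ℝ in atTop, ∀ a : ℕ, x ^ (28 / 100 * c) ≤ a → (a : ℝ) ≤ x ^ (31 / 100 * c) →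
      ‖∑ u ∈ range a, ∑ v ∈ range a, ex (∑ j ∈ J, β j * G c (x + (u : ℝ) * v + j))‖ ≤
        δ * (a : ℝ) ^ 2 := by
  obtain ⟨C, hC⟩ := coef hc0 hc J β hβ
  obtain ⟨C0, hC0⟩ : ∃ C0 : ℕ, Real.exp (-(C0 : ℝ)) ≤ c / 12000 :=
    ((Real.tendsto_exp_neg_atTop_nhds_zero.comp tendsto_natCast_atTop_atTop).eventually
      (ge_mem_nhds (by positivity))).exists
  have hT : Tendsto (fun t : ℝ => c * t ^ c) atTop atTop :=
    (tendsto_rpow_atTop hc0).const_mul_atTop hc0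
  have hE : ∀ᶠ t : ℝ in atTop, 9 * (1 + (C0 : ℝ)) ≤ t ∧ 300 ≤ t ∧ 300 ≤ c * t ^ c ∧
      50 * |C| + 100 ≤ c * t ^ c ∧ 1 * (t ^ c) ^ 2 ≤ 1 * t ∧
      324 * (1 + (C0 : ℝ)) ^ 2 * |Real.log (δ / 512)| * (t ^ c) ^ 2 ≤ 5 / 10000 * c ^ 2 * t ∧
      Real.exp (-t) ≤ δ / 28 :=
    (eventually_ge_atTop _).and <| (eventually_ge_atTop _).and <|
      (hT.eventually_ge_atTop _).and <| (hT.eventually_ge_atTop _).and <|
      (local_sq_le hc 1 one_pos).and <| (local_sq_le hc _ (by positivity)).and <|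
      Real.tendsto_exp_neg_atTop_nhds_zero.eventually (ge_mem_nhds (by positivity))
  filter_upwards [hC, Real.tendsto_log_atTop.eventually hE, eventually_gt_atTop 0] with
    x hx ht hx0 a ha1 ha2
  obtain ⟨α, hup, hlow, hrem⟩ := hx
  obtain ⟨t, rfl⟩ : ∃ t, x = Real.exp t := ⟨Real.log x, (Real.exp_log hx0).symm⟩
  rw [Real.log_exp] at hup hlow hrem ht
  obtain ⟨h1, h2, h3, h4, h5, h6, h7⟩ := ht
  rw [one_mul, one_mul] at h5
  rw [← Real.exp_mul, mul_comm t] at ha1 ha2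
  set l := t ^ c with hl
  have hP := local_poly α hc0 hc hδ hC0 h1 h3 h4 h5 h6 ha1 ha2 hup hlow
  have hS := local_split α ⌈2 * l⌉₊ a
    (fun u v => ∑ j ∈ J, β j * G c (Real.exp t + (u : ℝ) * v + j)) (R := 2 * Real.exp (-t)) (by
      intro u hu v hv
      have hu' : (u : ℝ) ≤ a := by exact_mod_cast hu.le
      have hv' : (v : ℝ) ≤ a := by exact_mod_cast hv.le
      have h8 : (u : ℝ) * v ≤ Real.exp (62 / 100 * c * t) := by
        calc (u : ℝ) * v ≤ Real.exp (31 / 100 * c * t) * Real.exp (31 / 100 * c * t) :=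
              mul_le_mul (hu'.trans ha2) (hv'.trans ha2) (Nat.cast_nonneg _) (Real.exp_pos _).le
          _ = _ := by rw [← Real.exp_add]; congr 1; ring
      obtain ⟨h9, h10⟩ := local_rem (k := ⌈2 * l⌉₊) hc h2 (by nlinarith : 6 ≤ l) (Nat.le_ceil _)
        (by positivity) h8
      exact (hrem _ _ (by positivity) h9).trans h10)
  have h11 : 7 * (2 * Real.exp (-t)) * (a : ℝ) ^ 2 ≤ δ / 2 * (a : ℝ) ^ 2 :=
    mul_le_mul_of_nonneg_right (by linarith) (by positivity)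
  linarith

end Pool.Agent.Lib.MP_1db5af_an
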