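import Pool.Agent.Lib.MP_1db5af_an.L2

set_option autoImplicit false

namespace Pool.Agent.Lib.MP_1db5af_an

open MeasureTheory Filter Topology ComplexConjugate Finset InnerProductSpace

theorem meanerg_abs {H : Type*} [NormedAddCommGroup H] [InnerProductSpace ℂ H] [CompleteSpace H]
    (U : H →L[ℂ] H) (hU : ‖U‖ ≤ 1) (v : H) :
    ∃ p : H, U p = p ∧ (∀ w, U w = w → ⟪w, v⟫_ℂ = ⟪w, p⟫_ℂ) ∧
      Tendsto (av fun n => U^[n] v) atTop (𝓝 p) := by
  have h := U.tendsto_birkhoffAverage_orthogonalProjection hU v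
  refine ⟨_, ?_, ?_, h.congr fun N => ?_⟩
  · exact ((U.eqLocus (1 : H →L[ℂ] H)).orthogonalProjectionOnto v).2
  · intro w hw
    have h1 := (U.eqLocus (1 : H →L[ℂ] H)).sub_starProjection_mem_orthogonal v
    have h2 := (Submodule.mem_orthogonal _ _).1 h1 w hw
    rw [inner_sub_right, sub_eq_zero] at h2
    exact h2
  · simp only [birkhoffAverage, birkhoffSum, av, id]
    rw [← Complex.coe_smul]
    push_cast
    rfl

variable {X : Type*} {m : MeasurableSpace X} [m0 : MeasurableSpace X] {μ : Measure X}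
  [IsProbabilityMeasure μ] {S T : X → X} {C : ℝ}

theorem Bd.condExp {f : X → ℂ} (h : Bd μ C f) : Bd μ C (μ[f | m]) :=
  ⟨integrable_condExp.aestronglyMeasurable, ae_bdd_norm_condExp_of_ae_bdd_norm h.2⟩

theorem condExp_inv_iter (f : X → ℂ) (n : ℕ) (x : X) :
    (μ[f | MeasurableSpace.invariants S]) (S^[n] x) = (μ[f | MeasurableSpace.invariants S]) x := by
  have h : Measurable[MeasurableSpace.invariants S] (μ[f | MeasurableSpace.invariants S]) :=
    stronglyMeasurable_condExp.measurable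
  have h1 := MeasurableSpace.comp_eq_of_measurable_invariants h
  induction n with
  | zero => rfl
  | succ n ih =>
    rw [Function.iterate_succ_apply']
    exact (congrFun h1 _).trans ih

omit [IsProbabilityMeasure μ] in
theorem meanerg_aesm_inv (hS : MeasurePreserving S μ μ) {p : X → ℂ}
    (hp : AEStronglyMeasurable p μ) (he : (fun x => p (S x)) =ᵐ[μ] p) :
    AEStronglyMeasurable[MeasurableSpace.invariants S] p μ := by
  set q := hp.mk p with hq
  have hqm : StronglyMeasurable q := hp.stronglyMeasurable_mk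
  have hpq : p =ᵐ[μ] q := hp.ae_eq_mk
  have hqS : (fun x => q (S x)) =ᵐ[μ] q := by
    filter_upwards [hS.quasiMeasurePreserving.ae hpq, he, hpq] with x h1 h2 h3
    rw [← h1, h2, h3]
  have hqn : ∀ n : ℕ, (fun x => q (S^[n] x)) =ᵐ[μ] q := by
    intro n
    induction n with
    | zero => exact EventuallyEq.rfl
    | succ n ih =>
      filter_upwards [ih, (hS.iterate n).quasiMeasurePreserving.ae hqS] with x h1 h2
      rw [Function.iterate_succ_apply', h2, h1]
  let r : X → ℂ := fun x => limUnder atTop fun n : ℕ => q (S^[n] x)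
  have hrm : StronglyMeasurable r :=
    StronglyMeasurable.limUnder fun n => hqm.comp_measurable (hS.measurable.iterate n)
  have hrS : ∀ x, r (S x) = r x := by
    intro x
    have e : map (fun n : ℕ => q (S^[n] (S x))) atTop = map (fun n : ℕ => q (S^[n] x)) atTop := by
      conv_rhs => rw [← map_add_atTop_eq_nat 1, Filter.map_map]
      rfl
    simp only [r, limUnder, e]
  have hr : Measurable[MeasurableSpace.invariants S] r := by
    rw [MeasurableSpace.measurable_invariants_dom]
    refine ⟨hrm.measurable, fun s _ => ?_⟩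
    rw [show r ∘ S = r from funext hrS]
  refine ⟨r, hr.stronglyMeasurable, ?_⟩
  filter_upwards [hpq, ae_all_iff.2 hqn] with x h1 h2
  have h3 : Tendsto (fun n : ℕ => q (S^[n] x)) atTop (𝓝 (q x)) := by
    simp only [h2]
    exact tendsto_const_nhds
  rw [h1]
  exact h3.limUnder_eq.symm

omit [IsProbabilityMeasure μ] in
theorem meanerg_Kp_coe (hS : MeasurePreserving S μ μ) (p : Lp ℂ 2 μ) :
    Kp hS p =ᵐ[μ] fun x => p (S x) := by
  have h1 := Kp_L2 hS (Lp.memLp p)
  rw [L2_Lp] at h1
  rw [h1]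
  exact L2_coe ((Lp.memLp p).comp_measurePreserving hS)

theorem mean_erg (hS : MeasurePreserving S μ μ) {f : X → ℂ} (hf : MemLp f 2 μ) :
    Tendsto (av fun n => (Kp hS)^[n] (L2 μ f)) atTop
      (𝓝 (L2 μ (μ[f | MeasurableSpace.invariants S]))) := by
  obtain ⟨p, hp1, hp2, hp3⟩ := meanerg_abs (Kp hS).toContinuousLinearMap
    (LinearIsometry.norm_toContinuousLinearMap_le _) (L2 μ f)
  have hp1' : Kp hS p = p := hp1
  have he : (fun x => p (S x)) =ᵐ[μ] p := by
    have h := meanerg_Kp_coe hS p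
    rw [hp1'] at h
    exact h.symm
  have hpi : Integrable p μ := (Lp.memLp p).integrable one_le_two
  have h1 : (p : X → ℂ) =ᵐ[μ] μ[f | MeasurableSpace.invariants S] := by
    refine ae_eq_condExp_of_forall_setIntegral_eq (MeasurableSpace.invariants_le S)
      (hf.integrable one_le_two) (fun s _ _ => hpi.integrableOn) (fun s hs _ => ?_)
      (meanerg_aesm_inv hS (Lp.aestronglyMeasurable p) he)
    have hs1 : MeasurableSet s := hs.1
    have hs2 : S ⁻¹' s = s := hs.2
    have hw : MemLp (s.indicator fun _ => (1 : ℂ)) 2 μ := (memLp_const 1).indicator hs1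
    have hfix : Kp hS (L2 μ (s.indicator fun _ => (1 : ℂ))) =
        L2 μ (s.indicator fun _ => (1 : ℂ)) := by
      rw [Kp_L2 hS hw]
      congr 1
      funext x
      have hx : S x ∈ s ↔ x ∈ s := by
        conv_rhs => rw [← hs2]
        rfl
      by_cases h : x ∈ s
      · rw [Set.indicator_of_mem h, Set.indicator_of_mem (hx.2 h)]
      · rw [Set.indicator_of_notMem h, Set.indicator_of_notMem fun h' => h (hx.1 h')]
    have h2 := hp2 _ hfix
    have key : ∀ φ : X → ℂ, (∫ x, φ x * conj (s.indicator (fun _ => (1 : ℂ)) x) ∂μ) =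
        ∫ x in s, φ x ∂μ := by
      intro φ
      rw [← integral_indicator hs1]
      congr 1
      funext x
      by_cases h : x ∈ s
      · simp [Set.indicator_of_mem h]
      · simp [Set.indicator_of_notMem h]
    have h3 := inner_L2 hw (Lp.memLp p)
    rw [L2_Lp] at h3
    rw [inner_L2 hw hf, h3, key, key] at h2
    exact h2.symm
  rw [← L2_congr h1, L2_Lp]
  exact hp3

theorem condExp_ergodic (hS : Ergodic S μ) {f : X → ℂ} (hf : Integrable f μ) :
    μ[f | MeasurableSpace.invariants S] =ᵐ[μ] fun _ => ∫ x, f x ∂μ := by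
  obtain ⟨c, hc⟩ := hS.ae_eq_const_of_ae_eq_comp_ae
    (g := μ[f | MeasurableSpace.invariants S]) integrable_condExp.aestronglyMeasurable
    (Eventually.of_forall fun x => condExp_inv_iter f 1 x)
  have h1 : ∫ x, f x ∂μ = c := by
    rw [← integral_condExp (MeasurableSpace.invariants_le S), integral_congr_ae hc]
    simp
  rw [h1]
  exact hc

theorem closed_Bd (hm : m ≤ m0) {φ : ℕ → X → ℂ} (h1 : ∀ n, Bd μ C (φ n))
    (h2 : ∀ n, AEStronglyMeasurable[m] (φ n) μ) {p : Lp ℂ 2 μ}
    (hp : Tendsto (fun n => L2 μ (φ n)) atTop (𝓝 p)) :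
    Bd μ C p ∧ AEStronglyMeasurable[m] p μ := by
  refine ⟨⟨Lp.aestronglyMeasurable p, ?_⟩, ?_⟩
  · obtain ⟨ns, -, hns⟩ := (tendstoInMeasure_of_tendsto_Lp hp).exists_seq_tendsto_ae
    filter_upwards [hns, ae_all_iff.2 fun n => L2_coe (h1 n).memLp, ae_all_iff.2 fun n => (h1 n).2]
      with x e1 e2 e3
    refine le_of_tendsto' e1.norm fun n => ?_
    rw [e2]
    exact e3 _
  · exact (isClosed_aestronglyMeasurable hm).mem_of_tendsto hp
      (Eventually.of_forall fun n => (h2 n).congr (L2_coe (h1 n).memLp).symm)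

theorem aesm_iter (hS : MeasurePreserving S μ μ) (hSm : Measurable[m, m] S) {g : X → ℂ}
    (hg : AEStronglyMeasurable[m] g μ) (n : ℕ) :
    AEStronglyMeasurable[m] (fun x => g (S^[n] x)) μ := by
  obtain ⟨g', hg1, hg2⟩ := hg
  have hn : Measurable[m, m] S^[n] := @Measurable.iterate X m S hSm n
  exact ⟨fun x => g' (S^[n] x), @StronglyMeasurable.comp_measurable X ℂ X _ m m g' _ hg1 hn,
    (hS.iterate n).quasiMeasurePreserving.ae hg2⟩

theorem eigen_proj (hS : MeasurePreserving S μ μ) (hm : m ≤ m0) (hSm : Measurable[m, m] S)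
    {g : X → ℂ} (hg : Bd μ C g) (hgm : AEStronglyMeasurable[m] g μ) (θ : UnitAddCircle) :
    ∃ p : X → ℂ, Bd μ C p ∧ AEStronglyMeasurable[m] p μ ∧
      (fun x => p (S x)) =ᵐ[μ] (fun x => fourier 1 θ * p x) ∧
      Tendsto (fun M => L2 μ fun x => av (fun l => conj (fourier l θ) * g (S^[l] x)) M) atTop
        (𝓝 (L2 μ p)) := by
  set U : Lp ℂ 2 μ →L[ℂ] Lp ℂ 2 μ := conj (fourier 1 θ) • (Kp hS).toContinuousLinearMap with hU
  have hUa : ∀ v, U v = conj (fourier 1 θ) • Kp hS v := fun v => rfl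
  have hUn : ‖U‖ ≤ 1 := by
    rw [hU, norm_smul, Complex.norm_conj, norm_fourier, one_mul]
    exact LinearIsometry.norm_toContinuousLinearMap_le _
  obtain ⟨p, hp1, -, hp3⟩ := meanerg_abs U hUn (L2 μ g)
  have hb : ∀ l : ℕ, Bd μ C fun x => conj (fourier l θ) * g (S^[l] x) := by
    intro l
    have h := (Bd.const (μ := μ) (conj (fourier l θ))).mul (hg.iter hS l)
    rwa [Complex.norm_conj, norm_fourier, one_mul] at h
  have hit : ∀ l : ℕ, U^[l] (L2 μ g) = L2 μ fun x => conj (fourier l θ) * g (S^[l] x) := by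
    intro l
    rw [L2_mul _ (hg.iter hS l).memLp, ← Kp_iter hS hg.memLp]
    induction l with
    | zero => simp
    | succ l ih =>
      rw [Function.iterate_succ_apply', ih, hUa, map_smul, smul_smul,
        Function.iterate_succ_apply', ← map_mul, ← fourier_add]
      push_cast
      rw [add_comm (1 : ℤ)]
  have hT : Tendsto (fun M => L2 μ fun x => av (fun l => conj (fourier l θ) * g (S^[l] x)) M) atTop
      (𝓝 p) := by
    refine hp3.congr fun M => ?_
    rw [L2_av fun l => (hb l).memLp]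
    exact congrArg (fun u => av u M) (funext hit)
  have hcl := closed_Bd (m := m) hm (fun M => Bd.av hg.nonneg hb M) (fun M => ?_) hT
  · refine ⟨p, hcl.1, hcl.2, ?_, by rwa [L2_Lp]⟩
    have h1 : Kp hS p = fourier 1 θ • p := by
      conv_rhs => rw [← hp1, hUa, smul_smul, Complex.mul_conj', norm_fourier]
      simp
    have h2 := meanerg_Kp_coe hS p
    rw [h1] at h2
    filter_upwards [h2, Lp.coeFn_smul (fourier 1 θ) p] with x e1 e2
    rw [← e1, e2]
    rfl
  · have h0 : AEStronglyMeasurable[m]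
        (fun x => ∑ l ∈ range M, conj (fourier l θ) * g (S^[l] x)) μ := by
      induction M with
      | zero => simpa using aestronglyMeasurable_const
      | succ M ih =>
        simp only [sum_range_succ]
        exact ih.add ((aesm_iter hS hSm hgm M).const_mul _)
    exact h0.const_smul ((M : ℝ)⁻¹)

/-- The averages tend to zero in `L²`. -/
def Null (μ : Measure X) (T S : X → X) (a : ℕ → ℕ) (f g : X → ℂ) : Prop :=
  Tendsto (av fun n => L2 μ fun x => f (T^[n] x) * g (S^[a n] x)) atTop (𝓝 0)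

theorem conv_of_null (hT : MeasurePreserving T μ μ) (hS : MeasurePreserving S μ μ) {a : ℕ → ℕ}
    {f g : X → ℂ} (hf : Bd μ C f) (hg : Bd μ C g)
    (h : Null μ T S a f fun x => g x - (μ[g | MeasurableSpace.invariants S]) x) :
    Conv μ T S a f g := by
  set Eg := μ[g | MeasurableSpace.invariants S] with hEg
  set Ef := μ[f | MeasurableSpace.invariants T] with hEf
  have bEg : Bd μ C Eg := hg.condExp
  have bEf : Bd μ C Ef := hf.condExp
  have bu : ∀ n, Bd μ (C * (C + C)) fun x => f (T^[n] x) * (g (S^[a n] x) - Eg (S^[a n] x)) :=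
    fun n => (hf.iter hT n).mul ((hg.sub bEg).iter hS (a n))
  have h1 := (tendsto_av_shift (fun n => (bu n).norm_L2) 1).2 h
  have h2 := mean_erg hT hf.memLp
  simp only [Kp_iter hT hf.memLp] at h2
  have h3 := (tendsto_av_shift (fun n => (hf.iter hT n).norm_L2) 1).2 h2
  have h4 := (tendsto_iff_norm_sub_tendsto_zero.1 h3).const_mul C
  have h5 := h1.norm.add h4
  rw [norm_zero, mul_zero, add_zero] at h5
  have h6 := ENNReal.tendsto_ofReal h5
  rw [ENNReal.ofReal_zero] at h6
  refine tendsto_of_tendsto_of_tendsto_of_le_of_le' tendsto_const_nhds h6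
    (Eventually.of_forall fun _ => zero_le) (Eventually.of_forall fun N => ?_)
  have bA : Bd μ (C * (C + C)) fun x => av (fun n =>
      f (T^[n + 1] x) * (g (S^[a (n + 1)] x) - Eg (S^[a (n + 1)] x))) N :=
    Bd.av (bu 0).nonneg (fun n => bu (n + 1)) N
  have bB : Bd μ (C + C) fun x => av (fun n => f (T^[n + 1] x)) N - Ef x :=
    (Bd.av hf.nonneg (fun n => hf.iter hT (n + 1)) N).sub bEf
  have e : (fun x => (N : ℂ)⁻¹ * ∑ n ∈ Icc 1 N, f (T^[n] x) * g (S^[a n] x) - Ef x * Eg x) =
      fun x => av (fun n => f (T^[n + 1] x) * (g (S^[a (n + 1)] x) - Eg (S^[a (n + 1)] x))) N +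
        Eg x * (av (fun n => f (T^[n + 1] x)) N - Ef x) := by
    funext x
    have e1 : ∀ n, Eg (S^[n] x) = Eg x := fun n => condExp_inv_iter g n x
    have e2 : ∑ n ∈ Icc 1 N, f (T^[n] x) * g (S^[a n] x) =
        ∑ n ∈ range N, f (T^[n + 1] x) * g (S^[a (n + 1)] x) := by
      rw [Finset.range_eq_Ico, Finset.sum_Ico_add' (fun n => f (T^[n] x) * g (S^[a n] x)) 0 N 1]
      rfl
    simp only [e1, e2, av, Complex.real_smul, mul_sub, sum_sub_distrib, ← sum_mul]
    push_cast
    ring
  rw [e, ← ofReal_norm_L2 (bA.add (bEg.mul bB)).memLp]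
  refine ENNReal.ofReal_le_ofReal ?_
  rw [L2_add bA.memLp (bEg.mul bB).memLp]
  refine (norm_add_le _ _).trans (add_le_add (le_of_eq ?_) ?_)
  · rw [L2_av fun n => (bu (n + 1)).memLp]
  · refine (bEg.norm_L2_mul bB.memLp).trans (le_of_eq ?_)
    rw [L2_sub (Bd.av hf.nonneg (fun n => hf.iter hT (n + 1)) N).memLp bEf.memLp,
      L2_av fun n => (hf.iter hT (n + 1)).memLp]

end Pool.Agent.Lib.MP_1db5af_an
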