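import Pool.Agent.Lib.MP_1db5af_an.MultiA
import Pool.Agent.Lib.MP_1db5af_an.HostAbs

set_option autoImplicit false

namespace Pool.Agent.Lib.MP_1db5af_an

open MeasureTheory Filter Topology ComplexConjugate Finset InnerProductSpace

variable {X : Type*} {m : MeasurableSpace X} [m0 : MeasurableSpace X] {μ : Measure X}
  [IsProbabilityMeasure μ] {S : X → X} {a : ℕ → ℕ} {C : ℝ}

theorem multi_spec (hS : MeasurePreserving S μ μ) {φ : X → ℂ} (h : Bd μ C φ)
    {σ : Measure UnitAddCircle} (hσ : IsSpec (Kp hS) (L2 μ φ) σ) :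
    IsCor (fun p p' => ∫ x, φ (S^[p] x) * conj (φ (S^[p'] x)) ∂μ) σ := by
  intro p p'
  have h1 := hσ.isCor p p'
  beta_reduce at h1 ⊢
  rw [← h1, Kp_iter hS h.memLp, Kp_iter hS h.memLp,
    inner_L2 (h.iter hS p').memLp (h.iter hS p).memLp]

theorem multi_cor (hS : MeasurePreserving S μ μ) (A : Finset ℕ) {g : ℕ → X → ℂ}
    (h : ∀ j ∈ A, Bd μ C (g j)) : ∃ σ : Measure UnitAddCircle, IsFiniteMeasure σ ∧
      IsCor (fun p p' => ∏ j ∈ A, ∫ x, g j (S^[p] x) * conj (g j (S^[p'] x)) ∂μ) σ :=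
  exists_isCor_prod A _ fun j hj =>
    let ⟨σ, h1, h2⟩ := herglotz (Kp hS) (L2 μ (g j))
    ⟨σ, h1, multi_spec hS (h j hj) h2⟩

theorem multi_sing (hS : MeasurePreserving S μ μ) {φ : X → ℂ} (h : Bd μ C φ)
    (hs : SingVec μ S φ) : ∃ σ : Measure UnitAddCircle, IsFiniteMeasure σ ∧ σ ⟂ₘ volume ∧
      IsCor (fun p p' => ∫ x, φ (S^[p] x) * conj (φ (S^[p'] x)) ∂μ) σ := by
  obtain ⟨σ, h1, h2, h3⟩ := hs
  refine ⟨σ, h1, h2, multi_spec hS h fun n => ?_⟩
  rw [Kp_iter hS h.memLp, inner_L2 h.memLp (h.iter hS n).memLp, h3]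

theorem multi_step (hS : MeasurePreserving S μ μ) (hm : m ≤ m0) (hSm : Measurable[m, m] S)
    (hsing : ∀ (g : X → ℂ) (C : ℝ), Bd μ C g → AEStronglyMeasurable[m] g μ → SingVec μ S g)
    {J : Finset ℕ} (hJ : 2 < J.card) {g : ℕ → X → ℂ}
    (hg : ∀ j ∈ J, Bd μ C (g j) ∧ AEStronglyMeasurable[m] (g j) μ) {i : ℕ} (hi : i ∈ J)
    (h0 : ∫ x, g i x ∂μ = 0)
    (IH1 : ∀ J' ⊂ J, ∀ (g' : ℕ → X → ℂ) (C' : ℝ),
      (∀ j ∈ J', Bd μ C' (g' j) ∧ AEStronglyMeasurable[m] (g' j) μ) → Indep μ S a J' g')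
    (IH2 : ∀ p : X → ℂ, Bd μ C p → AEStronglyMeasurable[m] p μ →
      (∃ θ : UnitAddCircle, (fun x => p (S x)) =ᵐ[μ] fun x => fourier 1 θ * p x) →
      Indep μ S a J (Function.update g i p)) :
    Tendsto (cor μ S a J g) atTop (𝓝 0) := by
  classical
  have hg1 : ∀ j ∈ J, Bd μ C (g j) := fun j hj => (hg j hj).1
  have hC : 0 ≤ C := (hg1 i hi).nonneg
  obtain ⟨i₂, hi₂, hne⟩ : ∃ i₂ ∈ J, i₂ ≠ i := exists_mem_ne (by omega) i
  obtain ⟨D, hD⟩ : ∃ D, D = (J.erase i).erase i₂ := ⟨_, rfl⟩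
  have hDm : ∀ j, j ∈ D ↔ j ∈ J ∧ j ≠ i ∧ j ≠ i₂ := by
    intro j; rw [hD]; simp only [mem_erase]; tauto
  obtain ⟨i₃, hi₃⟩ : D.Nonempty := by
    rw [← card_pos, hD, card_erase_of_mem (mem_erase.2 ⟨hne, hi₂⟩), card_erase_of_mem hi]
    omega
  obtain ⟨e, he⟩ : ∃ e : ℕ → ℕ → ℕ → ℕ → ℕ,
      e = fun p q d j => if j = i then p else if j = i₂ then q else d := ⟨_, rfl⟩
  have e1 : ∀ p q d, ∀ j ∈ ({i} : Finset ℕ), e p q d j = p := by
    intro p q d j hj; rw [he]; simp [mem_singleton.1 hj]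
  have e2 : ∀ p q d, ∀ j ∈ ({i₂} : Finset ℕ), e p q d j = q := by
    intro p q d j hj; rw [he]; simp [mem_singleton.1 hj, hne]
  have e3 : ∀ p q d, ∀ j ∈ D, e p q d j = d := by
    intro p q d j hj; rw [he]; simp [((hDm j).1 hj).2.1, ((hDm j).1 hj).2.2]
  refine (tendsto_iff_ultrafilter _ _ _).2 fun 𝒰 h𝒰 => ?_
  have hlim : ∀ p q d, ∃ z, Tendsto (cor μ S a J fun j x => g j (S^[e p q d j] x)) 𝒰 (𝓝 z) := by
    intro p q d
    obtain ⟨z, -, hz⟩ := (isCompact_closedBall (0 : ℂ) (C ^ J.card)).ultrafilter_le_nhds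
      (𝒰.map (cor μ S a J fun j x => g j (S^[e p q d j] x))) (by
        rw [Ultrafilter.coe_map, le_principal_iff, Filter.mem_map]
        exact Eventually.of_forall fun N => mem_closedBall_zero_iff.2
          (norm_cor_le hS (fun j hj => (hg1 j hj).iter hS _) N))
    exact ⟨z, hz⟩
  choose c hc using hlim
  obtain ⟨σ₁, f1, hσ₁⟩ := multi_cor hS {i} (g := g) (C := C) (by simpa using hg1 i hi)
  obtain ⟨σ₂, f2, hs, hσ₂⟩ := multi_sing hS (hg1 i₂ hi₂) (hsing _ _ (hg1 i₂ hi₂) (hg i₂ hi₂).2)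
  obtain ⟨σ₃, f3, hσ₃⟩ := multi_cor hS D (g := g) (C := C) fun j hj => hg1 j ((hDm j).1 hj).1
  have hσ₂' : IsCor (fun p p' => ∏ j ∈ ({i₂} : Finset ℕ),
      ∫ x, g j (S^[p] x) * conj (g j (S^[p'] x)) ∂μ) σ₂ := by simpa using hσ₂
  have key : ∀ (A B E : Finset ℕ) (σ σ' : Measure UnitAddCircle) [IsFiniteMeasure σ]
      [IsFiniteMeasure σ'], Disjoint A B → Disjoint (A ∪ B) E → A ∪ B ∪ E = J → E.Nonempty →
      C ^ (2 * E.card) ≤ C ^ (2 * D.card) + C ^ 2 →
      IsCor (fun p p' => ∏ j ∈ A, ∫ x, g j (S^[p] x) * conj (g j (S^[p'] x)) ∂μ) σ →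
      IsCor (fun p p' => ∏ j ∈ B, ∫ x, g j (S^[p] x) * conj (g j (S^[p'] x)) ∂μ) σ' →
      ∀ (I : Finset (ℤ × ℤ)) (q : ℤ × ℤ → ℂ) (n n' : ℤ × ℤ → ℕ) (d : ℕ) (P Q R : ℤ × ℤ → ℕ),
      (∀ l, ∀ j ∈ A, e (P l) (Q l) (R l) j = n l) → (∀ l, ∀ j ∈ B, e (P l) (Q l) (R l) j = n' l) →
      (∀ l, ∀ j ∈ E, e (P l) (Q l) (R l) j = d) →
      ‖∑ l ∈ I, q l * c (P l) (Q l) (R l)‖ ^ 2 ≤ (C ^ (2 * D.card) + C ^ 2) *
        ∫ p, ‖∑ l ∈ I, q l * (fourier (n l) p.1 * fourier (n' l) p.2)‖ ^ 2 ∂(σ.prod σ') := by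
    intro A B E σ σ' _ _ hAB hE hU hEn hCE hA hB I q n n' d P Q R h1 h2 h3
    have hsub : A ∪ B ⊂ J := by
      rw [← hU]
      refine (ssubset_iff_of_subset subset_union_left).2 ?_
      obtain ⟨j, hj⟩ := hEn
      exact ⟨j, mem_union_right _ hj, disjoint_right.1 hE hj⟩
    obtain ⟨w, hw, hw1⟩ := cs_bound (a := a) hS hAB hE (g := g) (C := C) (hU ▸ hg1) hA hB
      (fun s s' => IH1 _ hsub _ (C * C) fun j hj =>
        ⟨((hg1 j (hsub.1 hj)).iter hS _).mul ((hg1 j (hsub.1 hj)).iter hS _).star,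
          (aesm_iter hS hSm (hg j (hsub.1 hj)).2 _).mul
            (Complex.continuous_conj.comp_aestronglyMeasurable
              (aesm_iter hS hSm (hg j (hsub.1 hj)).2 _))⟩)
      I q n n' d (fun l => e (P l) (Q l) (R l)) h1 h2 h3
    rw [hU] at hw1
    have h4 := (tendsto_finsetSum I fun l _ => (hc (P l) (Q l) (R l)).const_mul (q l)).norm.pow 2
    refine (le_of_tendsto_of_tendsto' h4 (hw.mono_left h𝒰) hw1).trans ?_
    exact mul_le_mul_of_nonneg_right hCE (integral_nonneg fun _ => sq_nonneg _)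
  have d1 : Disjoint ({i} : Finset ℕ) {i₂} := by simpa using hne.symm
  have d2 : i ∉ D := fun h => ((hDm i).1 h).2.1 rfl
  have d3 : i₂ ∉ D := fun h => ((hDm i₂).1 h).2.2 rfl
  have u1 : ∀ j, j ∈ J ↔ j = i ∨ j = i₂ ∨ j ∈ D := by
    intro j
    rw [hDm]
    constructor
    · tauto
    · rintro (rfl | rfl | h)
      exacts [hi, hi₂, h.1]
  have hz := host_abs c ?_ σ₁ σ₂ σ₃ (C ^ (2 * D.card) + C ^ 2)
    (fun I q n n' d => key {i} {i₂} D σ₁ σ₂ d1 (by simp [d2, d3])
      (by ext j; simp [u1 j]) ⟨i₃, hi₃⟩ (by simpa using sq_nonneg C) hσ₁ hσ₂' I q n n' d n n'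
      (fun _ => d) (fun l => e1 _ _ _) (fun l => e2 _ _ _) fun l => e3 _ _ _)
    (fun I q n n' d => key {i} D {i₂} σ₁ σ₃ (by simpa using d2) (by simp [hne, d3])
      (by ext j; simp only [mem_union, mem_singleton, u1 j]; tauto) (singleton_nonempty _)
      (by simpa using pow_nonneg hC _) hσ₁ hσ₃ I q n n' d n (fun _ => d) n'
      (fun l => e1 _ _ _) (fun l => e3 _ _ _) fun l => e2 _ _ _)
    (fun I q n n' d => key {i₂} D {i} σ₂ σ₃ (by simpa using d3) (by simp [hne.symm, d2])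
      (by ext j; simp only [mem_union, mem_singleton, u1 j]; tauto) (singleton_nonempty _)
      (by simpa using pow_nonneg hC _) hσ₂' hσ₃ I q n n' d (fun _ => d) n n'
      (fun l => e2 _ _ _) (fun l => e3 _ _ _) fun l => e1 _ _ _) hs ?_
  · have h1 := hc 0 0 0
    rw [hz] at h1
    simpa [he] using h1
  · intro p q d
    refine tendsto_nhds_unique (hc _ _ _) ?_
    have h1 : (fun j x => g j (S^[e (p + 1) (q + 1) (d + 1) j] x)) =
        fun j x => g j (S^[e p q d j] (S x)) := by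
      funext j x
      rw [← Function.iterate_succ_apply, he]
      simp only [Nat.succ_eq_add_one, apply_ite (· + 1)]
    rw [h1, cor_succ hS (g := fun j x => g j (S^[e p q d j] x))
      fun j hj => (hg1 j hj).iter hS _]
    exact hc p q d
  · intro θ
    obtain ⟨p, hp1, hp2, hp3, hp4⟩ := eigen_proj hS hm hSm (hg1 i hi) (hg i hi).2 θ
    obtain ⟨A, hA⟩ : ∃ A : ℕ → X → ℂ,
        A = fun M x => av (fun l => conj (fourier l θ) * g i (S^[l] x)) M := ⟨_, rfl⟩
    have hb : ∀ l : ℕ, Bd μ C fun x => conj (fourier l θ) * g i (S^[l] x) := fun l => by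
      simpa [norm_fourier] using (Bd.const (conj (fourier l θ))).mul ((hg1 i hi).iter hS l)
    have hA1 : ∀ M, Bd μ C (A M) := fun M => hA ▸ Bd.av hC hb M
    have hA2 : ∀ M, A M = fun x => ∑ l ∈ range M,
        (((M : ℝ)⁻¹ : ℝ) : ℂ) * conj (fourier l θ) * g i (S^[l] x) := by
      intro M
      funext x
      simp only [hA, av, Complex.real_smul, mul_sum, mul_assoc]
    have hp5 : Tendsto (fun M => ‖L2 μ (A M) - L2 μ p‖) atTop (𝓝 0) := by
      rw [hA]; exact tendsto_iff_norm_sub_tendsto_zero.1 hp4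
    have hp0 : ∫ x, p x ∂μ = 0 := by
      rw [← norm_le_zero_iff]
      refine ge_of_tendsto' hp5 fun M => ?_
      have h1 : ∫ x, A M x ∂μ = 0 := by
        rw [hA2, integral_finsetSum _ fun l _ =>
          ((hg1 i hi).iter hS l).integrable.const_mul _]
        refine sum_eq_zero fun l _ => ?_
        rw [integral_const_mul, integral_iter hS (hg1 i hi).1, h0, mul_zero]
      have h2 := norm_integral_le_L2 ((hA1 M).sub hp1).memLp
      rwa [integral_sub (hA1 M).integrable hp1.integrable, h1, zero_sub, norm_neg,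
        L2_sub (hA1 M).memLp hp1.memLp] at h2
    have hI := IH2 p hp1 hp2 ⟨θ, hp3⟩
    rw [Indep, prod_eq_zero hi (by rw [Function.update_self, hp0])] at hI
    refine squeeze_zero_norm (a := fun M => C ^ (J.card - 1) * ‖L2 μ (A M) - L2 μ p‖)
      (fun M => ?_) (by simpa using hp5.const_mul (C ^ (J.card - 1)))
    have h1 : Tendsto (cor μ S a J (Function.update g i (A M))) 𝒰
        (𝓝 (av (fun l : ℕ => conj (fourier l θ) * c l 0 0) M)) := by
      have h2 : ∀ l, (fun j x => g j (S^[e l 0 0 j] x)) =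
          Function.update g i fun x => g i (S^[l] x) := by
        intro l
        funext j
        by_cases h : j = i
        · subst h; simp [he]
        · simp [he, h]
      have h3 := tendsto_finsetSum (range M) fun l _ =>
        (hc l 0 0).const_mul ((((M : ℝ)⁻¹ : ℝ) : ℂ) * conj (fourier l θ))
      have h4 : av (fun l : ℕ => conj (fourier l θ) * c l 0 0) M =
          ∑ l ∈ range M, (((M : ℝ)⁻¹ : ℝ) : ℂ) * conj (fourier l θ) * c l 0 0 := by
        simp only [av, Complex.real_smul, mul_sum, mul_assoc]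
      rw [h4]
      refine h3.congr fun N => ?_
      rw [hA2, cor_update_sum hS hg1 hi _ _ (fun l _ => (hg1 i hi).iter hS l) N]
      simp only [h2]
    have h2 := (h1.sub (hI.mono_left h𝒰)).norm
    rw [sub_zero] at h2
    exact le_of_tendsto' h2 fun N => cor_update_lip hS hg1 hi (hA1 M) hp1 N

theorem multi {X : Type*} {m : MeasurableSpace X} [m0 : MeasurableSpace X] {μ : Measure X}
    [IsProbabilityMeasure μ] {S : X → X} (hS : Ergodic S μ) {a : ℕ → ℕ} (ha : Weyl a)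
    (hmo : Monotone a) (hm : m ≤ m0) (hSm : Measurable[m, m] S)
    (hsing : ∀ (g : X → ℂ) (C : ℝ), Bd μ C g → AEStronglyMeasurable[m] g μ → SingVec μ S g)
    (J : Finset ℕ) (g : ℕ → X → ℂ) (C : ℝ)
    (hg : ∀ j ∈ J, Bd μ C (g j) ∧ AEStronglyMeasurable[m] (g j) μ) : Indep μ S a J g := by
  classical
  have hS' := hS.toMeasurePreserving
  induction J using Finset.strongInduction generalizing g C with
  | H J IH =>
  rcases le_or_gt J.card 2 with hJ | hJ
  · exact indep_two hS ha hmo hJ fun j hj => (hg j hj).1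
  suffices h : ∀ (R : Finset ℕ) (g : ℕ → X → ℂ) (C : ℝ),
      (∀ j ∈ J, Bd μ C (g j) ∧ AEStronglyMeasurable[m] (g j) μ) →
      (∀ j ∈ J, j ∉ R → ∃ θ : UnitAddCircle,
        (fun x => g j (S x)) =ᵐ[μ] fun x => fourier 1 θ * g j x) → Indep μ S a J g from
    h J g C hg fun j hj h => absurd hj h
  intro R
  induction R using Finset.induction_on with
  | empty =>
    exact fun g C hg he => indep_eigen hS ha (fun j hj => (hg j hj).1) fun j hj =>
      he j hj (notMem_empty j)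
  | insert i R hiR ih =>
    intro g C hg he
    by_cases hi : i ∈ J
    swap
    · exact ih g C hg fun j hj hjR => he j hj fun h =>
        (mem_insert.1 h).elim (fun h => hi (h ▸ hj)) hjR
    have hC : 0 ≤ C := (hg i hi).1.nonneg
    have hup : ∀ p : X → ℂ, Bd μ (C + C) p → AEStronglyMeasurable[m] p μ → ∀ j ∈ J,
        Bd μ (C + C) (Function.update g i p j) ∧
          AEStronglyMeasurable[m] (Function.update g i p j) μ := by
      intro p h1 h2 j hj
      by_cases h : j = i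
      · subst h; simpa using ⟨h1, h2⟩
      · rw [Function.update_of_ne h]
        exact ⟨(hg j hj).1.mono (by linarith), (hg j hj).2⟩
    have hI : ∀ p : X → ℂ, Bd μ (C + C) p → AEStronglyMeasurable[m] p μ →
        (∃ θ : UnitAddCircle, (fun x => p (S x)) =ᵐ[μ] fun x => fourier 1 θ * p x) →
        Indep μ S a J (Function.update g i p) := by
      intro p h1 h2 h3
      refine ih _ _ (hup p h1 h2) fun j hj hjR => ?_
      by_cases h : j = i
      · subst h; simpa using h3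
      · rw [Function.update_of_ne h]
        exact he j hj fun h' => (mem_insert.1 h').elim h hjR
    obtain ⟨z, hz⟩ : ∃ z, z = ∫ x, g i x ∂μ := ⟨_, rfl⟩
    have hz1 : Bd μ C fun _ => z := (Bd.const z).mono (hz ▸ (hg i hi).1.norm_integral)
    have hz2 : Bd μ (C + C) fun x => g i x - z := (hg i hi).1.sub hz1
    have hz3 : AEStronglyMeasurable[m] (fun x => g i x - z) μ :=
      (hg i hi).2.sub aestronglyMeasurable_const
    have h1 := hI (fun _ => z) (hz1.mono (by linarith)) aestronglyMeasurable_const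
      ⟨0, Eventually.of_forall fun x => by simp⟩
    have h2 := multi_step (a := a) hS' hm hSm hsing hJ (hup _ hz2 hz3) hi
      (by
        rw [Function.update_self, integral_sub (hg i hi).1.integrable hz1.integrable, ← hz]
        simp)
      IH (fun p h1 h2 h3 => by rw [Function.update_idem]; exact hI p h1 h2 h3)
    have h3 := h2.add h1
    have h4 : ∏ j ∈ J, ∫ x, Function.update g i (fun _ => z) j x ∂μ = ∏ j ∈ J, ∫ x, g j x ∂μ := by
      refine prod_congr rfl fun j _ => ?_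
      by_cases h : j = i
      · subst h; simp [hz]
      · rw [Function.update_of_ne h]
    rw [zero_add, h4] at h3
    refine h3.congr fun N => ?_
    have h5 := cor_update_sum (a := a) hS' (fun j hj => (hg j hj).1) hi (univ : Finset Bool)
      (fun _ => 1) (φ := fun b => if b then fun x => g i x - z else fun _ => z) (D := C + C)
      (fun b _ => by cases b <;> simp [hz2, hz1.mono (show C ≤ C + C by linarith)]) N
    simpa using h5.symm

end Pool.Agent.Lib.MP_1db5af_an
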