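import Pool.Agent.Lib.MP_1db5af_an.Spec
import Pool.Agent.Lib.MP_1db5af_an.MeanErg

set_option autoImplicit false

namespace Pool.Agent.Lib.MP_1db5af_an

open MeasureTheory Filter Topology ComplexConjugate Finset InnerProductSpace

variable {X : Type*} [MeasurableSpace X] {μ : Measure X} [IsProbabilityMeasure μ] {S : X → X}
  {a : ℕ → ℕ} {C : ℝ}

theorem norm_cor_le (hS : MeasurePreserving S μ μ) {J : Finset ℕ} {g : ℕ → X → ℂ}
    (hg : ∀ j ∈ J, Bd μ C (g j)) (N : ℕ) : ‖cor μ S a J g N‖ ≤ C ^ J.card :=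
  norm_av_le (fun _ => (Bd.prod J fun j hj => (hg j hj).iter hS _).norm_integral) N

theorem cor_congr {J : Finset ℕ} {g g' : ℕ → X → ℂ} (h : ∀ j ∈ J, g j = g' j) :
    cor μ S a J g = cor μ S a J g' := by
  unfold cor
  congr 1
  funext n
  congr 1
  funext x
  exact prod_congr rfl fun j hj => by rw [h j hj]

theorem cor_succ (hS : MeasurePreserving S μ μ) {J : Finset ℕ} {g : ℕ → X → ℂ}
    (hg : ∀ j ∈ J, Bd μ C (g j)) : cor μ S a J (fun j x => g j (S x)) = cor μ S a J g := by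
  unfold cor
  congr 1
  funext n
  refine Eq.trans ?_ (integral_iter hS (Bd.prod J fun j hj => (hg j hj).iter hS (a (n + j))).1 1)
  congr 1
  funext x
  refine prod_congr rfl fun j _ => ?_
  rw [Function.iterate_one, ← Function.iterate_succ_apply, Function.iterate_succ_apply']

omit [MeasurableSpace X] in
theorem multia_prod_update {J : Finset ℕ} (g : ℕ → X → ℂ) {i : ℕ} (hi : i ∈ J) (φ : X → ℂ)
    (y : ℕ → X) :
    ∏ j ∈ J, Function.update g i φ j (y j) = (∏ j ∈ J.erase i, g j (y j)) * φ (y i) := by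
  rw [← prod_erase_mul J _ hi, Function.update_self]
  congr 1
  exact prod_congr rfl fun j hj => by rw [Function.update_of_ne (ne_of_mem_erase hj)]

omit [IsProbabilityMeasure μ] in
theorem multia_bd_erase (hS : MeasurePreserving S μ μ) {J : Finset ℕ} {g : ℕ → X → ℂ}
    (hg : ∀ j ∈ J, Bd μ C (g j)) {i : ℕ} (hi : i ∈ J) (k : ℕ → ℕ) :
    Bd μ (C ^ (J.card - 1)) fun x => ∏ j ∈ J.erase i, g j (S^[k j] x) := by
  rw [← card_erase_of_mem hi]
  exact Bd.prod _ fun j hj => (hg j (mem_of_mem_erase hj)).iter hS _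

theorem cor_update_sum (hS : MeasurePreserving S μ μ) {J : Finset ℕ} {g : ℕ → X → ℂ}
    (hg : ∀ j ∈ J, Bd μ C (g j)) {i : ℕ} (hi : i ∈ J) {ι : Type*} (I : Finset ι) (q : ι → ℂ)
    {φ : ι → X → ℂ} {D : ℝ} (hφ : ∀ l ∈ I, Bd μ D (φ l)) (N : ℕ) :
    cor μ S a J (Function.update g i fun x => ∑ l ∈ I, q l * φ l x) N =
      ∑ l ∈ I, q l * cor μ S a J (Function.update g i (φ l)) N := by
  unfold cor
  simp only [← av_mul]
  rw [← av_sum]
  congr 1
  funext n
  have h1 := multia_bd_erase hS hg hi fun j => a (n + j)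
  simp only [multia_prod_update g hi _ fun j => S^[a (n + j)] _, mul_sum, ← integral_const_mul]
  rw [← integral_finsetSum]
  · congr 1
    funext x
    exact sum_congr rfl fun l _ => by ring
  · exact fun l hl => (h1.mul ((hφ l hl).iter hS _)).integrable.const_mul _

theorem cor_update_lip (hS : MeasurePreserving S μ μ) {J : Finset ℕ} {g : ℕ → X → ℂ}
    (hg : ∀ j ∈ J, Bd μ C (g j)) {i : ℕ} (hi : i ∈ J) {φ ψ : X → ℂ} {D : ℝ} (hφ : Bd μ D φ)
    (hψ : Bd μ D ψ) (N : ℕ) :
    ‖cor μ S a J (Function.update g i φ) N - cor μ S a J (Function.update g i ψ) N‖ ≤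
      C ^ (J.card - 1) * ‖L2 μ φ - L2 μ ψ‖ := by
  unfold cor
  rw [← av_sub]
  refine norm_av_le (fun n => ?_) N
  have h1 := multia_bd_erase hS hg hi fun j => a (n + j)
  have h2 := (hφ.sub hψ).iter hS (a (n + i))
  simp only [multia_prod_update g hi _ fun j => S^[a (n + j)] _]
  rw [← integral_sub (h1.mul (hφ.iter hS _)).integrable (h1.mul (hψ.iter hS _)).integrable]
  simp only [← mul_sub]
  refine (norm_integral_le_L2 (h1.mul h2).memLp).trans ((h1.norm_L2_mul h2.memLp).trans_eq ?_)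
  rw [norm_L2_comp (hS.iterate _) (hφ.sub hψ).memLp, L2_sub hφ.memLp hψ.memLp]

omit [IsProbabilityMeasure μ] in
theorem multia_eigen_iter (hS : MeasurePreserving S μ μ) {φ : X → ℂ} {θ : UnitAddCircle}
    (h : (fun x => φ (S x)) =ᵐ[μ] fun x => fourier 1 θ * φ x) (p : ℕ) :
    (fun x => φ (S^[p] x)) =ᵐ[μ] fun x => fourier p θ * φ x := by
  induction p with
  | zero => exact Eventually.of_forall fun x => by simp
  | succ p ih =>
    filter_upwards [hS.quasiMeasurePreserving.ae ih, h] with x h1 h2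
    rw [Function.iterate_succ_apply, h1, h2, Nat.cast_succ, fourier_add, mul_assoc]

omit [IsProbabilityMeasure μ] in
theorem multia_eigen_zero (hS : MeasurePreserving S μ μ) {φ : X → ℂ}
    (hφ : AEStronglyMeasurable φ μ) {θ : UnitAddCircle} (hθ : θ ≠ 0)
    (h : (fun x => φ (S x)) =ᵐ[μ] fun x => fourier 1 θ * φ x) : ∫ x, φ x ∂μ = 0 := by
  have h1 : ∫ x, φ (S x) ∂μ = ∫ x, φ x ∂μ := integral_iter hS hφ 1
  rw [integral_congr_ae h, integral_const_mul] at h1
  by_contra h2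
  have h3 : fourier 1 θ = 1 := mul_right_cancel₀ h2 (h1.trans (one_mul _).symm)
  have h4 : fourier 1 θ = fourier 1 (0 : UnitAddCircle) := h3.trans (fourier_eval_zero 1).symm
  rw [fourier_one, fourier_one] at h4
  exact hθ (AddCircle.injective_toCircle one_ne_zero (Circle.ext h4))

theorem indep_eigen (hS : Ergodic S μ) (ha : Weyl a) {J : Finset ℕ} {g : ℕ → X → ℂ}
    (hg : ∀ j ∈ J, Bd μ C (g j))
    (he : ∀ j ∈ J, ∃ θ : UnitAddCircle,
      (fun x => g j (S x)) =ᵐ[μ] fun x => fourier 1 θ * g j x) : Indep μ S a J g := by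
  choose! θ hθ using he
  have hS' := hS.toMeasurePreserving
  have h1 : ∀ n, ∫ x, ∏ j ∈ J, g j (S^[a (n + j)] x) ∂μ =
      (∫ x, ∏ j ∈ J, g j x ∂μ) * ∏ j ∈ J, fourier (a (n + j)) (θ j) := fun n => by
    rw [← integral_mul_const]
    refine integral_congr_ae ?_
    filter_upwards [(ae_ball_iff J.countable_toSet).2
      fun j hj => multia_eigen_iter hS' (hθ j hj) (a (n + j))] with x hx
    rw [← prod_mul_distrib]
    exact prod_congr rfl fun j hj => (hx j hj).trans (mul_comm _ _)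
  unfold Indep cor
  simp only [h1]
  by_cases h : ∃ j ∈ J, θ j ≠ 0
  · obtain ⟨j, hj, h2⟩ := id h
    rw [prod_eq_zero hj (multia_eigen_zero hS' (hg j hj).1 h2 (hθ j hj))]
    have h3 := (ha J θ h).const_mul (∫ x, ∏ j ∈ J, g j x ∂μ)
    rw [mul_zero] at h3
    exact h3.congr fun N => (av_mul _ _ N).symm
  · have h2 : ∀ j ∈ J, θ j = 0 := fun j hj => by_contra fun h3 => h ⟨j, hj, h3⟩
    have h3 : ∀ j ∈ J, ∃ c, g j =ᵐ[μ] Function.const X c := fun j hj => by
      refine hS.ae_eq_const_of_ae_eq_comp_ae (hg j hj).1 ?_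
      filter_upwards [hθ j hj] with x hx
      rw [Function.comp_apply, hx, h2 j hj, fourier_eval_zero, one_mul]
    choose! c hc using h3
    have h4 : ∫ x, ∏ j ∈ J, g j x ∂μ = ∏ j ∈ J, ∫ x, g j x ∂μ := by
      have h5 : (fun x => ∏ j ∈ J, g j x) =ᵐ[μ] fun _ => ∏ j ∈ J, c j := by
        filter_upwards [(ae_ball_iff J.countable_toSet).2 hc] with x hx
        exact prod_congr rfl hx
      rw [integral_congr_ae h5, integral_const, probReal_univ, one_smul]
      refine prod_congr rfl fun j hj => ?_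
      rw [integral_congr_ae (hc j hj)]
      simp
    have h6 : ∀ n, ∏ j ∈ J, fourier (a (n + j)) (θ j) = 1 := fun n =>
      prod_eq_one fun j hj => by rw [h2 j hj, fourier_eval_zero]
    simp only [h6, h4, mul_one]
    exact tendsto_av_const _

theorem multia_erg (hS : Ergodic S μ) {φ : X → ℂ} {D : ℝ} (hφ : Bd μ D φ)
    (h0 : ∫ x, φ x ∂μ = 0) :
    Tendsto (av fun n => (Kp hS.toMeasurePreserving)^[n] (L2 μ φ)) atTop (𝓝 0) := by
  have h1 := mean_erg hS.toMeasurePreserving hφ.memLp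
  rwa [L2_congr (condExp_ergodic hS hφ.integrable), h0, L2_zero] at h1

theorem indep_two (hS : Ergodic S μ) (ha : Weyl a) (hm : Monotone a) {J : Finset ℕ}
    (hJ : J.card ≤ 2) {g : ℕ → X → ℂ} (hg : ∀ j ∈ J, Bd μ C (g j)) : Indep μ S a J g := by
  have hS' := hS.toMeasurePreserving
  unfold Indep cor
  obtain h | h | h : J.card = 0 ∨ J.card = 1 ∨ J.card = 2 := by omega
  · rw [card_eq_zero.1 h]
    simp only [prod_empty, integral_const, probReal_univ, one_smul]
    exact tendsto_av_const _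
  · obtain ⟨i, rfl⟩ := card_eq_one.1 h
    simp only [prod_singleton, integral_iter hS' (hg i (mem_singleton_self i)).1]
    exact tendsto_av_const _
  · obtain ⟨i, j, hij, rfl⟩ := card_eq_two.1 h
    have hi := hg i (mem_insert_self _ _)
    have hj := hg j (mem_insert_of_mem (mem_singleton_self _))
    have hu := hi.sub (Bd.const (∫ x, g i x ∂μ))
    have hv := hj.sub (Bd.const (∫ x, g j x ∂μ))
    have hu0 : ∫ x, (g i x - ∫ x, g i x ∂μ) ∂μ = 0 := by
      rw [integral_sub hi.integrable (integrable_const _)]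
      simp
    have hv0 : ∫ x, (g j x - ∫ x, g j x ∂μ) ∂μ = 0 := by
      rw [integral_sub hj.integrable (integrable_const _)]
      simp
    have h1 := hpair ha hm (Kp hS') (multia_erg hS hu.star (by rw [integral_conj, hu0, map_zero]))
      (multia_erg hS hv hv0) hij
    have h2 := h1.add (tendsto_av_const ((∫ x, g i x ∂μ) * ∫ x, g j x ∂μ))
    rw [zero_add] at h2
    simp only [prod_pair hij]
    refine h2.congr fun N => ?_
    rw [← av_add]
    congr 1
    funext n
    have h3 := hi.iter hS' (a (n + i))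
    have h4 := hj.iter hS' (a (n + j))
    rw [Kp_iter hS' hu.star.memLp, Kp_iter hS' hv.memLp,
      inner_L2 (hu.star.iter hS' _).memLp (hv.iter hS' _).memLp]
    have h5 : ∀ x, (g j (S^[a (n + j)] x) - ∫ x, g j x ∂μ) *
        conj (conj (g i (S^[a (n + i)] x) - ∫ x, g i x ∂μ)) =
        g i (S^[a (n + i)] x) * g j (S^[a (n + j)] x) -
          ((∫ x, g j x ∂μ) * g i (S^[a (n + i)] x) + (∫ x, g i x ∂μ) * g j (S^[a (n + j)] x) -
            (∫ x, g i x ∂μ) * ∫ x, g j x ∂μ) := fun x => by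
      rw [Complex.conj_conj]
      ring
    have h6 := h3.integrable.const_mul (∫ x, g j x ∂μ)
    have h7 := h4.integrable.const_mul (∫ x, g i x ∂μ)
    have h8 : Integrable (fun x => (∫ x, g j x ∂μ) * g i (S^[a (n + i)] x) +
        (∫ x, g i x ∂μ) * g j (S^[a (n + j)] x)) μ := h6.add h7
    have h9 : Integrable (fun x => (∫ x, g j x ∂μ) * g i (S^[a (n + i)] x) +
        (∫ x, g i x ∂μ) * g j (S^[a (n + j)] x) - (∫ x, g i x ∂μ) * ∫ x, g j x ∂μ) μ :=
      h8.sub (integrable_const _)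
    simp only [h5]
    rw [integral_sub (h3.mul h4).integrable h9, integral_sub h8 (integrable_const _),
      integral_add h6 h7, integral_const_mul, integral_const_mul, integral_iter hS' hi.1,
      integral_iter hS' hj.1, integral_const, probReal_univ, one_smul]
    ring

theorem cs_bound (hS : MeasurePreserving S μ μ) {A B D : Finset ℕ} (hAB : Disjoint A B)
    (hD : Disjoint (A ∪ B) D) {g : ℕ → X → ℂ} (hg : ∀ j ∈ A ∪ B ∪ D, Bd μ C (g j))
    {σ σ' : Measure UnitAddCircle} [IsFiniteMeasure σ] [IsFiniteMeasure σ']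
    (hσ : IsCor (fun p p' => ∏ j ∈ A, ∫ x, g j (S^[p] x) * conj (g j (S^[p'] x)) ∂μ) σ)
    (hσ' : IsCor (fun p p' => ∏ j ∈ B, ∫ x, g j (S^[p] x) * conj (g j (S^[p'] x)) ∂μ) σ')
    (H : ∀ e e' : ℕ → ℕ,
      Indep μ S a (A ∪ B) fun j x => g j (S^[e j] x) * conj (g j (S^[e' j] x)))
    {ι : Type*} (I : Finset ι) (q : ι → ℂ) (m m' : ι → ℕ) (d : ℕ) (e : ι → ℕ → ℕ)
    (h1 : ∀ l, ∀ j ∈ A, e l j = m l) (h2 : ∀ l, ∀ j ∈ B, e l j = m' l)
    (h3 : ∀ l, ∀ j ∈ D, e l j = d) :
    ∃ w : ℕ → ℝ, Tendsto w atTop (𝓝 (C ^ (2 * D.card) *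
        ∫ p, ‖∑ l ∈ I, q l * (fourier (m l) p.1 * fourier (m' l) p.2)‖ ^ 2 ∂(σ.prod σ'))) ∧
      ∀ N, ‖∑ l ∈ I, q l * cor μ S a (A ∪ B ∪ D) (fun j x => g j (S^[e l j] x)) N‖ ^ 2 ≤ w N := by
  have hb : ∀ (l : ι) (n : ℕ), Bd μ (C ^ (A ∪ B).card)
      fun x => ∏ j ∈ A ∪ B, g j (S^[e l j] (S^[a (n + j)] x)) := fun l n =>
    Bd.prod _ fun j hj => ((hg j (mem_union_left _ hj)).iter hS _).iter hS _
  have hY : ∀ n : ℕ, Bd μ (∑ l ∈ I, ‖q l‖ * C ^ (A ∪ B).card)
      fun x => ∑ l ∈ I, q l * ∏ j ∈ A ∪ B, g j (S^[e l j] (S^[a (n + j)] x)) := fun n =>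
    Bd.sum _ fun l _ => (Bd.const (q l)).mul (hb l n)
  have hP : ∀ n : ℕ, Bd μ (C ^ D.card) fun x => ∏ j ∈ D, g j (S^[d] (S^[a (n + j)] x)) := fun n =>
    Bd.prod _ fun j hj => ((hg j (mem_union_right _ hj)).iter hS _).iter hS _
  let y : ℕ → ℝ := fun n =>
    ‖L2 μ fun x => ∑ l ∈ I, q l * ∏ j ∈ A ∪ B, g j (S^[e l j] (S^[a (n + j)] x))‖
  have hy : ∀ n, ((y n ^ 2 : ℝ) : ℂ) = ∑ l ∈ I, ∑ l' ∈ I, q l * conj (q l') *
      ∫ x, ∏ j ∈ A ∪ B, g j (S^[e l j] (S^[a (n + j)] x)) *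
        conj (g j (S^[e l' j] (S^[a (n + j)] x))) ∂μ := fun n => by
    have h4 := inner_L2 (hY n).memLp (hY n).memLp
    rw [inner_self_eq_norm_sq_to_K] at h4
    rw [Complex.ofReal_pow]
    refine Eq.trans h4 ?_
    have h5 : ∀ l l' : ι, Integrable (fun x => q l * conj (q l') *
        ∏ j ∈ A ∪ B, g j (S^[e l j] (S^[a (n + j)] x)) *
          conj (g j (S^[e l' j] (S^[a (n + j)] x)))) μ := fun l l' =>
      (Bd.prod _ fun j hj => (((hg j (mem_union_left _ hj)).iter hS _).iter hS _).mul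
        (((hg j (mem_union_left _ hj)).iter hS _).iter hS _).star).integrable.const_mul _
    simp only [← integral_const_mul]
    rw [sum_congr rfl fun l _ => (integral_finsetSum I fun l' _ => h5 l l').symm,
      ← integral_finsetSum I fun l _ => integrable_finsetSum I fun l' _ => h5 l l']
    congr 1
    funext x
    rw [map_sum, sum_mul_sum]
    refine sum_congr rfl fun l _ => sum_congr rfl fun l' _ => ?_
    rw [map_mul, map_prod, prod_mul_distrib]
    ring
  refine ⟨fun N => C ^ (2 * D.card) * (∑ l ∈ I, ∑ l' ∈ I, q l * conj (q l') * cor μ S a (A ∪ B)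
    (fun j x => g j (S^[e l j] x) * conj (g j (S^[e l' j] x))) N).re, ?_, fun N => ?_⟩
  · refine Tendsto.const_mul _ ?_
    have h4 := tendsto_finsetSum I fun l _ => tendsto_finsetSum I fun l' _ =>
      Tendsto.const_mul (q l * conj (q l')) (H (e l) (e l'))
    have h5 : ∀ l l' : ι, ∏ j ∈ A ∪ B, ∫ x, g j (S^[e l j] x) * conj (g j (S^[e l' j] x)) ∂μ =
        (∏ j ∈ A, ∫ x, g j (S^[m l] x) * conj (g j (S^[m l'] x)) ∂μ) *
          ∏ j ∈ B, ∫ x, g j (S^[m' l] x) * conj (g j (S^[m' l'] x)) ∂μ := fun l l' => by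
      rw [prod_union hAB]
      congr 1
      · exact prod_congr rfl fun j hj => by rw [h1 l j hj, h1 l' j hj]
      · exact prod_congr rfl fun j hj => by rw [h2 l j hj, h2 l' j hj]
    simp only [h5] at h4
    rw [hσ.sum_eq₂ hσ' I q m m'] at h4
    exact (Complex.continuous_re.tendsto _).comp h4
  · have h4 : ∑ l ∈ I, q l * cor μ S a (A ∪ B ∪ D) (fun j x => g j (S^[e l j] x)) N =
        av (fun n => ∫ x, (∏ j ∈ D, g j (S^[d] (S^[a (n + j)] x))) *
          ∑ l ∈ I, q l * ∏ j ∈ A ∪ B, g j (S^[e l j] (S^[a (n + j)] x)) ∂μ) N := by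
      unfold cor
      simp only [← av_mul]
      rw [← av_sum]
      congr 1
      funext n
      simp only [mul_sum, ← integral_const_mul]
      rw [integral_finsetSum I fun l _ => ((hP n).mul ((Bd.const (q l)).mul (hb l n))).integrable]
      refine sum_congr rfl fun l _ => ?_
      congr 1
      funext x
      rw [prod_union hD, prod_congr rfl fun j hj => by rw [h3 l j hj] (s₂ := D)]
      ring
    have h5 : ‖∑ l ∈ I, q l * cor μ S a (A ∪ B ∪ D) (fun j x => g j (S^[e l j] x)) N‖ ≤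
        av (fun n => C ^ D.card * y n) N := by
      rw [h4]
      exact (norm_av_le_av _ N).trans (av_mono fun n _ =>
        (norm_integral_le_L2 ((hP n).mul (hY n)).memLp).trans ((hP n).norm_L2_mul (hY n).memLp))
    have h6 : (∑ l ∈ I, ∑ l' ∈ I, q l * conj (q l') * cor μ S a (A ∪ B)
        (fun j x => g j (S^[e l j] x) * conj (g j (S^[e l' j] x))) N) =
        ((av (fun n => y n ^ 2) N : ℝ) : ℂ) := by
      refine Eq.trans ?_ (av_map Complex.ofRealCLM (fun n => y n ^ 2) N)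
      simp only [Complex.ofRealCLM_apply, hy]
      unfold cor
      rw [av_sum]
      refine sum_congr rfl fun l _ => ?_
      rw [av_sum]
      exact sum_congr rfl fun l' _ => (av_mul _ _ N).symm
    beta_reduce
    rw [h6, Complex.ofReal_re, ← av_rmul]
    refine (pow_le_pow_left₀ (norm_nonneg _) h5 2).trans ((sq_av_le _ N).trans_eq ?_)
    congr 1
    funext n
    ring

end Pool.Agent.Lib.MP_1db5af_an
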