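import Pool.Agent.Lib.MP_1db5af_an.Energy
import Pool.Agent.Lib.MP_1db5af_an.Linnik

set_option autoImplicit false

namespace Pool.Agent.Lib.MP_1db5af_an

open Finset

/-- The residue class of `ξ` below `P`. -/
def recurCls (P p ξ : ℕ) : Finset ℕ := (range P).filter fun y => y % p = ξ

lemma recur_sub {P p ξ y : ℕ} (hy : y ∈ recurCls P p ξ) :
    (y : ℤ) - ξ = p * ((y / p : ℕ) : ℤ) := by
  have h1 := (mem_filter.mp hy).2
  have h2 := Nat.div_add_mod y p
  rw [h1] at h2
  have h3 : ((p * (y / p) + ξ : ℕ) : ℤ) = y := by rw [h2]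
  rw [Nat.cast_add, Nat.cast_mul] at h3
  linarith

lemma recur_cls {κ : Type*} [Fintype κ] [DecidableEq κ] (k P ξ : ℕ) {p : ℕ} (hp : 0 < p) :
    En (Fintype.piFinset fun _ : κ => recurCls P p ξ) (ps k) ≤
      J (Fintype.card κ) k (P / p + 1) := by
  refine le_trans (En_le_of_injOn (fun y i => y i / p) ?_ ?_ ?_) (En_pi_le_J k (P / p + 1))
  · intro y hy y' hy' h
    funext i
    have h1 := recur_sub (Fintype.mem_piFinset.mp (mem_coe.mp hy) i)
    have h2 := recur_sub (Fintype.mem_piFinset.mp (mem_coe.mp hy') i)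
    have h3 : y i / p = y' i / p := congrFun h i
    rw [h3, ← h2] at h1
    have h4 : (y i : ℤ) = y' i := by linarith
    exact_mod_cast h4
  · intro y hy
    refine Fintype.mem_piFinset.mpr fun i => mem_range.mpr ?_
    have h1 := mem_range.mp (mem_filter.mp (Fintype.mem_piFinset.mp hy i)).1
    exact Nat.lt_succ_of_le (Nat.div_le_div_right h1.le)
  · intro y hy y' hy' h
    funext j
    have h1 := ps_shift h (ξ : ℤ) j
    have h2 : ∀ z ∈ Fintype.piFinset fun _ : κ => recurCls P p ξ,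
        ∑ i, ((z i : ℤ) - ξ) ^ (j.1 + 1) =
          (p : ℤ) ^ (j.1 + 1) * ps k (fun i => z i / p) j := by
      intro z hz
      rw [ps, mul_sum]
      refine sum_congr rfl fun i _ => ?_
      rw [recur_sub (Fintype.mem_piFinset.mp hz i), mul_pow]
    rw [h2 y hy, h2 y' hy'] at h1
    have h3 : (p : ℤ) ^ (j.1 + 1) ≠ 0 := pow_ne_zero _ (by exact_mod_cast hp.ne')
    exact mul_left_cancel₀ h3 h1

/-- Tuples with few residues. -/
lemma recur_few {k s p P : ℕ} (hs : 0 < s) (hp : 0 < p) (ρ : Fin k → ℕ) :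
    En (Fintype.piFinset fun _ : Fin s => (range P).filter fun y => ∃ i, y % p = ρ i) (ps k) ≤
      k ^ (2 * s) * J s k (P / p + 1) := by
  have : Nonempty (Fin s) := ⟨⟨0, hs⟩⟩
  have h1 := En_holder (κ := Fin s) (k := k) ({()} : Finset Unit) (fun _ => 0)
    (A := (range P).filter fun y => ∃ i, y % p = ρ i) (univ : Finset (Fin k))
    (fun i => recurCls P p (ρ i)) (M := J s k (P / p + 1)) ?_ ?_
  · rw [card_univ, Fintype.card_fin, Fintype.card_fin] at h1
    refine le_trans (En_le_of_injOn (fun x => ((), x)) ?_ ?_ ?_) h1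
    · intro x _ x' _ h
      exact (Prod.ext_iff.mp h).2
    · intro x hx
      exact mem_product.mpr ⟨mem_singleton_self _, hx⟩
    · intro x _ x' _ h
      simpa using h
  · intro x hx
    obtain ⟨h1, i, hi⟩ := mem_filter.mp hx
    exact ⟨i, mem_univ _, mem_filter.mpr ⟨h1, hi⟩⟩
  · intro t _
    have h2 := recur_cls (κ := Fin s) k P (ρ t) hp
    rw [Fintype.card_fin] at h2
    refine le_trans (En_le_of_injOn (fun q => q.2) ?_ ?_ ?_) h2
    · intro q _ q' _ h
      exact Prod.ext rfl h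
    · intro q hq
      exact (mem_product.mp hq).2
    · intro q _ q' _ h
      simpa using h

/-- Tuples of length `k` with distinct residues. -/
def recurDis (k p P : ℕ) : Finset (Fin k → ℕ) :=
  (Fintype.piFinset fun _ : Fin k => range P).filter fun z =>
    ∀ i i', z i % p = z i' % p → i = i'

lemma recur_dvd {κ : Type*} [Fintype κ] [DecidableEq κ] {P p ξ : ℕ} {y : κ → ℕ}
    (hy : y ∈ Fintype.piFinset fun _ : κ => recurCls P p ξ) (r : ℕ) :
    (p : ℤ) ^ r ∣ ∑ i, ((y i : ℤ) - ξ) ^ r := by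
  refine dvd_sum fun i _ => ?_
  rw [recur_sub (Fintype.mem_piFinset.mp hy i), mul_pow]
  exact Dvd.intro _ rfl

lemma recur_main {κ : Type*} [Fintype κ] [DecidableEq κ] {k p P : ℕ} (hp : p.Prime) (hkp : k < p)
    (hP : P ≤ p ^ k) (ξ : ℕ) :
    En (recurDis k p P ×ˢ Fintype.piFinset fun _ : κ => recurCls P p ξ)
      (fun q => ps k q.1 + ps k q.2) ≤
      J (Fintype.card κ) k (P / p + 1) * (k ^ k * p ^ (k * (k - 1) / 2)) * P ^ k := by
  have hc : (Fintype.piFinset fun _ : Fin k => range P).card = P ^ k := by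
    simp [Fintype.card_piFinset]
  rw [← hc, En]
  refine card_le_mul_card_image_of_maps_to (f := fun q => q.2.1) ?_ _ ?_
  · intro q hq
    exact (mem_filter.mp (mem_product.mp (mem_product.mp (mem_filter.mp hq).1).2).1).1
  intro z' _
  refine le_trans ?_ (Nat.mul_le_mul_left _
    (linnik hp hkp hP (ξ : ℤ) fun j => ∑ i, ((z' i : ℤ) - ξ) ^ (j.1 + 1)))
  refine card_le_mul_card_image_of_maps_to (f := fun q => q.1.1) ?_ _ ?_
  · intro q hq
    obtain ⟨hq1, hq2⟩ := mem_filter.mp hq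
    obtain ⟨hq3, hq4⟩ := mem_filter.mp hq1
    obtain ⟨hq5, hq6⟩ := mem_product.mp hq3
    obtain ⟨hz, hy⟩ := mem_product.mp hq5
    have hy' := (mem_product.mp hq6).2
    refine mem_filter.mpr ⟨(mem_filter.mp hz).1, (mem_filter.mp hz).2, fun j => ?_⟩
    have h1 : ps k (Sum.elim q.1.1 q.1.2) = ps k (Sum.elim q.2.1 q.2.2) := by
      funext j
      have h2 := congrFun hq4 j
      simpa [ps, Fintype.sum_sum_type] using h2
    have h2 := ps_shift h1 (ξ : ℤ) j
    simp only [Fintype.sum_sum_type, Sum.elim_inl, Sum.elim_inr] at h2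
    have h3 : ∑ i, ((q.1.1 i : ℤ) - ξ) ^ (j.1 + 1) - ∑ i, ((z' i : ℤ) - ξ) ^ (j.1 + 1) =
        ∑ i, ((q.2.2 i : ℤ) - ξ) ^ (j.1 + 1) - ∑ i, ((q.1.2 i : ℤ) - ξ) ^ (j.1 + 1) := by
      rw [← hq2]
      linarith
    rw [h3]
    exact dvd_sub (recur_dvd hy' _) (recur_dvd hy _)
  intro z _
  refine le_trans ?_ ((card_offset_le (Fintype.piFinset fun _ : κ => recurCls P p ξ) (ps k)
    (ps k z' - ps k z)).trans (recur_cls k P ξ hp.pos))
  refine card_le_card_of_injOn (fun q => (q.1.2, q.2.2)) ?_ ?_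
  · intro q hq
    obtain ⟨hq0, hq7⟩ := mem_filter.mp (mem_coe.mp hq)
    obtain ⟨hq1, hq2⟩ := mem_filter.mp hq0
    obtain ⟨hq3, hq4⟩ := mem_filter.mp hq1
    obtain ⟨hq5, hq6⟩ := mem_product.mp hq3
    refine mem_coe.mpr (mem_filter.mpr ⟨mem_product.mpr
      ⟨(mem_product.mp hq5).2, (mem_product.mp hq6).2⟩, ?_⟩)
    rw [← hq2, ← hq7]
    exact sub_eq_sub_iff_add_eq_add.mpr (by rw [add_comm]; exact hq4)
  · intro q hq q' hq' h
    obtain ⟨hq0, hq7⟩ := mem_filter.mp (mem_coe.mp hq)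
    obtain ⟨hq0', hq7'⟩ := mem_filter.mp (mem_coe.mp hq')
    have hq2 := (mem_filter.mp hq0).2
    have hq2' := (mem_filter.mp hq0').2
    obtain ⟨h1, h2⟩ := Prod.ext_iff.mp h
    exact Prod.ext (Prod.ext (hq7.trans hq7'.symm) h1) (Prod.ext (hq2.trans hq2'.symm) h2)

/-- Tuples with `k` distinct residues at prescribed places. -/
lemma recur_many {k m p P : ℕ} (hm : 0 < m) (hp : p.Prime) (hkp : k < p) (hP : P ≤ p ^ k)
    (σ : Fin k → Fin (k + m)) (hσ : Function.Injective σ) :
    En ((Fintype.piFinset fun _ : Fin (k + m) => range P).filter fun x =>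
      ∀ i i', x (σ i) % p = x (σ i') % p → i = i') (ps k) ≤
      p ^ (2 * m) * (J m k (P / p + 1) * (k ^ k * p ^ (k * (k - 1) / 2)) * P ^ k) := by
  have hc : Fintype.card ↥((univ.image σ)ᶜ : Finset (Fin (k + m))) = m := by
    rw [Fintype.card_coe, card_compl, card_image_of_injective _ hσ, card_univ, Fintype.card_fin,
      Fintype.card_fin, Nat.add_sub_cancel_left]
  have : Nonempty ↥((univ.image σ)ᶜ : Finset (Fin (k + m))) :=
    Fintype.card_pos_iff.mp (by rw [hc]; exact hm)
  have h1 := En_holder (κ := ↥((univ.image σ)ᶜ : Finset (Fin (k + m)))) (k := k) (recurDis k p P)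
    (ps k) (A := range P) (range p) (fun t => recurCls P p t) ?_
    (fun t _ => recur_main hp hkp hP t)
  · rw [hc, card_range] at h1
    refine le_trans (En_le_of_injOn (fun x => (fun i => x (σ i), fun i => x i.1)) ?_ ?_ ?_) h1
    · intro x _ x' _ h
      obtain ⟨h2, h3⟩ := Prod.ext_iff.mp h
      funext i
      by_cases hi : i ∈ univ.image σ
      · obtain ⟨j, _, rfl⟩ := mem_image.mp hi
        exact congrFun h2 j
      · exact congrFun h3 ⟨i, mem_compl.mpr hi⟩
    · intro x hx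
      obtain ⟨hx1, hx2⟩ := mem_filter.mp hx
      have hx3 := Fintype.mem_piFinset.mp hx1
      exact mem_product.mpr ⟨mem_filter.mpr ⟨Fintype.mem_piFinset.mpr fun i => hx3 _, hx2⟩,
        Fintype.mem_piFinset.mpr fun i => hx3 _⟩
    · intro x _ x' _ h
      have h2 : ∀ y : Fin (k + m) → ℕ, ps k (fun i => y (σ i)) +
          ps k (fun i : ↥((univ.image σ)ᶜ : Finset (Fin (k + m))) => y i.1) = ps k y := by
        intro y
        funext j
        simp only [ps, Pi.add_apply]
        rw [sum_coe_sort ((univ.image σ)ᶜ) (fun i => (y i : ℤ) ^ (j.1 + 1)),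
          ← sum_add_sum_compl (univ.image σ), sum_image fun a _ b _ hab => hσ hab]
      change ps k _ + ps k _ = ps k _ + ps k _
      rw [h2, h2, h]
  · intro x hx
    exact ⟨x % p, mem_range.mpr (Nat.mod_lt _ hp.pos), mem_filter.mpr ⟨hx, rfl⟩⟩

lemma recur_exists_sig {k s : ℕ} (f : Fin s → ℕ) (h : k ≤ (univ.image f).card) :
    ∃ σ : Fin k → Fin s, ∀ i i', f (σ i) = f (σ i') → i = i' := by
  obtain ⟨S, hS, hc⟩ := exists_subset_card_eq h
  have e := S.equivFinOfCardEq hc
  have h1 : ∀ i : Fin k, ∃ a, f a = (e.symm i).1 := fun i => by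
    obtain ⟨a, _, ha⟩ := mem_image.mp (hS (e.symm i).2)
    exact ⟨a, ha⟩
  choose σ hσ using h1
  refine ⟨σ, fun i i' hi => ?_⟩
  rw [hσ, hσ] at hi
  exact e.symm.injective (Subtype.ext hi)

lemma recur_exists_rho {k p : ℕ} (hp : 0 < p) (S : Finset ℕ) (hS : S ⊆ range p) (h : S.card ≤ k) :
    ∃ ρ ∈ Fintype.piFinset fun _ : Fin k => range p, ∀ a ∈ S, ∃ i, a = ρ i := by
  refine ⟨fun i => if hi : i.1 < S.card then (S.equivFin.symm ⟨i.1, hi⟩).1 else 0, ?_, ?_⟩
  · refine Fintype.mem_piFinset.mpr fun i => ?_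
    split_ifs with hi
    · exact hS (S.equivFin.symm ⟨i.1, hi⟩).2
    · exact mem_range.mpr hp
  · intro a ha
    refine ⟨⟨(S.equivFin ⟨a, ha⟩).1, lt_of_lt_of_le (S.equivFin ⟨a, ha⟩).2 h⟩, ?_⟩
    simp

theorem recur {k m p P : ℕ} (hk : 2 ≤ k) (hp : p.Prime) (hkp : k < p) (hP : P ≤ p ^ k)
    (hpP : p ≤ P) (hm : k ^ 2 ≤ m) :
    J (k + m) k P ≤
      2 ^ (8 * k * (k + m)) * p ^ (2 * m + k * (k - 1) / 2) * P ^ k * J m k (P / p + 1) := by
  have hm0 : 0 < m := lt_of_lt_of_le (by positivity) hm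
  set X := Fintype.piFinset fun _ : Fin (k + m) => range P with hX
  set Jm := J m k (P / p + 1) with hJm
  set K0 := k * (k - 1) / 2 with hK0
  set W := p ^ (2 * m + K0) * P ^ k * Jm with hW
  have hA : En (X.filter fun x => k ≤ (univ.image fun i => x i % p).card) (ps k) ≤
      2 ^ (4 * k * (k + m)) * W := by
    refine (En_cover (ps k) ((univ : Finset (Fin k → Fin (k + m))).filter Function.Injective)
      (fun σ => X.filter fun x => ∀ i i', x (σ i) % p = x (σ i') % p → i = i') ?_).trans ?_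
    · intro x hx
      obtain ⟨hx1, hx2⟩ := mem_filter.mp hx
      obtain ⟨σ, hσ⟩ := recur_exists_sig (fun i => x i % p) hx2
      exact ⟨σ, mem_filter.mpr ⟨mem_univ _, fun i i' h => hσ i i' (by rw [h])⟩,
        mem_filter.mpr ⟨hx1, hσ⟩⟩
    · have hc : ((univ : Finset (Fin k → Fin (k + m))).filter Function.Injective).card ≤
          (2 ^ (k + m)) ^ k := by
        refine (card_filter_le _ _).trans ?_
        rw [card_univ, Fintype.card_fun, Fintype.card_fin, Fintype.card_fin]
        exact Nat.pow_le_pow_left Nat.lt_two_pow_self.le _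
      have hk1 : k ^ k ≤ (2 ^ (k + m)) ^ k :=
        Nat.pow_le_pow_left (le_trans (Nat.le_add_right k m) Nat.lt_two_pow_self.le) _
      have h1 := sum_le_card_nsmul
        ((univ : Finset (Fin k → Fin (k + m))).filter Function.Injective)
        (fun σ => En (X.filter fun x => ∀ i i', x (σ i) % p = x (σ i') % p → i = i') (ps k))
        ((2 ^ (k + m)) ^ k * W) fun σ hσ => by
          refine (recur_many hm0 hp hkp hP σ (mem_filter.mp hσ).2).trans ?_
          calc p ^ (2 * m) * (Jm * (k ^ k * p ^ K0) * P ^ k) = k ^ k * W := by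
                rw [hW, pow_add]; ring
            _ ≤ _ := Nat.mul_le_mul_right _ hk1
      rw [smul_eq_mul] at h1
      refine (Nat.mul_le_mul hc (h1.trans (Nat.mul_le_mul_right _ hc))).trans ?_
      rw [← mul_assoc, ← mul_assoc, ← pow_mul, ← pow_add, ← pow_add]
      refine Nat.mul_le_mul_right _ (Nat.pow_le_pow_right (by norm_num) ?_)
      nlinarith [Nat.zero_le (k * (k + m))]
  have hB : En (X.filter fun x => (univ.image fun i => x i % p).card ≤ k) (ps k) ≤
      2 ^ (4 * k * (k + m)) * W := by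
    refine (En_cover (ps k) (Fintype.piFinset fun _ : Fin k => range p)
      (fun ρ => Fintype.piFinset fun _ : Fin (k + m) =>
        (range P).filter fun y => ∃ i, y % p = ρ i) ?_).trans ?_
    · intro x hx
      obtain ⟨hx1, hx2⟩ := mem_filter.mp hx
      obtain ⟨ρ, hρ1, hρ2⟩ := recur_exists_rho hp.pos (univ.image fun i => x i % p)
        (fun a ha => by
          obtain ⟨i, _, rfl⟩ := mem_image.mp ha
          exact mem_range.mpr (Nat.mod_lt _ hp.pos)) hx2
      exact ⟨ρ, hρ1, Fintype.mem_piFinset.mpr fun i => mem_filter.mpr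
        ⟨Fintype.mem_piFinset.mp hx1 i, hρ2 _ (mem_image_of_mem _ (mem_univ i))⟩⟩
    · have hc : (Fintype.piFinset fun _ : Fin k => range p).card = p ^ k := by
        simp [Fintype.card_piFinset]
      have h1 := sum_le_card_nsmul (Fintype.piFinset fun _ : Fin k => range p)
        (fun ρ => En (Fintype.piFinset fun _ : Fin (k + m) =>
          (range P).filter fun y => ∃ i, y % p = ρ i) (ps k))
        (k ^ (2 * (k + m)) * ((P / p + 1) ^ (2 * k) * Jm)) fun ρ _ =>
          (recur_few (by omega) hp.pos ρ).trans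
            (Nat.mul_le_mul_left _ (J_add_le k m k (P / p + 1)))
      rw [smul_eq_mul, hc] at h1
      rw [hc]
      refine (Nat.mul_le_mul_left _ h1).trans ?_
      have h2 : p * (P / p + 1) ≤ 2 * P := by
        have := Nat.mul_div_le P p
        rw [mul_add, mul_one]
        omega
      have h3 : P ^ k ≤ p ^ (2 * m + K0) := by
        refine (Nat.pow_le_pow_left hP k).trans ?_
        rw [← pow_mul]
        exact Nat.pow_le_pow_right hp.pos (by nlinarith [Nat.zero_le K0])
      have h4 : k ^ (2 * (k + m)) ≤ (2 ^ k) ^ (2 * (k + m)) :=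
        Nat.pow_le_pow_left Nat.lt_two_pow_self.le _
      have h5 : (2 ^ k) ^ (2 * (k + m)) * 2 ^ (2 * k) ≤ 2 ^ (4 * k * (k + m)) := by
        rw [← pow_mul, ← pow_add]
        exact Nat.pow_le_pow_right (by norm_num) (by nlinarith [Nat.zero_le (k * m)])
      calc p ^ k * (p ^ k * (k ^ (2 * (k + m)) * ((P / p + 1) ^ (2 * k) * Jm)))
          = k ^ (2 * (k + m)) * (p * (P / p + 1)) ^ (2 * k) * Jm := by
            rw [mul_pow, two_mul k, pow_add p k k]; ring
        _ ≤ (2 ^ k) ^ (2 * (k + m)) * (2 * P) ^ (2 * k) * Jm :=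
            Nat.mul_le_mul_right _ (Nat.mul_le_mul h4 (Nat.pow_le_pow_left h2 _))
        _ = (2 ^ k) ^ (2 * (k + m)) * 2 ^ (2 * k) * (P ^ k * P ^ k * Jm) := by
            rw [mul_pow, two_mul k, pow_add P k k]; ring
        _ ≤ 2 ^ (4 * k * (k + m)) * W :=
            Nat.mul_le_mul h5 (Nat.mul_le_mul_right _ (Nat.mul_le_mul_right _ h3))
  have h0 := En_cover (I := X) (ps k) (univ : Finset Bool)
    (fun b => if b then X.filter fun x => k ≤ (univ.image fun i => x i % p).card
      else X.filter fun x => (univ.image fun i => x i % p).card ≤ k) fun x hx => by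
        rcases le_total k (univ.image fun i => x i % p).card with h | h
        · exact ⟨true, mem_univ _, by simpa using ⟨hx, h⟩⟩
        · exact ⟨false, mem_univ _, by simpa using ⟨hx, h⟩⟩
  rw [card_univ, Fintype.card_bool, Fintype.sum_bool, if_pos rfl, if_neg Bool.false_ne_true] at h0
  have h6 : 2 ^ 2 * 2 ^ (4 * k * (k + m)) ≤ 2 ^ (8 * k * (k + m)) := by
    rw [← pow_add]
    exact Nat.pow_le_pow_right (by norm_num) (by nlinarith [Nat.zero_le (k * m)])
  calc J (k + m) k P ≤ 2 * (2 ^ (4 * k * (k + m)) * W + 2 ^ (4 * k * (k + m)) * W) :=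
        h0.trans (Nat.mul_le_mul_left _ (Nat.add_le_add hA hB))
    _ = 2 ^ 2 * 2 ^ (4 * k * (k + m)) * W := by ring
    _ ≤ 2 ^ (8 * k * (k + m)) * W := Nat.mul_le_mul_right _ h6
    _ = _ := by rw [hW]; ring

end Pool.Agent.Lib.MP_1db5af_an
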