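import Mathlib

set_option autoImplicit false

namespace Pool.Agent.Lib.MP_1db5af_an

open MeasureTheory Set
open scoped ENNReal

/-- The fibre measure with density `F (x, ·)`. -/
noncomputable def fib (τ : Measure UnitAddCircle) (F : UnitAddCircle × UnitAddCircle → ℝ)
    (x : UnitAddCircle) : Measure UnitAddCircle :=
  τ.withDensity fun y => ENNReal.ofReal (F (x, y))

theorem fib_apply (τ : Measure UnitAddCircle) (F : UnitAddCircle × UnitAddCircle → ℝ)
    (x : UnitAddCircle) {E : Set UnitAddCircle} (hE : MeasurableSet E) :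
    fib τ F x E = ∫⁻ y in E, ENNReal.ofReal (F (x, y)) ∂τ := withDensity_apply _ hE

theorem fib_sec (τ : Measure UnitAddCircle) (F : UnitAddCircle × UnitAddCircle → ℝ)
    {G : Set (UnitAddCircle × UnitAddCircle)} (hG : MeasurableSet G) (x : UnitAddCircle) :
    fib τ F x (Prod.mk x ⁻¹' G) =
      ∫⁻ y, G.indicator (fun p => ENNReal.ofReal (F p)) (x, y) ∂τ := by
  have hm : MeasurableSet (Prod.mk x ⁻¹' G) := measurable_prodMk_left hG
  rw [fib_apply τ F x hm, ← lintegral_indicator hm]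
  rfl

theorem fib_meas (τ : Measure UnitAddCircle) [IsFiniteMeasure τ]
    {F : UnitAddCircle × UnitAddCircle → ℝ} (hF : Measurable F)
    {G : Set (UnitAddCircle × UnitAddCircle)} (hG : MeasurableSet G) :
    Measurable fun x => fib τ F x (Prod.mk x ⁻¹' G) := by
  simp only [fib_sec τ F hG]
  exact Measurable.lintegral_prod_right' (hF.ennreal_ofReal.indicator hG)

theorem fib_int {ρ : Measure (UnitAddCircle × UnitAddCircle)} {σ τ : Measure UnitAddCircle}
    [IsFiniteMeasure σ] [IsFiniteMeasure τ]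
    {F : UnitAddCircle × UnitAddCircle → ℝ} (hF : Measurable F)
    (hρ : ρ = (σ.prod τ).withDensity fun p => ENNReal.ofReal (F p))
    {G : Set (UnitAddCircle × UnitAddCircle)} (hG : MeasurableSet G)
    {A : Set UnitAddCircle} (hA : MeasurableSet A) :
    ρ (A ×ˢ univ ∩ G) = ∫⁻ x in A, fib τ F x (Prod.mk x ⁻¹' G) ∂σ := by
  have hm : MeasurableSet (A ×ˢ (univ : Set UnitAddCircle)) := hA.prod MeasurableSet.univ
  simp only [fib_sec τ F hG]
  rw [hρ, withDensity_apply _ (hm.inter hG), Set.inter_comm, ← Measure.restrict_restrict hG,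
    ← lintegral_indicator hG,
    setLIntegral_prod _ (hF.ennreal_ofReal.indicator hG).aemeasurable]
  simp only [Measure.restrict_univ]

theorem exists_dens (ρ : Measure (UnitAddCircle × UnitAddCircle)) (σ τ : Measure UnitAddCircle)
    [IsFiniteMeasure ρ] [IsFiniteMeasure σ] [IsFiniteMeasure τ] (h1 : ρ ≪ σ.prod τ) :
    ∃ F : UnitAddCircle × UnitAddCircle → ℝ, Measurable F ∧ Integrable F (σ.prod τ) ∧
      ρ = (σ.prod τ).withDensity fun p => ENNReal.ofReal (F p) := by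
  refine ⟨fun p => (ρ.rnDeriv (σ.prod τ) p).toReal,
    (Measure.measurable_rnDeriv _ _).ennreal_toReal, Measure.integrable_toReal_rnDeriv, ?_⟩
  conv_lhs => rw [← Measure.withDensity_rnDeriv_eq ρ _ h1]
  refine withDensity_congr_ae ?_
  filter_upwards [Measure.rnDeriv_lt_top ρ (σ.prod τ)] with p hp
  rw [ENNReal.ofReal_toReal hp.ne]

theorem ofReal_le_add (a b : ℝ) : ENNReal.ofReal a ≤ ENNReal.ofReal b + ‖a - b‖ₑ := by
  rw [Real.enorm_eq_ofReal_abs]
  calc ENNReal.ofReal a ≤ ENNReal.ofReal (b + |a - b|) :=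
        ENNReal.ofReal_le_ofReal (by linarith [le_abs_self (a - b)])
    _ ≤ _ := ENNReal.ofReal_add_le

theorem fib_unif (σ τ : Measure UnitAddCircle) [IsFiniteMeasure σ] [IsFiniteMeasure τ]
    {F : UnitAddCircle × UnitAddCircle → ℝ} (hF : Measurable F) (hI : Integrable F (σ.prod τ))
    {ε : ℝ≥0∞} (hε : ε ≠ 0) (hε' : ε ≠ ∞) :
    ∃ η : ℝ, 0 < η ∧ ∃ Z, MeasurableSet Z ∧ σ Z ≤ ε ∧
      ∀ x ∉ Z, ∀ x' ∉ Z, dist x x' < η → ∀ E, MeasurableSet E →
        fib τ F x E ≤ fib τ F x' E + 3 * ε := by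
  obtain ⟨g, hg, -⟩ := hI.exists_boundedContinuous_lintegral_sub_le (mul_ne_zero hε hε)
  have hm : Measurable fun p => ‖F p - g p‖ₑ := (hF.sub g.continuous.measurable).enorm
  have hh : Measurable fun x => ∫⁻ y, ‖F (x, y) - g (x, y)‖ₑ ∂τ :=
    Measurable.lintegral_prod_right' hm
  obtain ⟨c, hc0, hc⟩ : ∃ c : ℝ, 0 < c ∧ ENNReal.ofReal c * τ univ ≤ ε := by
    obtain ⟨δ, hδ0, hδ⟩ := ENNReal.exists_nnreal_pos_mul_lt (measure_ne_top τ univ) hε
    exact ⟨δ, hδ0, by rw [ENNReal.ofReal_coe_nnreal]; exact hδ.le⟩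
  have huc : UniformContinuous g := CompactSpace.uniformContinuous_of_continuous g.continuous
  obtain ⟨η, hη, hu⟩ := Metric.uniformContinuous_iff.1 huc c hc0
  refine ⟨η, hη, {x | ε ≤ ∫⁻ y, ‖F (x, y) - g (x, y)‖ₑ ∂τ}, measurableSet_le measurable_const hh,
    ?_, ?_⟩
  · refine (meas_ge_le_lintegral_div hh.aemeasurable hε hε').trans ?_
    rw [← lintegral_prod _ hm.aemeasurable]
    exact ENNReal.div_le_of_le_mul hg
  · intro x hx x' hx' hd E hE
    have hx1 : ∫⁻ y, ‖F (x, y) - g (x, y)‖ₑ ∂τ ≤ ε := (not_le.1 hx).le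
    have hx2 : ∫⁻ y, ‖F (x', y) - g (x', y)‖ₑ ∂τ ≤ ε := (not_le.1 hx').le
    have hpt : ∀ y, ENNReal.ofReal (F (x, y)) ≤ ENNReal.ofReal (F (x', y)) +
        (‖F (x, y) - g (x, y)‖ₑ + ‖F (x', y) - g (x', y)‖ₑ + ENNReal.ofReal c) := by
      intro y
      refine (ofReal_le_add _ (F (x', y))).trans (add_le_add le_rfl ?_)
      have h3 : dist (g (x, y)) (g (x', y)) < c := hu (by simpa [Prod.dist_eq] using hd)
      rw [Real.dist_eq] at h3
      rw [Real.enorm_eq_ofReal_abs, Real.enorm_eq_ofReal_abs, Real.enorm_eq_ofReal_abs,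
        ← ENNReal.ofReal_add (abs_nonneg _) (abs_nonneg _),
        ← ENNReal.ofReal_add (by positivity) hc0.le]
      refine ENNReal.ofReal_le_ofReal ?_
      have e : F (x, y) - F (x', y) = (F (x, y) - g (x, y)) - (F (x', y) - g (x', y)) +
        (g (x, y) - g (x', y)) := by ring
      rw [e]
      have h4 := abs_add_le ((F (x, y) - g (x, y)) - (F (x', y) - g (x', y)))
        (g (x, y) - g (x', y))
      have h5 := abs_sub (F (x, y) - g (x, y)) (F (x', y) - g (x', y))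
      linarith
    have m1 : Measurable fun y => ENNReal.ofReal (F (x', y)) :=
      (hF.comp measurable_prodMk_left).ennreal_ofReal
    have m2 : Measurable fun y => ‖F (x, y) - g (x, y)‖ₑ := hm.comp measurable_prodMk_left
    have m3 : Measurable fun y => ‖F (x', y) - g (x', y)‖ₑ := hm.comp measurable_prodMk_left
    rw [fib_apply τ F x hE, fib_apply τ F x' hE]
    refine (lintegral_mono hpt).trans ?_
    rw [lintegral_add_left m1]
    refine add_le_add le_rfl ((setLIntegral_le_lintegral _ _).trans ?_)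
    rw [lintegral_add_right _ measurable_const, lintegral_add_left m2, lintegral_const]
    calc _ ≤ ε + ε + ε := add_le_add (add_le_add hx1 hx2) hc
      _ = 3 * ε := by ring

theorem fib_meas_snd (τ : Measure UnitAddCircle) [IsFiniteMeasure τ]
    {F : UnitAddCircle × UnitAddCircle → ℝ} (hF : Measurable F)
    {E : Set UnitAddCircle} (hE : MeasurableSet E) : Measurable fun x => fib τ F x E := by
  have hp2 : ∀ x : UnitAddCircle, Prod.mk x ⁻¹' (Prod.snd ⁻¹' E :
      Set (UnitAddCircle × UnitAddCircle)) = E := fun x => rfl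
  have m2 := fib_meas τ hF (measurable_snd hE)
  simp only [hp2] at m2
  exact m2

theorem fib_int_prod {ρ : Measure (UnitAddCircle × UnitAddCircle)} {σ τ : Measure UnitAddCircle}
    [IsFiniteMeasure σ] [IsFiniteMeasure τ]
    {F : UnitAddCircle × UnitAddCircle → ℝ} (hF : Measurable F)
    (hρ : ρ = (σ.prod τ).withDensity fun p => ENNReal.ofReal (F p))
    {A E : Set UnitAddCircle} (hA : MeasurableSet A) (hE : MeasurableSet E) :
    ρ (A ×ˢ E) = ∫⁻ x in A, fib τ F x E ∂σ := by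
  have hp2 : ∀ x : UnitAddCircle, Prod.mk x ⁻¹' (Prod.snd ⁻¹' E :
      Set (UnitAddCircle × UnitAddCircle)) = E := fun x => rfl
  have e2 := fib_int hF hρ (measurable_snd hE) hA
  simp only [hp2] at e2
  rw [← e2]
  congr 1
  ext p
  simp

theorem fib_shift {ρ : Measure (UnitAddCircle × UnitAddCircle)} {σ τ τ' : Measure UnitAddCircle}
    [IsFiniteMeasure σ] [IsFiniteMeasure τ] [IsFiniteMeasure τ']
    {F F' : UnitAddCircle × UnitAddCircle → ℝ} (hF : Measurable F) (hF' : Measurable F')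
    (hρ : ρ = (σ.prod τ).withDensity fun p => ENNReal.ofReal (F p))
    (hρ' : ρ.map (fun p => (p.1, p.1 + p.2)) =
      (σ.prod τ').withDensity fun p => ENNReal.ofReal (F' p))
    {E : Set UnitAddCircle} (hE : MeasurableSet E) :
    ∀ᵐ x ∂σ, fib τ F x ((x + ·) ⁻¹' E) = fib τ' F' x E := by
  have hsh : Measurable fun p : UnitAddCircle × UnitAddCircle => (p.1, p.1 + p.2) :=
    measurable_fst.prodMk (measurable_fst.add measurable_snd)
  have hadd : MeasurableSet ((fun p => p.1 + p.2) ⁻¹' E : Set (UnitAddCircle × UnitAddCircle)) :=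
    (measurable_fst.add measurable_snd) hE
  have hp1 : ∀ x : UnitAddCircle, Prod.mk x ⁻¹' ((fun p => p.1 + p.2) ⁻¹' E :
      Set (UnitAddCircle × UnitAddCircle)) = (x + ·) ⁻¹' E := fun x => rfl
  have m1 := fib_meas τ hF hadd
  simp only [hp1] at m1
  refine ae_eq_of_forall_setLIntegral_eq_of_sigmaFinite m1 (fib_meas_snd τ' hF' hE)
    fun A hA _ => ?_
  have e1 := fib_int hF hρ hadd hA
  have e2 := fib_int_prod hF' hρ' hA hE
  simp only [hp1] at e1
  rw [Measure.map_apply hsh (hA.prod hE)] at e2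
  rw [← e1, ← e2]
  congr 1
  ext p
  simp

theorem exists_pi : ∃ C : Set (Set UnitAddCircle), C.Countable ∧ IsPiSystem C ∧ univ ∈ C ∧
    (∀ E ∈ C, MeasurableSet E) ∧
    (inferInstance : MeasurableSpace UnitAddCircle) = MeasurableSpace.generateFrom C := by
  have hgen : (inferInstance : MeasurableSpace UnitAddCircle) = MeasurableSpace.generateFrom
      (generateSetAlgebra (MeasurableSpace.countableGeneratingSet UnitAddCircle)) := by
    rw [generateFrom_generateSetAlgebra_eq, MeasurableSpace.generateFrom_countableGeneratingSet]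
  refine ⟨generateSetAlgebra (MeasurableSpace.countableGeneratingSet UnitAddCircle),
    countable_generateSetAlgebra MeasurableSpace.countable_countableGeneratingSet,
    isSetAlgebra_generateSetAlgebra.isSetRing.isSetSemiring.isPiSystem,
    isSetAlgebra_generateSetAlgebra.univ_mem, fun E hE => ?_, hgen⟩
  have := MeasurableSpace.measurableSet_generateFrom hE
  rwa [← hgen] at this

theorem shift_all {σ : Measure UnitAddCircle} {ν ν' : UnitAddCircle → Measure UnitAddCircle}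
    (hfin : ∀ᵐ x ∂σ, ν x univ < ∞)
    (hE1 : ∀ E, MeasurableSet E → ∀ᵐ x ∂σ, ν x ((x + ·) ⁻¹' E) = ν' x E) :
    ∀ᵐ x ∂σ, ν x univ < ∞ ∧ ∀ E, MeasurableSet E → ν x ((x + ·) ⁻¹' E) = ν' x E := by
  obtain ⟨C, hC, hpi, hu, hmem, hgen⟩ := exists_pi
  have h3 := (ae_ball_iff hC).2 fun E hE => hE1 E (hmem E hE)
  filter_upwards [hfin, h3] with x hx hx'
  refine ⟨hx, fun E hE => ?_⟩
  have hmx : Measurable fun y : UnitAddCircle => x + y := measurable_const_add x
  have : IsFiniteMeasure (ν x) := ⟨hx⟩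
  have key : (ν x).map (fun y => x + y) = ν' x := by
    refine ext_of_generate_finite C hgen hpi (fun s hs => ?_) ?_
    · rw [Measure.map_apply hmx (hmem s hs)]
      exact hx' s hs
    · rw [Measure.map_apply hmx MeasurableSet.univ]
      exact hx' _ hu
  rw [← key, Measure.map_apply hmx hE]

theorem slice (ρ : Measure (UnitAddCircle × UnitAddCircle)) (σ τ τ' : Measure UnitAddCircle)
    [IsFiniteMeasure ρ] [IsFiniteMeasure σ] [IsFiniteMeasure τ] [IsFiniteMeasure τ']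
    (h1 : ρ ≪ σ.prod τ) (h2 : ρ.map (fun p => (p.1, p.1 + p.2)) ≪ σ.prod τ') :
    ∃ ν : UnitAddCircle → Measure UnitAddCircle,
      (∀ E, MeasurableSet E → Measurable fun x => ν x E) ∧ (∀ x, ν x ≪ τ) ∧
      (∀ A E, MeasurableSet A → MeasurableSet E → ρ (A ×ˢ E) = ∫⁻ x in A, ν x E ∂σ) ∧
      ∀ ε : ℝ≥0∞, ε ≠ 0 → ∃ η : ℝ, 0 < η ∧ ∃ Z, MeasurableSet Z ∧ σ Z ≤ ε ∧
        (∀ x ∉ Z, ν x univ ≠ ∞) ∧
        ∀ x ∉ Z, ∀ x' ∉ Z, dist x x' < η → ∀ E, MeasurableSet E →
          ν x E ≤ ν x' E + ε ∧ ν x ((x + ·) ⁻¹' E) ≤ ν x' ((x' + ·) ⁻¹' E) + ε := by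
  obtain ⟨F, hF, hI, hρ⟩ := exists_dens ρ σ τ h1
  obtain ⟨F', hF', hI', hρ'⟩ := exists_dens _ σ τ' h2
  have hfin : ∀ᵐ x ∂σ, fib τ F x univ < ∞ := by
    refine ae_lt_top (fib_meas_snd τ hF MeasurableSet.univ) ?_
    have := fib_int_prod hF hρ MeasurableSet.univ MeasurableSet.univ
    rw [Measure.restrict_univ] at this
    rw [← this]
    exact measure_ne_top _ _
  have hall := shift_all hfin fun E hE => fib_shift hF hF' hρ hρ' hE
  refine ⟨fib τ F, fun E hE => fib_meas_snd τ hF hE,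
    fun x => withDensity_absolutelyContinuous _ _,
    fun A E hA hE => fib_int_prod hF hρ hA hE, fun ε hε => ?_⟩
  obtain ⟨δ, hδ0, hδ1, hδ⟩ : ∃ δ : ℝ≥0∞, δ ≠ 0 ∧ δ ≠ ∞ ∧ 3 * δ ≤ ε := by
    obtain ⟨δ, hδ0, hδ⟩ := ENNReal.exists_nnreal_pos_mul_lt (a := 3) (by norm_num) hε
    exact ⟨δ, by exact_mod_cast hδ0.ne', ENNReal.coe_ne_top, by rw [mul_comm]; exact hδ.le⟩
  obtain ⟨η1, hη1, Z1, hZ1, hs1, hu1⟩ := fib_unif σ τ hF hI hδ0 hδ1
  obtain ⟨η2, hη2, Z2, hZ2, hs2, hu2⟩ := fib_unif σ τ' hF' hI' hδ0 hδ1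
  obtain ⟨Z0, hZs, hZ0, hs0⟩ := exists_measurable_superset_of_null (ae_iff.1 hall)
  have hgood : ∀ x ∉ Z0, fib τ F x univ < ∞ ∧
      ∀ E, MeasurableSet E → fib τ F x ((x + ·) ⁻¹' E) = fib τ' F' x E := by
    intro x hx
    by_contra h
    exact hx (hZs h)
  refine ⟨min η1 η2, lt_min hη1 hη2, Z0 ∪ Z1 ∪ Z2, (hZ0.union hZ1).union hZ2, ?_, ?_, ?_⟩
  · calc σ (Z0 ∪ Z1 ∪ Z2) ≤ σ Z0 + σ Z1 + σ Z2 :=
          (measure_union_le _ _).trans (add_le_add (measure_union_le _ _) le_rfl)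
      _ ≤ δ + δ + δ := add_le_add (add_le_add (by rw [hs0]; exact zero_le) hs1) hs2
      _ = 3 * δ := by ring
      _ ≤ ε := hδ
  · intro x hx
    simp only [mem_union, not_or] at hx
    exact (hgood x hx.1.1).1.ne
  · intro x hx x' hx' hd E hE
    simp only [mem_union, not_or] at hx hx'
    rw [(hgood x hx.1.1).2 E hE, (hgood x' hx'.1.1).2 E hE]
    exact ⟨(hu1 x hx.1.2 x' hx'.1.2 (hd.trans_le (min_le_left _ _)) E hE).trans
        (add_le_add le_rfl hδ),
      (hu2 x hx.2 x' hx'.2 (hd.trans_le (min_le_right _ _)) E hE).trans (add_le_add le_rfl hδ)⟩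

end Pool.Agent.Lib.MP_1db5af_an
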