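import Pool.Agent.Lib.MP_1db5af_an.L2

set_option autoImplicit false

namespace Pool.Agent.Lib.MP_1db5af_an

open MeasureTheory Filter Topology ComplexConjugate Finset InnerProductSpace

variable {H : Type*} [NormedAddCommGroup H] [InnerProductSpace ℂ H]

theorem spec_inner_iter (U : H →ₗᵢ[ℂ] H) (k : ℕ) (x y : H) : ⟪U^[k] x, U^[k] y⟫_ℂ = ⟪x, y⟫_ℂ := by
  induction k with
  | zero => rfl
  | succ k ih => rw [Function.iterate_succ_apply', Function.iterate_succ_apply', U.inner_map_map, ih]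

theorem spec_inner_le (U : H →ₗᵢ[ℂ] H) {p q : ℕ} (h : p ≤ q) (x y : H) :
    ⟪U^[p] x, U^[q] y⟫_ℂ = ⟪x, U^[q - p] y⟫_ℂ := by
  obtain ⟨n, rfl⟩ := Nat.exists_eq_add_of_le h
  rw [Function.iterate_add_apply, spec_inner_iter, Nat.add_sub_cancel_left]

theorem spec_fourier_sub (m n : ℤ) (θ : UnitAddCircle) :
    fourier (m - n) θ = fourier m θ * conj (fourier n θ) := by
  rw [sub_eq_add_neg, fourier_add, fourier_neg]

theorem spec_fourier_arg_add (n : ℤ) (x y : UnitAddCircle) :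
    fourier n (x + y) = fourier n x * fourier n y := by
  rw [fourier_apply, fourier_apply, fourier_apply, smul_add, AddCircle.toCircle_add, Circle.coe_mul]

theorem spec_fourier_arg_neg (n : ℤ) (x : UnitAddCircle) : fourier n (-x) = fourier (-n) x := by
  rw [fourier_apply, fourier_apply, smul_neg, neg_smul]

theorem spec_integrable (σ : Measure UnitAddCircle) [IsFiniteMeasure σ] (n : ℤ) :
    Integrable (fun θ : UnitAddCircle => fourier n θ) σ :=
  Integrable.of_bound (fourier n).continuous.aestronglyMeasurable 1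
    (Eventually.of_forall fun θ => (norm_fourier n θ).le)

theorem spec_sum {Y : Type*} [MeasurableSpace Y] (ν : Measure Y) {ι : Type*} (I : Finset ι)
    (q : ι → ℂ) (F : ι → Y → ℂ) (hF : ∀ l l', Integrable (fun y => F l y * conj (F l' y)) ν) :
    ∑ l ∈ I, ∑ l' ∈ I, q l * conj (q l') * ∫ y, F l y * conj (F l' y) ∂ν =
      ((∫ y, ‖∑ l ∈ I, q l * F l y‖ ^ 2 ∂ν : ℝ) : ℂ) := by
  rw [← integral_complex_ofReal]
  have h1 : ∀ y, ((‖∑ l ∈ I, q l * F l y‖ ^ 2 : ℝ) : ℂ) =
      ∑ l ∈ I, ∑ l' ∈ I, q l * conj (q l') * (F l y * conj (F l' y)) := by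
    intro y
    rw [Complex.ofReal_pow, ← Complex.mul_conj', map_sum, sum_mul_sum]
    refine sum_congr rfl fun l _ => sum_congr rfl fun l' _ => ?_
    rw [map_mul]
    ring
  simp only [h1]
  rw [integral_finsetSum _ fun l _ => integrable_finsetSum _ fun l' _ => (hF l l').const_mul _]
  refine sum_congr rfl fun l _ => ?_
  rw [integral_finsetSum _ fun l' _ => (hF l l').const_mul _]
  exact sum_congr rfl fun l' _ => (integral_const_mul _ _).symm

theorem spec_norm_sum {ι : Type*} (I : Finset ι) (q : ι → ℂ) (x : ι → H) :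
    ((‖∑ l ∈ I, q l • x l‖ ^ 2 : ℝ) : ℂ) =
      ∑ l ∈ I, ∑ l' ∈ I, q l * conj (q l') * ⟪x l', x l⟫_ℂ := by
  have h := inner_self_eq_norm_sq_to_K (𝕜 := ℂ) (∑ l ∈ I, q l • x l)
  rw [Complex.ofReal_pow]
  refine h.symm.trans ?_
  rw [inner_sum]
  refine sum_congr rfl fun l _ => ?_
  rw [sum_inner]
  refine sum_congr rfl fun l' _ => ?_
  rw [inner_smul_left, inner_smul_right]
  ring

theorem IsSpec.isCor {U : H →ₗᵢ[ℂ] H} {v : H} {σ : Measure UnitAddCircle} (h : IsSpec U v σ) :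
    IsCor (fun m m' => ⟪U^[m'] v, U^[m] v⟫_ℂ) σ := by
  intro m m'
  beta_reduce
  rcases le_total m' m with h1 | h1
  · rw [spec_inner_le U h1, h, Nat.cast_sub h1]
  · rw [← inner_conj_symm, spec_inner_le U h1, h, ← integral_conj, Nat.cast_sub h1]
    simp only [← fourier_neg, neg_sub]

theorem IsCor.sum_eq {r : ℕ → ℕ → ℂ} {σ : Measure UnitAddCircle} [IsFiniteMeasure σ]
    (h : IsCor r σ) {ι : Type*} (I : Finset ι) (q : ι → ℂ) (m : ι → ℕ) :
    ∑ l ∈ I, ∑ l' ∈ I, q l * conj (q l') * r (m l) (m l') =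
      ((∫ θ, ‖∑ l ∈ I, q l * fourier (m l) θ‖ ^ 2 ∂σ : ℝ) : ℂ) := by
  rw [← spec_sum σ I q (fun l θ => fourier (m l) θ) fun l l' => by
    simpa only [spec_fourier_sub] using spec_integrable σ ((m l : ℤ) - m l')]
  refine sum_congr rfl fun l _ => sum_congr rfl fun l' _ => ?_
  rw [h]
  simp only [spec_fourier_sub]

theorem IsCor.sum_eq₂ {r r' : ℕ → ℕ → ℂ} {σ σ' : Measure UnitAddCircle} [IsFiniteMeasure σ]
    [IsFiniteMeasure σ'] (h : IsCor r σ) (h' : IsCor r' σ') {ι : Type*} (I : Finset ι) (q : ι → ℂ)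
    (m m' : ι → ℕ) :
    ∑ l ∈ I, ∑ l' ∈ I, q l * conj (q l') * (r (m l) (m l') * r' (m' l) (m' l')) =
      ((∫ p, ‖∑ l ∈ I, q l * (fourier (m l) p.1 * fourier (m' l) p.2)‖ ^ 2 ∂(σ.prod σ') : ℝ) : ℂ) := by
  have e : ∀ (l l' : ι) (p : UnitAddCircle × UnitAddCircle),
      fourier (m l) p.1 * fourier (m' l) p.2 * conj (fourier (m l') p.1 * fourier (m' l') p.2) =
        fourier ((m l : ℤ) - m l') p.1 * fourier ((m' l : ℤ) - m' l') p.2 := by
    intro l l' p
    rw [spec_fourier_sub, spec_fourier_sub, map_mul]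
    ring
  rw [← spec_sum (σ.prod σ') I q (fun l p => fourier (m l) p.1 * fourier (m' l) p.2) fun l l' => by
    simp only [e]
    exact (spec_integrable σ _).mul_prod (spec_integrable σ' _)]
  refine sum_congr rfl fun l _ => sum_congr rfl fun l' _ => ?_
  simp only [e]
  rw [h, h', integral_prod_mul (fun θ : UnitAddCircle => fourier ((m l : ℤ) - m l') θ)
    fun θ : UnitAddCircle => fourier ((m' l : ℤ) - m' l') θ]

theorem IsSpec.norm_sq {U : H →ₗᵢ[ℂ] H} {v : H} {σ : Measure UnitAddCircle} [IsFiniteMeasure σ]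
    (h : IsSpec U v σ) {ι : Type*} (I : Finset ι) (q : ι → ℂ) (m : ι → ℕ) :
    ‖∑ l ∈ I, q l • U^[m l] v‖ ^ 2 = ∫ θ, ‖∑ l ∈ I, q l * fourier (m l) θ‖ ^ 2 ∂σ :=
  Complex.ofReal_injective ((spec_norm_sum I q fun l => U^[m l] v).trans (h.isCor.sum_eq I q m))

theorem exists_isCor_prod {ι : Type*} (I : Finset ι) (r : ι → ℕ → ℕ → ℂ)
    (h : ∀ i ∈ I, ∃ σ : Measure UnitAddCircle, IsFiniteMeasure σ ∧ IsCor (r i) σ) :
    ∃ σ : Measure UnitAddCircle, IsFiniteMeasure σ ∧ IsCor (fun m m' => ∏ i ∈ I, r i m m') σ := by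
  classical
  induction I using Finset.induction_on with
  | empty =>
    refine ⟨Measure.dirac 0, inferInstance, fun m m' => ?_⟩
    beta_reduce
    rw [prod_empty, integral_dirac, fourier_eval_zero]
  | insert i I hi ih =>
    obtain ⟨σ, hσ, h1⟩ := h i (mem_insert_self _ _)
    obtain ⟨σ', hσ', h2⟩ := ih fun j hj => h j (mem_insert_of_mem hj)
    refine ⟨(σ.prod σ').map fun p => p.1 + p.2, inferInstance, fun m m' => ?_⟩
    have h3 := h2 m m'
    beta_reduce at h3 ⊢
    rw [prod_insert hi, h1, h3, integral_map (by fun_prop)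
      (fourier _).continuous.aestronglyMeasurable]
    simp only [spec_fourier_arg_add]
    exact (integral_prod_mul (fun θ : UnitAddCircle => fourier ((m : ℤ) - m') θ)
      fun θ : UnitAddCircle => fourier ((m : ℤ) - m') θ).symm

theorem spec_integral_fourier (n : ℤ) :
    ∫ θ : UnitAddCircle, fourier n θ ∂AddCircle.haarAddCircle = if n = 0 then 1 else 0 := by
  have h := congrFun (fourierCoeff_fourier (T := 1) n) 0
  rw [fourierCoeff, Pi.single_apply] at h
  simp only [neg_zero, fourier_zero, one_smul] at h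
  rw [h]
  exact if_congr eq_comm rfl rfl

/-- The Fejér type density. -/
noncomputable def specDen (U : H →ₗᵢ[ℂ] H) (v : H) (K : ℕ) (θ : UnitAddCircle) : NNReal :=
  ‖∑ l ∈ range K, fourier (-(l : ℤ)) θ • U^[l] v‖₊ ^ 2 / K

theorem spec_den_cont (U : H →ₗᵢ[ℂ] H) (v : H) (K : ℕ) : Continuous (specDen U v K) := by
  unfold specDen
  fun_prop

theorem spec_den_integral (U : H →ₗᵢ[ℂ] H) (v : H) (K n : ℕ) :
    ∫ θ, fourier n θ ∂(AddCircle.haarAddCircle.withDensity fun θ => specDen U v K θ) =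
      ((K - n : ℕ) : ℂ) / K * ⟪v, U^[n] v⟫_ℂ := by
  rw [integral_withDensity_eq_integral_smul (spec_den_cont U v K).measurable]
  have h1 : ∀ θ : UnitAddCircle, specDen U v K θ • fourier n θ =
      ∑ l ∈ range K, ∑ l' ∈ range K,
        (K : ℂ)⁻¹ * ⟪U^[l'] v, U^[l] v⟫_ℂ * fourier ((l' : ℤ) + n - l) θ := by
    intro θ
    have h2 := spec_norm_sum (range K) (fun l => fourier (-(l : ℤ)) θ) fun l => U^[l] v
    rw [NNReal.smul_def, Complex.real_smul, specDen, NNReal.coe_div, NNReal.coe_pow, coe_nnnorm,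
      Complex.ofReal_div, h2, div_eq_mul_inv, mul_assoc, sum_mul]
    refine sum_congr rfl fun l _ => ?_
    rw [sum_mul]
    refine sum_congr rfl fun l' _ => ?_
    rw [← fourier_neg, neg_neg, sub_eq_add_neg, fourier_add, fourier_add, NNReal.coe_natCast,
      Complex.ofReal_natCast]
    ring
  simp only [h1]
  rw [integral_finsetSum _ fun l _ => integrable_finsetSum _ fun l' _ =>
    (spec_integrable _ _).const_mul _, sum_congr rfl fun l _ =>
      integral_finsetSum _ fun l' _ => (spec_integrable _ _).const_mul _, sum_comm]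
  have h3 : ∀ l' ∈ range K, ∑ l ∈ range K, ∫ θ : UnitAddCircle,
      (K : ℂ)⁻¹ * ⟪U^[l'] v, U^[l] v⟫_ℂ * fourier ((l' : ℤ) + n - l) θ ∂AddCircle.haarAddCircle =
        if l' < K - n then (K : ℂ)⁻¹ * ⟪v, U^[n] v⟫_ℂ else 0 := by
    intro l' _
    have h4 : ∀ l ∈ range K, ∫ θ : UnitAddCircle,
        (K : ℂ)⁻¹ * ⟪U^[l'] v, U^[l] v⟫_ℂ * fourier ((l' : ℤ) + n - l) θ ∂AddCircle.haarAddCircle =
          if l' + n = l then (K : ℂ)⁻¹ * ⟪v, U^[n] v⟫_ℂ else 0 := by
      intro l _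
      rw [integral_const_mul, spec_integral_fourier]
      by_cases h5 : l' + n = l
      · subst h5
        rw [if_pos (by push_cast; ring), if_pos rfl, mul_one, spec_inner_le U (Nat.le_add_right _ _),
          Nat.add_sub_cancel_left]
      · rw [if_neg (by omega), if_neg h5, mul_zero]
    rw [sum_congr rfl h4, sum_ite_eq]
    exact if_congr (by rw [mem_range]; omega) rfl rfl
  rw [sum_congr rfl h3, ← sum_filter, sum_const]
  have h6 : (range K).filter (fun l' => l' < K - n) = range (K - n) := by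
    ext l
    simp only [mem_filter, mem_range]
    omega
  rw [h6, card_range, nsmul_eq_mul]
  ring

theorem herglotz (U : H →ₗᵢ[ℂ] H) (v : H) :
    ∃ σ : Measure UnitAddCircle, IsFiniteMeasure σ ∧ IsSpec U v σ := by
  have hfin : ∀ K, IsFiniteMeasure
      (AddCircle.haarAddCircle.withDensity fun θ => (specDen U v K θ : ENNReal)) := fun K =>
    isFiniteMeasure_withDensity (BoundedContinuousFunction.lintegral_lt_top_of_nnreal _
      (BoundedContinuousFunction.mkOfCompact ⟨specDen U v K, spec_den_cont U v K⟩)).ne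
  let ν : ℕ → FiniteMeasure UnitAddCircle := fun K => ⟨_, hfin K⟩
  have hν : ∀ K n : ℕ, ∫ θ, fourier n θ ∂(ν K : Measure UnitAddCircle) =
      ((K - n : ℕ) : ℂ) / K * ⟪v, U^[n] v⟫_ℂ := spec_den_integral U v
  have hmass : ∀ K, (ν K).mass ≤ ‖v‖₊ ^ 2 := by
    intro K
    have h1 := congrArg norm (hν K 0)
    simp only [Nat.cast_zero, fourier_zero, integral_const, Function.iterate_zero, id_eq,
      Nat.sub_zero, norm_smul, norm_one, mul_one, norm_mul, inner_self_eq_norm_sq_to_K, norm_pow,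
      RCLike.norm_ofReal, abs_norm, Real.norm_eq_abs, abs_of_nonneg measureReal_nonneg] at h1
    have h2 : ‖(K : ℂ) / K‖ ≤ 1 := by
      rw [norm_div]
      exact div_self_le_one _
    have h3 : ((ν K).mass : ℝ) = (ν K : Measure UnitAddCircle).real Set.univ := rfl
    rw [← NNReal.coe_le_coe, h3, h1, NNReal.coe_pow, coe_nnnorm]
    exact mul_le_of_le_one_left (by positivity) h2
  obtain ⟨σ, -, hσ⟩ := (isCompact_setOfPred_finiteMeasure_le_of_compactSpace UnitAddCircle
    (‖v‖₊ ^ 2)).ultrafilter_le_nhds' ((Ultrafilter.of (atTop : Filter ℕ)).map ν)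
    (Ultrafilter.mem_map.2 (univ_mem' hmass))
  have h1 : Tendsto ν (Ultrafilter.of (atTop : Filter ℕ)) (𝓝 σ) := hσ
  refine ⟨σ, inferInstance, fun n => ?_⟩
  have h2 := (FiniteMeasure.tendsto_iff_forall_integral_rclike_tendsto ℂ).1 h1
    (BoundedContinuousFunction.mkOfCompact (fourier n))
  have h3 : Tendsto (fun K : ℕ => ((K - n : ℕ) : ℂ) / K * ⟪v, U^[n] v⟫_ℂ) atTop
      (𝓝 ⟪v, U^[n] v⟫_ℂ) := by
    have h4 : Tendsto (fun K : ℕ => (1 - (n : ℂ) / K) * ⟪v, U^[n] v⟫_ℂ) atTop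
        (𝓝 ((1 - 0) * ⟪v, U^[n] v⟫_ℂ)) :=
      (tendsto_const_nhds.sub (tendsto_const_div_atTop_nhds_zero_nat (n : ℂ))).mul_const _
    rw [sub_zero, one_mul] at h4
    refine h4.congr' ?_
    filter_upwards [eventually_gt_atTop n] with K hK
    have h5 : (K : ℂ) ≠ 0 := Nat.cast_ne_zero.2 (by omega)
    rw [Nat.cast_sub hK.le, sub_div, div_self h5]
  simp only [BoundedContinuousFunction.mkOfCompact_apply, hν] at h2
  exact tendsto_nhds_unique (h3.mono_left (Ultrafilter.of_le _)) h2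

theorem spec_av_sq {U : H →ₗᵢ[ℂ] H} {v : H} {σ : Measure UnitAddCircle} [IsFiniteMeasure σ]
    (h : IsSpec U v σ) (m : ℕ → ℕ) (N : ℕ) :
    ‖av (fun n => U^[m n] v) N‖ ^ 2 = ∫ θ, ‖av (fun n => fourier (m n) θ) N‖ ^ 2 ∂σ := by
  have h1 := h.norm_sq (range N) (fun _ => (((N : ℝ)⁻¹ : ℝ) : ℂ)) m
  simp only [← smul_sum, ← mul_sum, Complex.coe_smul] at h1
  simp only [av, Complex.real_smul]
  exact h1

theorem spec_av_cont (m : ℕ → ℕ) (N : ℕ) :
    Continuous fun θ : UnitAddCircle => ‖av (fun n => fourier (m n) θ) N‖ ^ 2 := by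
  unfold av
  fun_prop

theorem spec_av_le (m : ℕ → ℕ) (N : ℕ) (θ : UnitAddCircle) :
    ‖‖av (fun n => fourier (m n) θ) N‖ ^ 2‖ ≤ 1 := by
  rw [norm_pow, norm_norm]
  exact pow_le_one₀ (norm_nonneg _) (norm_av_le (fun n => (norm_fourier _ θ).le) N)

theorem spec_null {a : ℕ → ℕ} (ha : Weyl a) (hm : Monotone a) (U : H →ₗᵢ[ℂ] H) {w : H}
    (hw : Tendsto (av fun n => U^[n] w) atTop (𝓝 0)) {i j : ℕ} (hij : i < j) :
    Tendsto (av fun n => U^[a (n + j) - a (n + i)] w) atTop (𝓝 0) := by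
  obtain ⟨σ, hσ, h⟩ := herglotz U w
  have h0 : σ.real {0} ≤ 0 := by
    have h1 : Tendsto (fun N => ‖av (fun n => U^[n] w) N‖ ^ 2) atTop (𝓝 0) := by
      simpa using hw.norm.pow 2
    refine ge_of_tendsto h1 ?_
    filter_upwards [eventually_gt_atTop 0] with N hN
    rw [spec_av_sq h (fun n => n) N, ← integral_indicator_one (measurableSet_singleton _)]
    refine integral_mono ((integrable_const 1).indicator (measurableSet_singleton _))
      (Integrable.of_bound (spec_av_cont (fun n => n) N).aestronglyMeasurable 1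
        (Eventually.of_forall (spec_av_le (fun n => n) N))) fun θ => ?_
    by_cases hθ : θ = 0
    · subst hθ
      simp only [fourier_eval_zero, av_const _ hN]
      simp
    · rw [Set.indicator_of_notMem (s := {0}) hθ]
      positivity
  have h1 : ∀ᵐ θ ∂σ, θ ≠ 0 := by
    rw [ae_iff]
    have h2 : σ {0} = 0 :=
      (measureReal_eq_zero_iff (measure_ne_top _ _)).1 (le_antisymm h0 measureReal_nonneg)
    simpa using h2
  have h2 := tendsto_integral_of_dominated_convergence (μ := σ)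
    (F := fun N θ => ‖av (fun n => fourier ((a (n + j) - a (n + i) : ℕ) : ℤ) θ) N‖ ^ 2)
    (f := fun _ => 0) (fun _ => 1) (fun N => (spec_av_cont _ N).aestronglyMeasurable)
    (integrable_const 1) (fun N => Eventually.of_forall (spec_av_le _ N)) (by
      filter_upwards [h1] with θ hθ
      have h3 := ha {i, j} (fun k => if k = j then θ else -θ) ⟨j, by simp, by simpa using hθ⟩
      have h4 : ∀ n, ∏ k ∈ ({i, j} : Finset ℕ), fourier (a (n + k)) (if k = j then θ else -θ) =
          fourier ((a (n + j) - a (n + i) : ℕ) : ℤ) θ := by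
        intro n
        rw [prod_pair hij.ne, if_neg hij.ne, if_pos rfl, spec_fourier_arg_neg, ← fourier_add,
          Nat.cast_sub (hm (by omega)), neg_add_eq_sub]
      simp only [h4] at h3
      simpa using h3.norm.pow 2)
  simp only [← spec_av_sq h, integral_zero] at h2
  rw [tendsto_zero_iff_norm_tendsto_zero]
  have h5 := h2.sqrt
  simpa only [Real.sqrt_sq (norm_nonneg _), Real.sqrt_zero] using h5

theorem spec_pair {a : ℕ → ℕ} (ha : Weyl a) (hm : Monotone a) (U : H →ₗᵢ[ℂ] H) (v : H) {w : H}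
    (hw : Tendsto (av fun n => U^[n] w) atTop (𝓝 0)) {i j : ℕ} (hij : i < j) :
    Tendsto (av fun n => ⟪U^[a (n + i)] v, U^[a (n + j)] w⟫_ℂ) atTop (𝓝 0) := by
  have h1 := (((innerSL ℂ v).restrictScalars ℝ).continuous.tendsto 0).comp
    (spec_null ha hm U hw hij)
  rw [map_zero] at h1
  refine h1.congr fun N => ?_
  rw [Function.comp_apply, ← av_map]
  congr 1
  funext n
  exact (spec_inner_le U (hm (by omega)) v w).symm

theorem hpair {a : ℕ → ℕ} (ha : Weyl a) (hm : Monotone a) (U : H →ₗᵢ[ℂ] H) {v w : H}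
    (hv : Tendsto (av fun n => U^[n] v) atTop (𝓝 0))
    (hw : Tendsto (av fun n => U^[n] w) atTop (𝓝 0)) {i j : ℕ} (hij : i ≠ j) :
    Tendsto (av fun n => ⟪U^[a (n + i)] v, U^[a (n + j)] w⟫_ℂ) atTop (𝓝 0) := by
  rcases lt_or_gt_of_ne hij with h | h
  · exact spec_pair ha hm U v hw h
  · have h1 := ((Complex.conjCLE : ℂ →L[ℝ] ℂ).continuous.tendsto 0).comp (spec_pair ha hm U w hv h)
    rw [map_zero] at h1
    refine h1.congr fun N => ?_
    rw [Function.comp_apply, ← av_map]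
    congr 1
    funext n
    exact inner_conj_symm _ _

end Pool.Agent.Lib.MP_1db5af_an
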