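import Pool.Agent.Lib.MP_1db5af_an.MeanErg

set_option autoImplicit false

namespace Pool.Agent.Lib.MP_1db5af_an

open MeasureTheory Filter Topology ComplexConjugate Finset InnerProductSpace

variable {X : Type*} [m0 : MeasurableSpace X] {μ : Measure X} [IsProbabilityMeasure μ]
  {S : X → X} {k : ℕ} {ξ : X → Fin k}

/-- The σ-algebra of the future from time `n` on. -/
@[reducible] def tail_fut {X : Type*} {k : ℕ} (S : X → X) (ξ : X → Fin k) (n : ℕ) :
    MeasurableSpace X :=
  ⨆ j : ℕ, ⨆ _ : n ≤ j, MeasurableSpace.comap (fun x => ξ (S^[j] x)) ⊤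

theorem tail_fut_le (hS : Measurable S) (hξ : Measurable ξ) (n : ℕ) : tail_fut S ξ n ≤ m0 :=
  iSup₂_le fun j _ => (hξ.comp (hS.iterate j)).comap_le

omit m0 in
theorem tail_fut_anti (S : X → X) (ξ : X → Fin k) {n n' : ℕ} (h : n ≤ n') :
    tail_fut S ξ n' ≤ tail_fut S ξ n :=
  iSup₂_le fun j hj => le_iSup₂_of_le j (h.trans hj) le_rfl

omit m0 in
theorem tail_le_fut (S : X → X) (ξ : X → Fin k) (n : ℕ) : tail S ξ ≤ tail_fut S ξ n :=
  iInf_le _ n

omit m0 in
theorem tail_fut_add (S : X → X) (ξ : X → Fin k) (b L : ℕ) :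
    tail_fut S ξ (b + L) = (tail_fut S ξ L).comap S^[b] := by
  have e : ∀ j, (MeasurableSpace.comap (fun x => ξ (S^[j] x)) ⊤).comap S^[b] =
      MeasurableSpace.comap (fun x => ξ (S^[j + b] x)) ⊤ := fun j => by
    rw [MeasurableSpace.comap_comp, Function.iterate_add]
    rfl
  simp only [tail_fut, MeasurableSpace.comap_iSup, e]
  refine le_antisymm (iSup₂_le fun j hj => ?_) (iSup₂_le fun j hj => ?_)
  · refine le_iSup₂_of_le (j - b) (by omega) ?_
    rw [Nat.sub_add_cancel (by omega)]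
  · exact le_iSup₂_of_le (j + b) (by omega) le_rfl

theorem tail_le (hS : Measurable S) (hξ : Measurable ξ) : tail S ξ ≤ m0 :=
  (tail_le_fut S ξ 0).trans (tail_fut_le hS hξ 0)

omit m0 in
theorem measurable_tail (S : X → X) (ξ : X → Fin k) : Measurable[tail S ξ, tail S ξ] S := by
  refine measurable_iff_comap_le.2 (le_iInf fun n => ?_)
  refine (MeasurableSpace.comap_mono (tail_le_fut S ξ n)).trans ?_
  have h := tail_fut_add S ξ 1 n
  rw [Function.iterate_one] at h
  rw [← h]
  exact tail_fut_anti S ξ (Nat.le_add_left n 1)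

omit [IsProbabilityMeasure μ] in
theorem tail_aesm {p : X → ℂ} (h : ∀ L, AEStronglyMeasurable[tail_fut S ξ L] p μ) :
    AEStronglyMeasurable[tail S ξ] p μ := by
  refine ⟨fun x => limUnder atTop fun L => (h L).mk p x, ?_, ?_⟩
  · refine Measurable.stronglyMeasurable (measurable_iff_comap_le.2 (le_iInf fun n => ?_))
    have e : (fun x => limUnder atTop fun L => (h L).mk p x) =
        fun x => limUnder atTop fun L => (h (L + n)).mk p x := by
      funext x
      unfold limUnder
      rw [← map_add_atTop_eq_nat n, Filter.map_map, map_add_atTop_eq_nat n]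
      rfl
    rw [e]
    refine Measurable.comap_le (StronglyMeasurable.measurable ?_)
    exact @StronglyMeasurable.limUnder _ _ _ (tail_fut S ξ n) _ _ _ _ _ _ _ fun L =>
      (h (L + n)).stronglyMeasurable_mk.mono (tail_fut_anti S ξ (Nat.le_add_left n L))
  · filter_upwards [ae_all_iff.2 fun L => (h L).ae_eq_mk] with x hx
    exact (tendsto_const_nhds.congr hx).limUnder_eq.symm

/-- The projection on the tail, with its approximate orthogonality to the far future. -/
theorem tail_proj (hS : MeasurePreserving S μ μ) (hξ : Measurable ξ) {C : ℝ} {g : X → ℂ}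
    (hg : Bd μ C g) : ∃ (h : X → ℂ) (δ : ℕ → ℝ), Bd μ C h ∧ AEStronglyMeasurable[tail S ξ] h μ ∧
      Tendsto δ atTop (𝓝 0) ∧ ∀ (L b : ℕ) (D : ℝ) (Ψ : X → ℂ), Bd μ D Ψ →
        AEStronglyMeasurable[tail_fut S ξ (b + L)] Ψ μ →
          ‖∫ x, g (S^[b] x) * Ψ x ∂μ - ∫ x, h (S^[b] x) * Ψ x ∂μ‖ ≤ D * δ L := by
  have hle := tail_fut_le hS.measurable hξ
  have : ∀ L, Fact (tail_fut S ξ L ≤ m0) := fun L => ⟨hle L⟩
  have hP : ∀ L, L2 μ (μ[g | tail_fut S ξ L]) =
      (condExpL2 ℂ ℂ (hle L) (L2 μ g) : Lp ℂ 2 μ) := fun L => by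
    rw [L2_eq hg.memLp, ← L2_congr (hg.memLp.condExpL2_ae_eq_condExp (𝕜 := ℂ) (hle L)), L2_Lp]
  obtain ⟨p, hp⟩ : ∃ p : Lp ℂ 2 μ,
      Tendsto (fun L => L2 μ (μ[g | tail_fut S ξ L])) atTop (𝓝 p) := by
    have h1 := Submodule.starProjection_tendsto_closure_iSup
      (fun L => (lpMeas ℂ ℂ (tail_fut S ξ L) 2 μ)ᗮ) (fun L L' hL => Submodule.orthogonal_le
        fun f hf => mem_lpMeas_iff_aestronglyMeasurable.2
          ((mem_lpMeas_iff_aestronglyMeasurable.1 hf).mono (tail_fut_anti S ξ hL))) (L2 μ g)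
    refine ⟨_, (h1.const_sub (L2 μ g)).congr fun L => ?_⟩
    rw [Submodule.starProjection_orthogonal_val, sub_sub_cancel, hP]
    rfl
  have hc : ∀ n, Bd μ C p ∧ AEStronglyMeasurable[tail_fut S ξ n] p μ := fun n =>
    closed_Bd (hle n) (φ := fun L => μ[g | tail_fut S ξ (L + n)]) (fun _ => hg.condExp)
      (fun L => (stronglyMeasurable_condExp.mono
        (tail_fut_anti S ξ (Nat.le_add_left n L))).aestronglyMeasurable)
      (hp.comp (tendsto_add_atTop_nat n))
  refine ⟨p, fun L => ‖L2 μ (μ[g | tail_fut S ξ L]) - p‖, (hc 0).1, tail_aesm fun n => (hc n).2,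
    tendsto_iff_norm_sub_tendsto_zero.1 hp, fun L b D Ψ hΨ hm => ?_⟩
  rw [tail_fut_add] at hm
  obtain ⟨Θ, hΘ, e⟩ := StronglyMeasurable.exists_eq_measurable_comp (mY := tail_fut S ξ L)
    hm.stronglyMeasurable_mk
  have e' : Ψ =ᵐ[μ] fun x => Θ (S^[b] x) := hm.ae_eq_mk.trans (by rw [e]; rfl)
  have hΘ0 : StronglyMeasurable Θ := hΘ.mono (hle L)
  have hB : Bd μ D Θ := by
    refine ⟨hΘ0.aestronglyMeasurable, ?_⟩
    rw [← (hS.iterate b).map_eq, ae_map_iff (hS.iterate b).aemeasurable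
      (measurableSet_le hΘ0.measurable.norm measurable_const)]
    exact (hΨ.congr e').2
  have key : ∀ u : X → ℂ, Bd μ C u →
      ∫ x, u (S^[b] x) * Ψ x ∂μ = ⟪L2 μ fun x => conj (Θ x), L2 μ u⟫_ℂ := fun u hu => by
    rw [inner_L2 hB.star.memLp hu.memLp, ← integral_iter hS (hu.mul hB.star.star).1 b]
    refine integral_congr_ae ?_
    filter_upwards [e'] with x hx
    rw [hx, Complex.conj_conj]
  have hm' : AEStronglyMeasurable[tail_fut S ξ L] (L2 μ fun x => conj (Θ x)) μ :=
    (Complex.continuous_conj.comp_stronglyMeasurable hΘ).aestronglyMeasurable.congr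
      (L2_coe hB.star.memLp).symm
  have h1 : ⟪L2 μ fun x => conj (Θ x), L2 μ g⟫_ℂ =
      ⟪L2 μ fun x => conj (Θ x), L2 μ (μ[g | tail_fut S ξ L])⟫_ℂ := by
    rw [hP, ← inner_conj_symm, ← inner_condExpL2_eq_inner_fun (hle L) _ _ hm', inner_conj_symm]
  rw [key g hg, key p (hc 0).1, h1, L2_Lp, ← inner_sub_right]
  exact (norm_inner_le_norm _ _).trans
    (mul_le_mul_of_nonneg_right hB.star.norm_L2 (norm_nonneg _))

omit m0 in
theorem tail_aesm_psi (ψ : Fin k → ℂ) {n j : ℕ} (h : n ≤ j) :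
    StronglyMeasurable[tail_fut S ξ n] fun x => ψ (ξ (S^[j] x)) := by
  refine Measurable.stronglyMeasurable ?_
  have h1 : Measurable[tail_fut S ξ n, ⊤] fun x => ξ (S^[j] x) :=
    measurable_iff_comap_le.2 (le_iSup₂_of_le j h le_rfl)
  exact (measurable_from_top (f := ψ)).comp h1

omit [IsProbabilityMeasure μ] in
theorem tail_aesm_prod {m : MeasurableSpace X} (J : Finset ℕ) {f : ℕ → X → ℂ}
    (h : ∀ j ∈ J, AEStronglyMeasurable[m] (f j) μ) :
    AEStronglyMeasurable[m] (fun x => ∏ j ∈ J, f j x) μ := by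
  induction J using Finset.induction_on with
  | empty => simpa using aestronglyMeasurable_const
  | insert i J hi ih =>
    simp only [prod_insert hi]
    exact (h i (mem_insert_self _ _)).mul (ih fun j hj => h j (mem_insert_of_mem hj))

theorem indep_of_tail (hS : MeasurePreserving S μ μ) (hξ : Measurable ξ) {a : ℕ → ℕ}
    (hm : Monotone a) (hG : Gap a)
    (H : ∀ (J : Finset ℕ) (g : ℕ → X → ℂ) (C : ℝ),
      (∀ j ∈ J, Bd μ C (g j) ∧ AEStronglyMeasurable[tail S ξ] (g j) μ) → Indep μ S a J g)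
    (J : Finset ℕ) (ψ : ℕ → Fin k → ℂ) : Indep μ S a J fun j x => ψ j (ξ x) := by
  have hg : ∀ j, Bd μ (∑ i, ‖ψ j i‖) fun x => ψ j (ξ x) := fun j =>
    ⟨((measurable_from_top (f := ψ j)).comp hξ).aestronglyMeasurable, Eventually.of_forall fun x =>
      single_le_sum (f := fun i => ‖ψ j i‖) (fun _ _ => norm_nonneg _) (mem_univ (ξ x))⟩
  choose h δ hB hT hδ hE using fun j => tail_proj hS hξ (hg j)
  set C : ℝ := ∑ j ∈ J, ∑ i, ‖ψ j i‖ with hC
  have hle : ∀ j ∈ J, ∑ i, ‖ψ j i‖ ≤ C := fun j hj =>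
    single_le_sum (f := fun j => ∑ i, ‖ψ j i‖) (fun _ _ => sum_nonneg fun _ _ => norm_nonneg _) hj
  have hint : ∀ j, ∫ x, ψ j (ξ x) ∂μ = ∫ x, h j x ∂μ := fun j => by
    rw [← sub_eq_zero, ← norm_le_zero_iff]
    refine ge_of_tendsto' (hδ j) fun L => ?_
    simpa using hE j L 0 _ _ (Bd.const (μ := μ) 1) aestronglyMeasurable_const
  set G : ℕ → ℕ → X → ℂ := fun t j => if j < t then h j else fun x => ψ j (ξ x) with hGd
  have hGB : ∀ t, ∀ j ∈ J, Bd μ C (G t j) := fun t j hj => by
    simp only [hGd]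
    split_ifs
    · exact (hB j).mono (hle j hj)
    · exact (hg j).mono (hle j hj)
  set I : ℕ → ℕ → ℂ := fun t n => ∫ x, ∏ j ∈ J, G t j (S^[a (n + j)] x) ∂μ with hI
  have hne : ∀ t j, j ≠ t → G (t + 1) j = G t j := fun t j hj => by
    simp only [hGd, show j < t + 1 ↔ j < t by omega]
  have step : ∀ t, Tendsto (fun n => I t n - I (t + 1) n) atTop (𝓝 0) := by
    intro t
    by_cases ht : t ∈ J
    · have e1 : ∀ n, I t n = ∫ x, ψ t (ξ (S^[a (n + t)] x)) *
          ∏ j ∈ J.erase t, G t j (S^[a (n + j)] x) ∂μ := fun n => by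
        simp only [hI, ← mul_prod_erase J _ ht, hGd, lt_self_iff_false, if_false]
      have e2 : ∀ n, I (t + 1) n = ∫ x, h t (S^[a (n + t)] x) *
          ∏ j ∈ J.erase t, G t j (S^[a (n + j)] x) ∂μ := fun n => by
        simp only [hI, ← mul_prod_erase J _ ht]
        refine integral_congr_ae (Eventually.of_forall fun x => ?_)
        beta_reduce
        rw [prod_congr rfl fun j hj => by rw [hne t j (ne_of_mem_erase hj)]]
        simp only [hGd, Nat.lt_succ_self, if_true]
      rw [NormedAddGroup.tendsto_nhds_zero]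
      intro ε hε
      have h1 := ((hδ t).const_mul (C ^ (J.erase t).card)).eventually
        (gt_mem_nhds (by simpa using hε))
      obtain ⟨L, hL⟩ := h1.exists
      filter_upwards [(tendsto_add_atTop_nat t).eventually (hG L)] with n hn
      rw [e1, e2]
      refine (hE t L (a (n + t)) _ _ (Bd.prod _ fun j hj =>
        (hGB t j (mem_of_mem_erase hj)).iter hS _) ?_).trans_lt hL
      refine tail_aesm_prod _ fun j hj => ?_
      simp only [hGd]
      split_ifs with hjt
      · exact (aesm_iter hS (measurable_tail S ξ) (hT j) _).mono (tail_le_fut S ξ _)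
      · have h2 : n + t + 1 ≤ n + j := by
          have := ne_of_mem_erase hj
          omega
        exact (tail_aesm_psi (ψ j) (hn.trans (hm h2))).aestronglyMeasurable
    · refine tendsto_const_nhds.congr fun n => (sub_eq_zero.2 ?_).symm
      refine integral_congr_ae (Eventually.of_forall fun x => prod_congr rfl fun j hj => ?_)
      rw [hne t j fun e => ht (e ▸ hj)]
  have all : ∀ t, Tendsto (fun n => I 0 n - I t n) atTop (𝓝 0) := by
    intro t
    induction t with
    | zero => simp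
    | succ t ih => simpa using ih.add (step t)
  have h1 := tendsto_av_of_tendsto (all (J.sup id + 1))
  have h2 := H J h C fun j hj => ⟨(hB j).mono (hle j hj), hT j⟩
  have e3 : cor μ S a J h = av (I (J.sup id + 1)) := by
    unfold cor
    congr 1
    funext n
    refine integral_congr_ae (Eventually.of_forall fun x => prod_congr rfl fun j hj => ?_)
    have hlt : j < J.sup id + 1 := Nat.lt_succ_of_le (le_sup (f := id) hj)
    simp only [hGd, if_pos hlt]
  have e4 : cor μ S a J (fun j x => ψ j (ξ x)) = av (I 0) := by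
    simp only [cor, hI, hGd, Nat.not_lt_zero, if_false]
  unfold Indep at h2 ⊢
  rw [e3] at h2
  rw [e4, prod_congr rfl fun j _ => hint j]
  have h3 := h1.add h2
  rw [zero_add] at h3
  refine h3.congr fun N => ?_
  rw [av_sub, sub_add_cancel]

end Pool.Agent.Lib.MP_1db5af_an
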