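import Pool.Agent.Lib.MP_1db5af_an.Spec
import Pool.Agent.Lib.MP_1db5af_an.MeanErg
import Pool.Agent.Lib.MP_1db5af_an.Dense

set_option autoImplicit false

namespace Pool.Agent.Lib.MP_1db5af_an

open MeasureTheory Filter Topology ComplexConjugate Finset InnerProductSpace

/-- The mean square of a combination of distinct shifts tends to the diagonal sum. -/
theorem thma_sq {H : Type*} [NormedAddCommGroup H] [InnerProductSpace ℂ H] {a : ℕ → ℕ}
    (ha : Weyl a) (hm : Monotone a) (U : H →ₗᵢ[ℂ] H) {v : H}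
    (hv : Tendsto (av fun n => U^[n] v) atTop (𝓝 0)) (I : Finset ℕ) (q : ℕ → ℂ) (k : ℕ → ℕ)
    (hk : Set.InjOn k I) :
    Tendsto (av fun n => ‖∑ j ∈ I, q j • U^[a (n + k j)] v‖ ^ 2) atTop
      (𝓝 ((∑ j ∈ I, ‖q j‖ ^ 2) * ‖v‖ ^ 2)) := by
  classical
  have hn : ∀ r : ℕ, ‖U^[r] v‖ = ‖v‖ := fun r => by
    induction r with
    | zero => rfl
    | succ r ih => rw [Function.iterate_succ_apply', LinearIsometry.norm_map, ih]
  have h1 : ∀ i ∈ I, ∀ j ∈ I,
      Tendsto (av fun n => (conj (q i) * q j) * ⟪U^[a (n + k i)] v, U^[a (n + k j)] v⟫_ℂ) atTop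
        (𝓝 (if i = j then ((‖q i‖ ^ 2 * ‖v‖ ^ 2 : ℝ) : ℂ) else 0)) := by
    intro i hi j hj
    split_ifs with hij
    · subst hij
      have e : (fun n => (conj (q i) * q i) * ⟪U^[a (n + k i)] v, U^[a (n + k i)] v⟫_ℂ) =
          fun _ => ((‖q i‖ ^ 2 * ‖v‖ ^ 2 : ℝ) : ℂ) := by
        funext n
        rw [inner_self_eq_norm_sq_to_K, hn, Complex.conj_mul']
        push_cast
        rfl
      rw [e]
      exact tendsto_av_const _
    · have h2 := (hpair ha hm U hv hv (i := k i) (j := k j)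
        (fun e => hij (hk hi hj e))).const_mul (conj (q i) * q j)
      rw [mul_zero] at h2
      exact h2.congr fun N => (av_mul _ _ N).symm
  have h2 := tendsto_finsetSum I fun i hi => tendsto_finsetSum I fun j hj => h1 i hi j hj
  have h3 := (Complex.continuous_re.tendsto _).comp h2
  have e1 : (∑ i ∈ I, ∑ j ∈ I, if i = j then ((‖q i‖ ^ 2 * ‖v‖ ^ 2 : ℝ) : ℂ) else 0).re =
      (∑ j ∈ I, ‖q j‖ ^ 2) * ‖v‖ ^ 2 := by
    rw [sum_congr rfl fun i hi => by rw [sum_ite_eq, if_pos hi], ← Complex.ofReal_sum,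
      Complex.ofReal_re, sum_mul]
  rw [e1] at h3
  refine h3.congr fun N => ?_
  simp only [Function.comp_apply]
  have e2 : ∀ n, ‖∑ j ∈ I, q j • U^[a (n + k j)] v‖ ^ 2 = Complex.reCLM (∑ i ∈ I, ∑ j ∈ I,
      (conj (q i) * q j) * ⟪U^[a (n + k i)] v, U^[a (n + k j)] v⟫_ℂ) := fun n => by
    rw [← inner_self_eq_norm_sq (𝕜 := ℂ), sum_inner]
    simp only [inner_sum, inner_smul_left, inner_smul_right, Complex.reCLM_apply, RCLike.re_to_complex]
    congr 1
    exact sum_congr rfl fun i _ => sum_congr rfl fun j _ => by ring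
  simp only [e2]
  rw [av_map, av_sum]
  simp only [av_sum, Complex.reCLM_apply]

theorem thma_poly {H : Type*} [NormedAddCommGroup H] [InnerProductSpace ℂ H] {U : H →ₗᵢ[ℂ] H}
    {v : H} {σ : Measure UnitAddCircle} [IsFiniteMeasure σ] (h : IsSpec U v σ) (L M : ℕ)
    (q : ℕ → ℂ) :
    ‖U^[L] v - ∑ j ∈ range M, q j • U^[j] v‖ ^ 2 =
      ∫ θ, ‖fourier L θ - ∑ j ∈ range M, q j * fourier j θ‖ ^ 2 ∂σ := by
  have h1 := h.norm_sq (range (M + 1)) (fun l => if l = M then 1 else -q l)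
    (fun l => if l = M then L else l)
  have e1 : ∑ l ∈ range (M + 1), (if l = M then 1 else -q l) • U^[if l = M then L else l] v =
      U^[L] v - ∑ j ∈ range M, q j • U^[j] v := by
    rw [sum_range_succ, if_pos rfl, if_pos rfl, one_smul,
      sum_congr rfl fun l hl => by rw [if_neg (mem_range.1 hl).ne, if_neg (mem_range.1 hl).ne]]
    simp only [neg_smul, sum_neg_distrib]
    abel
  have e2 : ∀ θ : UnitAddCircle, ∑ l ∈ range (M + 1), (if l = M then 1 else -q l) *
      fourier ((if l = M then L else l : ℕ) : ℤ) θ =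
      fourier L θ - ∑ j ∈ range M, q j * fourier j θ := fun θ => by
    rw [sum_range_succ, if_pos rfl, if_pos rfl, one_mul,
      sum_congr rfl fun l hl => by rw [if_neg (mem_range.1 hl).ne, if_neg (mem_range.1 hl).ne]]
    simp only [neg_mul, sum_neg_distrib]
    abel
  simp only [e2] at h1
  rw [← h1, e1]

theorem thma_null {X : Type*} [MeasurableSpace X] {μ : Measure X} [IsProbabilityMeasure μ]
    {T S : X → X} (hT : MeasurePreserving T μ μ) (hS : MeasurePreserving S μ μ) {a : ℕ → ℕ}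
    (ha : Weyl a) (hm : Monotone a) {f g : X → ℂ} {C D : ℝ} (hC : 1 ≤ C) (hf : Bd μ C f)
    (hg : Bd μ D g) (hs : SingVec μ T f)
    (hv : Tendsto (av fun n => (Kp hS)^[n] (L2 μ g)) atTop (𝓝 0)) : Null μ T S a f g := by
  obtain ⟨σ, hσ, hσs, hσf⟩ := hs
  have hD : 0 ≤ D := hg.nonneg
  have hsp : IsSpec (Kp hT) (L2 μ f) σ := fun n => by
    rw [Kp_iter hT hf.memLp, inner_L2 hf.memLp (hf.iter hT n).memLp, hσf]
  set u : ℕ → ℕ → Lp ℂ 2 μ := fun p r => L2 μ fun x => f (T^[p] x) * g (S^[r] x) with hu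
  have hub : ∀ p r, Bd μ (C * D) fun x => f (T^[p] x) * g (S^[r] x) := fun p r =>
    (hf.iter hT p).mul (hg.iter hS r)
  have hun : ∀ p r, ‖u p r‖ ≤ C * D := fun p r => (hub p r).norm_L2
  refine tendsto_zero_of_forall fun ε hε => ?_
  have hK : 0 < D + C * (D + 1) := by positivity
  set η : ℝ := ε / (D + C * (D + 1)) with hη
  have hη0 : 0 < η := div_pos hε hK
  obtain ⟨L, M, q, hq1, hq2⟩ := exists_poly σ hσs (ε := η ^ 2) (by positivity)
  -- step 2
  have s2 : ∀ n r, ‖u (n + L) r - ∑ j ∈ range M, q j • u (n + j) r‖ ≤ D * η := by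
    intro n r
    set φ : X → ℂ := fun y => f (T^[L] y) - ∑ j ∈ range M, q j * f (T^[j] y) with hφ
    have m1 : ∀ j, MemLp (fun y => q j * f (T^[j] y)) 2 μ := fun j =>
      (hf.iter hT j).memLp.const_mul _
    have m2 : MemLp φ 2 μ := (hf.iter hT L).memLp.sub (memLp_finsetSum _ fun j _ => m1 j)
    have e1 : L2 μ φ = (Kp hT)^[L] (L2 μ f) - ∑ j ∈ range M, q j • (Kp hT)^[j] (L2 μ f) := by
      rw [hφ, L2_sub (hf.iter hT L).memLp (memLp_finsetSum _ fun j _ => m1 j),
        L2_sum _ fun j _ => m1 j, Kp_iter hT hf.memLp]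
      congr 1
      exact sum_congr rfl fun j _ => by rw [L2_mul _ (hf.iter hT j).memLp, Kp_iter hT hf.memLp]
    have e2 : ‖L2 μ φ‖ ≤ η := by
      refine le_of_sq_le_sq ?_ hη0.le
      rw [e1, thma_poly hsp]
      exact hq1
    have m3 : ∀ j, MemLp (fun x => q j * (f (T^[n + j] x) * g (S^[r] x))) 2 μ := fun j =>
      (hub _ _).memLp.const_mul _
    have e3 : u (n + L) r - ∑ j ∈ range M, q j • u (n + j) r =
        L2 μ fun x => g (S^[r] x) * φ (T^[n] x) := by
      have e4 : (fun x => g (S^[r] x) * φ (T^[n] x)) = fun x => f (T^[n + L] x) * g (S^[r] x) -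
          ∑ j ∈ range M, q j * (f (T^[n + j] x) * g (S^[r] x)) := by
        funext x
        simp only [hφ, add_comm n, Function.iterate_add_apply, mul_sub, mul_sum]
        congr 1
        · ring
        · exact sum_congr rfl fun j _ => by ring
      rw [e4, L2_sub (hub _ _).memLp (memLp_finsetSum _ fun j _ => m3 j),
        L2_sum _ fun j _ => m3 j]
      congr 1
      exact sum_congr rfl fun j _ => (L2_mul _ (hub _ _).memLp).symm
    rw [e3]
    refine ((hg.iter hS r).norm_L2_mul (m2.comp_measurePreserving (hT.iterate n))).trans ?_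
    have e5 := norm_L2_comp (hT.iterate n) m2
    exact mul_le_mul_of_nonneg_left (e5.le.trans e2) hD
  -- step 4
  set k : ℕ → ℕ := fun j => M - j + L with hk
  have s4 : ∀ n, ‖∑ j ∈ range M, q j • u (n + M) (a (n + k j))‖ ≤
      C * ‖∑ j ∈ range M, q j • (Kp hS)^[a (n + k j)] (L2 μ g)‖ := by
    intro n
    have m1 : ∀ j, MemLp (fun y => q j * g (S^[a (n + k j)] y)) 2 μ := fun j =>
      (hg.iter hS _).memLp.const_mul _
    have m3 : ∀ j, MemLp (fun x => q j * (f (T^[n + M] x) * g (S^[a (n + k j)] x))) 2 μ :=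
      fun j => (hub _ _).memLp.const_mul _
    have e1 : ∑ j ∈ range M, q j • (Kp hS)^[a (n + k j)] (L2 μ g) =
        L2 μ fun y => ∑ j ∈ range M, q j * g (S^[a (n + k j)] y) := by
      rw [L2_sum _ fun j _ => m1 j]
      exact sum_congr rfl fun j _ => by rw [L2_mul _ (hg.iter hS _).memLp, Kp_iter hS hg.memLp]
    have e2 : ∑ j ∈ range M, q j • u (n + M) (a (n + k j)) =
        L2 μ fun y => f (T^[n + M] y) * ∑ j ∈ range M, q j * g (S^[a (n + k j)] y) := by
      have e4 : (fun y => f (T^[n + M] y) * ∑ j ∈ range M, q j * g (S^[a (n + k j)] y)) =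
          fun y => ∑ j ∈ range M, q j * (f (T^[n + M] y) * g (S^[a (n + k j)] y)) := by
        funext y
        rw [mul_sum]
        exact sum_congr rfl fun j _ => by ring
      rw [e4, L2_sum _ fun j _ => m3 j]
      exact sum_congr rfl fun j _ => (L2_mul _ (hub _ _).memLp).symm
    rw [e1, e2]
    exact (hf.iter hT _).norm_L2_mul (memLp_finsetSum _ fun j _ => m1 j)
  have hinj : Set.InjOn k (range M : Finset ℕ) := by
    intro i hi j hj e
    have h1 : i < M := mem_range.1 (mem_coe.1 hi)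
    have h2 : j < M := mem_range.1 (mem_coe.1 hj)
    simp only [hk] at e
    omega
  have s5 := thma_sq ha hm (Kp hS) hv (range M) q k hinj
  have hlt : (∑ j ∈ range M, ‖q j‖ ^ 2) * ‖L2 μ g‖ ^ 2 < (η * (D + 1)) ^ 2 := by
    have h1 : ‖L2 μ g‖ ^ 2 ≤ D ^ 2 := pow_le_pow_left₀ (norm_nonneg _) hg.norm_L2 2
    calc _ ≤ η ^ 2 * D ^ 2 := mul_le_mul hq2 h1 (by positivity) (by positivity)
      _ < η ^ 2 * (D + 1) ^ 2 := by
        refine mul_lt_mul_of_pos_left ?_ (by positivity)
        nlinarith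
      _ = _ := by ring
  set A : ℕ → Lp ℂ 2 μ := av fun n => u n (a n) with hA
  set B : ℕ → Lp ℂ 2 μ := av fun n => u (n + L) (a (n + L)) with hB
  set P : ℕ → Lp ℂ 2 μ := av fun n => ∑ j ∈ range M, q j • u (n + j) (a (n + L)) with hP
  set Q : ℕ → Lp ℂ 2 μ := av fun n => ∑ j ∈ range M, q j • u (n + M) (a (n + k j)) with hQ
  have t1 : Tendsto (fun N => B N - A N) atTop (𝓝 0) :=
    av_shift (u := fun n => u n (a n)) (fun n => hun _ _) L
  have t2 : Tendsto (fun N => Q N - P N) atTop (𝓝 0) := by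
    have h1 := tendsto_finsetSum (range M) fun j (_ : j ∈ range M) =>
      (av_shift (u := fun n => u (n + j) (a (n + L))) (fun n => hun _ _) (M - j)).const_smul (q j)
    simp only [smul_zero, sum_const_zero] at h1
    refine h1.congr fun N => ?_
    rw [hQ, hP, av_sum, av_sum, ← sum_sub_distrib]
    refine sum_congr rfl fun j hj => ?_
    have h2 : j < M := mem_range.1 hj
    have h3 : ∀ w : ℕ → Lp ℂ 2 μ, av (fun n => q j • w n) N = q j • av w N := fun w => by
      simp only [av, ← smul_sum]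
      exact smul_comm _ _ _
    rw [h3, h3, ← smul_sub]
    congr 3
    funext n
    rw [show n + (M - j) + j = n + M by omega, show n + (M - j) + L = n + k j by
      simp only [hk]; omega]
  refine ⟨fun N => -(B N - A N) - (Q N - P N), by simpa using t1.neg.sub t2, ?_⟩
  filter_upwards [s5.eventually (gt_mem_nhds hlt)] with N hN
  have b1 : ‖B N - P N‖ ≤ D * η := by
    rw [hB, hP, ← av_sub]
    exact norm_av_le (fun n => s2 n _) N
  have b2 : ‖Q N‖ ≤ C * (η * (D + 1)) := by
    refine (norm_av_le_av _ N).trans ((av_mono fun n _ => s4 n).trans ?_)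
    rw [av_rmul]
    refine mul_le_mul_of_nonneg_left (le_of_sq_le_sq ?_ (by positivity)) (by linarith)
    exact (sq_av_le _ N).trans hN.le
  have e : A N - (-(B N - A N) - (Q N - P N)) = (B N - P N) + Q N := by abel
  change ‖A N - _‖ ≤ ε
  rw [e]
  refine (norm_add_le _ _).trans ((add_le_add b1 b2).trans (le_of_eq ?_))
  rw [hη]
  field_simp

theorem thmA {X : Type*} [MeasurableSpace X] {μ : Measure X} [IsProbabilityMeasure μ]
    {T S : X → X} (hT : MeasurePreserving T μ μ) (hS : MeasurePreserving S μ μ) {a : ℕ → ℕ}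
    (ha : Weyl a) (hm : Monotone a) {f g : X → ℂ} (hf : MemLp f ⊤ μ) (hg : MemLp g ⊤ μ)
    (hs : SingVec μ T f) : Conv μ T S a f g := by
  obtain ⟨C1, hC1, hf1⟩ := exists_Bd hf
  obtain ⟨C2, -, hg1⟩ := exists_Bd hg
  have hf2 : Bd μ (max C1 C2) f := hf1.mono (le_max_left _ _)
  have hg2 : Bd μ (max C1 C2) g := hg1.mono (le_max_right _ _)
  have hE : Bd μ (max C1 C2) (μ[g | MeasurableSpace.invariants S]) := hg2.condExp
  refine conv_of_null hT hS hf2 hg2
    (thma_null hT hS ha hm (hC1.trans (le_max_left _ _)) hf2 (hg2.sub hE) hs ?_)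
  have h1 := (mean_erg hS hg2.memLp).sub
    (tendsto_av_const (L2 μ (μ[g | MeasurableSpace.invariants S])))
  rw [sub_self] at h1
  refine h1.congr fun N => ?_
  rw [← av_sub]
  congr 1
  funext n
  rw [Kp_iter hS (hg2.sub hE).memLp, Kp_iter hS hg2.memLp]
  simp only [condExp_inv_iter]
  exact (L2_sub (hg2.iter hS n).memLp hE.memLp).symm

end Pool.Agent.Lib.MP_1db5af_an
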