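import Pool.Agent.Lib.MP_1db5af_an.Multi
import Pool.Agent.Lib.MP_1db5af_an.Tail
import Pool.Agent.Lib.MP_1db5af_an.Block

set_option autoImplicit false

namespace Pool.Agent.Lib.MP_1db5af_an

open MeasureTheory Filter Topology ComplexConjugate Finset InnerProductSpace

section aux

variable {X : Type*} [MeasurableSpace X] {μ : Measure X} [IsProbabilityMeasure μ]
  {T S : X → X}

omit [IsProbabilityMeasure μ] in
theorem thmb_bd {k : ℕ} {ζ : X → Fin k} (hζ : Measurable ζ) (φ : Fin k → ℂ) :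
    Bd μ (∑ i, ‖φ i‖) fun x => φ (ζ x) :=
  ⟨((measurable_of_countable φ).comp hζ).aestronglyMeasurable,
    Eventually.of_forall fun x =>
      single_le_sum (f := fun i => ‖φ i‖) (fun _ _ => norm_nonneg _) (mem_univ (ζ x))⟩

omit [IsProbabilityMeasure μ] in
theorem thmb_simple {f : X → ℂ} (hf : MemLp f 2 μ) {ε : ℝ} (hε : 0 < ε) :
    ∃ (k : ℕ) (ζ : X → Fin k) (φ : Fin k → ℂ), Measurable ζ ∧ MemLp (fun x => φ (ζ x)) 2 μ ∧
      ‖L2 μ f - L2 μ fun x => φ (ζ x)‖ ≤ ε := by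
  obtain ⟨g, hg1, hg2⟩ := hf.exists_simpleFunc_eLpNorm_sub_lt (by simp)
    (ε := ENNReal.ofReal ε) (by simpa using hε)
  let e := g.range.equivFin
  refine ⟨g.range.card, fun x => e ⟨g x, g.mem_range_self x⟩, fun i => (e.symm i : ℂ), ?_, ?_, ?_⟩
  · refine measurable_to_countable' fun y => ?_
    have : (fun x => e ⟨g x, g.mem_range_self x⟩) ⁻¹' {y} = g ⁻¹' {(e.symm y : ℂ)} := by
      ext x
      simp only [Set.mem_preimage, Set.mem_singleton_iff]
      constructor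
      · rintro rfl; simp
      · intro h
        rw [← e.apply_symm_apply y]
        congr 1
        exact Subtype.ext h
    rw [this]
    exact g.measurableSet_fiber _
  · simpa using hg2
  · simp only [Equiv.symm_apply_apply]
    have hg3 : MemLp (fun x => g x) 2 μ := hg2
    rw [← L2_sub hf hg3, ← ENNReal.ofReal_le_ofReal_iff hε.le,
      ofReal_norm_L2 (φ := fun x => f x - g x) (hf.sub hg3)]
    exact hg1.le

theorem thmb_null_right (hT : MeasurePreserving T μ μ) (hS : MeasurePreserving S μ μ)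
    {a : ℕ → ℕ} {f g : X → ℂ} {C : ℝ} (hf : Bd μ C f) (hg : MemLp g 2 μ)
    (h : ∀ ε : ℝ, 0 < ε → ∃ g' : X → ℂ, MemLp g' 2 μ ∧ ‖L2 μ g - L2 μ g'‖ ≤ ε ∧
      Null μ T S a f g') : Null μ T S a f g := by
  have hC := hf.nonneg
  refine tendsto_zero_of_forall fun ε hε => ?_
  obtain ⟨g', h1, h2, h3⟩ := h (ε / (C + 1)) (by positivity)
  refine ⟨_, h3, Eventually.of_forall fun N => ?_⟩
  rw [← av_sub]
  refine norm_av_le (fun n => ?_) N
  have e1 : MemLp (fun x => g (S^[a n] x)) 2 μ := hg.comp_measurePreserving (hS.iterate _)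
  have e2 : MemLp (fun x => g' (S^[a n] x)) 2 μ := h1.comp_measurePreserving (hS.iterate _)
  rw [← L2_sub ((hf.iter hT n).memLp_mul e1) ((hf.iter hT n).memLp_mul e2)]
  simp only [← mul_sub]
  refine ((hf.iter hT n).norm_L2_mul (e1.sub e2)).trans ?_
  have e3 := norm_L2_comp (hS.iterate (a n)) (hg.sub h1)
  have e4 : ‖L2 μ (g - g')‖ = ‖L2 μ g - L2 μ g'‖ := by rw [← L2_sub hg h1]; rfl
  have e5 : ‖L2 μ ((fun x => g (S^[a n] x)) - fun x => g' (S^[a n] x))‖ ≤ ε / (C + 1) := by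
    rw [← e4, ← e3] at h2
    exact h2
  calc _ ≤ (C + 1) * (ε / (C + 1)) := by gcongr; linarith
    _ = ε := by field_simp

theorem thmb_null_left (hT : MeasurePreserving T μ μ) (hS : MeasurePreserving S μ μ)
    {a : ℕ → ℕ} {f g : X → ℂ} {C : ℝ} (hg : Bd μ C g) (hf : MemLp f 2 μ)
    (h : ∀ ε : ℝ, 0 < ε → ∃ f' : X → ℂ, MemLp f' 2 μ ∧ ‖L2 μ f - L2 μ f'‖ ≤ ε ∧
      Null μ T S a f' g) : Null μ T S a f g := by
  have hC := hg.nonneg
  refine tendsto_zero_of_forall fun ε hε => ?_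
  obtain ⟨f', h1, h2, h3⟩ := h (ε / (C + 1)) (by positivity)
  refine ⟨_, h3, Eventually.of_forall fun N => ?_⟩
  rw [← av_sub]
  refine norm_av_le (fun n => ?_) N
  have e1 : MemLp (fun x => f (T^[n] x)) 2 μ := hf.comp_measurePreserving (hT.iterate _)
  have e2 : MemLp (fun x => f' (T^[n] x)) 2 μ := h1.comp_measurePreserving (hT.iterate _)
  simp only [mul_comm _ (g _)]
  rw [← L2_sub ((hg.iter hS (a n)).memLp_mul e1) ((hg.iter hS (a n)).memLp_mul e2)]
  simp only [← mul_sub]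
  refine ((hg.iter hS (a n)).norm_L2_mul (e1.sub e2)).trans ?_
  have e3 := norm_L2_comp (hT.iterate n) (hf.sub h1)
  have e4 : ‖L2 μ (f - f')‖ = ‖L2 μ f - L2 μ f'‖ := by rw [← L2_sub hf h1]; rfl
  have e5 : ‖L2 μ ((fun x => f (T^[n] x)) - fun x => f' (T^[n] x))‖ ≤ ε / (C + 1) := by
    rw [← e4, ← e3] at h2
    exact h2
  calc _ ≤ (C + 1) * (ε / (C + 1)) := by gcongr; linarith
    _ = ε := by field_simp

omit [IsProbabilityMeasure μ] in
theorem thmb_sing_congr (hS : MeasurePreserving S μ μ) {g h : X → ℂ} (e : g =ᵐ[μ] h)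
    (hh : SingVec μ S h) : SingVec μ S g := by
  obtain ⟨σ, h1, h2, h3⟩ := hh
  refine ⟨σ, h1, h2, fun n => ?_⟩
  rw [← h3 n]
  refine integral_congr_ae ?_
  filter_upwards [e, (hS.iterate n).quasiMeasurePreserving.ae e] with x e1 e2
  rw [e1, e2]

/-- Simple functions of mean zero are dense among the functions of mean zero. -/
theorem thmb_simple_zero {g : X → ℂ} (hg : MemLp g 2 μ) (h0 : ∫ x, g x ∂μ = 0) {ε : ℝ}
    (hε : 0 < ε) :
    ∃ (k : ℕ) (ξ : X → Fin k) (ψ : Fin k → ℂ), Measurable ξ ∧ ∫ x, ψ (ξ x) ∂μ = 0 ∧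
      ‖L2 μ g - L2 μ fun x => ψ (ξ x)‖ ≤ ε := by
  obtain ⟨k, ξ, ψ, h1, h2, h3⟩ := thmb_simple hg (half_pos hε)
  set c := ∫ x, ψ (ξ x) ∂μ with hc
  have hcm : MemLp (fun _ : X => c) 2 μ := (Bd.const c).memLp
  refine ⟨k, ξ, fun i => ψ i - c, h1, ?_, ?_⟩
  · rw [integral_sub (thmb_bd h1 ψ).integrable (integrable_const c)]
    simp [← hc]
  · have e1 : ‖c‖ ≤ ε / 2 := by
      have e2 := norm_integral_le_L2 (φ := fun x => g x - ψ (ξ x)) (hg.sub h2)
      rw [integral_sub (hg.integrable (by simp)) (thmb_bd h1 ψ).integrable, h0, zero_sub,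
        norm_neg, L2_sub hg h2] at e2
      exact e2.trans h3
    have e3 := (Bd.const (μ := μ) c).norm_L2
    rw [L2_sub h2 hcm, sub_sub_eq_add_sub, add_sub_right_comm]
    refine (norm_add_le _ _).trans ?_
    linarith

end aux

theorem thmB {X : Type*} [MeasurableSpace X] {μ : Measure X} [IsProbabilityMeasure μ]
    {T S : X → X} (hT : MeasurePreserving T μ μ) (hZ : ZeroEnt μ T) (hS : Ergodic S μ)
    (hsing : ∀ (k : ℕ) (ξ : X → Fin k), Measurable ξ → ∀ h : X → ℂ,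
      Measurable[tail S ξ] h → MemLp h ⊤ μ → SingVec μ S h)
    {a : ℕ → ℕ} (ha : Weyl a) (hm : Monotone a) (hG : Gap a) {f g : X → ℂ} (hf : MemLp f ⊤ μ)
    (hg : MemLp g ⊤ μ) : Conv μ T S a f g := by
  have hS' : MeasurePreserving S μ μ := hS.toMeasurePreserving
  have H : ∀ (k : ℕ) (ξ : X → Fin k), Measurable ξ →
      ∀ (J : Finset ℕ) (ψ : ℕ → Fin k → ℂ), Indep μ S a J fun j x => ψ j (ξ x) := by
    intro k ξ hξ
    refine indep_of_tail hS' hξ hm hG fun J g C hg => ?_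
    refine multi hS ha hm (tail_le hS'.measurable hξ) (measurable_tail S ξ) ?_ J g C hg
    intro u D hu hu'
    exact thmb_sing_congr hS' hu'.ae_eq_mk (hsing k ξ hξ _
      hu'.stronglyMeasurable_mk.measurable (hu.top.ae_eq hu'.ae_eq_mk))
  obtain ⟨C, _, hfC⟩ := exists_Bd hf
  obtain ⟨D, _, hgD⟩ := exists_Bd hg
  refine conv_of_null hT hS' (hfC.mono (le_max_left C D)) (hgD.mono (le_max_right C D)) ?_
  have hg0 : Bd μ (D + D) fun x => g x - (μ[g | MeasurableSpace.invariants S]) x :=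
    hgD.sub hgD.condExp
  have hm0 : ∫ x, (g x - (μ[g | MeasurableSpace.invariants S]) x) ∂μ = 0 := by
    rw [integral_sub hgD.integrable integrable_condExp,
      integral_condExp (MeasurableSpace.invariants_le S), sub_self]
  refine thmb_null_left hT hS' hg0 hfC.memLp fun ε hε => ?_
  obtain ⟨k, ζ, φ, h1, h2, h3⟩ := thmb_simple hfC.memLp hε
  refine ⟨_, h2, h3, thmb_null_right hT hS' (thmb_bd h1 φ) hg0.memLp fun δ hδ => ?_⟩
  obtain ⟨k', ξ, ψ, h4, h5, h6⟩ := thmb_simple_zero hg0.memLp hm0 hδ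
  exact ⟨_, (thmb_bd h4 ψ).memLp, h6, block hT hS' hZ h1 φ h4 ψ h5 (H k' ξ h4)⟩

end Pool.Agent.Lib.MP_1db5af_an
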