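import Pool.Agent.Lib.MP_1db5af_an.Defs

set_option autoImplicit false

namespace Pool.Agent.Lib.MP_1db5af_an

open MeasureTheory Filter Topology ComplexConjugate

/-- `u` is a generalised eigenfunction over `m`: it lies in the module over the bounded
`m`-measurable functions generated by finitely many bounded functions `φ i` that are orthonormal
relative to `m` and whose module is mapped into itself by `S`. -/
def GenEig {X : Type*} {m0 : MeasurableSpace X} (μ : Measure X) (S : X → X)
    (m : MeasurableSpace X) (u : X → ℂ) : Prop :=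
  ∃ (r : ℕ) (φ h : Fin r → X → ℂ) (U : Fin r → Fin r → X → ℂ),
    (∀ i, MemLp (φ i) ⊤ μ) ∧ (∀ i, Measurable[m] (h i) ∧ MemLp (h i) ⊤ μ) ∧
    (∀ i j, Measurable[m] (U i j) ∧ MemLp (U i j) ⊤ μ) ∧
    (∀ i j, μ[fun x => φ i x * conj (φ j x) | m] =ᵐ[μ] fun _ => if i = j then 1 else 0) ∧
    (∀ i, (fun x => φ i (S x)) =ᵐ[μ] fun x => ∑ j, U i j x * φ j x) ∧
    u =ᵐ[μ] fun x => ∑ i, h i x * φ i x

/-- `g` is a limit in `L²` of finite sums of functions with the property `P`. -/
def Spanned {X : Type*} {m0 : MeasurableSpace X} (μ : Measure X) (P : (X → ℂ) → Prop)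
    (g : X → ℂ) : Prop :=
  ∀ ε : ℝ, 0 < ε → ∃ (n : ℕ) (u : Fin n → X → ℂ), (∀ l, P (u l)) ∧
    eLpNorm (fun x => g x - ∑ l, u l x) 2 μ ≤ ENNReal.ofReal ε

/-- Pairwise mixing controls multiple mixing for `m'` relative to `m`: in a multiple correlation
of bounded `m'`-measurable functions each function may be replaced by its conditional expectation
on `m`, up to a small error, as soon as the differences of the times are large and the Fourier
coefficients of some atomless measure are small at these differences. -/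
def RelMix {X : Type*} {m0 : MeasurableSpace X} (μ : Measure X) (S : X → X)
    (m m' : MeasurableSpace X) : Prop :=
  ∀ (J : Finset ℕ) (g : ℕ → X → ℂ), (∀ j ∈ J, Measurable[m'] (g j) ∧ MemLp (g j) ⊤ μ) →
    ∀ ε : ℝ, 0 < ε → ∃ (σ : Measure UnitAddCircle) (L : ℕ) (η : ℝ), IsFiniteMeasure σ ∧
      (∀ t, σ {t} = 0) ∧ 0 < η ∧ ∀ p : ℕ → ℕ, (∀ i ∈ J, ∀ j ∈ J, i < j → p i + L ≤ p j ∧
        ‖∫ θ, fourier ((p j - p i : ℕ) : ℤ) θ ∂σ‖ ≤ η) →
      ‖∫ x, ∏ j ∈ J, g j (S^[p j] x) ∂μ - ∫ x, ∏ j ∈ J, (μ[g j | m]) (S^[p j] x) ∂μ‖ ≤ ε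

/-- The σ-algebras that are reached from the trivial one by isometric or singular extensions,
extensions with `RelMix`, tail extensions and directed unions. -/
inductive Tower {X : Type*} {m0 : MeasurableSpace X} (μ : Measure X) (S : X → X) :
    MeasurableSpace X → Prop
  | bot : Tower μ S ⊥
  | ext (m m' : MeasurableSpace X) : Tower μ S m → Measurable[m, m] S → m' ≤ m0 →
      Measurable[m', m'] S →
      (∀ g : X → ℂ, Measurable[m'] g → MemLp g ⊤ μ → Spanned μ
        (fun u => Measurable[m'] u ∧ MemLp u ⊤ μ ∧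
          (GenEig μ S m u ∨ @SingVec X m0 μ S u)) g) → Tower μ S m'
  | mix (m m' : MeasurableSpace X) : Tower μ S m → m' ≤ m0 → RelMix μ S m m' →
      Tower μ S m'
  | tail (m' : MeasurableSpace X) : m' ≤ m0 →
      (∀ (k : ℕ) (ξ : X → Fin k), Measurable[m'] ξ → Tower μ S (tail S ξ)) → Tower μ S m'
  | lim (A : Set (MeasurableSpace X)) : A.Nonempty → DirectedOn (· ≤ ·) A →
      (∀ m ∈ A, Tower μ S m) → Tower μ S (sSup A)

end Pool.Agent.Lib.MP_1db5af_an
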