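import Pool.Agent.Lib.MP_1db5af_an.ThmB
import Pool.Agent.Lib.MP_1db5af_an.TwDefs

set_option autoImplicit false

namespace Pool.Agent.Lib.MP_1db5af_an

open MeasureTheory Filter Topology ComplexConjugate Finset InnerProductSpace

/-- Asymptotic independence for all bounded `m`-measurable functions. -/
def JE {X : Type*} {m0 : MeasurableSpace X} (μ : Measure X) (S : X → X) (a : ℕ → ℕ)
    (m : MeasurableSpace X) : Prop :=
  ∀ (J : Finset ℕ) (g : ℕ → X → ℂ) (C : ℝ),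
    (∀ j ∈ J, @Bd X m0 μ C (g j) ∧ AEStronglyMeasurable[m] (g j) μ) → @Indep X m0 μ S a J g

variable {X : Type*} {m : MeasurableSpace X} [m0 : MeasurableSpace X] {μ : Measure X}
  [IsProbabilityMeasure μ] {S : X → X} {a : ℕ → ℕ} {C : ℝ}

omit [IsProbabilityMeasure μ] in
theorem tw_cor_congr (hS : MeasurePreserving S μ μ) {J : Finset ℕ} {g g' : ℕ → X → ℂ}
    (h : ∀ j ∈ J, g j =ᵐ[μ] g' j) : cor μ S a J g = cor μ S a J g' := by
  unfold cor
  congr 1
  funext n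
  refine integral_congr_ae ?_
  filter_upwards [(ae_ball_iff J.countable_toSet).2
    fun j hj => (hS.iterate (a (n + j))).quasiMeasurePreserving.ae (h j hj)] with x hx
  exact prod_congr rfl hx

omit [IsProbabilityMeasure μ] in
theorem tw_indep_congr (hS : MeasurePreserving S μ μ) {J : Finset ℕ} {g g' : ℕ → X → ℂ}
    (h : ∀ j ∈ J, g j =ᵐ[μ] g' j) (H : Indep μ S a J g') : Indep μ S a J g := by
  unfold Indep
  rw [tw_cor_congr hS h, prod_congr rfl fun j hj => integral_congr_ae (h j hj)]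
  exact H

omit [IsProbabilityMeasure μ] in
theorem tw_prod_update {J : Finset ℕ} (g : ℕ → X → ℂ) {i : ℕ} (hi : i ∈ J) (φ : X → ℂ) :
    ∏ j ∈ J, ∫ x, Function.update g i φ j x ∂μ =
      (∏ j ∈ J.erase i, ∫ x, g j x ∂μ) * ∫ x, φ x ∂μ := by
  rw [← prod_erase_mul J _ hi, Function.update_self]
  congr 1
  exact prod_congr rfl fun j hj => by rw [Function.update_of_ne (ne_of_mem_erase hj)]

theorem tw_norm_prod_erase {J : Finset ℕ} {g : ℕ → X → ℂ} (hg : ∀ j ∈ J, Bd μ C (g j)) {i : ℕ}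
    (hi : i ∈ J) : ‖∏ j ∈ J.erase i, ∫ x, g j x ∂μ‖ ≤ C ^ (J.card - 1) := by
  rw [norm_prod, ← card_erase_of_mem hi, ← prod_const]
  exact prod_le_prod (fun _ _ => norm_nonneg _) fun j hj =>
    (hg j (mem_of_mem_erase hj)).norm_integral

theorem tw_indep_sum (hS : MeasurePreserving S μ μ) {J : Finset ℕ} {g : ℕ → X → ℂ}
    (hg : ∀ j ∈ J, Bd μ C (g j)) {i : ℕ} (hi : i ∈ J) {ι : Type*} (I : Finset ι)
    {φ : ι → X → ℂ} {D : ℝ} (hφ : ∀ l ∈ I, Bd μ D (φ l))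
    (H : ∀ l ∈ I, Indep μ S a J (Function.update g i (φ l))) :
    Indep μ S a J (Function.update g i fun x => ∑ l ∈ I, φ l x) := by
  have h1 := tendsto_finsetSum I H
  simp only [tw_prod_update g hi] at h1
  unfold Indep
  rw [tw_prod_update g hi, integral_finsetSum _ fun l hl => (hφ l hl).integrable, mul_sum]
  refine h1.congr fun N => ?_
  have h2 := cor_update_sum (a := a) hS hg hi I (fun _ => 1) hφ N
  simp only [one_mul] at h2
  exact h2.symm

theorem tw_indep_lim (hS : MeasurePreserving S μ μ) {J : Finset ℕ} {g : ℕ → X → ℂ}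
    (hg : ∀ j ∈ J, Bd μ C (g j)) {i : ℕ} (hi : i ∈ J)
    (H : ∀ ε : ℝ, 0 < ε → ∃ (ψ : X → ℂ) (D : ℝ), Bd μ D ψ ∧ ‖L2 μ (g i) - L2 μ ψ‖ ≤ ε ∧
      Indep μ S a J (Function.update g i ψ)) : Indep μ S a J g := by
  have hC : 0 ≤ C := (hg i hi).nonneg
  have hK : 0 < C ^ (J.card - 1) + 1 := by positivity
  unfold Indep
  rw [← tendsto_sub_nhds_zero_iff]
  refine tendsto_zero_of_forall fun ε hε => ?_
  obtain ⟨ψ, D, h1, h2, h3⟩ := H (ε / (2 * (C ^ (J.card - 1) + 1))) (by positivity)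
  refine ⟨_, tendsto_sub_nhds_zero_iff.2 h3, Eventually.of_forall fun N => ?_⟩
  have e1 := cor_update_lip (a := a) hS hg hi ((hg i hi).mono (le_max_left C D))
    (h1.mono (le_max_right C D)) N
  rw [Function.update_eq_self] at e1
  have e2 : ‖∏ j ∈ J, ∫ x, g j x ∂μ - ∏ j ∈ J, ∫ x, Function.update g i ψ j x ∂μ‖ ≤
      C ^ (J.card - 1) * ‖L2 μ (g i) - L2 μ ψ‖ := by
    have e3 := tw_prod_update (μ := μ) g hi (g i)
    rw [Function.update_eq_self] at e3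
    rw [e3, tw_prod_update g hi, ← mul_sub, norm_mul,
      ← integral_sub (hg i hi).integrable h1.integrable, ← L2_sub (hg i hi).memLp h1.memLp]
    exact mul_le_mul (tw_norm_prod_erase hg hi) (norm_integral_le_L2 ((hg i hi).sub h1).memLp)
      (norm_nonneg _) (by positivity)
  have e4 : C ^ (J.card - 1) * ‖L2 μ (g i) - L2 μ ψ‖ ≤ ε / 2 := by
    calc _ ≤ (C ^ (J.card - 1) + 1) * (ε / (2 * (C ^ (J.card - 1) + 1))) :=
          mul_le_mul (by linarith) h2 (norm_nonneg _) hK.le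
      _ = ε / 2 := by field_simp
  calc _ = ‖(cor μ S a J g N - cor μ S a J (Function.update g i ψ) N) -
        (∏ j ∈ J, ∫ x, g j x ∂μ - ∏ j ∈ J, ∫ x, Function.update g i ψ j x ∂μ)‖ := by
        congr 1; ring
    _ ≤ _ := (norm_sub_le _ _).trans (by linarith)

omit [IsProbabilityMeasure μ] in
theorem tw_bd_update {J : Finset ℕ} {g : ℕ → X → ℂ} (hg : ∀ j ∈ J, Bd μ C (g j)) (i : ℕ)
    {ψ : X → ℂ} {D : ℝ} (hψ : Bd μ D ψ) :
    ∀ j ∈ J, Bd μ (max C D) (Function.update g i ψ j) := by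
  intro j hj
  by_cases h : j = i
  · subst h; rw [Function.update_self]; exact hψ.mono (le_max_right _ _)
  · rw [Function.update_of_ne h]; exact (hg j hj).mono (le_max_left _ _)

/-- Approximation by finite sums of bounded functions with property `P`. -/
def Appr (μ : Measure X) (P : (X → ℂ) → Prop) (g : X → ℂ) : Prop :=
  ∀ ε : ℝ, 0 < ε → ∃ (n : ℕ) (u : Fin n → X → ℂ) (D : ℝ), (∀ l, Bd μ D (u l) ∧ P (u l)) ∧
    ‖L2 μ g - L2 μ fun x => ∑ l, u l x‖ ≤ ε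

theorem tw_indep_appr (hS : MeasurePreserving S μ μ) {J : Finset ℕ} {P : (X → ℂ) → Prop}
    (H : ∀ (g : ℕ → X → ℂ) (C : ℝ), (∀ j ∈ J, Bd μ C (g j) ∧ P (g j)) → Indep μ S a J g)
    {g : ℕ → X → ℂ} (hg : ∀ j ∈ J, Bd μ C (g j) ∧ Appr μ P (g j)) : Indep μ S a J g := by
  classical
  suffices h : ∀ (R : Finset ℕ) (g : ℕ → X → ℂ) (C : ℝ), (∀ j ∈ J, Bd μ C (g j)) →
      (∀ j ∈ J, j ∈ R → Appr μ P (g j)) → (∀ j ∈ J, j ∉ R → P (g j)) → Indep μ S a J g from
    h J g C (fun j hj => (hg j hj).1) (fun j hj _ => (hg j hj).2) fun j hj h => absurd hj h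
  intro R
  induction R using Finset.induction_on with
  | empty => exact fun g C h1 _ h3 => H g C fun j hj => ⟨h1 j hj, h3 j hj (notMem_empty j)⟩
  | insert i R hiR ih =>
    intro g C h1 h2 h3
    by_cases hi : i ∈ J
    swap
    · exact ih g C h1 (fun j hj h => h2 j hj (mem_insert_of_mem h)) fun j hj h =>
        h3 j hj fun h' => (mem_insert.1 h').elim (fun e => hi (e ▸ hj)) h
    refine tw_indep_lim hS h1 hi fun ε hε => ?_
    obtain ⟨n, u, D, hu, hε'⟩ := h2 i hi (mem_insert_self _ _) ε hε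
    refine ⟨_, _, Bd.sum univ fun l _ => (hu l).1, hε',
      tw_indep_sum hS h1 hi univ (fun l _ => (hu l).1) fun l _ => ?_⟩
    refine ih _ _ (tw_bd_update h1 i (hu l).1) (fun j hj h => ?_) fun j hj h => ?_
    · have e : j ≠ i := fun e => hiR (e ▸ h)
      rw [Function.update_of_ne e]
      exact h2 j hj (mem_insert_of_mem h)
    · by_cases e : j = i
      · subst e; rw [Function.update_self]; exact (hu l).2
      · rw [Function.update_of_ne e]
        exact h3 j hj fun h' => (mem_insert.1 h').elim e h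

omit [IsProbabilityMeasure μ] in
theorem tw_appr_one {P : (X → ℂ) → Prop} {g : X → ℂ}
    (h : ∀ ε : ℝ, 0 < ε → ∃ (u : X → ℂ) (D : ℝ), Bd μ D u ∧ P u ∧ ‖L2 μ g - L2 μ u‖ ≤ ε) :
    Appr μ P g := by
  intro ε hε
  obtain ⟨u, D, h1, h2, h3⟩ := h ε hε
  exact ⟨1, fun _ => u, D, fun _ => ⟨h1, h2⟩, by simpa using h3⟩

theorem tw_appr_of_spanned {P : (X → ℂ) → Prop} {g g' : X → ℂ} (hg : Bd μ C g)
    (e : g =ᵐ[μ] g') (hP : ∀ u, P u → MemLp u ⊤ μ) (h : Spanned μ P g') : Appr μ P g := by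
  intro ε hε
  obtain ⟨n, u, h1, h2⟩ := h ε hε
  choose D hD using fun l => exists_Bd (hP _ (h1 l))
  have hb : ∀ l, Bd μ (∑ l, D l) (u l) := fun l => (hD l).2.mono
    (single_le_sum (f := D) (fun l _ => zero_le_one.trans (hD l).1) (mem_univ l))
  have hs := Bd.sum (μ := μ) univ fun l _ => hb l
  refine ⟨n, u, _, fun l => ⟨hb l, h1 l⟩, ?_⟩
  rw [L2_congr e, ← L2_sub (hg.congr e).memLp hs.memLp, ← ENNReal.ofReal_le_ofReal_iff hε.le,
    ofReal_norm_L2 ((hg.congr e).sub hs).memLp]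
  exact h2

/-- Simple functions measurable for a smaller σ-algebra. -/
theorem tw_simple (hm : m ≤ m0) {g : X → ℂ} (hg : Bd μ C g) (hgm : AEStronglyMeasurable[m] g μ)
    {ε : ℝ} (hε : 0 < ε) : ∃ (k : ℕ) (ξ : X → Fin k) (ψ : Fin k → ℂ), Measurable[m] ξ ∧
      ‖L2 μ g - L2 μ fun x => ψ (ξ x)‖ ≤ ε := by
  have h1 : StronglyMeasurable[m] (hgm.mk g) := hgm.stronglyMeasurable_mk
  have h2 : MemLp (hgm.mk g) 2 μ := (hg.congr hgm.ae_eq_mk).memLp
  have h3 : MemLp (hgm.mk g) 2 (μ.trim hm) := ⟨h1.aestronglyMeasurable, (eLpNorm_trim hm h1).trans_lt h2.2⟩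
  obtain ⟨k, ξ, ψ, h4, h5, h6⟩ := @thmb_simple X m (μ.trim hm) _ h3 ε hε
  refine ⟨k, ξ, ψ, h4, ?_⟩
  have h7 : StronglyMeasurable[m] fun x => ψ (ξ x) :=
    ((measurable_of_countable ψ).comp h4).stronglyMeasurable
  have h8 : Bd μ (∑ i, ‖ψ i‖) fun x => ψ (ξ x) := thmb_bd (h4.mono hm le_rfl) ψ
  rw [← @L2_sub X m (μ.trim hm) _ _ h3 h5, ← ENNReal.ofReal_le_ofReal_iff hε.le,
    @ofReal_norm_L2 X m (μ.trim hm) (fun x => hgm.mk g x - ψ (ξ x)) (h3.sub h5),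
    eLpNorm_trim hm (f := fun x => hgm.mk g x - ψ (ξ x)) (h1.sub h7)] at h6
  rw [L2_congr hgm.ae_eq_mk, ← L2_sub h2 h8.memLp, ← ENNReal.ofReal_le_ofReal_iff hε.le,
    ofReal_norm_L2 (φ := fun x => hgm.mk g x - ψ (ξ x)) (h2.sub h8.memLp)]
  exact h6

end Pool.Agent.Lib.MP_1db5af_an
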