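import Pool.Agent.Lib.MP_1db5af_an.TwBase

set_option autoImplicit false

namespace Pool.Agent.Lib.MP_1db5af_an

open MeasureTheory Filter Topology ComplexConjugate Finset InnerProductSpace

variable {X : Type*} {m : MeasurableSpace X} [m0 : MeasurableSpace X] {μ : Measure X}
  [IsProbabilityMeasure μ] {S : X → X} {a : ℕ → ℕ} {C : ℝ}

theorem tw_one (hS : Ergodic S μ) (ha : Weyl a) {J : Finset ℕ} {g : ℕ → X → ℂ}
    (hg : ∀ j ∈ J, Bd μ C (g j)) {i : ℕ} (hi : i ∈ J)
    (he : ∀ j ∈ J.erase i, ∃ θ : UnitAddCircle,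
      (fun x => g j (S x)) =ᵐ[μ] fun x => fourier 1 θ * g j x) : Indep μ S a J g := by
  classical
  choose! θ hθ using he
  have hS' := hS.toMeasurePreserving
  have hf : ∀ (p : ℕ) (A : Finset ℕ), fourier p (∑ j ∈ A, θ j) = ∏ j ∈ A, fourier p (θ j) := by
    intro p A
    induction A using Finset.induction_on with
    | empty => simp
    | insert j A hj ih => rw [sum_insert hj, prod_insert hj, spec_fourier_arg_add, ih]
  set θ' := Function.update θ i (-∑ j ∈ J.erase i, θ j) with hθ'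
  have h1 : ∀ n, ∫ x, ∏ j ∈ J, g j (S^[a (n + j)] x) ∂μ =
      (∫ x, ∏ j ∈ J, g j x ∂μ) * ∏ j ∈ J, fourier (a (n + j)) (θ' j) := fun n => by
    rw [← integral_iter hS' (Bd.prod J hg).1 (a (n + i)), ← integral_mul_const]
    refine integral_congr_ae ?_
    filter_upwards [(ae_ball_iff (J.erase i).countable_toSet).2
      fun j hj => multia_eigen_iter hS' (hθ j hj) (a (n + j)),
      (ae_ball_iff (J.erase i).countable_toSet).2
      fun j hj => multia_eigen_iter hS' (hθ j hj) (a (n + i))] with x hx hx'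
    have e1 : ∏ j ∈ J.erase i, fourier (a (n + j)) (θ' j) =
        ∏ j ∈ J.erase i, fourier (a (n + j)) (θ j) := prod_congr rfl fun j hj => by
      rw [hθ', Function.update_of_ne (ne_of_mem_erase hj)]
    have e2 : fourier (a (n + i)) (θ' i) * ∏ j ∈ J.erase i, fourier (a (n + i)) (θ j) = 1 := by
      rw [hθ', Function.update_self, ← hf, ← spec_fourier_arg_add, neg_add_cancel,
        fourier_eval_zero]
    rw [← mul_prod_erase J _ hi, ← mul_prod_erase J _ hi, ← mul_prod_erase J _ hi,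
      prod_congr rfl hx, prod_congr rfl hx', prod_mul_distrib, prod_mul_distrib, e1]
    linear_combination (-(g i (S^[a (n + i)] x) * (∏ j ∈ J.erase i, g j x) *
      ∏ j ∈ J.erase i, fourier (a (n + j)) (θ j))) * e2
  unfold Indep cor
  simp only [h1]
  by_cases h : ∃ j ∈ J.erase i, θ j ≠ 0
  · obtain ⟨j, hj, h2⟩ := h
    rw [prod_eq_zero (mem_of_mem_erase hj)
      (multia_eigen_zero hS' (hg j (mem_of_mem_erase hj)).1 h2 (hθ j hj))]
    have h3 := (ha J θ' ⟨j, mem_of_mem_erase hj, by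
      rwa [hθ', Function.update_of_ne (ne_of_mem_erase hj)]⟩).const_mul (∫ x, ∏ j ∈ J, g j x ∂μ)
    rw [mul_zero] at h3
    exact h3.congr fun N => (av_mul _ _ N).symm
  · have h2 : ∀ j ∈ J.erase i, θ j = 0 := fun j hj => by_contra fun h3 => h ⟨j, hj, h3⟩
    have h3 : ∀ j ∈ J.erase i, ∃ c, g j =ᵐ[μ] Function.const X c := fun j hj => by
      refine hS.ae_eq_const_of_ae_eq_comp_ae (hg j (mem_of_mem_erase hj)).1 ?_
      filter_upwards [hθ j hj] with x hx
      rw [Function.comp_apply, hx, h2 j hj, fourier_eval_zero, one_mul]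
    choose! c hc using h3
    have h4 : ∫ x, ∏ j ∈ J, g j x ∂μ = ∏ j ∈ J, ∫ x, g j x ∂μ := by
      have h5 : (fun x => ∏ j ∈ J, g j x) =ᵐ[μ] fun x => g i x * ∏ j ∈ J.erase i, c j := by
        filter_upwards [(ae_ball_iff (J.erase i).countable_toSet).2 hc] with x hx
        rw [← mul_prod_erase J _ hi, prod_congr rfl hx]
        rfl
      rw [integral_congr_ae h5, integral_mul_const, ← mul_prod_erase J _ hi]
      congr 1
      refine prod_congr rfl fun j hj => ?_
      rw [integral_congr_ae (hc j hj)]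
      simp
    have h6 : ∀ n, ∏ j ∈ J, fourier (a (n + j)) (θ' j) = 1 := fun n =>
      prod_eq_one fun j hj => by
        by_cases e : j = i
        · subst e
          rw [hθ', Function.update_self, sum_eq_zero h2, neg_zero, fourier_eval_zero]
        · rw [hθ', Function.update_of_ne e, h2 j (mem_erase.2 ⟨e, hj⟩), fourier_eval_zero]
    simp only [h6, h4, mul_one]
    exact tendsto_av_const _

theorem tw_step (hS : MeasurePreserving S μ μ) (hm : m ≤ m0) (hSm : Measurable[m, m] S)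
    {J : Finset ℕ} (hJ : 2 < J.card) {g : ℕ → X → ℂ}
    (hg : ∀ j ∈ J, Bd μ C (g j) ∧ AEStronglyMeasurable[m] (g j) μ) {i : ℕ} (hi : i ∈ J)
    (h0 : ∫ x, g i x ∂μ = 0) {i₂ : ℕ} (hi₂ : i₂ ∈ J) (hne : i₂ ≠ i) (hsing : SingVec μ S (g i₂))
    (IH1 : ∀ J' ⊂ J, ∀ (g' : ℕ → X → ℂ) (C' : ℝ),
      (∀ j ∈ J', Bd μ C' (g' j) ∧ AEStronglyMeasurable[m] (g' j) μ) → Indep μ S a J' g')
    (IH2 : ∀ p : X → ℂ, Bd μ C p → AEStronglyMeasurable[m] p μ →
      (∃ θ : UnitAddCircle, (fun x => p (S x)) =ᵐ[μ] fun x => fourier 1 θ * p x) →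
      Indep μ S a J (Function.update g i p)) :
    Tendsto (cor μ S a J g) atTop (𝓝 0) := by
  classical
  have hg1 : ∀ j ∈ J, Bd μ C (g j) := fun j hj => (hg j hj).1
  have hC : 0 ≤ C := (hg1 i hi).nonneg
  obtain ⟨D, hD⟩ : ∃ D, D = (J.erase i).erase i₂ := ⟨_, rfl⟩
  have hDm : ∀ j, j ∈ D ↔ j ∈ J ∧ j ≠ i ∧ j ≠ i₂ := by
    intro j; rw [hD]; simp only [mem_erase]; tauto
  obtain ⟨i₃, hi₃⟩ : D.Nonempty := by
    rw [← card_pos, hD, card_erase_of_mem (mem_erase.2 ⟨hne, hi₂⟩), card_erase_of_mem hi]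
    omega
  obtain ⟨e, he⟩ : ∃ e : ℕ → ℕ → ℕ → ℕ → ℕ,
      e = fun p q d j => if j = i then p else if j = i₂ then q else d := ⟨_, rfl⟩
  have e1 : ∀ p q d, ∀ j ∈ ({i} : Finset ℕ), e p q d j = p := by
    intro p q d j hj; rw [he]; simp [mem_singleton.1 hj]
  have e2 : ∀ p q d, ∀ j ∈ ({i₂} : Finset ℕ), e p q d j = q := by
    intro p q d j hj; rw [he]; simp [mem_singleton.1 hj, hne]
  have e3 : ∀ p q d, ∀ j ∈ D, e p q d j = d := by
    intro p q d j hj; rw [he]; simp [((hDm j).1 hj).2.1, ((hDm j).1 hj).2.2]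
  refine (tendsto_iff_ultrafilter _ _ _).2 fun 𝒰 h𝒰 => ?_
  have hlim : ∀ p q d, ∃ z, Tendsto (cor μ S a J fun j x => g j (S^[e p q d j] x)) 𝒰 (𝓝 z) := by
    intro p q d
    obtain ⟨z, -, hz⟩ := (isCompact_closedBall (0 : ℂ) (C ^ J.card)).ultrafilter_le_nhds
      (𝒰.map (cor μ S a J fun j x => g j (S^[e p q d j] x))) (by
        rw [Ultrafilter.coe_map, le_principal_iff, Filter.mem_map]
        exact Eventually.of_forall fun N => mem_closedBall_zero_iff.2
          (norm_cor_le hS (fun j hj => (hg1 j hj).iter hS _) N))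
    exact ⟨z, hz⟩
  choose c hc using hlim
  obtain ⟨σ₁, f1, hσ₁⟩ := multi_cor hS {i} (g := g) (C := C) (by simpa using hg1 i hi)
  obtain ⟨σ₂, f2, hs, hσ₂⟩ := multi_sing hS (hg1 i₂ hi₂) hsing
  obtain ⟨σ₃, f3, hσ₃⟩ := multi_cor hS D (g := g) (C := C) fun j hj => hg1 j ((hDm j).1 hj).1
  have hσ₂' : IsCor (fun p p' => ∏ j ∈ ({i₂} : Finset ℕ),
      ∫ x, g j (S^[p] x) * conj (g j (S^[p'] x)) ∂μ) σ₂ := by simpa using hσ₂
  have key : ∀ (A B E : Finset ℕ) (σ σ' : Measure UnitAddCircle) [IsFiniteMeasure σ]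
      [IsFiniteMeasure σ'], Disjoint A B → Disjoint (A ∪ B) E → A ∪ B ∪ E = J → E.Nonempty →
      C ^ (2 * E.card) ≤ C ^ (2 * D.card) + C ^ 2 →
      IsCor (fun p p' => ∏ j ∈ A, ∫ x, g j (S^[p] x) * conj (g j (S^[p'] x)) ∂μ) σ →
      IsCor (fun p p' => ∏ j ∈ B, ∫ x, g j (S^[p] x) * conj (g j (S^[p'] x)) ∂μ) σ' →
      ∀ (I : Finset (ℤ × ℤ)) (q : ℤ × ℤ → ℂ) (n n' : ℤ × ℤ → ℕ) (d : ℕ) (P Q R : ℤ × ℤ → ℕ),
      (∀ l, ∀ j ∈ A, e (P l) (Q l) (R l) j = n l) → (∀ l, ∀ j ∈ B, e (P l) (Q l) (R l) j = n' l) →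
      (∀ l, ∀ j ∈ E, e (P l) (Q l) (R l) j = d) →
      ‖∑ l ∈ I, q l * c (P l) (Q l) (R l)‖ ^ 2 ≤ (C ^ (2 * D.card) + C ^ 2) *
        ∫ p, ‖∑ l ∈ I, q l * (fourier (n l) p.1 * fourier (n' l) p.2)‖ ^ 2 ∂(σ.prod σ') := by
    intro A B E σ σ' _ _ hAB hE hU hEn hCE hA hB I q n n' d P Q R h1 h2 h3
    have hsub : A ∪ B ⊂ J := by
      rw [← hU]
      refine (ssubset_iff_of_subset subset_union_left).2 ?_
      obtain ⟨j, hj⟩ := hEn
      exact ⟨j, mem_union_right _ hj, disjoint_right.1 hE hj⟩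
    obtain ⟨w, hw, hw1⟩ := cs_bound (a := a) hS hAB hE (g := g) (C := C) (hU ▸ hg1) hA hB
      (fun s s' => IH1 _ hsub _ (C * C) fun j hj =>
        ⟨((hg1 j (hsub.1 hj)).iter hS _).mul ((hg1 j (hsub.1 hj)).iter hS _).star,
          (aesm_iter hS hSm (hg j (hsub.1 hj)).2 _).mul
            (Complex.continuous_conj.comp_aestronglyMeasurable
              (aesm_iter hS hSm (hg j (hsub.1 hj)).2 _))⟩)
      I q n n' d (fun l => e (P l) (Q l) (R l)) h1 h2 h3
    rw [hU] at hw1
    have h4 := (tendsto_finsetSum I fun l _ => (hc (P l) (Q l) (R l)).const_mul (q l)).norm.pow 2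
    refine (le_of_tendsto_of_tendsto' h4 (hw.mono_left h𝒰) hw1).trans ?_
    exact mul_le_mul_of_nonneg_right hCE (integral_nonneg fun _ => sq_nonneg _)
  have d1 : Disjoint ({i} : Finset ℕ) {i₂} := by simpa using hne.symm
  have d2 : i ∉ D := fun h => ((hDm i).1 h).2.1 rfl
  have d3 : i₂ ∉ D := fun h => ((hDm i₂).1 h).2.2 rfl
  have u1 : ∀ j, j ∈ J ↔ j = i ∨ j = i₂ ∨ j ∈ D := by
    intro j
    rw [hDm]
    constructor
    · tauto
    · rintro (rfl | rfl | h)
      exacts [hi, hi₂, h.1]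
  have hz := host_abs c ?_ σ₁ σ₂ σ₃ (C ^ (2 * D.card) + C ^ 2)
    (fun I q n n' d => key {i} {i₂} D σ₁ σ₂ d1 (by simp [d2, d3])
      (by ext j; simp [u1 j]) ⟨i₃, hi₃⟩ (by simpa using sq_nonneg C) hσ₁ hσ₂' I q n n' d n n'
      (fun _ => d) (fun l => e1 _ _ _) (fun l => e2 _ _ _) fun l => e3 _ _ _)
    (fun I q n n' d => key {i} D {i₂} σ₁ σ₃ (by simpa using d2) (by simp [hne, d3])
      (by ext j; simp only [mem_union, mem_singleton, u1 j]; tauto) (singleton_nonempty _)
      (by simpa using pow_nonneg hC _) hσ₁ hσ₃ I q n n' d n (fun _ => d) n'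
      (fun l => e1 _ _ _) (fun l => e3 _ _ _) fun l => e2 _ _ _)
    (fun I q n n' d => key {i₂} D {i} σ₂ σ₃ (by simpa using d3) (by simp [hne.symm, d2])
      (by ext j; simp only [mem_union, mem_singleton, u1 j]; tauto) (singleton_nonempty _)
      (by simpa using pow_nonneg hC _) hσ₂' hσ₃ I q n n' d (fun _ => d) n n'
      (fun l => e2 _ _ _) (fun l => e3 _ _ _) fun l => e1 _ _ _) hs ?_
  · have h1 := hc 0 0 0
    rw [hz] at h1
    simpa [he] using h1
  · intro p q d
    refine tendsto_nhds_unique (hc _ _ _) ?_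
    have h1 : (fun j x => g j (S^[e (p + 1) (q + 1) (d + 1) j] x)) =
        fun j x => g j (S^[e p q d j] (S x)) := by
      funext j x
      rw [← Function.iterate_succ_apply, he]
      simp only [Nat.succ_eq_add_one, apply_ite (· + 1)]
    rw [h1, cor_succ hS (g := fun j x => g j (S^[e p q d j] x))
      fun j hj => (hg1 j hj).iter hS _]
    exact hc p q d
  · intro θ
    obtain ⟨p, hp1, hp2, hp3, hp4⟩ := eigen_proj hS hm hSm (hg1 i hi) (hg i hi).2 θ
    obtain ⟨A, hA⟩ : ∃ A : ℕ → X → ℂ,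
        A = fun M x => av (fun l => conj (fourier l θ) * g i (S^[l] x)) M := ⟨_, rfl⟩
    have hb : ∀ l : ℕ, Bd μ C fun x => conj (fourier l θ) * g i (S^[l] x) := fun l => by
      simpa [norm_fourier] using (Bd.const (conj (fourier l θ))).mul ((hg1 i hi).iter hS l)
    have hA1 : ∀ M, Bd μ C (A M) := fun M => hA ▸ Bd.av hC hb M
    have hA2 : ∀ M, A M = fun x => ∑ l ∈ range M,
        (((M : ℝ)⁻¹ : ℝ) : ℂ) * conj (fourier l θ) * g i (S^[l] x) := by
      intro M
      funext x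
      simp only [hA, av, Complex.real_smul, mul_sum, mul_assoc]
    have hp5 : Tendsto (fun M => ‖L2 μ (A M) - L2 μ p‖) atTop (𝓝 0) := by
      rw [hA]; exact tendsto_iff_norm_sub_tendsto_zero.1 hp4
    have hp0 : ∫ x, p x ∂μ = 0 := by
      rw [← norm_le_zero_iff]
      refine ge_of_tendsto' hp5 fun M => ?_
      have h1 : ∫ x, A M x ∂μ = 0 := by
        rw [hA2, integral_finsetSum _ fun l _ =>
          ((hg1 i hi).iter hS l).integrable.const_mul _]
        refine sum_eq_zero fun l _ => ?_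
        rw [integral_const_mul, integral_iter hS (hg1 i hi).1, h0, mul_zero]
      have h2 := norm_integral_le_L2 ((hA1 M).sub hp1).memLp
      rwa [integral_sub (hA1 M).integrable hp1.integrable, h1, zero_sub, norm_neg,
        L2_sub (hA1 M).memLp hp1.memLp] at h2
    have hI := IH2 p hp1 hp2 ⟨θ, hp3⟩
    rw [Indep, prod_eq_zero hi (by rw [Function.update_self, hp0])] at hI
    refine squeeze_zero_norm (a := fun M => C ^ (J.card - 1) * ‖L2 μ (A M) - L2 μ p‖)
      (fun M => ?_) (by simpa using hp5.const_mul (C ^ (J.card - 1)))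
    have h1 : Tendsto (cor μ S a J (Function.update g i (A M))) 𝒰
        (𝓝 (av (fun l : ℕ => conj (fourier l θ) * c l 0 0) M)) := by
      have h2 : ∀ l, (fun j x => g j (S^[e l 0 0 j] x)) =
          Function.update g i fun x => g i (S^[l] x) := by
        intro l
        funext j
        by_cases h : j = i
        · subst h; simp [he]
        · simp [he, h]
      have h3 := tendsto_finsetSum (range M) fun l _ =>
        (hc l 0 0).const_mul ((((M : ℝ)⁻¹ : ℝ) : ℂ) * conj (fourier l θ))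
      have h4 : av (fun l : ℕ => conj (fourier l θ) * c l 0 0) M =
          ∑ l ∈ range M, (((M : ℝ)⁻¹ : ℝ) : ℂ) * conj (fourier l θ) * c l 0 0 := by
        simp only [av, Complex.real_smul, mul_sum, mul_assoc]
      rw [h4]
      refine h3.congr fun N => ?_
      rw [hA2, cor_update_sum hS hg1 hi _ _ (fun l _ => (hg1 i hi).iter hS l) N]
      simp only [h2]
    have h2 := (h1.sub (hI.mono_left h𝒰)).norm
    rw [sub_zero] at h2
    exact le_of_tendsto' h2 fun N => cor_update_lip hS hg1 hi (hA1 M) hp1 N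

theorem tw_host (hS : Ergodic S μ) (ha : Weyl a) (hmo : Monotone a) (hm : m ≤ m0)
    (hSm : Measurable[m, m] S) {J : Finset ℕ}
    (IH : ∀ J' ⊂ J, ∀ (g' : ℕ → X → ℂ) (C' : ℝ),
      (∀ j ∈ J', Bd μ C' (g' j) ∧ AEStronglyMeasurable[m] (g' j) μ) → Indep μ S a J' g')
    (g : ℕ → X → ℂ) (C : ℝ) (hg : ∀ j ∈ J, Bd μ C (g j) ∧ AEStronglyMeasurable[m] (g j) μ)
    {i₂ : ℕ} (hi₂ : i₂ ∈ J) (hs : SingVec μ S (g i₂)) : Indep μ S a J g := by
  classical
  have hS' := hS.toMeasurePreserving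
  rcases le_or_gt J.card 2 with hJ | hJ
  · exact indep_two hS ha hmo hJ fun j hj => (hg j hj).1
  suffices h : ∀ (R : Finset ℕ) (g : ℕ → X → ℂ) (C : ℝ),
      (∀ j ∈ J, Bd μ C (g j) ∧ AEStronglyMeasurable[m] (g j) μ) → SingVec μ S (g i₂) →
      (∀ j ∈ J.erase i₂, j ∉ R → ∃ θ : UnitAddCircle,
        (fun x => g j (S x)) =ᵐ[μ] fun x => fourier 1 θ * g j x) → Indep μ S a J g from
    h J g C hg hs fun j hj h => absurd (mem_of_mem_erase hj) h
  intro R
  induction R using Finset.induction_on with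
  | empty =>
    exact fun g C hg _ he => tw_one hS ha (fun j hj => (hg j hj).1) hi₂ fun j hj =>
      he j hj (notMem_empty j)
  | insert i R hiR ih =>
    intro g C hg hs he
    by_cases hi' : i ∈ J.erase i₂
    swap
    · exact ih g C hg hs fun j hj hjR => he j hj fun h =>
        (mem_insert.1 h).elim (fun h => hi' (h ▸ hj)) hjR
    have hi : i ∈ J := mem_of_mem_erase hi'
    have hne : i₂ ≠ i := (ne_of_mem_erase hi').symm
    have hC : 0 ≤ C := (hg i hi).1.nonneg
    have hup : ∀ p : X → ℂ, Bd μ (C + C) p → AEStronglyMeasurable[m] p μ → ∀ j ∈ J,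
        Bd μ (C + C) (Function.update g i p j) ∧
          AEStronglyMeasurable[m] (Function.update g i p j) μ := by
      intro p h1 h2 j hj
      by_cases h : j = i
      · subst h; simpa using ⟨h1, h2⟩
      · rw [Function.update_of_ne h]
        exact ⟨(hg j hj).1.mono (by linarith), (hg j hj).2⟩
    have hs' : ∀ p : X → ℂ, SingVec μ S (Function.update g i p i₂) := fun p => by
      rwa [Function.update_of_ne hne]
    have hI : ∀ p : X → ℂ, Bd μ (C + C) p → AEStronglyMeasurable[m] p μ →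
        (∃ θ : UnitAddCircle, (fun x => p (S x)) =ᵐ[μ] fun x => fourier 1 θ * p x) →
        Indep μ S a J (Function.update g i p) := by
      intro p h1 h2 h3
      refine ih _ _ (hup p h1 h2) (hs' p) fun j hj hjR => ?_
      by_cases h : j = i
      · subst h; simpa using h3
      · rw [Function.update_of_ne h]
        exact he j hj fun h' => (mem_insert.1 h').elim h hjR
    obtain ⟨z, hz⟩ : ∃ z, z = ∫ x, g i x ∂μ := ⟨_, rfl⟩
    have hz1 : Bd μ C fun _ => z := (Bd.const z).mono (hz ▸ (hg i hi).1.norm_integral)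
    have hz2 : Bd μ (C + C) fun x => g i x - z := (hg i hi).1.sub hz1
    have hz3 : AEStronglyMeasurable[m] (fun x => g i x - z) μ :=
      (hg i hi).2.sub aestronglyMeasurable_const
    have h1 := hI (fun _ => z) (hz1.mono (by linarith)) aestronglyMeasurable_const
      ⟨0, Eventually.of_forall fun x => by simp⟩
    have h2 := tw_step (a := a) hS' hm hSm hJ (hup _ hz2 hz3) hi
      (by
        rw [Function.update_self, integral_sub (hg i hi).1.integrable hz1.integrable, ← hz]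
        simp) hi₂ hne (hs' _)
      IH (fun p h1 h2 h3 => by rw [Function.update_idem]; exact hI p h1 h2 h3)
    have h3 := h2.add h1
    have h4 : ∏ j ∈ J, ∫ x, Function.update g i (fun _ => z) j x ∂μ = ∏ j ∈ J, ∫ x, g j x ∂μ := by
      refine prod_congr rfl fun j _ => ?_
      by_cases h : j = i
      · subst h; simp [hz]
      · rw [Function.update_of_ne h]
    rw [zero_add, h4] at h3
    refine h3.congr fun N => ?_
    have h5 := cor_update_sum (a := a) hS' (fun j hj => (hg j hj).1) hi (univ : Finset Bool)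
      (fun _ => 1) (φ := fun b => if b then fun x => g i x - z else fun _ => z) (D := C + C)
      (fun b _ => by cases b <;> simp [hz2, hz1.mono (show C ≤ C + C by linarith)]) N
    simpa using h5.symm

end Pool.Agent.Lib.MP_1db5af_an
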