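import Pool.Agent.Lib.MP_1db5af_an.TwMod

set_option autoImplicit false

namespace Pool.Agent.Lib.MP_1db5af_an

open MeasureTheory Filter Topology ComplexConjugate Finset InnerProductSpace

theorem tw_expand (J : Finset ℕ) {r : ℕ → ℕ} (F : (j : ℕ) → Fin (r j) → ℂ)
    (G : ((j : J) → Fin (r j)) → ℕ → ℂ) (hG : ∀ I j (hj : j ∈ J), G I j = F j (I ⟨j, hj⟩)) :
    ∏ j ∈ J, ∑ i, F j i = ∑ I, ∏ j ∈ J, G I j := by
  classical
  rw [← prod_coe_sort J, prod_univ_sum, Fintype.piFinset_univ]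
  refine sum_congr rfl fun I _ => ?_
  rw [← prod_coe_sort J]
  exact prod_congr rfl fun j _ => (hG I j j.2).symm

/-- Selection of one function in each block. -/
noncomputable def twSel {X : Type*} (J : Finset ℕ) {r : ℕ → ℕ}
    (F : (j : ℕ) → Fin (r j) → X → ℂ) (I : (j : J) → Fin (r j)) (j : ℕ) : X → ℂ :=
  if hj : j ∈ J then F j (I ⟨j, hj⟩) else 0

theorem twSel_eq {X : Type*} {J : Finset ℕ} {r : ℕ → ℕ} (F : (j : ℕ) → Fin (r j) → X → ℂ)
    (I : (j : J) → Fin (r j)) {j : ℕ} (hj : j ∈ J) : twSel J F I j = F j (I ⟨j, hj⟩) :=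
  dif_pos hj

variable {X : Type*} {m : MeasurableSpace X} [m0 : MeasurableSpace X] {μ : Measure X}
  [IsProbabilityMeasure μ] {S : X → X} {a : ℕ → ℕ} {C B : ℝ}

theorem tw_unif {ι : Type*} (I : Finset ι) {g : ι → X → ℂ} (h : ∀ i ∈ I, ∃ D, Bd μ D (g i)) :
    ∃ D, 0 ≤ D ∧ ∀ i ∈ I, Bd μ D (g i) := by
  choose! D hD using h
  exact ⟨∑ i ∈ I, D i, sum_nonneg fun i hi => (hD i hi).nonneg, fun i hi =>
    (hD i hi).mono (single_le_sum (fun j hj => (hD j hj).nonneg) hi)⟩

theorem tw_bound (hS : MeasurePreserving S μ μ) (hm : m ≤ m0) (hJE : JE μ S a m) (J : Finset ℕ)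
    {r : ℕ → ℕ} {φ : (j : ℕ) → Fin (r j) → X → ℂ} (hφ : ∀ j ∈ J, Blk μ S m (φ j) B)
    {ι : Type*} (L : Finset ι) (q : ι → ℂ) {g : ι → ℕ → X → ℂ}
    (hg : ∀ l, ∀ j ∈ J, InMod μ m (φ j) (g l j)) :
    ∃ w : ℕ → ℝ, Tendsto w atTop (𝓝 ((Fintype.card ((j : J) → Fin (r j)) * (B ^ J.card) ^ 2) *
        (∑ l ∈ L, ∑ l' ∈ L, q l * conj (q l') *
          ∏ j ∈ J, ∫ x, g l j x * conj (g l' j x) ∂μ).re)) ∧
      ∀ N, ‖∑ l ∈ L, q l * cor μ S a J (g l) N‖ ^ 2 ≤ w N := by
  classical
  choose! h D hh e using hg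
  have hb : ∀ (I : (j : J) → Fin (r j)) l, ∃ E, 0 ≤ E ∧ ∀ j ∈ J, Bd μ E (twSel J (h l) I j) :=
    fun I l => tw_unif J fun j hj => ⟨_, by rw [twSel_eq _ _ hj]; exact (hh l j hj _).1⟩
  choose E hE0 hE using hb
  have hEm : ∀ (I : (j : J) → Fin (r j)) l, ∀ j ∈ J,
      AEStronglyMeasurable[m] (twSel J (h l) I j) μ := fun I l j hj => by
    rw [twSel_eq _ _ hj]; exact (hh l j hj _).2
  have hP : ∀ (I : (j : J) → Fin (r j)) (n : ℕ),
      Bd μ (B ^ J.card) fun x => ∏ j ∈ J, twSel J φ I j (S^[a (n + j)] x) := fun I n =>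
    Bd.prod _ fun j hj => by rw [twSel_eq _ _ hj]; exact ((hφ j hj).bd _).iter hS _
  have hH : ∀ (I : (j : J) → Fin (r j)) l (n : ℕ),
      Bd μ (E I l ^ J.card) fun x => ∏ j ∈ J, twSel J (h l) I j (S^[a (n + j)] x) := fun I l n =>
    Bd.prod _ fun j hj => (hE I l j hj).iter hS _
  have hY : ∀ (I : (j : J) → Fin (r j)) (n : ℕ), Bd μ (∑ l ∈ L, ‖q l‖ * E I l ^ J.card)
      fun x => ∑ l ∈ L, q l * ∏ j ∈ J, twSel J (h l) I j (S^[a (n + j)] x) := fun I n =>
    Bd.sum _ fun l _ => (Bd.const (q l)).mul (hH I l n)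
  let y : ((j : J) → Fin (r j)) → ℕ → ℝ := fun I n =>
    ‖L2 μ fun x => ∑ l ∈ L, q l * ∏ j ∈ J, twSel J (h l) I j (S^[a (n + j)] x)‖
  have hy : ∀ I n, ((y I n ^ 2 : ℝ) : ℂ) = ∑ l ∈ L, ∑ l' ∈ L, q l * conj (q l') *
      ∫ x, ∏ j ∈ J, twSel J (h l) I j (S^[a (n + j)] x) *
        conj (twSel J (h l') I j (S^[a (n + j)] x)) ∂μ := fun I n => by
    have h4 := spec_sum μ L q (fun l x => ∏ j ∈ J, twSel J (h l) I j (S^[a (n + j)] x))
      fun l l' => ((hH I l n).mul (hH I l' n).star).integrable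
    rw [norm_L2_sq (hY I n).memLp, ← h4]
    simp only [map_prod, prod_mul_distrib]
  set K : ℝ := Fintype.card ((j : J) → Fin (r j)) * (B ^ J.card) ^ 2 with hK
  refine ⟨fun N => K * (∑ I, ∑ l ∈ L, ∑ l' ∈ L, q l * conj (q l') * cor μ S a J
    (fun j x => twSel J (h l) I j x * conj (twSel J (h l') I j x)) N).re, ?_, fun N => ?_⟩
  · refine Tendsto.const_mul _ ?_
    have h4 := tendsto_finsetSum (univ : Finset ((j : J) → Fin (r j))) fun I _ =>
      tendsto_finsetSum L fun l _ => tendsto_finsetSum L fun l' _ =>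
        Tendsto.const_mul (q l * conj (q l')) (hJE J
          (fun j x => twSel J (h l) I j x * conj (twSel J (h l') I j x)) (E I l * E I l')
          fun j hj => ⟨(hE I l j hj).mul (hE I l' j hj).star,
            (hEm I l j hj).mul (tw_aesm_conj (hEm I l' j hj))⟩)
    have h5 : ∀ l l', ∏ j ∈ J, ∫ x, g l j x * conj (g l' j x) ∂μ =
        ∑ I : (j : J) → Fin (r j),
          ∏ j ∈ J, ∫ x, twSel J (h l) I j x * conj (twSel J (h l') I j x) ∂μ := fun l l' => by
      rw [← tw_expand J (fun j i => ∫ x, h l j i x * conj (h l' j i x) ∂μ) _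
        fun I j hj => by rw [twSel_eq _ _ hj, twSel_eq _ _ hj]]
      refine prod_congr rfl fun j hj => ?_
      rw [← (hφ j hj).inner hm (hh l j hj) (hh l' j hj)]
      refine integral_congr_ae ?_
      filter_upwards [e l j hj, e l' j hj] with x e1 e2
      rw [e1, e2]
    have h6 : ∑ l ∈ L, ∑ l' ∈ L, q l * conj (q l') *
        ∏ j ∈ J, ∫ x, g l j x * conj (g l' j x) ∂μ =
        ∑ I : (j : J) → Fin (r j), ∑ l ∈ L, ∑ l' ∈ L, q l * conj (q l') *
          ∏ j ∈ J, ∫ x, twSel J (h l) I j x * conj (twSel J (h l') I j x) ∂μ := by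
      simp only [h5, mul_sum]
      rw [sum_comm (s := univ)]
      refine sum_congr rfl fun l _ => ?_
      rw [sum_comm]
    rw [h6]
    exact (Complex.continuous_re.tendsto _).comp h4
  · have h3 : ∀ l n, ∫ x, ∏ j ∈ J, g l j (S^[a (n + j)] x) ∂μ =
        ∑ I : (j : J) → Fin (r j), ∫ x, (∏ j ∈ J, twSel J φ I j (S^[a (n + j)] x)) *
          ∏ j ∈ J, twSel J (h l) I j (S^[a (n + j)] x) ∂μ := fun l n => by
      rw [← integral_finsetSum _ fun I _ => ((hP I n).mul (hH I l n)).integrable]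
      refine integral_congr_ae ?_
      filter_upwards [(ae_ball_iff J.countable_toSet).2
        fun j hj => (hS.iterate (a (n + j))).quasiMeasurePreserving.ae (e l j hj)] with x hx
      rw [prod_congr rfl hx, tw_expand J
        (fun j i => h l j i (S^[a (n + j)] x) * φ j i (S^[a (n + j)] x))
        (fun I j => twSel J φ I j (S^[a (n + j)] x) * twSel J (h l) I j (S^[a (n + j)] x))
        fun I j hj => by rw [twSel_eq _ _ hj, twSel_eq _ _ hj, mul_comm]]
      simp only [prod_mul_distrib]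
    have h4 : ∑ l ∈ L, q l * cor μ S a J (g l) N =
        av (fun n => ∑ I : (j : J) → Fin (r j),
          ∫ x, (∏ j ∈ J, twSel J φ I j (S^[a (n + j)] x)) *
            ∑ l ∈ L, q l * ∏ j ∈ J, twSel J (h l) I j (S^[a (n + j)] x) ∂μ) N := by
      unfold cor
      simp only [← av_mul]
      rw [← av_sum]
      congr 1
      funext n
      simp only [h3, mul_sum]
      rw [sum_comm]
      refine sum_congr rfl fun I _ => ?_
      rw [integral_finsetSum L fun l _ =>
        ((hP I n).mul ((Bd.const (q l)).mul (hH I l n))).integrable]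
      refine sum_congr rfl fun l _ => ?_
      rw [← integral_const_mul]
      congr 1
      funext x
      ring
    have h5 : ‖∑ l ∈ L, q l * cor μ S a J (g l) N‖ ≤
        av (fun n => ∑ I, B ^ J.card * y I n) N := by
      rw [h4]
      refine (norm_av_le_av _ N).trans (av_mono fun n _ => (norm_sum_le _ _).trans
        (sum_le_sum fun I _ => ?_))
      exact (norm_integral_le_L2 ((hP I n).mul (hY I n)).memLp).trans
        ((hP I n).norm_L2_mul (hY I n).memLp)
    have h6 : (∑ I : (j : J) → Fin (r j), ∑ l ∈ L, ∑ l' ∈ L, q l * conj (q l') * cor μ S a J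
        (fun j x => twSel J (h l) I j x * conj (twSel J (h l') I j x)) N) =
        ((av (fun n => ∑ I, y I n ^ 2) N : ℝ) : ℂ) := by
      refine Eq.trans ?_ (av_map Complex.ofRealCLM (fun n => ∑ I, y I n ^ 2) N)
      simp only [Complex.ofRealCLM_apply, Complex.ofReal_sum, hy]
      unfold cor
      rw [av_sum]
      refine sum_congr rfl fun I _ => ?_
      rw [av_sum]
      refine sum_congr rfl fun l _ => ?_
      rw [av_sum]
      exact sum_congr rfl fun l' _ => (av_mul _ _ N).symm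
    beta_reduce
    rw [h6, Complex.ofReal_re, ← av_rmul]
    refine (pow_le_pow_left₀ (norm_nonneg _) h5 2).trans ((sq_av_le _ N).trans
      (av_mono fun n _ => ?_))
    refine (sq_sum_le_card_mul_sum_sq).trans_eq ?_
    rw [hK, card_univ, mul_assoc, mul_sum]
    simp only [mul_pow, mul_sum]

theorem tw_cor_iter (hS : MeasurePreserving S μ μ) {J : Finset ℕ} {g : ℕ → X → ℂ}
    (hg : ∀ j ∈ J, Bd μ C (g j)) (l : ℕ) :
    cor μ S a J (fun j x => g j (S^[l] x)) = cor μ S a J g := by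
  induction l with
  | zero => rfl
  | succ l ih => exact (cor_succ hS fun j hj => (hg j hj).iter hS l).trans ih

theorem tw_small (hS : MeasurePreserving S μ μ) {c : X → ℂ} (hc : Bd μ C c)
    {σ ρ : Measure UnitAddCircle} [IsFiniteMeasure σ] [IsFiniteMeasure ρ]
    (hσ : IsSpec (Kp hS) (L2 μ c) σ) {ε : ℝ} (hε : ∀ t, σ.real {t} ≤ ε) {r' : ℕ → ℕ → ℂ}
    (hρ : IsCor r' ρ) {δ : ℝ} (hδ : 0 < δ) :
    ∀ᶠ Λ : ℕ in atTop, (∑ l ∈ range Λ, ∑ l' ∈ range Λ,
      (((Λ : ℝ)⁻¹ : ℝ) : ℂ) * conj (((Λ : ℝ)⁻¹ : ℝ) : ℂ) *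
        ((∫ x, c (S^[l] x) * conj (c (S^[l'] x)) ∂μ) * r' l l')).re ≤ ε * ‖r' 0 0‖ + δ := by
  have e : ρ.real Set.univ = ‖r' 0 0‖ := by
    rw [hρ 0 0]; simp [abs_of_nonneg (measureReal_nonneg (μ := ρ) (s := Set.univ))]
  filter_upwards [tw_wiener σ ρ hε hδ] with Λ hΛ
  rw [(multi_spec hS hc hσ).sum_eq₂ hρ (range Λ) _ (fun l => l) fun l => l, Complex.ofReal_re, ← e]
  exact hΛ

theorem tw_small_int (hS : MeasurePreserving S μ μ) {c : X → ℂ} (hc : Bd μ C c)
    {σ : Measure UnitAddCircle} [IsFiniteMeasure σ]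
    (hσ : IsSpec (Kp hS) (L2 μ c) σ) {ε : ℝ} (hε : ∀ t, σ.real {t} ≤ ε) :
    ‖∫ x, c x ∂μ‖ ^ 2 ≤ ε := by
  refine le_of_forall_pos_le_add fun δ hδ => ?_
  have hρ : IsCor (fun _ _ => 1) (Measure.dirac 0) := fun _ _ => by
    rw [integral_dirac, fourier_eval_zero]
  obtain ⟨Λ, h1, h2⟩ := ((tw_small hS hc hσ hε hρ hδ).and (eventually_gt_atTop 0)).exists
  simp only [mul_one, norm_one] at h1
  have hb : Bd μ (∑ _l ∈ range Λ, ‖(((Λ : ℝ)⁻¹ : ℝ) : ℂ)‖ * C)
      fun x => ∑ l ∈ range Λ, (((Λ : ℝ)⁻¹ : ℝ) : ℂ) * c (S^[l] x) :=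
    Bd.sum _ fun l _ => (Bd.const _).mul (hc.iter hS l)
  rw [spec_sum μ (range Λ) _ (fun l x => c (S^[l] x))
    (fun l l' => ((hc.iter hS l).mul (hc.iter hS l').star).integrable), Complex.ofReal_re,
    ← norm_L2_sq hb.memLp] at h1
  refine le_trans (pow_le_pow_left₀ (norm_nonneg _) ?_ 2) h1
  refine le_trans (le_of_eq ?_) (norm_integral_le_L2 hb.memLp)
  rw [integral_finsetSum _ fun l _ => (hc.iter hS l).integrable.const_mul _]
  simp only [integral_const_mul, integral_iter hS hc.1, sum_const, card_range, nsmul_eq_mul]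
  have : (Λ : ℂ) ≠ 0 := Nat.cast_ne_zero.2 h2.ne'
  rw [← mul_assoc]
  push_cast
  rw [mul_inv_cancel₀ this, one_mul]

theorem tw_iso (hS : Ergodic S μ) (ha : Weyl a) (hm : m ≤ m0) (hSm : Measurable[m, m] S)
    (hJE : JE μ S a m) (J : Finset ℕ) {r : ℕ → ℕ} {φ : (j : ℕ) → Fin (r j) → X → ℂ}
    (hφ : ∀ j ∈ J, Blk μ S m (φ j) B) (g : ℕ → X → ℂ) (C : ℝ)
    (hg : ∀ j ∈ J, Bd μ C (g j) ∧ InMod μ m (φ j) (g j)) : Indep μ S a J g := by
  classical
  have hS' := hS.toMeasurePreserving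
  suffices h : ∀ (R : Finset ℕ) (g : ℕ → X → ℂ) (C : ℝ), (∀ j ∈ J, Bd μ C (g j)) →
      (∀ j ∈ J, InMod μ m (φ j) (g j)) → (∀ j ∈ J, j ∉ R → ∃ θ : UnitAddCircle,
        (fun x => g j (S x)) =ᵐ[μ] fun x => fourier 1 θ * g j x) → Indep μ S a J g from
    h J g C (fun j hj => (hg j hj).1) (fun j hj => (hg j hj).2) fun j hj h => absurd hj h
  intro R
  induction R using Finset.induction_on with
  | empty => exact fun g C h1 _ he => indep_eigen hS ha h1 fun j hj => he j hj (notMem_empty j)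
  | insert i R hiR ih =>
    intro g C h1 h2 he
    by_cases hi : i ∈ J
    swap
    · exact ih g C h1 h2 fun j hj hjR => he j hj fun h =>
        (mem_insert.1 h).elim (fun h => hi (h ▸ hj)) hjR
    have hC : 0 ≤ C := (h1 i hi).nonneg
    have hup : ∀ p : X → ℂ, InMod μ m (φ i) p → ∀ j ∈ J,
        InMod μ m (φ j) (Function.update g i p j) := by
      intro p hp j hj
      by_cases h : j = i
      · subst h; rwa [Function.update_self]
      · rw [Function.update_of_ne h]; exact h2 j hj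
    have hI : ∀ (p : X → ℂ) (D : ℝ), Bd μ D p → InMod μ m (φ i) p →
        (∃ θ : UnitAddCircle, (fun x => p (S x)) =ᵐ[μ] fun x => fourier 1 θ * p x) →
        Indep μ S a J (Function.update g i p) := by
      intro p D h3 h4 h5
      refine ih _ _ (tw_bd_update h1 i h3) (hup p h4) fun j hj hjR => ?_
      by_cases h : j = i
      · subst h; rwa [Function.update_self]
      · rw [Function.update_of_ne h]
        exact he j hj fun h' => (mem_insert.1 h').elim h hjR
    obtain ⟨σ, hσf, hσ⟩ := herglotz (Kp hS') (L2 μ (g i))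
    have hΘ : ∀ Θ : Finset UnitAddCircle, ∃ (c : X → ℂ) (D : ℝ), Bd μ D c ∧ InMod μ m (φ i) c ∧
        IsSpec (Kp hS') (L2 μ c) (σ.restrict (↑Θ)ᶜ) ∧
        Indep μ S a J (Function.update g i fun x => g i x - c x) := by
      intro Θ
      induction Θ using Finset.induction_on with
      | empty =>
        refine ⟨g i, C, h1 i hi, h2 i hi, by simpa using hσ, ?_⟩
        exact hI _ _ ((h1 i hi).sub (h1 i hi)) ((h2 i hi).sub (h2 i hi))
          ⟨0, Eventually.of_forall fun x => by simp⟩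
      | insert θ Θ _ ih' =>
        obtain ⟨c, D, c1, c2, c3, c4⟩ := ih'
        obtain ⟨p, p1, p2, p3, p4⟩ := tw_eigen_mod hS' hm hSm (hφ i hi) c1 c2 θ
        refine ⟨fun x => c x - p x, D + D, c1.sub p1, c2.sub p2, ?_, ?_⟩
        · have := p4 _ c3
          rwa [Measure.restrict_restrict (measurableSet_singleton θ).compl, ← Set.compl_union,
            Set.singleton_union, ← coe_insert] at this
        · have hD := c1.nonneg
          have := tw_indep_sum (a := a) hS' h1 hi (univ : Finset Bool)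
            (φ := fun b => if b then fun x => g i x - c x else p) (D := C + D)
            (fun b _ => by
              cases b
              · exact p1.mono (by linarith)
              · exact (h1 i hi).sub c1)
            (fun b _ => by
              cases b
              · exact hI p D p1 p2 ⟨θ, p3⟩
              · exact c4)
          have e : (fun x => g i x - (c x - p x)) =
              fun x => ∑ b : Bool, (if b then fun x => g i x - c x else p) x := by
            funext x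
            simp
            ring
          rw [e]
          exact this
    unfold Indep
    rw [← tendsto_sub_nhds_zero_iff]
    refine tendsto_zero_of_forall fun ε hε => ?_
    set K : ℝ := Fintype.card ((j : J) → Fin (r j)) * (B ^ J.card) ^ 2 with hK
    have hK0 : 0 ≤ K := by positivity
    set M : ℝ := (C ^ (J.card - 1)) ^ 2 with hM
    have hM0 : 0 ≤ M := by positivity
    set η : ℝ := (ε / 2) ^ 2 / ((K + 1) * (M + 1)) with hη
    have hη0 : 0 < η := by positivity
    have hη1 : (K + 1) * (M + 1) * η = (ε / 2) ^ 2 := by rw [hη]; field_simp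
    obtain ⟨Θ, hΘ1⟩ := tw_atoms σ hη0
    obtain ⟨c, D, c1, c2, c3, c4⟩ := hΘ Θ
    refine ⟨_, tendsto_sub_nhds_zero_iff.2 c4, ?_⟩
    obtain ⟨ρ, hρf, hρ⟩ := multi_cor hS' (J.erase i) fun j hj => h1 j (mem_of_mem_erase hj)
    obtain ⟨Λ, hΛ1, hΛ2⟩ := ((tw_small hS' c1 c3 hΘ1 hρ (half_pos hη0)).and
      (eventually_gt_atTop 0)).exists
    obtain ⟨w, hw1, hw2⟩ := tw_bound hS' hm hJE J hφ (range Λ) (fun _ => (((Λ : ℝ)⁻¹ : ℝ) : ℂ))
      (g := fun l j x => Function.update g i c j (S^[l] x))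
      fun l j hj => (hup c c2 j hj).iter hS' hSm (hφ j hj) l
    have e1 : ∀ l l', ∏ j ∈ J, ∫ x, Function.update g i c j (S^[l] x) *
        conj (Function.update g i c j (S^[l'] x)) ∂μ =
        (∫ x, c (S^[l] x) * conj (c (S^[l'] x)) ∂μ) *
          ∏ j ∈ J.erase i, ∫ x, g j (S^[l] x) * conj (g j (S^[l'] x)) ∂μ := fun l l' => by
      rw [← mul_prod_erase J _ hi, Function.update_self]
      congr 1
      exact prod_congr rfl fun j hj => by rw [Function.update_of_ne (ne_of_mem_erase hj)]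
    have e2 : ‖∏ j ∈ J.erase i, ∫ x, g j (S^[0] x) * conj (g j (S^[0] x)) ∂μ‖ ≤ M := by
      have := tw_norm_prod_erase (g := fun j x => g j x * conj (g j x))
        (fun j hj => (h1 j hj).mul (h1 j hj).star) hi
      rw [hM, sq, ← mul_pow]
      exact this
    simp only [e1, tw_cor_iter hS' (tw_bd_update h1 i c1), sum_const, card_range] at hw1 hw2
    have e3 : ∀ z : ℂ, Λ • ((((Λ : ℝ)⁻¹ : ℝ) : ℂ) * z) = z := fun z => by
      have : (Λ : ℂ) ≠ 0 := Nat.cast_ne_zero.2 hΛ2.ne'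
      rw [nsmul_eq_mul, ← mul_assoc]
      push_cast
      rw [mul_inv_cancel₀ this, one_mul]
    simp only [e3] at hw2
    have e4 : K * (η * M + η / 2) < (ε / 2) ^ 2 := by
      rw [← hη1]; nlinarith [mul_nonneg hK0 hM0, mul_nonneg hK0 hη0.le, mul_nonneg hM0 hη0.le]
    have e5 := hw1.eventually (gt_mem_nhds (lt_of_le_of_lt (mul_le_mul_of_nonneg_left
      (hΛ1.trans (add_le_add_left (mul_le_mul_of_nonneg_left e2 hη0.le) _)) hK0) e4))
    have e6 : ‖∏ j ∈ J, ∫ x, Function.update g i c j x ∂μ‖ ≤ ε / 2 := by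
      refine (pow_le_pow_iff_left₀ (norm_nonneg _) (by positivity) two_ne_zero).1 ?_
      rw [tw_prod_update g hi, norm_mul, mul_pow, ← hη1]
      have := mul_le_mul (pow_le_pow_left₀ (norm_nonneg _) (tw_norm_prod_erase h1 hi) 2)
        (tw_small_int hS' c1 c3 hΘ1) (sq_nonneg _) hM0
      nlinarith [mul_nonneg hK0 hM0, mul_nonneg hK0 hη0.le, mul_nonneg (mul_nonneg hK0 hM0) hη0.le]
    filter_upwards [e5] with N hN
    have e7 : ‖cor μ S a J (Function.update g i c) N‖ ≤ ε / 2 :=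
      (pow_le_pow_iff_left₀ (norm_nonneg _) (by positivity) two_ne_zero).1 ((hw2 N).trans hN.le)
    have hD := c1.nonneg
    have e8 := cor_update_sum (a := a) hS' h1 hi (univ : Finset Bool)
      (fun b => if b then 1 else -1) (φ := fun b => if b then g i else c) (D := C + D)
      (fun b _ => by
        cases b
        · exact c1.mono (by linarith)
        · exact (h1 i hi).mono (by linarith)) N
    have e9 : (fun x => ∑ b : Bool, (if b then 1 else -1 : ℂ) * (if b then g i else c) x) =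
        fun x => g i x - c x := by
      funext x
      simp
      ring
    rw [e9] at e8
    simp only [Fintype.univ_bool, mem_singleton, Bool.true_eq_false, not_false_eq_true, sum_insert,
      if_true, one_mul, sum_singleton, Bool.false_eq_true, if_false, Function.update_eq_self] at e8
    have e10 := tw_prod_update (μ := μ) g hi (g i)
    rw [Function.update_eq_self] at e10
    rw [tw_prod_update g hi] at e6
    rw [e8, e10, tw_prod_update g hi, integral_sub (h1 i hi).integrable c1.integrable]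
    calc _ = ‖cor μ S a J (Function.update g i c) N -
          (∏ j ∈ J.erase i, ∫ x, g j x ∂μ) * ∫ x, c x ∂μ‖ := by congr 1; ring
      _ ≤ _ := (norm_sub_le _ _).trans (by linarith)

end Pool.Agent.Lib.MP_1db5af_an
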