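import Pool.Agent.Lib.MP_1db5af_an.TwIso
import Pool.Agent.Lib.MP_1db5af_an.TwHost

set_option autoImplicit false

namespace Pool.Agent.Lib.MP_1db5af_an

open MeasureTheory Filter Topology ComplexConjugate Finset InnerProductSpace

variable {X : Type*} {m m' : MeasurableSpace X} [m0 : MeasurableSpace X] {μ : Measure X}
  [IsProbabilityMeasure μ] {S : X → X} {a : ℕ → ℕ} {C : ℝ}

theorem je_bot (hS : Ergodic S μ) (ha : Weyl a) : JE μ S a ⊥ := by
  intro J g C hg
  refine indep_eigen hS ha (fun j hj => (hg j hj).1) fun j hj => ⟨0, ?_⟩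
  obtain ⟨c, hc⟩ := stronglyMeasurable_bot_iff.1 (hg j hj).2.stronglyMeasurable_mk
  have e := (hg j hj).2.ae_eq_mk
  rw [hc] at e
  filter_upwards [e, hS.toMeasurePreserving.quasiMeasurePreserving.ae e] with x e1 e2
  rw [e1, e2, fourier_eval_zero, one_mul]

theorem tw_geneig {u : X → ℂ} (h : GenEig μ S m u) :
    ∃ (p : Σ r : ℕ, Fin r → X → ℂ) (B : ℝ), 0 ≤ B ∧ Blk μ S m p.2 B ∧ InMod μ m p.2 u := by
  obtain ⟨r, φ, h, U, h1, h2, h3, h4, h5, h6⟩ := h
  obtain ⟨B, hB0, hB⟩ := tw_unif (μ := μ) univ fun i _ => (exists_Bd (h1 i)).imp fun _ h => h.2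
  obtain ⟨D, -, hD⟩ := tw_unif (μ := μ) univ fun i _ => (exists_Bd (h2 i).2).imp fun _ h => h.2
  obtain ⟨E, -, hE⟩ := tw_unif (μ := μ) (g := fun p : Fin r × Fin r => U p.1 p.2) univ
    fun p _ => (exists_Bd (h3 p.1 p.2).2).imp fun _ h => h.2
  exact ⟨⟨r, φ⟩, B, hB0, ⟨fun i => hB i (mem_univ _), h4, U, E, fun i j =>
    ⟨hE (i, j) (mem_univ _), (h3 i j).1.stronglyMeasurable.aestronglyMeasurable⟩, h5⟩,
    h, D, fun i => ⟨hD i (mem_univ _), (h2 i).1.stronglyMeasurable.aestronglyMeasurable⟩, h6⟩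

theorem je_ext (hS : Ergodic S μ) (ha : Weyl a) (hmo : Monotone a) (hm : m ≤ m0)
    (hJE : JE μ S a m) (hSm : Measurable[m, m] S) (hm' : m' ≤ m0) (hSm' : Measurable[m', m'] S)
    (H : ∀ g : X → ℂ, Measurable[m'] g → MemLp g ⊤ μ → Spanned μ
      (fun u => Measurable[m'] u ∧ MemLp u ⊤ μ ∧ (GenEig μ S m u ∨ SingVec μ S u)) g) :
    JE μ S a m' := by
  have hS' := hS.toMeasurePreserving
  intro J
  induction J using Finset.strongInduction with
  | H J IH =>
  intro g C hg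
  refine tw_indep_appr hS' (P := fun u => Measurable[m'] u ∧ MemLp u ⊤ μ ∧
    (GenEig μ S m u ∨ SingVec μ S u)) (fun g C hg => ?_) fun j hj => ⟨(hg j hj).1,
      tw_appr_of_spanned (hg j hj).1 (hg j hj).2.ae_eq_mk (fun u hu => hu.2.1)
        (H _ (hg j hj).2.stronglyMeasurable_mk.measurable
          ((hg j hj).1.top.ae_eq (hg j hj).2.ae_eq_mk))⟩
  by_cases h : ∃ i ∈ J, SingVec μ S (g i)
  · obtain ⟨i, hi, hs⟩ := h
    exact tw_host hS ha hmo hm' hSm' IH g C (fun j hj =>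
      ⟨(hg j hj).1, (hg j hj).2.1.stronglyMeasurable.aestronglyMeasurable⟩) hi hs
  · have h1 : ∀ j ∈ J, ∃ (p : Σ r : ℕ, Fin r → X → ℂ) (B : ℝ),
        0 ≤ B ∧ Blk μ S m p.2 B ∧ InMod μ m p.2 (g j) := fun j hj =>
      tw_geneig ((hg j hj).2.2.2.resolve_right fun hs => h ⟨j, hj, hs⟩)
    have : Nonempty (Σ r : ℕ, Fin r → X → ℂ) := ⟨⟨0, Fin.elim0⟩⟩
    choose! p B h0 h2 h3 using h1
    refine tw_iso hS ha hm hSm hJE J (r := fun j => (p j).1) (φ := fun j => (p j).2)
      (B := ∑ j ∈ J, B j) (fun j hj => ⟨fun i => ((h2 j hj).bd i).mono (single_le_sum h0 hj),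
        (h2 j hj).orth, (h2 j hj).inv⟩) g C fun j hj => ⟨(hg j hj).1, h3 j hj⟩

theorem tw_atomless (ha : Weyl a) (hmo : Monotone a) (σ : Measure UnitAddCircle)
    [IsFiniteMeasure σ] (h0 : ∀ t, σ {t} = 0) {i j : ℕ} (hij : i < j) :
    Tendsto (av fun n => ‖∫ θ, fourier ((a (n + j) - a (n + i) : ℕ) : ℤ) θ ∂σ‖ ^ 2) atTop
      (𝓝 0) := by
  have hint : ∀ b : ℤ, Integrable
      (fun p : UnitAddCircle × UnitAddCircle => fourier b (p.1 - p.2)) (σ.prod σ) := fun b =>
    Integrable.of_bound (by fun_prop) 1 (Eventually.of_forall fun t => (norm_fourier _ _).le)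
  have e1 : ∀ b : ℤ, ((‖∫ θ, fourier b θ ∂σ‖ ^ 2 : ℝ) : ℂ) =
      ∫ p : UnitAddCircle × UnitAddCircle, fourier b (p.1 - p.2) ∂(σ.prod σ) := fun b => by
    simp only [sub_eq_add_neg, spec_fourier_arg_add, spec_fourier_arg_neg, fourier_neg]
    rw [integral_prod_mul (fun θ : UnitAddCircle => fourier b θ)
      (fun θ : UnitAddCircle => conj (fourier b θ)), integral_conj, Complex.mul_conj']
    push_cast
    rfl
  have h1 : ∀ᵐ p ∂(σ.prod σ), p.1 - p.2 ≠ 0 := by
    have hm : MeasurableSet {p : UnitAddCircle × UnitAddCircle | p.1 - p.2 = 0} :=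
      (isClosed_eq (by fun_prop) continuous_const).measurableSet
    rw [ae_iff]
    simp only [not_not]
    rw [Measure.prod_apply_symm hm]
    refine (lintegral_congr fun y => ?_).trans lintegral_zero
    have e : (fun x => (x, y)) ⁻¹' {p : UnitAddCircle × UnitAddCircle | p.1 - p.2 = 0} = {y} := by
      ext x
      simp [sub_eq_zero]
    rw [e, h0]
  have h2 := tendsto_integral_of_dominated_convergence (μ := σ.prod σ)
    (F := fun N p => av (fun n => fourier ((a (n + j) - a (n + i) : ℕ) : ℤ) (p.1 - p.2)) N)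
    (f := fun _ => 0) (fun _ => 1) (fun N => Continuous.aestronglyMeasurable (by
      unfold av; fun_prop)) (integrable_const 1)
    (fun N => Eventually.of_forall fun p => norm_av_le (fun n => (norm_fourier _ _).le) N) (by
      filter_upwards [h1] with p hθ
      have h3 := ha {i, j} (fun k => if k = j then p.1 - p.2 else -(p.1 - p.2))
        ⟨j, by simp, by simpa using hθ⟩
      refine h3.congr fun N => congrArg (av · N) (funext fun n => ?_)
      rw [prod_pair hij.ne, if_neg hij.ne, if_pos rfl, spec_fourier_arg_neg, ← fourier_add,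
        Nat.cast_sub (hmo (by omega)), neg_add_eq_sub])
  rw [integral_zero] at h2
  refine (Complex.continuous_re.tendsto 0).comp h2 |>.congr fun N => ?_
  simp only [Function.comp_apply, av]
  rw [integral_smul, integral_finsetSum _ fun l _ => hint _]
  simp only [← e1, Complex.real_smul, ← Complex.ofReal_sum, ← Complex.ofReal_mul,
    Complex.ofReal_re, smul_eq_mul]

theorem je_mix (hS : MeasurePreserving S μ μ) (ha : Weyl a) (hmo : Monotone a) (hG : Gap a)
    (hm : m ≤ m0) (hJE : JE μ S a m) (H : RelMix μ S m m') : JE μ S a m' := by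
  classical
  intro J g C hg
  set g' : ℕ → X → ℂ := fun j => if hj : j ∈ J then (hg j hj).2.mk (g j) else 0 with hg'
  have e : ∀ j ∈ J, g j =ᵐ[μ] g' j := fun j hj => by
    simp only [hg', dif_pos hj]; exact (hg j hj).2.ae_eq_mk
  have hb : ∀ j ∈ J, Bd μ C (g' j) := fun j hj => (hg j hj).1.congr (e j hj)
  refine tw_indep_congr hS e ?_
  have h1 := hJE J (fun j => μ[g' j | m]) C fun j hj =>
    ⟨(hb j hj).condExp, stronglyMeasurable_condExp.aestronglyMeasurable⟩
  unfold Indep at h1 ⊢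
  simp only [integral_condExp hm] at h1
  set D : ℕ → ℂ := fun n => ∫ x, ∏ j ∈ J, g' j (S^[a (n + j)] x) ∂μ -
    ∫ x, ∏ j ∈ J, (μ[g' j | m]) (S^[a (n + j)] x) ∂μ with hD
  have hK : ∀ n, ‖D n‖ ≤ C ^ J.card + C ^ J.card := fun n => (norm_sub_le _ _).trans (add_le_add
    (Bd.prod J fun j hj => (hb j hj).iter hS _).norm_integral
    (Bd.prod J fun j hj => (hb j hj).condExp.iter hS _).norm_integral)
  generalize C ^ J.card + C ^ J.card = K at hK
  have hK0 : 0 ≤ K := (norm_nonneg _).trans (hK 0)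
  have h2 : Tendsto (av D) atTop (𝓝 0) := by
    refine NormedAddGroup.tendsto_nhds_zero.2 fun ε hε => ?_
    obtain ⟨σ, L, η, hσ, h0, hη, hL⟩ := H J g' (fun j hj => ⟨by
      simp only [hg', dif_pos hj]
      exact (hg j hj).2.stronglyMeasurable_mk.measurable, (hb j hj).top⟩) (ε / 2) (half_pos hε)
    obtain ⟨n0, hn0⟩ := eventually_atTop.1 (hG L)
    set P := (J ×ˢ J).filter (fun q => q.1 < q.2) with hP
    set s : ℕ × ℕ → ℕ → ℝ := fun q n =>
      ‖∫ θ, fourier ((a (n + q.2) - a (n + q.1) : ℕ) : ℤ) θ ∂σ‖ ^ 2 with hs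
    have hs0 : ∀ q n, 0 ≤ s q n := fun q n => sq_nonneg _
    have hw : ∀ n, ‖D n‖ ≤ ε / 2 + ((if n < n0 then K else 0) + K / η ^ 2 * ∑ q ∈ P, s q n) := by
      intro n
      have k0 : 0 ≤ K / η ^ 2 * ∑ q ∈ P, s q n :=
        mul_nonneg (by positivity) (sum_nonneg fun q _ => hs0 q n)
      split_ifs with hn
      · linarith [hK n]
      by_cases hq : ∃ q ∈ P, η ^ 2 ≤ s q n
      · obtain ⟨q, q1, q2⟩ := hq
        have k1 := mul_le_mul_of_nonneg_left
          (q2.trans (single_le_sum (fun q _ => hs0 q n) q1)) (by positivity : 0 ≤ K / η ^ 2)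
        rw [div_mul_cancel₀ _ (by positivity)] at k1
        linarith [hK n]
      · refine (hL (fun j => a (n + j)) fun i hi j hj hij => ⟨?_, ?_⟩).trans (by linarith)
        · exact (hn0 (n + i) (by omega)).trans (hmo (by omega))
        · refine le_of_not_ge fun hc => hq ⟨(i, j), mem_filter.2 ⟨mem_product.2 ⟨hi, hj⟩, hij⟩, ?_⟩
          exact pow_le_pow_left₀ hη.le hc 2
    have t1 : Tendsto (av fun n => if n < n0 then K else 0) atTop (𝓝 0) :=
      tendsto_av_of_tendsto (tendsto_const_nhds.congr'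
        ((eventually_ge_atTop n0).mono fun n hn => (if_neg (not_lt.2 hn)).symm))
    have t2 := (tendsto_finsetSum P fun q hq =>
      tw_atomless ha hmo σ h0 (mem_filter.1 hq).2).const_mul (K / η ^ 2)
    have t3 := (tendsto_av_const (ε / 2)).add (t1.add t2)
    simp only [sum_const_zero, mul_zero, add_zero] at t3
    filter_upwards [t3.eventually (gt_mem_nhds (half_lt_self hε))] with N hN
    refine ((norm_av_le_av D N).trans ((av_mono fun n _ => hw n).trans_eq ?_)).trans_lt hN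
    rw [av_add, av_add, av_rmul, av_sum]
  have h3 := h2.add h1
  rw [zero_add] at h3
  refine h3.congr fun N => ?_
  rw [hD, av_sub]
  exact sub_add_cancel _ _

theorem je_tail (hS : MeasurePreserving S μ μ) (hmo : Monotone a) (hG : Gap a) (hm : m ≤ m0)
    (H : ∀ (k : ℕ) (ξ : X → Fin k), Measurable[m] ξ → JE μ S a (tail S ξ)) : JE μ S a m := by
  classical
  intro J g C hg
  refine tw_indep_appr hS (P := fun u => ∃ (p : Σ k : ℕ, (X → Fin k) × (Fin k → ℂ)),
    Measurable[m] p.2.1 ∧ u = fun x => p.2.2 (p.2.1 x)) (fun g C hg => ?_) fun j hj =>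
      ⟨(hg j hj).1, tw_appr_one fun ε hε => ?_⟩
  · have : Nonempty (Σ k : ℕ, (X → Fin k) × (Fin k → ℂ)) := ⟨⟨1, fun _ => 0, fun _ => 0⟩⟩
    choose! p h1 h2 using fun j hj => (hg j hj).2
    let e := Fintype.equivFin ((j : J) → Fin (p j).1)
    have h3 : Measurable[m] fun x => e fun j : J => (p j).2.1 x := by
      let := m
      exact (measurable_of_countable e).comp (measurable_pi_lambda _ fun j => h1 j j.2)
    have h4 := indep_of_tail hS (h3.mono hm le_rfl) hmo hG (H _ _ h3) J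
      fun j w => if hj : j ∈ J then (p j).2.2 (e.symm w ⟨j, hj⟩) else 0
    refine tw_indep_congr hS (fun j hj => Eventually.of_forall fun x => ?_) h4
    simp only [dif_pos hj, Equiv.symm_apply_apply]
    rw [h2 j hj]
  · obtain ⟨k, ξ, ψ, h1, h2⟩ := tw_simple hm (hg j hj).1 (hg j hj).2 hε
    exact ⟨_, _, thmb_bd (h1.mono hm le_rfl) ψ, ⟨⟨k, ξ, ψ⟩, h1, rfl⟩, h2⟩

omit [IsProbabilityMeasure μ] in
theorem tw_bd_ind {s : Set X} (hs : MeasurableSet s) (c : ℂ) :
    Bd μ ‖c‖ (s.indicator fun _ => c) :=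
  ⟨aestronglyMeasurable_const.indicator hs, Eventually.of_forall fun x =>
    norm_indicator_le_norm_self (fun _ => c) x⟩

theorem je_lim (hS : MeasurePreserving S μ μ) {A : Set (MeasurableSpace X)} (hA : A.Nonempty)
    (hd : DirectedOn (· ≤ ·) A) (hle : ∀ m ∈ A, m ≤ m0) (H : ∀ m ∈ A, JE μ S a m) :
    JE μ S a (sSup A) := by
  classical
  have hm : sSup A ≤ m0 := sSup_le hle
  intro J g C hg
  refine tw_indep_appr hS (P := fun u => ∃ (s : Set X) (c : ℂ), MeasurableSet[sSup A] s ∧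
    u = s.indicator fun _ => c) (fun g C hg => ?_) fun j hj => ⟨(hg j hj).1, fun ε hε => ?_⟩
  · refine tw_indep_appr hS (P := fun u => ∃ m ∈ A, AEStronglyMeasurable[m] u μ)
      (fun g C hg => ?_) fun j hj => ⟨(hg j hj).1, tw_appr_one fun ε hε => ?_⟩
    · have h1 : ∀ R : Finset ℕ, R ⊆ J → ∃ m ∈ A, ∀ j ∈ R, AEStronglyMeasurable[m] (g j) μ := by
        intro R
        induction R using Finset.induction_on with
        | empty => exact fun _ => hA.imp fun m hm => ⟨hm, by simp⟩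
        | insert i R _ ih =>
          intro hR
          obtain ⟨m1, a1, b1⟩ := ih fun j hj => hR (mem_insert_of_mem hj)
          obtain ⟨m2, a2, b2⟩ := (hg i (hR (mem_insert_self _ _))).2
          obtain ⟨m3, a3, b3, b4⟩ := hd m1 a1 m2 a2
          refine ⟨m3, a3, fun j hj => ?_⟩
          rcases mem_insert.1 hj with rfl | hj
          · exact b2.mono b4
          · exact (b1 j hj).mono b3
      obtain ⟨m1, a1, b1⟩ := h1 J subset_rfl
      exact H m1 a1 J g C fun j hj => ⟨(hg j hj).1, b1 j hj⟩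
    · obtain ⟨s, c, hs, e⟩ := (hg j hj).2
      have hring : IsSetRing {t : Set X | ∃ m ∈ A, MeasurableSet[m] t} := by
        refine ⟨hA.imp fun m hm => ⟨hm, @MeasurableSet.empty X m⟩, ?_, ?_⟩
        · rintro s t ⟨m1, a1, b1⟩ ⟨m2, a2, b2⟩
          obtain ⟨m3, a3, b3, b4⟩ := hd m1 a1 m2 a2
          exact ⟨m3, a3, (b3 _ b1).union (b4 _ b2)⟩
        · rintro s t ⟨m1, a1, b1⟩ ⟨m2, a2, b2⟩
          obtain ⟨m3, a3, b3, b4⟩ := hd m1 a1 m2 a2
          exact ⟨m3, a3, (b3 _ b1).diff (b4 _ b2)⟩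
      have hη : 0 < ε ^ 2 / (‖c‖ ^ 2 + 1) := by positivity
      obtain ⟨t, ht', ht⟩ := @exists_measure_symmDiff_lt_of_generateFrom_isSetRing X
        (sSup A) (μ.trim hm) _ _ hring
        ⟨{Set.univ}, Set.countable_singleton _, Set.singleton_subset_iff.2
          (hA.imp fun m hm => ⟨hm, @MeasurableSet.univ X m⟩), by simp⟩
        (MeasurableSpace.ext fun s => MeasurableSpace.measurableSet_sSup) s hs
        (ENNReal.ofReal (ε ^ 2 / (‖c‖ ^ 2 + 1))) (ENNReal.ofReal_pos.2 hη)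
      have ht0 : MeasurableSet[m0] t := ht'.elim fun m1 h => hle m1 h.1 _ h.2
      have hs0 : MeasurableSet[m0] s := hm _ hs
      have ht1 : μ.real (symmDiff t s) ≤ ε ^ 2 / (‖c‖ ^ 2 + 1) :=
        ENNReal.toReal_le_of_le_ofReal hη.le ((le_trim hm).trans ht.le)
      refine ⟨t.indicator fun _ => c, _, tw_bd_ind ht0 c, ht'.imp fun m1 h => ⟨h.1,
        (stronglyMeasurable_const.indicator h.2).aestronglyMeasurable⟩, ?_⟩
      refine (pow_le_pow_iff_left₀ (norm_nonneg _) hε.le two_ne_zero).1 ?_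
      have q1 := tw_bd_ind (m0 := m0) (μ := μ) hs0 c
      have q2 := tw_bd_ind (m0 := m0) (μ := μ) ht0 c
      rw [e, ← L2_sub q1.memLp q2.memLp, norm_L2_sq (q1.sub q2).memLp]
      have e1 : (fun x => ‖s.indicator (fun _ => c) x - t.indicator (fun _ => c) x‖ ^ 2) =
          (symmDiff t s).indicator fun _ => ‖c‖ ^ 2 := by
        funext x
        by_cases h1 : x ∈ s <;> by_cases h2 : x ∈ t <;> simp [Set.indicator, Set.mem_symmDiff, h1, h2]
      rw [e1, integral_indicator (ht0.symmDiff hs0), setIntegral_const, smul_eq_mul]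
      calc _ ≤ ε ^ 2 / (‖c‖ ^ 2 + 1) * (‖c‖ ^ 2 + 1) :=
            mul_le_mul ht1 (by linarith) (sq_nonneg _) hη.le
        _ = ε ^ 2 := by field_simp
  · obtain ⟨k, ξ, ψ, h1, h2⟩ := tw_simple hm (hg j hj).1 (hg j hj).2 hε
    refine ⟨k, fun i => (ξ ⁻¹' {i}).indicator fun _ => ψ i, ∑ i, ‖ψ i‖, fun i =>
      ⟨(tw_bd_ind (hm _ (h1 (measurableSet_singleton i))) _).mono
        (single_le_sum (f := fun i => ‖ψ i‖) (fun _ _ => norm_nonneg _) (mem_univ i)),
        _, _, h1 (measurableSet_singleton i), rfl⟩, h2.trans_eq' ?_⟩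
    congr 3
    funext x
    simp [Set.indicator]

theorem tower_je (hS : Ergodic S μ) (ha : Weyl a) (hmo : Monotone a) (hG : Gap a)
    (h : Tower μ S m) : m ≤ m0 ∧ JE μ S a m := by
  have hS' := hS.toMeasurePreserving
  induction h with
  | bot => exact ⟨bot_le, je_bot hS ha⟩
  | ext m m' _ h2 h3 h4 h5 ih => exact ⟨h3, je_ext (m0 := m0) hS ha hmo ih.1 ih.2 h2 h3 h4 h5⟩
  | mix m m' _ h2 h3 ih => exact ⟨h2, je_mix (m0 := m0) hS' ha hmo hG ih.1 ih.2 h3⟩
  | tail m' h1 _ ih => exact ⟨h1, je_tail (m0 := m0) hS' hmo hG h1 fun k ξ hξ => (ih k ξ hξ).2⟩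
  | lim A h1 h2 _ ih => exact ⟨sSup_le fun m hm => (ih m hm).1,
      je_lim hS' h1 h2 (fun m hm => (ih m hm).1) fun m hm => (ih m hm).2⟩

theorem thmC {T : X → X} (hT : MeasurePreserving T μ μ) (hZ : ZeroEnt μ T) (hS : Ergodic S μ)
    (hm : m ≤ m0) (hJE : JE μ S a m) {f g : X → ℂ} (hf : MemLp f ⊤ μ) (hg : MemLp g ⊤ μ)
    (hgm : AEStronglyMeasurable[m] g μ) : Conv μ T S a f g := by
  have hS' : MeasurePreserving S μ μ := hS.toMeasurePreserving
  obtain ⟨C, _, hfC⟩ := exists_Bd hf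
  obtain ⟨D, _, hgD⟩ := exists_Bd hg
  refine conv_of_null hT hS' (hfC.mono (le_max_left C D)) (hgD.mono (le_max_right C D)) ?_
  have hg0 : Bd μ (D + D) fun x => g x - (μ[g | MeasurableSpace.invariants S]) x :=
    hgD.sub hgD.condExp
  have hm0 : ∫ x, (g x - (μ[g | MeasurableSpace.invariants S]) x) ∂μ = 0 := by
    rw [integral_sub hgD.integrable integrable_condExp,
      integral_condExp (MeasurableSpace.invariants_le S), sub_self]
  have hg1 : AEStronglyMeasurable[m] (fun x => g x - (μ[g | MeasurableSpace.invariants S]) x) μ :=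
    hgm.sub (aestronglyMeasurable_const.congr (condExp_ergodic hS hgD.integrable).symm)
  refine thmb_null_left hT hS' hg0 hfC.memLp fun ε hε => ?_
  obtain ⟨k, ζ, φ, h1, h2, h3⟩ := thmb_simple hfC.memLp hε
  refine ⟨_, h2, h3, thmb_null_right hT hS' (thmb_bd h1 φ) hg0.memLp fun δ hδ => ?_⟩
  obtain ⟨k', ξ, ψ, h4, h6⟩ := tw_simple hm hg0 hg1 (half_pos hδ)
  have h5 : Measurable ξ := h4.mono hm le_rfl
  have h7 := thmb_bd (μ := μ) h5 ψ
  set c := ∫ x, ψ (ξ x) ∂μ with hc
  have hcm : MemLp (fun _ : X => c) 2 μ := (Bd.const c).memLp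
  refine ⟨fun x => ψ (ξ x) - c, (h7.sub (Bd.const c)).memLp, ?_,
    block hT hS' hZ h1 φ h5 (fun i => ψ i - c) ?_ fun J ψ' => ?_⟩
  · have e1 : ‖c‖ ≤ δ / 2 := by
      have e2 := norm_integral_le_L2 (hg0.sub h7).memLp
      rw [integral_sub hg0.integrable h7.integrable, hm0, zero_sub,
        norm_neg, L2_sub hg0.memLp h7.memLp] at e2
      exact e2.trans h6
    have e3 := (Bd.const (μ := μ) c).norm_L2
    rw [L2_sub h7.memLp hcm, sub_sub_eq_add_sub, add_sub_right_comm]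
    refine (norm_add_le _ _).trans ?_
    linarith
  · rw [integral_sub h7.integrable (integrable_const c)]
    simp [← hc]
  · obtain ⟨E, -, hE⟩ := tw_unif (μ := μ) J (g := fun j x => ψ' j (ξ x))
      fun j _ => ⟨_, thmb_bd h5 (ψ' j)⟩
    exact hJE J _ E fun j hj => ⟨hE j hj,
      ((measurable_of_countable (ψ' j)).comp h4).stronglyMeasurable.aestronglyMeasurable⟩

end Pool.Agent.Lib.MP_1db5af_an
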