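import Pool.Agent.Lib.MP_1db5af_an.TwWiener

set_option autoImplicit false

namespace Pool.Agent.Lib.MP_1db5af_an

open MeasureTheory Filter Topology ComplexConjugate Finset InnerProductSpace

/-- A finite family that is orthonormal over `m` and whose module is invariant. -/
structure Blk {X : Type*} {m0 : MeasurableSpace X} (μ : Measure X) (S : X → X)
    (m : MeasurableSpace X) {r : ℕ} (φ : Fin r → X → ℂ) (B : ℝ) : Prop where
  bd : ∀ i, @Bd X m0 μ B (φ i)
  orth : ∀ i j, μ[fun x => φ i x * conj (φ j x) | m] =ᵐ[μ] fun _ => if i = j then 1 else 0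
  inv : ∃ (U : Fin r → Fin r → X → ℂ) (D : ℝ),
    (∀ i j, @Bd X m0 μ D (U i j) ∧ AEStronglyMeasurable[m] (U i j) μ) ∧
    ∀ i, (fun x => φ i (S x)) =ᵐ[μ] fun x => ∑ j, U i j x * φ j x

/-- Membership in the module generated by `φ`. -/
def InMod {X : Type*} {m0 : MeasurableSpace X} (μ : Measure X) (m : MeasurableSpace X) {r : ℕ}
    (φ : Fin r → X → ℂ) (g : X → ℂ) : Prop :=
  ∃ (h : Fin r → X → ℂ) (D : ℝ), (∀ i, @Bd X m0 μ D (h i) ∧ AEStronglyMeasurable[m] (h i) μ) ∧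
    g =ᵐ[μ] fun x => ∑ i, h i x * φ i x

variable {X : Type*} {m : MeasurableSpace X} [m0 : MeasurableSpace X] {μ : Measure X}
  [IsProbabilityMeasure μ] {S : X → X} {a : ℕ → ℕ} {C B : ℝ} {r : ℕ} {φ : Fin r → X → ℂ}

theorem tw_int_condExp (hm : m ≤ m0) {k F : X → ℂ} {D E : ℝ} (hk : Bd μ D k)
    (hkm : AEStronglyMeasurable[m] k μ) (hF : Bd μ E F) :
    ∫ x, k x * F x ∂μ = ∫ x, k x * (μ[F | m]) x ∂μ := by
  have h := condExp_bilin_of_aestronglyMeasurable_left (ContinuousLinearMap.mul ℝ ℂ) (m := m) hkm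
    (hk.mul hF).integrable hF.integrable
  rw [← integral_condExp hm]
  exact integral_congr_ae h

omit [IsProbabilityMeasure μ] in
theorem tw_aesm_conj {k : X → ℂ} (hkm : AEStronglyMeasurable[m] k μ) :
    AEStronglyMeasurable[m] (fun x => conj (k x)) μ :=
  Complex.continuous_conj.comp_aestronglyMeasurable hkm

theorem Blk.int (hm : m ≤ m0) (hφ : Blk μ S m φ B) {k : X → ℂ} {D : ℝ} (hk : Bd μ D k)
    (hkm : AEStronglyMeasurable[m] k μ) (i j : Fin r) :
    ∫ x, k x * (φ i x * conj (φ j x)) ∂μ = if i = j then ∫ x, k x ∂μ else 0 := by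
  rw [tw_int_condExp hm hk hkm ((hφ.bd i).mul (hφ.bd j).star)]
  have : (fun x => k x * (μ[fun x => φ i x * conj (φ j x) | m]) x) =ᵐ[μ]
      fun x => if i = j then k x else 0 := by
    filter_upwards [hφ.orth i j] with x hx
    rw [hx]; simp
  rw [integral_congr_ae this]
  split_ifs <;> simp

theorem Blk.inner (hm : m ≤ m0) (hφ : Blk μ S m φ B) {h h' : Fin r → X → ℂ} {D D' : ℝ}
    (hh : ∀ i, Bd μ D (h i) ∧ AEStronglyMeasurable[m] (h i) μ)
    (hh' : ∀ i, Bd μ D' (h' i) ∧ AEStronglyMeasurable[m] (h' i) μ) :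
    ∫ x, (∑ i, h i x * φ i x) * conj (∑ i, h' i x * φ i x) ∂μ =
      ∑ i, ∫ x, h i x * conj (h' i x) ∂μ := by
  have e : ∀ x, (∑ i, h i x * φ i x) * conj (∑ i, h' i x * φ i x) =
      ∑ i, ∑ j, h i x * conj (h' j x) * (φ i x * conj (φ j x)) := fun x => by
    rw [map_sum, sum_mul_sum]
    refine sum_congr rfl fun i _ => sum_congr rfl fun j _ => ?_
    rw [map_mul]; ring
  have hi : ∀ i j, Integrable (fun x => h i x * conj (h' j x) * (φ i x * conj (φ j x))) μ :=
    fun i j => (((hh i).1.mul (hh' j).1.star).mul ((hφ.bd i).mul (hφ.bd j).star)).integrable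
  simp only [e]
  rw [integral_finsetSum _ fun i _ => integrable_finsetSum _ fun j _ => hi i j]
  refine sum_congr rfl fun i _ => ?_
  rw [integral_finsetSum _ fun j _ => hi i j,
    sum_congr rfl fun j _ => hφ.int hm ((hh i).1.mul (hh' j).1.star)
      ((hh i).2.mul (tw_aesm_conj (hh' j).2)) i j]
  simp

omit [IsProbabilityMeasure μ] in
theorem tw_aesm_sum {ι : Type*} (I : Finset ι) {f : ι → X → ℂ}
    (h : ∀ i ∈ I, AEStronglyMeasurable[m] (f i) μ) :
    AEStronglyMeasurable[m] (fun x => ∑ i ∈ I, f i x) μ := by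
  classical
  induction I using Finset.induction_on with
  | empty => simpa using aestronglyMeasurable_const
  | insert i I hi ih =>
    simp only [sum_insert hi]
    exact (h i (mem_insert_self _ _)).add (ih fun j hj => h j (mem_insert_of_mem hj))

omit [IsProbabilityMeasure μ] in
theorem InMod.congr {g g' : X → ℂ} (h : InMod μ m φ g) (e : g' =ᵐ[μ] g) : InMod μ m φ g' := by
  obtain ⟨k, D, h1, h2⟩ := h
  exact ⟨k, D, h1, e.trans h2⟩

omit [IsProbabilityMeasure μ] in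
theorem InMod.add {g g' : X → ℂ} (h : InMod μ m φ g) (h' : InMod μ m φ g') :
    InMod μ m φ fun x => g x + g' x := by
  obtain ⟨k, D, h1, h2⟩ := h
  obtain ⟨k', D', h1', h2'⟩ := h'
  refine ⟨fun i x => k i x + k' i x, D + D',
    fun i => ⟨(h1 i).1.add (h1' i).1, (h1 i).2.add (h1' i).2⟩, ?_⟩
  filter_upwards [h2, h2'] with x e1 e2
  rw [e1, e2, ← sum_add_distrib]
  exact sum_congr rfl fun i _ => by ring

omit [IsProbabilityMeasure μ] in
theorem InMod.smul {g : X → ℂ} (h : InMod μ m φ g) (c : ℂ) : InMod μ m φ fun x => c * g x := by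
  obtain ⟨k, D, h1, h2⟩ := h
  refine ⟨fun i x => c * k i x, ‖c‖ * D,
    fun i => ⟨(Bd.const c).mul (h1 i).1, (h1 i).2.const_mul c⟩, ?_⟩
  filter_upwards [h2] with x e1
  rw [e1, mul_sum]
  exact sum_congr rfl fun i _ => by ring

omit [IsProbabilityMeasure μ] in
theorem InMod.sub {g g' : X → ℂ} (h : InMod μ m φ g) (h' : InMod μ m φ g') :
    InMod μ m φ fun x => g x - g' x :=
  (h.add (h'.smul (-1))).congr (Eventually.of_forall fun x => by ring)

omit [IsProbabilityMeasure μ] in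
theorem InMod.sum {ι : Type*} (I : Finset ι) {g : ι → X → ℂ} (h : ∀ i ∈ I, InMod μ m φ (g i)) :
    InMod μ m φ fun x => ∑ i ∈ I, g i x := by
  classical
  induction I using Finset.induction_on with
  | empty =>
    exact ⟨fun _ _ => 0, ‖(0 : ℂ)‖, fun _ => ⟨Bd.const 0, aestronglyMeasurable_const⟩, by simp⟩
  | insert i I hi ih =>
    simp only [sum_insert hi]
    exact (h i (mem_insert_self _ _)).add (ih fun j hj => h j (mem_insert_of_mem hj))

theorem InMod.comp (hS : MeasurePreserving S μ μ) (hSm : Measurable[m, m] S)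
    (hφ : Blk μ S m φ B) {g : X → ℂ} (h : InMod μ m φ g) : InMod μ m φ fun x => g (S x) := by
  obtain ⟨k, D, h1, h2⟩ := h
  obtain ⟨U, E, h3, h4⟩ := hφ.inv
  refine ⟨fun j x => ∑ i, k i (S x) * U i j x, ∑ _i : Fin r, D * E, fun j =>
    ⟨Bd.sum _ fun i _ => ((h1 i).1.comp hS).mul (h3 i j).1,
      tw_aesm_sum _ fun i _ => (aesm_iter hS hSm (h1 i).2 1).mul (h3 i j).2⟩, ?_⟩
  filter_upwards [hS.quasiMeasurePreserving.ae h2, ae_all_iff.2 h4] with x e1 e2
  rw [e1]
  simp only [e2, mul_sum, sum_mul]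
  rw [sum_comm]
  exact sum_congr rfl fun j _ => sum_congr rfl fun i _ => by ring

theorem InMod.iter (hS : MeasurePreserving S μ μ) (hSm : Measurable[m, m] S)
    (hφ : Blk μ S m φ B) {g : X → ℂ} (h : InMod μ m φ g) (n : ℕ) :
    InMod μ m φ fun x => g (S^[n] x) := by
  induction n with
  | zero => exact h
  | succ n ih => exact ih.comp hS hSm hφ

omit [IsProbabilityMeasure μ] in
theorem InMod.bd (hφ : Blk μ S m φ B) {g : X → ℂ} (h : InMod μ m φ g) : ∃ D, Bd μ D g := by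
  obtain ⟨k, D, h1, h2⟩ := h
  exact ⟨_, (Bd.sum univ fun i _ => (h1 i).1.mul (hφ.bd i)).congr h2.symm⟩

theorem InMod.closed (hm : m ≤ m0) (hφ : Blk μ S m φ B) {g : ℕ → X → ℂ}
    (h : ∀ n, InMod μ m φ (g n)) {p : X → ℂ} (hp : Bd μ C p)
    (hl : Tendsto (fun n => L2 μ (g n)) atTop (𝓝 (L2 μ p))) : InMod μ m φ p := by
  set k : Fin r → X → ℂ := fun i => μ[fun x => p x * conj (φ i x) | m] with hk
  have h1 : ∀ i, Bd μ (C * B) (k i) ∧ AEStronglyMeasurable[m] (k i) μ := fun i =>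
    ⟨(hp.mul (hφ.bd i).star).condExp, stronglyMeasurable_condExp.aestronglyMeasurable⟩
  have hq : Bd μ (∑ _i : Fin r, C * B * B) fun x => ∑ i, k i x * φ i x :=
    Bd.sum univ fun i _ => (h1 i).1.mul (hφ.bd i)
  have h2 : ∀ w, InMod μ m φ w →
      ⟪L2 μ w, L2 μ p - L2 μ fun x => ∑ i, k i x * φ i x⟫_ℂ = 0 := by
    intro w hw
    obtain ⟨u, D, h3, h4⟩ := hw
    have hw : Bd μ (∑ _i : Fin r, D * B) fun x => ∑ i, u i x * φ i x :=
      Bd.sum univ fun i _ => (h3 i).1.mul (hφ.bd i)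
    rw [L2_congr h4, inner_sub_right, inner_L2 hw.memLp hp.memLp, inner_L2 hw.memLp hq.memLp,
      hφ.inner hm h1 h3, sub_eq_zero]
    have e : ∀ x, p x * conj (∑ i, u i x * φ i x) = ∑ i, conj (u i x) * (p x * conj (φ i x)) :=
      fun x => by
        rw [map_sum, mul_sum]
        exact sum_congr rfl fun i _ => by rw [map_mul]; ring
    simp only [e]
    rw [integral_finsetSum _ fun i _ => ((h3 i).1.star.mul (hp.mul (hφ.bd i).star)).integrable]
    refine sum_congr rfl fun i _ => ?_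
    rw [tw_int_condExp hm (h3 i).1.star (tw_aesm_conj (h3 i).2) (hp.mul (hφ.bd i).star)]
    exact integral_congr_ae (Eventually.of_forall fun x => mul_comm _ _)
  have h3 : ⟪L2 μ p, L2 μ p - L2 μ fun x => ∑ i, k i x * φ i x⟫_ℂ = 0 := by
    have e := Tendsto.inner (𝕜 := ℂ) hl
      (tendsto_const_nhds (x := L2 μ p - L2 μ fun x => ∑ i, k i x * φ i x))
    simp only [h2 _ (h _)] at e
    exact tendsto_nhds_unique e tendsto_const_nhds
  have h4 := h2 _ ⟨k, _, h1, EventuallyEq.rfl⟩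
  have h5 : L2 μ p = L2 μ fun x => ∑ i, k i x * φ i x := by
    rw [← sub_eq_zero, ← inner_self_eq_zero (𝕜 := ℂ), inner_sub_left, h3, h4, sub_zero]
  refine ⟨k, _, h1, (L2_coe hp.memLp).symm.trans ?_⟩
  rw [h5]
  exact L2_coe hq.memLp

theorem tw_eigen_mod (hS : MeasurePreserving S μ μ) (hm : m ≤ m0) (hSm : Measurable[m, m] S)
    (hφ : Blk μ S m φ B) {g : X → ℂ} (hg : Bd μ C g) (h : InMod μ m φ g) (θ : UnitAddCircle) :
    ∃ p : X → ℂ, Bd μ C p ∧ InMod μ m φ p ∧
      (fun x => p (S x)) =ᵐ[μ] (fun x => fourier 1 θ * p x) ∧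
      ∀ (σ : Measure UnitAddCircle) [IsFiniteMeasure σ], IsSpec (Kp hS) (L2 μ g) σ →
        IsSpec (Kp hS) (L2 μ fun x => g x - p x) (σ.restrict {θ}ᶜ) := by
  obtain ⟨p, h1, -, h3, h4⟩ := eigen_proj hS le_rfl hS.measurable hg hg.1 θ
  refine ⟨p, h1, InMod.closed hm hφ (fun M => ?_) h1 h4, h3, fun σ _ hσ => ?_⟩
  · refine ((InMod.sum (range M) fun l _ =>
      (h.iter hS hSm hφ l).smul (conj (fourier l θ))).smul ((M : ℝ)⁻¹ : ℝ)).congr ?_
    exact Eventually.of_forall fun x => by simp only [av, Complex.real_smul]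
  · rw [L2_sub hg.memLp h1.memLp]
    refine tw_remove hσ ?_ (h4.congr fun M => ?_)
    · rw [Kp_L2 hS h1.memLp, L2_congr h3, L2_mul _ h1.memLp]
    · rw [L2_av fun l => ((Bd.const _).mul (hg.iter hS l)).memLp]
      congr 1
      funext l
      rw [L2_mul _ (hg.iter hS l).memLp, Kp_iter hS hg.memLp]

end Pool.Agent.Lib.MP_1db5af_an
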