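import Pool.Agent.Lib.MP_1db5af_an.TwMain

set_option autoImplicit false

namespace Pool.Agent.Lib.MP_1db5af_an

open MeasureTheory Filter Topology

/-- Singular tails give a tower: the earlier hand-in on singular tails is a special case. -/
theorem tower_of_singular {X : Type*} [m0 : MeasurableSpace X] {μ : Measure X} {S : X → X}
    (hS : Measurable S)
    (hsing : ∀ (k : ℕ) (ξ : X → Fin k), Measurable ξ → ∀ h : X → ℂ,
      Measurable[tail S ξ] h → MemLp h ⊤ μ → SingVec μ S h) : Tower μ S m0 := by
  refine Tower.tail m0 le_rfl fun k ξ hξ => Tower.ext ⊥ _ Tower.bot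
    (fun s hs => ?_) ?_ ?_ fun g h1 h2 ε hε => ⟨1, fun _ => g, fun _ =>
      ⟨h1, h2, Or.inr (hsing k ξ hξ g h1 h2)⟩, by simp⟩
  · rcases MeasurableSpace.measurableSet_bot_iff.1 hs with rfl | rfl
    · exact @MeasurableSet.empty X ⊥
    · exact @MeasurableSet.univ X ⊥
  · exact (iInf_le _ 0).trans (iSup_le fun j => iSup_le fun _ =>
      (hξ.comp (hS.iterate j)).comap_le)
  · refine Measurable.of_comap_le (le_iInf fun n => ?_)
    refine (MeasurableSpace.comap_mono (iInf_le _ n)).trans ?_
    simp only [MeasurableSpace.comap_iSup, MeasurableSpace.comap_comp]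
    exact iSup_le fun j => iSup_le fun hj =>
      le_iSup_of_le (j + 1) (le_iSup_of_le (Nat.le_succ_of_le hj) le_rfl)

end Pool.Agent.Lib.MP_1db5af_an
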