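import Pool.Agent.Lib.MP_1db5af_an.TwBase

set_option autoImplicit false

namespace Pool.Agent.Lib.MP_1db5af_an

open MeasureTheory Filter Topology ComplexConjugate Finset InnerProductSpace

theorem tw_av_fourier (x : UnitAddCircle) :
    Tendsto (av fun l : ℕ => fourier l x) atTop (𝓝 (if x = 0 then 1 else 0)) := by
  split_ifs with h
  · subst h
    simp only [fourier_eval_zero]
    exact tendsto_av_const _
  · exact hostabs_geom h

theorem tw_atom (σ : Measure UnitAddCircle) [IsFiniteMeasure σ] (θ : UnitAddCircle) :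
    Tendsto (av fun l : ℕ => conj (fourier l θ) * ∫ t, fourier l t ∂σ) atTop
      (𝓝 ((σ.real {θ} : ℝ) : ℂ)) := by
  have e1 : ∀ (l : ℕ) (t : UnitAddCircle),
      conj (fourier l θ) * fourier l t = fourier l (t - θ) := fun l t => by
    rw [sub_eq_add_neg, spec_fourier_arg_add, spec_fourier_arg_neg, fourier_neg, mul_comm]
  have hint : ∀ l : ℕ, Integrable (fun t : UnitAddCircle => fourier l (t - θ)) σ := fun l =>
    Integrable.of_bound (by fun_prop) 1 (Eventually.of_forall fun t => (norm_fourier _ _).le)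
  have e2 : ∀ N, av (fun l : ℕ => conj (fourier l θ) * ∫ t, fourier l t ∂σ) N =
      ∫ t, av (fun l : ℕ => fourier l (t - θ)) N ∂σ := fun N => by
    simp only [← integral_const_mul, e1, av]
    rw [integral_smul, integral_finsetSum _ fun l _ => hint l]
  have h1 : Tendsto (fun N => ∫ t, av (fun l : ℕ => fourier l (t - θ)) N ∂σ) atTop
      (𝓝 (∫ t, ({θ} : Set UnitAddCircle).indicator (fun _ => (1 : ℂ)) t ∂σ)) := by
    refine tendsto_integral_of_dominated_convergence (fun _ => 1) (fun N => ?_) (integrable_const _)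
      (fun N => Eventually.of_forall fun t => ?_) (Eventually.of_forall fun t => ?_)
    · refine Continuous.aestronglyMeasurable ?_
      unfold av; fun_prop
    · exact norm_av_le (fun l => (norm_fourier _ _).le) N
    · have := tw_av_fourier (t - θ)
      simpa only [sub_eq_zero, Set.indicator_apply, Set.mem_singleton_iff] using this
  rw [integral_indicator (measurableSet_singleton θ), setIntegral_const, Complex.real_smul,
    mul_one] at h1
  exact h1.congr fun N => (e2 N).symm

theorem tw_remove {H : Type*} [NormedAddCommGroup H] [InnerProductSpace ℂ H] {U : H →ₗᵢ[ℂ] H}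
    {v p : H} {σ : Measure UnitAddCircle} [IsFiniteMeasure σ] (h : IsSpec U v σ)
    {θ : UnitAddCircle} (hp : U p = fourier 1 θ • p)
    (hl : Tendsto (av fun l : ℕ => conj (fourier l θ) • U^[l] v) atTop (𝓝 p)) :
    IsSpec U (v - p) (σ.restrict {θ}ᶜ) := by
  have h1 : ∀ n : ℕ, U^[n] p = fourier n θ • p := fun n => by
    induction n with
    | zero => simp
    | succ n ih =>
      rw [Function.iterate_succ_apply', ih, map_smul, hp, smul_smul, Nat.cast_succ, fourier_add]
  have hu : ∀ n : ℕ, conj (fourier n θ) * fourier n θ = 1 := fun n => by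
    rw [mul_comm, Complex.mul_conj', norm_fourier]; simp
  have h2 : ∀ n : ℕ, ⟪p, U^[n] v⟫_ℂ = fourier n θ * ⟪p, v⟫_ℂ := fun n => by
    rw [← spec_inner_iter U n p v, h1, inner_smul_left, ← mul_assoc, mul_comm (fourier n θ), hu,
      one_mul]
  have hav : ∀ (w : H) (N : ℕ), ⟪w, av (fun l : ℕ => conj (fourier l θ) • U^[l] v) N⟫_ℂ =
      av (fun l : ℕ => conj (fourier l θ) * ⟪w, U^[l] v⟫_ℂ) N := fun w N => by
    simp only [av, ← Complex.coe_smul, inner_smul_right, inner_sum, smul_eq_mul]
  have h3 : ⟪v, p⟫_ℂ = (σ.real {θ} : ℝ) := by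
    have e1 := (Tendsto.inner (𝕜 := ℂ) (tendsto_const_nhds (x := v)) hl)
    simp only [hav, h _] at e1
    exact tendsto_nhds_unique e1 (tw_atom σ θ)
  have h4 : ⟪p, v⟫_ℂ = (σ.real {θ} : ℝ) := by
    rw [← inner_conj_symm, h3, Complex.conj_ofReal]
  have h5 : ⟪p, p⟫_ℂ = (σ.real {θ} : ℝ) := by
    have e1 := (Tendsto.inner (𝕜 := ℂ) (tendsto_const_nhds (x := p)) hl)
    simp only [hav, h2, ← mul_assoc, hu, one_mul, h4] at e1
    exact tendsto_nhds_unique e1 (tendsto_av_const _)
  intro n
  have h6 : U^[n] (v - p) = U^[n] v - U^[n] p := by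
    induction n with
    | zero => rfl
    | succ n ih => simp only [Function.iterate_succ_apply', ih, map_sub]
  have h7 := integral_add_compl (measurableSet_singleton θ) (spec_integrable σ n)
  rw [integral_singleton, Complex.real_smul] at h7
  rw [h6, inner_sub_left, inner_sub_right, inner_sub_right, h n, h1, inner_smul_right,
    inner_smul_right, h2, h3, h4, h5, ← h7]
  ring

theorem tw_wiener (σ ρ : Measure UnitAddCircle) [IsFiniteMeasure σ] [IsFiniteMeasure ρ] {ε : ℝ}
    (hε : ∀ t, σ.real {t} ≤ ε) {δ : ℝ} (hδ : 0 < δ) :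
    ∀ᶠ Λ : ℕ in atTop, ∫ p, ‖∑ l ∈ range Λ, (((Λ : ℝ)⁻¹ : ℝ) : ℂ) *
      (fourier l p.1 * fourier l p.2)‖ ^ 2 ∂(σ.prod ρ) ≤ ε * ρ.real Set.univ + δ := by
  have hm : MeasurableSet {p : UnitAddCircle × UnitAddCircle | p.1 + p.2 = 0} :=
    (isClosed_eq (by fun_prop) continuous_const).measurableSet
  have e1 : ∀ (Λ : ℕ) (p : UnitAddCircle × UnitAddCircle),
      ∑ l ∈ range Λ, (((Λ : ℝ)⁻¹ : ℝ) : ℂ) * (fourier l p.1 * fourier l p.2) =
        av (fun l : ℕ => fourier l (p.1 + p.2)) Λ := fun Λ p => by
    simp only [av, Complex.real_smul, mul_sum, spec_fourier_arg_add]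
  simp only [e1]
  have h1 : Tendsto (fun Λ => ∫ p, ‖av (fun l : ℕ => fourier l (p.1 + p.2)) Λ‖ ^ 2 ∂(σ.prod ρ))
      atTop (𝓝 (∫ p, {p : UnitAddCircle × UnitAddCircle | p.1 + p.2 = 0}.indicator
        (fun _ => (1 : ℝ)) p ∂(σ.prod ρ))) := by
    refine tendsto_integral_of_dominated_convergence (fun _ => 1) (fun N => ?_) (integrable_const _)
      (fun N => Eventually.of_forall fun p => ?_) (Eventually.of_forall fun p => ?_)
    · refine Continuous.aestronglyMeasurable ?_
      unfold av; fun_prop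
    · exact spec_av_le (fun n => n) N _
    · have := (tw_av_fourier (p.1 + p.2)).norm.pow 2
      by_cases hp : p.1 + p.2 = 0
      · rw [Set.indicator_of_mem (by exact hp)]
        simpa [hp] using this
      · rw [Set.indicator_of_notMem (by exact hp)]
        simpa [hp] using this
  rw [integral_indicator hm, setIntegral_const, smul_eq_mul, mul_one] at h1
  have h2 : (σ.prod ρ).real {p : UnitAddCircle × UnitAddCircle | p.1 + p.2 = 0} ≤
      ε * ρ.real Set.univ := by
    have h0 : 0 ≤ ε := measureReal_nonneg.trans (hε 0)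
    rw [Measure.real, Measure.prod_apply_symm hm, Measure.real, ← ENNReal.toReal_ofReal h0,
      ← ENNReal.toReal_mul, ← lintegral_const]
    refine ENNReal.toReal_mono ?_ (lintegral_mono fun y => ?_)
    · rw [lintegral_const]
      exact ENNReal.mul_ne_top ENNReal.ofReal_ne_top (measure_ne_top _ _)
    have e : (fun x => (x, y)) ⁻¹' {p : UnitAddCircle × UnitAddCircle | p.1 + p.2 = 0} = {-y} := by
      ext x
      simp [add_eq_zero_iff_eq_neg]
    beta_reduce
    rw [e, ← ofReal_measureReal]
    exact ENNReal.ofReal_le_ofReal (hε _)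
  exact (h1.eventually (gt_mem_nhds (by linarith))).mono fun _ h => le_of_lt h

theorem tw_atoms (σ : Measure UnitAddCircle) [IsFiniteMeasure σ] {ε : ℝ} (hε : 0 < ε) :
    ∃ Θ : Finset UnitAddCircle, ∀ t, (σ.restrict (↑Θ)ᶜ).real {t} ≤ ε := by
  have h1 := Measure.finite_const_le_meas_of_disjoint_iUnion σ
    (ε := ENNReal.ofReal ε) (by simpa using hε) (As := fun t : UnitAddCircle => {t})
    (fun t => measurableSet_singleton t) (fun s t h => Set.disjoint_singleton.2 h)
    (measure_ne_top _ _)
  refine ⟨h1.toFinset, fun t => ?_⟩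
  rw [measureReal_restrict_apply (measurableSet_singleton t)]
  by_cases ht : ENNReal.ofReal ε ≤ σ {t}
  · have : ({t} : Set UnitAddCircle) ∩ (↑h1.toFinset)ᶜ = ∅ := by
      ext x
      simp only [Set.mem_inter_iff, Set.mem_singleton_iff, Set.Finite.coe_toFinset,
        Set.mem_compl_iff, Set.mem_ofPred_eq, Set.mem_empty_iff_false, iff_false, not_and, not_not]
      rintro rfl
      exact ht
    rw [this]
    simpa using hε.le
  · refine (measureReal_mono Set.inter_subset_left).trans ?_
    exact ENNReal.toReal_le_of_le_ofReal hε.le (not_le.1 ht).le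

end Pool.Agent.Lib.MP_1db5af_an
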